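import Pool.Agent.Lib.LogG.GDefs

/-!
# Log-averaged cancellation at `n ^ 2 + 1`: module E.BLOCK
-/

set_option autoImplicit false

namespace Pool.Agent.LogG

open Real
open Pool.Agent.NSqP
open Pool.Agent.LogCh
open Pool.Agent.MP484c84Par (ballG mem_ballG crossG dotG)

variable {G : GaussianInt → ℝ}

private lemma blk_fg (hG : ∀ z, |G z| ≤ 1) (a a' : ℝ) (N : ℕ) (z : GaussianInt) : |fg G a a' N z| ≤ 1 := by
  unfold fg
  split_ifs
  · exact hG z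
  · rw [abs_zero]; exact zero_le_one

private lemma blk_ff (hG : ∀ z, |G z| ≤ 1) (a a' : ℝ) (N : ℕ) (p : GaussianInt × GaussianInt) :
    |fg G a a' N p.1 * fg G a a' N p.2| ≤ 1 := by
  rw [abs_mul]
  exact mul_le_one₀ (blk_fg hG a a' N p.1) (abs_nonneg _) (blk_fg hG a a' N p.2)

private lemma blk_trap_nonneg (s t w x : ℝ) : 0 ≤ trap s t w x := le_max_left _ _

private lemma blk_trap_le (s t w x : ℝ) : trap s t w x ≤ 1 :=
  max_le zero_le_one (min_le_left _ _)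

private lemma blk_trap_zero {s t w x : ℝ} (hw : 0 < w) (h : x ≤ s ∨ t ≤ x) :
    trap s t w x = 0 := by
  unfold trap
  apply max_eq_left
  refine (min_le_right _ _).trans ?_
  rcases h with h | h
  · exact (min_le_left _ _).trans (div_nonpos_of_nonpos_of_nonneg (by linarith) hw.le)
  · exact (min_le_right _ _).trans (div_nonpos_of_nonpos_of_nonneg (by linarith) hw.le)

private lemma blk_cut_nonneg (κ x : ℝ) : 0 ≤ cut κ x := le_max_left _ _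

private lemma blk_cut_le (κ x : ℝ) : cut κ x ≤ 1 := max_le zero_le_one (min_le_left _ _)

private lemma blk_cut_one {κ x : ℝ} (hκ : 0 < κ) (h : 2 * κ ≤ x) : cut κ x = 1 := by
  unfold cut
  have h1 : 1 ≤ x / κ - 1 := by
    have : 2 ≤ x / κ := (le_div_iff₀ hκ).2 h
    linarith
  rw [min_eq_left h1]
  exact max_eq_right zero_le_one

private lemma blk_cut_zero {κ x : ℝ} (hκ : 0 < κ) (h : x ≤ κ) : cut κ x = 0 := by
  unfold cut
  apply max_eq_left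
  refine (min_le_right _ _).trans ?_
  have : x / κ ≤ 1 := (div_le_one hκ).2 h
  linarith

/-- the divisor counts -/
private lemma blk_cnt {C1 C2 P : ℕ} {A : Finset ℕ} (hP : 1 ≤ P) (hA : A ⊆ QQ C1 P) :
    ∑ D ∈ Finset.Icc 1 (C2 * P), ((A.filter (fun q => q ∣ D)).card : ℝ) ≤ C2 * A.card := by
  have h1 : ∀ D ∈ Finset.Icc 1 (C2 * P), ((A.filter (fun q => q ∣ D)).card : ℝ) =
      ∑ q ∈ A, if q ∣ D then (1 : ℝ) else 0 := by
    intro D _
    rw [Finset.sum_boole]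
  rw [Finset.sum_congr rfl h1, Finset.sum_comm]
  have h2 : ∀ q ∈ A, ∑ D ∈ Finset.Icc 1 (C2 * P), (if q ∣ D then (1 : ℝ) else 0) ≤ C2 := by
    intro q hq
    have hqQ := hA hq
    unfold QQ at hqQ
    rw [Finset.mem_filter, Finset.mem_Ioc] at hqQ
    rw [Finset.sum_boole]
    have h3 : Finset.Icc 1 (C2 * P) = Finset.Ioc 0 (C2 * P) := rfl
    rw [h3, Nat.Ioc_filter_dvd_card_eq_div]
    have h4 : C2 * P / q ≤ C2 := by
      calc C2 * P / q ≤ C2 * P / P := Nat.div_le_div_left hqQ.1.1.le (by omega)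
        _ = C2 := Nat.mul_div_cancel _ (by omega)
    exact_mod_cast h4
  refine (Finset.sum_le_sum h2).trans ?_
  rw [Finset.sum_const, nsmul_eq_mul, mul_comm]

private lemma blk_small {κ : ℝ} {C2 P : ℕ} (hκ : 0 < κ) :
    ∑ D ∈ Finset.Icc 1 (C2 * P), (if (D : ℝ) ≤ 2 * κ * P then (1 : ℝ) else 0) ≤ 2 * κ * P := by
  have h0 : 0 ≤ 2 * κ * (P : ℝ) := by positivity
  rw [Finset.sum_boole]
  have h1 : (Finset.Icc 1 (C2 * P)).filter (fun D : ℕ => (D : ℝ) ≤ 2 * κ * P) ⊆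
      Finset.Icc 1 ⌊2 * κ * (P : ℝ)⌋₊ := by
    intro D hD
    rw [Finset.mem_filter, Finset.mem_Icc] at hD
    rw [Finset.mem_Icc]
    exact ⟨hD.1.1, Nat.le_floor hD.2⟩
  have h2 := Finset.card_le_card h1
  rw [Nat.card_Icc, Nat.add_sub_cancel] at h2
  exact (Nat.cast_le.2 h2).trans (Nat.floor_le h0)

private lemma blk_sum4 (I : Finset ℕ) (X Y Z c : ℝ) (i cnt : ℕ → ℝ) :
    ∑ D ∈ I, (X * (i D + cnt D) + Y * cnt D + c + Z * i D) =
      X * (∑ D ∈ I, i D + ∑ D ∈ I, cnt D) + Y * ∑ D ∈ I, cnt D + I.card * c +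
        Z * ∑ D ∈ I, i D := by
  rw [Finset.sum_add_distrib, Finset.sum_add_distrib, Finset.sum_add_distrib, ← Finset.mul_sum,
    ← Finset.mul_sum, ← Finset.mul_sum, Finset.sum_add_distrib, Finset.sum_const, nsmul_eq_mul]

/-- first part: from `TT` to the smoothed main term (abstract form) -/
private lemma blk_one {ι : Type*} (L : ℕ → Finset ι) (f : ι → ℝ) (T t l : ℕ → ι → ℝ)
    (hf : ∀ p, |f p| ≤ 1) (hT0 : ∀ D p, 0 ≤ T D p) (ht0 : ∀ D p, 0 ≤ t D p)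
    {b b' κ h w CT CS N : ℝ} {P C1 C2 : ℕ} {A : Finset ℕ}
    (hA : A ⊆ QQ C1 P) (hP : 1 ≤ P) (hN : 0 ≤ N) (hκ : 0 < κ) (hbb : b < b') (hb0 : 0 ≤ b)
    (hb1 : b' ≤ 1) (hh : 0 < h) (hCT : 0 ≤ CT) (hCS : 0 ≤ CS) (hw : 0 ≤ w)
    (HT : ∀ D ∈ Finset.Icc 1 (C2 * P), ∑ p ∈ L D, T D p ≤
      CT * (N / P * A.card ^ 2 + N * ((A.filter (fun q => q ∣ D)).card : ℝ)))
    (HA : ∀ D ∈ Finset.Icc 1 (C2 * P), κ * P ≤ (D : ℕ) → ∀ p ∈ L D,
      |T D p - trap b b' h (l D p / D) * t D p| ≤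
        (if |l D p - b * D| ≤ w * D then t D p else 0) +
        (if |l D p - b' * D| ≤ w * D then t D p else 0))
    (HS : ∀ D ∈ Finset.Icc 1 (C2 * P), (∀ q ∈ A, ¬ q ∣ D) → ∀ s : ℝ,
      ∑ p ∈ (L D).filter (fun p => |l D p - s * D| ≤ w * D), t D p ≤
        CS * w * (N / P) * A.card ^ 2)
    (HS1 : ∀ D ∈ Finset.Icc 1 (C2 * P), (∀ q ∈ A, ¬ q ∣ D) → ∀ s : ℝ,
      ∑ p ∈ (L D).filter (fun p => |l D p - s * D| ≤ 1 * D), t D p ≤
        CS * 1 * (N / P) * A.card ^ 2) :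
    |∑ D ∈ Finset.Icc 1 (C2 * P), ∑ p ∈ L D, f p * T D p -
      ∑ D ∈ (Finset.Icc 1 (C2 * P)).filter (fun D : ℕ => κ * P < (D : ℝ) ∧ ∀ q ∈ A, ¬ q ∣ D),
        ∑ p ∈ L D, f p * (cut κ ((D : ℝ) / P) * trap b b' h (l D p / D) * t D p)| ≤
      CT * (N / P) * A.card ^ 2 * (2 * κ * P + C2 * A.card) + CT * N * (C2 * A.card) +
        2 * CS * w * (N / P) * A.card ^ 2 * (C2 * P) + CS * (N / P) * A.card ^ 2 * (2 * κ * P) := by
  have hPr : (0 : ℝ) < P := by exact_mod_cast hP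
  rw [Finset.sum_filter, ← Finset.sum_sub_distrib]
  refine (Finset.abs_sum_le_sum_abs _ _).trans ?_
  have hpt : ∀ D ∈ Finset.Icc 1 (C2 * P),
      |∑ p ∈ L D, f p * T D p -
        (if κ * P < (D : ℝ) ∧ ∀ q ∈ A, ¬ q ∣ D then
          ∑ p ∈ L D, f p * (cut κ ((D : ℝ) / P) * trap b b' h (l D p / D) * t D p) else 0)| ≤
      CT * (N / P) * A.card ^ 2 * ((if (D : ℝ) ≤ 2 * κ * P then (1 : ℝ) else 0) +
          ((A.filter (fun q => q ∣ D)).card : ℝ)) +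
        CT * N * ((A.filter (fun q => q ∣ D)).card : ℝ) +
        2 * CS * w * (N / P) * A.card ^ 2 +
        CS * (N / P) * A.card ^ 2 * (if (D : ℝ) ≤ 2 * κ * P then (1 : ℝ) else 0) := by
    intro D hD
    have hD1 : 1 ≤ D := (Finset.mem_Icc.1 hD).1
    have hDr : (0 : ℝ) < D := by exact_mod_cast hD1
    have hcnt0 : (0 : ℝ) ≤ ((A.filter (fun q => q ∣ D)).card : ℝ) := Nat.cast_nonneg _
    have b1 : 0 ≤ CT * (N / P) * (A.card : ℝ) ^ 2 := by positivity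
    have b2 : 0 ≤ CT * (N : ℝ) * ((A.filter (fun q => q ∣ D)).card : ℝ) := by positivity
    have b3 : 0 ≤ 2 * CS * w * (N / P) * (A.card : ℝ) ^ 2 := by positivity
    have b4 : 0 ≤ CS * (N / P) * (A.card : ℝ) ^ 2 := by positivity
    have b5 : 0 ≤ CT * (N / P) * (A.card : ℝ) ^ 2 * ((A.filter (fun q => q ∣ D)).card : ℝ) := by
      positivity
    have hTT : |∑ p ∈ L D, f p * T D p| ≤
        CT * (N / P) * A.card ^ 2 + CT * N * ((A.filter (fun q => q ∣ D)).card : ℝ) := by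
      calc |∑ p ∈ L D, f p * T D p| ≤ ∑ p ∈ L D, |f p * T D p| := Finset.abs_sum_le_sum_abs _ _
        _ ≤ ∑ p ∈ L D, T D p := by
            refine Finset.sum_le_sum fun p _ => ?_
            rw [abs_mul, abs_of_nonneg (hT0 D p)]
            exact mul_le_of_le_one_left (hT0 D p) (hf p)
        _ ≤ _ := HT D hD
        _ = _ := by ring
    by_cases hq : ∀ q ∈ A, ¬ q ∣ D
    · have hcz : ((A.filter (fun q => q ∣ D)).card : ℝ) = 0 := by
        rw [Finset.filter_false_of_mem hq]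
        simp
      by_cases h2 : (D : ℝ) ≤ 2 * κ * P
      · rw [if_pos h2]
        have hG : |if κ * P < (D : ℝ) ∧ ∀ q ∈ A, ¬ q ∣ D then
            ∑ p ∈ L D, f p * (cut κ ((D : ℝ) / P) * trap b b' h (l D p / D) * t D p) else 0| ≤
            CS * (N / P) * A.card ^ 2 := by
          split_ifs with h3
          · refine (Finset.abs_sum_le_sum_abs _ _).trans ?_
            have h4 := HS1 D hD hq ((b + b') / 2)
            rw [Finset.sum_filter] at h4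
            refine le_trans (Finset.sum_le_sum fun p _ => ?_) (h4.trans (le_of_eq (by ring)))
            rw [abs_mul, abs_mul, abs_mul, abs_of_nonneg (ht0 D p),
              abs_of_nonneg (blk_cut_nonneg _ _), abs_of_nonneg (blk_trap_nonneg _ _ _ _)]
            have hff := hf p
            have hc1 := blk_cut_le κ ((D : ℝ) / P)
            have hc0 := blk_cut_nonneg κ ((D : ℝ) / P)
            have ht1 := blk_trap_le b b' h (l D p / D)
            have ht2 := blk_trap_nonneg b b' h (l D p / D)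
            have ht3 := ht0 D p
            have hprod : |f p| * (cut κ ((D : ℝ) / P) * trap b b' h (l D p / D) * t D p) ≤
                trap b b' h (l D p / D) * t D p := by
              have m1 : cut κ ((D : ℝ) / P) * trap b b' h (l D p / D) * t D p ≤
                  trap b b' h (l D p / D) * t D p := by
                rw [mul_assoc]
                exact mul_le_of_le_one_left (by positivity) hc1
              refine le_trans ?_ m1
              exact mul_le_of_le_one_left (by positivity) hff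
            refine hprod.trans ?_
            split_ifs with h5
            · exact mul_le_of_le_one_left ht3 ht1
            · rw [blk_trap_zero hh, zero_mul]
              by_contra h6
              push Not at h6
              apply h5
              have h7 : b * D < l D p := (lt_div_iff₀ hDr).1 h6.1
              have h8 : l D p < b' * D := (div_lt_iff₀ hDr).1 h6.2
              rw [abs_le]
              constructor
              · nlinarith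
              · nlinarith
          · rw [abs_zero]
            positivity
        refine (abs_sub _ _).trans ?_
        rw [hcz] at hTT ⊢
        linarith
      · rw [if_neg h2]
        have h3 : κ * P < (D : ℝ) := by
          have : 2 * κ * (P : ℝ) < D := not_le.1 h2
          have h4 : 0 < κ * (P : ℝ) := by positivity
          linarith
        rw [if_pos ⟨h3, hq⟩, ← Finset.sum_sub_distrib]
        have hc : cut κ ((D : ℝ) / P) = 1 := by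
          apply blk_cut_one hκ
          rw [le_div_iff₀ hPr]
          exact (not_le.1 h2).le
        refine (Finset.abs_sum_le_sum_abs _ _).trans ?_
        have h4 : ∑ p ∈ L D, |f p * T D p -
            f p * (cut κ ((D : ℝ) / P) * trap b b' h (l D p / D) * t D p)| ≤
            ∑ p ∈ L D, ((if |l D p - b * D| ≤ w * D then t D p else 0) +
              (if |l D p - b' * D| ≤ w * D then t D p else 0)) := by
          refine Finset.sum_le_sum fun p hp => ?_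
          rw [hc, one_mul, ← mul_sub, abs_mul]
          refine le_trans ?_ (HA D hD h3.le p hp)
          exact mul_le_of_le_one_left (abs_nonneg _) (hf p)
        refine h4.trans ?_
        rw [Finset.sum_add_distrib, ← Finset.sum_filter, ← Finset.sum_filter]
        have h5 := HS D hD hq b
        have h6 := HS D hD hq b'
        rw [hcz]
        linarith
    · have hn : ¬ (κ * P < (D : ℝ) ∧ ∀ q ∈ A, ¬ q ∣ D) := fun h => hq h.2
      rw [if_neg hn, sub_zero]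
      have hc1 : (1 : ℝ) ≤ ((A.filter (fun q => q ∣ D)).card : ℝ) := by
        push Not at hq
        obtain ⟨q, hqA, hqD⟩ := hq
        have : 0 < (A.filter (fun q => q ∣ D)).card :=
          Finset.card_pos.2 ⟨q, Finset.mem_filter.2 ⟨hqA, hqD⟩⟩
        exact_mod_cast this
      have h3 : CT * (N / P) * (A.card : ℝ) ^ 2 ≤
          CT * (N / P) * (A.card : ℝ) ^ 2 * ((if (D : ℝ) ≤ 2 * κ * P then (1 : ℝ) else 0) +
            ((A.filter (fun q => q ∣ D)).card : ℝ)) := by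
        apply le_mul_of_one_le_right b1
        have : (0 : ℝ) ≤ (if (D : ℝ) ≤ 2 * κ * P then (1 : ℝ) else 0) := by
          split_ifs
          · exact zero_le_one
          · exact le_rfl
        linarith
      have h4 : 0 ≤ CS * (N / P) * (A.card : ℝ) ^ 2 *
          (if (D : ℝ) ≤ 2 * κ * P then (1 : ℝ) else 0) := by
        apply mul_nonneg b4
        split_ifs
        · exact zero_le_one
        · exact le_rfl
      linarith
  refine (Finset.sum_le_sum hpt).trans ?_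
  rw [blk_sum4 (Finset.Icc 1 (C2 * P)) (CT * (N / P) * (A.card : ℝ) ^ 2) (CT * N)
    (CS * (N / P) * (A.card : ℝ) ^ 2) (2 * CS * w * (N / P) * (A.card : ℝ) ^ 2)
    (fun D : ℕ => if (D : ℝ) ≤ 2 * κ * P then (1 : ℝ) else 0)
    (fun D : ℕ => ((A.filter (fun q => q ∣ D)).card : ℝ)), Nat.card_Icc, Nat.add_sub_cancel]
  have c1 := blk_cnt (C2 := C2) hP hA
  have c2 := blk_small (κ := κ) (C2 := C2) (P := P) hκ
  have b1 : 0 ≤ CT * (N / P) * (A.card : ℝ) ^ 2 := by positivity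
  have b2 : 0 ≤ CT * (N : ℝ) := by positivity
  have b4 : 0 ≤ CS * (N / P) * (A.card : ℝ) ^ 2 := by positivity
  have d1 := mul_le_mul_of_nonneg_left (add_le_add c2 c1) b1
  have d2 := mul_le_mul_of_nonneg_left c1 b2
  have d3 := mul_le_mul_of_nonneg_left c2 b4
  have d4 : ((C2 * P : ℕ) : ℝ) * (2 * CS * w * (N / P) * (A.card : ℝ) ^ 2) =
      2 * CS * w * (N / P) * (A.card : ℝ) ^ 2 * (C2 * P) := by
    push_cast; ring
  rw [d4]
  linarith

/-- second part: from `tc` to `MT` (abstract form) -/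
private lemma blk_two {ι : Type*} (L : ℕ → Finset ι) (f : ι → ℝ) (t W : ℕ → ι → ℝ)
    (M1 M2 : ℕ → ι → ℂ) (hf : ∀ p, |f p| ≤ 1) (hW : ∀ D p, |W D p| ≤ 1)
    {κ : ℝ} {P C2 : ℕ} {A : Finset ℕ} {E1 E2 E3 E4 : ℝ}
    (hW0 : ∀ (D : ℕ) (p : ι), (D : ℝ) ≤ κ * P → W D p = 0)
    (HR : ∑ D ∈ (Finset.Icc 1 (C2 * P)).filter
      (fun D : ℕ => κ * P < (D : ℝ) ∧ ∀ q ∈ A, ¬ q ∣ D),
        ∑ p ∈ L D, ‖((t D p : ℝ) : ℂ) - M1 D p‖ ≤ E1)
    (HU : ∑ D ∈ (Finset.Icc 1 (C2 * P)).filter (fun D : ℕ => κ * P < (D : ℝ)),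
        ∑ p ∈ L D, ‖M1 D p - M2 D p‖ ≤ E2)
    (HB : ∑ D ∈ (Finset.Icc 1 (C2 * P)).filter
      (fun D : ℕ => κ * P < (D : ℝ) ∧ ∃ q ∈ A, q ∣ D), ∑ p ∈ L D, ‖M2 D p‖ ≤ E3)
    (HE : ‖∑ D ∈ Finset.Icc 1 (C2 * P), ∑ p ∈ L D, ((f p * W D p : ℝ) : ℂ) * M2 D p‖ ≤ E4) :
    |∑ D ∈ (Finset.Icc 1 (C2 * P)).filter (fun D : ℕ => κ * P < (D : ℝ) ∧ ∀ q ∈ A, ¬ q ∣ D),
      ∑ p ∈ L D, f p * (W D p * t D p)| ≤ E1 + E2 + E3 + E4 := by
  have hfW : ∀ D p, ‖((f p * W D p : ℝ) : ℂ)‖ ≤ 1 := by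
    intro D p
    rw [Complex.norm_real, Real.norm_eq_abs, abs_mul]
    exact mul_le_one₀ (hf p) (abs_nonneg _) (hW D p)
  set I4 := (Finset.Icc 1 (C2 * P)).filter
    (fun D : ℕ => κ * P < (D : ℝ) ∧ ∀ q ∈ A, ¬ q ∣ D) with hI4
  set I5 := (Finset.Icc 1 (C2 * P)).filter
    (fun D : ℕ => κ * P < (D : ℝ) ∧ ∃ q ∈ A, q ∣ D) with hI5
  let g : ℕ → ℂ := fun D => ∑ p ∈ L D, ((f p * W D p : ℝ) : ℂ) * M2 D p
  have hg0 : ∀ D : ℕ, (D : ℝ) ≤ κ * P → g D = 0 := by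
    intro D hD
    simp only [g]
    refine Finset.sum_eq_zero fun p _ => ?_
    rw [hW0 D p hD, mul_zero, Complex.ofReal_zero, zero_mul]
  have hsplit : ∑ D ∈ Finset.Icc 1 (C2 * P), g D = ∑ D ∈ I4, g D + ∑ D ∈ I5, g D := by
    rw [hI4, hI5, Finset.sum_filter, Finset.sum_filter, ← Finset.sum_add_distrib]
    refine Finset.sum_congr rfl fun D _ => ?_
    by_cases h1 : κ * P < (D : ℝ)
    · by_cases h2 : ∀ q ∈ A, ¬ q ∣ D
      · have h3 : ¬ (κ * P < (D : ℝ) ∧ ∃ q ∈ A, q ∣ D) := by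
          rintro ⟨_, q, hq, hqD⟩
          exact h2 q hq hqD
        rw [if_pos ⟨h1, h2⟩, if_neg h3, add_zero]
      · have h3 : ¬ (κ * P < (D : ℝ) ∧ ∀ q ∈ A, ¬ q ∣ D) := fun h => h2 h.2
        push Not at h2
        rw [if_neg h3, if_pos ⟨h1, h2⟩, zero_add]
    · rw [if_neg (fun h => h1 h.1), if_neg (fun h => h1 h.1), add_zero]
      exact hg0 D (not_lt.1 h1)
  have hkey : ((∑ D ∈ I4, ∑ p ∈ L D, f p * (W D p * t D p) : ℝ) : ℂ) =
      ∑ D ∈ I4, ∑ p ∈ L D, ((f p * W D p : ℝ) : ℂ) * (((t D p : ℝ) : ℂ) - M1 D p) +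
      ∑ D ∈ I4, ∑ p ∈ L D, ((f p * W D p : ℝ) : ℂ) * (M1 D p - M2 D p) +
      (∑ D ∈ Finset.Icc 1 (C2 * P), g D - ∑ D ∈ I5, g D) := by
    rw [hsplit, add_sub_cancel_right, ← Finset.sum_add_distrib, ← Finset.sum_add_distrib,
      Complex.ofReal_sum]
    refine Finset.sum_congr rfl fun D _ => ?_
    simp only [g]
    rw [← Finset.sum_add_distrib, ← Finset.sum_add_distrib, Complex.ofReal_sum]
    refine Finset.sum_congr rfl fun p _ => ?_
    push_cast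
    ring
  have hn : |∑ D ∈ I4, ∑ p ∈ L D, f p * (W D p * t D p)| =
      ‖((∑ D ∈ I4, ∑ p ∈ L D, f p * (W D p * t D p) : ℝ) : ℂ)‖ := by
    rw [Complex.norm_real, Real.norm_eq_abs]
  rw [hn, hkey]
  have n1 : ‖∑ D ∈ I4, ∑ p ∈ L D, ((f p * W D p : ℝ) : ℂ) * (((t D p : ℝ) : ℂ) - M1 D p)‖ ≤
      E1 := by
    refine le_trans ?_ HR
    refine (norm_sum_le _ _).trans (Finset.sum_le_sum fun D _ => ?_)
    refine (norm_sum_le _ _).trans (Finset.sum_le_sum fun p _ => ?_)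
    rw [norm_mul]
    exact mul_le_of_le_one_left (norm_nonneg _) (hfW D p)
  have n2 : ‖∑ D ∈ I4, ∑ p ∈ L D, ((f p * W D p : ℝ) : ℂ) * (M1 D p - M2 D p)‖ ≤ E2 := by
    refine le_trans ?_ HU
    have hsub : I4 ⊆ (Finset.Icc 1 (C2 * P)).filter (fun D : ℕ => κ * P < (D : ℝ)) := by
      intro D hD
      rw [hI4, Finset.mem_filter] at hD
      exact Finset.mem_filter.2 ⟨hD.1, hD.2.1⟩
    refine le_trans ?_ (Finset.sum_le_sum_of_subset_of_nonneg hsub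
      (fun D _ _ => Finset.sum_nonneg fun p _ => norm_nonneg _))
    refine (norm_sum_le _ _).trans (Finset.sum_le_sum fun D _ => ?_)
    refine (norm_sum_le _ _).trans (Finset.sum_le_sum fun p _ => ?_)
    rw [norm_mul]
    exact mul_le_of_le_one_left (norm_nonneg _) (hfW D p)
  have n3 : ‖∑ D ∈ I5, g D‖ ≤ E3 := by
    refine le_trans ?_ HB
    refine (norm_sum_le _ _).trans (Finset.sum_le_sum fun D _ => ?_)
    refine (norm_sum_le _ _).trans (Finset.sum_le_sum fun p _ => ?_)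
    rw [norm_mul]
    exact mul_le_of_le_one_left (norm_nonneg _) (hfW D p)
  have n4 := norm_add_le
    (∑ D ∈ I4, ∑ p ∈ L D, ((f p * W D p : ℝ) : ℂ) * (((t D p : ℝ) : ℂ) - M1 D p) +
      ∑ D ∈ I4, ∑ p ∈ L D, ((f p * W D p : ℝ) : ℂ) * (M1 D p - M2 D p))
    (∑ D ∈ Finset.Icc 1 (C2 * P), g D - ∑ D ∈ I5, g D)
  have n5 := norm_add_le
    (∑ D ∈ I4, ∑ p ∈ L D, ((f p * W D p : ℝ) : ℂ) * (((t D p : ℝ) : ℂ) - M1 D p))
    (∑ D ∈ I4, ∑ p ∈ L D, ((f p * W D p : ℝ) : ℂ) * (M1 D p - M2 D p))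
  have n6 := norm_sub_le (∑ D ∈ Finset.Icc 1 (C2 * P), g D) (∑ D ∈ I5, g D)
  have n7 : ‖∑ D ∈ Finset.Icc 1 (C2 * P), g D‖ ≤ E4 := HE
  linarith

private lemma blk_unif (I : Finset ℕ) (Q : ℕ → ℕ → Prop)
    (h : ∀ D ∈ I, ∃ N0, ∀ N, N0 ≤ N → Q D N) : ∃ N0, ∀ D ∈ I, ∀ N, N0 ≤ N → Q D N := by
  choose! g hg using h
  exact ⟨I.sup g, fun D hD N hN => hg D hD N ((Finset.le_sup hD).trans hN)⟩

/-- `P / log P` tends to infinity -/
private lemma blk_large (K1 K2 : ℝ) : ∃ P0 : ℕ, 2 ≤ P0 ∧ ∀ P : ℕ, P0 ≤ P →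
    K1 ≤ (P : ℝ) / log P ∧ K2 ≤ log P ∧ 0 < log (P : ℝ) := by
  have hl : Filter.Tendsto (fun P : ℕ => log (P : ℝ)) Filter.atTop Filter.atTop :=
    Real.tendsto_log_atTop.comp tendsto_natCast_atTop_atTop
  obtain ⟨P1, hP1⟩ := Filter.eventually_atTop.1 (hl.eventually_ge_atTop K2)
  obtain ⟨P2, hP2⟩ := exists_nat_ge (4 * K1 ^ 2)
  refine ⟨max 2 (max P1 P2), le_max_left _ _, fun P hP => ?_⟩
  have h2 : 2 ≤ P := (le_max_left _ _).trans hP
  have h3 : P1 ≤ P := (le_max_left _ _).trans ((le_max_right _ _).trans hP)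
  have h4 : P2 ≤ P := (le_max_right _ _).trans ((le_max_right _ _).trans hP)
  have hPr : (2 : ℝ) ≤ P := by exact_mod_cast h2
  have hP0 : (0 : ℝ) < P := by linarith
  have hlog : 0 < log (P : ℝ) := Real.log_pos (by linarith)
  refine ⟨?_, hP1 P h3, hlog⟩
  rw [le_div_iff₀ hlog]
  rcases le_or_gt K1 0 with hK | hK
  · exact (mul_nonpos_of_nonpos_of_nonneg hK hlog.le).trans hP0.le
  have h5 : log (P : ℝ) ≤ 2 * √P := by
    have h6 := Real.log_le_rpow_div hP0.le (by norm_num : (0 : ℝ) < 1 / 2)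
    rw [← Real.sqrt_eq_rpow] at h6
    linarith
  have h7 : 2 * K1 ≤ √(P : ℝ) := by
    apply Real.le_sqrt_of_sq_le
    have h8 : (P2 : ℝ) ≤ P := by exact_mod_cast h4
    nlinarith
  have h9 : √(P : ℝ) * √P = P := Real.mul_self_sqrt hP0.le
  have h10 : 0 ≤ √(P : ℝ) := Real.sqrt_nonneg _
  nlinarith

/-- the numerical part -/
private lemma blk_num {C0 CE CT CS CR CB CQ C2 C1 κ h δ n Y N P eta δ2 ε τ S Z Z1 w B1 E1 : ℝ}
    (hC0 : 0 ≤ C0) (hCE : 0 ≤ CE) (hCT : 0 ≤ CT) (hCS : 0 ≤ CS) (hCR : 0 ≤ CR) (hCB : 0 ≤ CB)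
    (hCQ : 0 ≤ CQ) (hC2 : 0 ≤ C2) (hC1 : 0 ≤ C1) (hκ : 0 < κ) (hκ1 : κ ≤ 1) (hh : 0 < h)
    (hn : 0 ≤ n) (hY : 0 ≤ Y) (hN : 0 ≤ N) (hP : 0 < P)
    (hτ : 0 ≤ τ) (hδ2 : 0 ≤ δ2) (hε : 0 ≤ ε)
    (hw : w = h * (1 + 2 * C1 / κ)) (hnY : n ≤ CQ * Y) (hnP : n ≤ τ * P)
    (c1 : C0 * CE * CQ ≤ δ / 8 * Y) (c2 : C0 * 2 * CT * C2 * CQ ^ 2 * τ ≤ δ / 8)
    (c3 : C0 * 2 * CT * C2 * CQ ≤ δ / 8 * Y) (c4 : C0 * 2 * CR * eta ≤ δ / 8)
    (c5 : C0 * 2 * δ2 * CQ ^ 2 ≤ δ / 8) (c6 : C0 * 2 * CB * CQ ^ 2 * τ ≤ δ / 8)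
    (c7 : C0 * 2 * ε * CQ ^ 2 ≤ δ / 8) (hδ : 0 ≤ δ)
    (hS : S ≤ C0 * N * Z) (hZ : |Z| ≤ CE * N * n + 2 * |Z1|) (hZ1 : |Z1| ≤ B1 + E1)
    (hB1 : B1 = CT * (N / P) * n ^ 2 * (2 * κ * P + C2 * n) + CT * N * (C2 * n) +
        2 * CS * w * (N / P) * n ^ 2 * (C2 * P) + CS * (N / P) * n ^ 2 * (2 * κ * P))
    (hE1 : E1 = CR * N * (eta * Y ^ 2) + δ2 * N * n ^ 2 + CB * N * n ^ 2 * (n / P) +
        ε * N * n ^ 2) :
    S ≤ N ^ 2 * (C0 * (4 * CT + 4 * CS * C2 * (1 + 2 * C1) + 4 * CS) * (κ + h / κ) * n ^ 2 +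
      δ * Y ^ 2) := by
  have hn2 : n ^ 2 ≤ CQ ^ 2 * Y ^ 2 := by
    rw [← mul_pow]; exact pow_le_pow_left₀ hn hnY 2
  have hnp : n / P ≤ τ := (div_le_iff₀ hP).2 hnP
  have hnp0 : 0 ≤ n / P := by positivity
  have hwh : w ≤ h / κ * (1 + 2 * C1) := by
    rw [hw]
    have : h * (1 + 2 * C1 / κ) = h / κ * (κ + 2 * C1) := by field_simp
    rw [this]
    apply mul_le_mul_of_nonneg_left _ (by positivity)
    linarith
  have hB1' : B1 = N * (2 * κ * CT * n ^ 2 + CT * C2 * n ^ 2 * (n / P) + CT * C2 * n +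
      2 * CS * w * C2 * n ^ 2 + 2 * κ * CS * n ^ 2) := by
    rw [hB1]; field_simp
  have hE1' : E1 = N * (CR * eta * Y ^ 2 + δ2 * n ^ 2 + CB * n ^ 2 * (n / P) + ε * n ^ 2) := by
    rw [hE1]; ring
  have s1 : S ≤ C0 * N * (CE * N * n + 2 * (B1 + E1)) := by
    refine hS.trans (mul_le_mul_of_nonneg_left ?_ (by positivity))
    have := le_abs_self Z
    linarith
  refine s1.trans ?_
  rw [hB1', hE1']
  have hN2 : 0 ≤ N ^ 2 := by positivity
  have e1 : C0 * N * (CE * N * n + 2 * (N * (2 * κ * CT * n ^ 2 + CT * C2 * n ^ 2 * (n / P) +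
      CT * C2 * n + 2 * CS * w * C2 * n ^ 2 + 2 * κ * CS * n ^ 2) +
      N * (CR * eta * Y ^ 2 + δ2 * n ^ 2 + CB * n ^ 2 * (n / P) + ε * n ^ 2))) =
      N ^ 2 * (C0 * CE * n + C0 * 2 * CT * C2 * (n ^ 2 * (n / P)) + C0 * 2 * CT * C2 * n +
        C0 * 2 * CR * eta * Y ^ 2 + C0 * 2 * δ2 * n ^ 2 + C0 * 2 * CB * (n ^ 2 * (n / P)) +
        C0 * 2 * ε * n ^ 2 + C0 * (4 * κ * CT * n ^ 2 + 4 * CS * C2 * w * n ^ 2 +
        4 * κ * CS * n ^ 2)) := by ring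
  rw [e1]
  apply mul_le_mul_of_nonneg_left _ hN2
  have hY2 : 0 ≤ Y ^ 2 := by positivity
  have hn3 : n ^ 2 * (n / P) ≤ CQ ^ 2 * Y ^ 2 * τ :=
    mul_le_mul hn2 hnp hnp0 (by positivity)
  have t1 : C0 * CE * n ≤ δ / 8 * Y ^ 2 := by
    calc C0 * CE * n ≤ C0 * CE * (CQ * Y) := mul_le_mul_of_nonneg_left hnY (by positivity)
      _ = C0 * CE * CQ * Y := by ring
      _ ≤ δ / 8 * Y * Y := mul_le_mul_of_nonneg_right c1 hY
      _ = δ / 8 * Y ^ 2 := by ring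
  have t2 : C0 * 2 * CT * C2 * (n ^ 2 * (n / P)) ≤ δ / 8 * Y ^ 2 := by
    calc C0 * 2 * CT * C2 * (n ^ 2 * (n / P)) ≤ C0 * 2 * CT * C2 * (CQ ^ 2 * Y ^ 2 * τ) :=
          mul_le_mul_of_nonneg_left hn3 (by positivity)
      _ = C0 * 2 * CT * C2 * CQ ^ 2 * τ * Y ^ 2 := by ring
      _ ≤ δ / 8 * Y ^ 2 := mul_le_mul_of_nonneg_right c2 hY2
  have t3 : C0 * 2 * CT * C2 * n ≤ δ / 8 * Y ^ 2 := by
    calc C0 * 2 * CT * C2 * n ≤ C0 * 2 * CT * C2 * (CQ * Y) :=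
          mul_le_mul_of_nonneg_left hnY (by positivity)
      _ = C0 * 2 * CT * C2 * CQ * Y := by ring
      _ ≤ δ / 8 * Y * Y := mul_le_mul_of_nonneg_right c3 hY
      _ = δ / 8 * Y ^ 2 := by ring
  have t4 : C0 * 2 * CR * eta * Y ^ 2 ≤ δ / 8 * Y ^ 2 := mul_le_mul_of_nonneg_right c4 hY2
  have t5 : C0 * 2 * δ2 * n ^ 2 ≤ δ / 8 * Y ^ 2 := by
    calc C0 * 2 * δ2 * n ^ 2 ≤ C0 * 2 * δ2 * (CQ ^ 2 * Y ^ 2) :=
          mul_le_mul_of_nonneg_left hn2 (by positivity)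
      _ = C0 * 2 * δ2 * CQ ^ 2 * Y ^ 2 := by ring
      _ ≤ δ / 8 * Y ^ 2 := mul_le_mul_of_nonneg_right c5 hY2
  have t6 : C0 * 2 * CB * (n ^ 2 * (n / P)) ≤ δ / 8 * Y ^ 2 := by
    calc C0 * 2 * CB * (n ^ 2 * (n / P)) ≤ C0 * 2 * CB * (CQ ^ 2 * Y ^ 2 * τ) :=
          mul_le_mul_of_nonneg_left hn3 (by positivity)
      _ = C0 * 2 * CB * CQ ^ 2 * τ * Y ^ 2 := by ring
      _ ≤ δ / 8 * Y ^ 2 := mul_le_mul_of_nonneg_right c6 hY2
  have t7 : C0 * 2 * ε * n ^ 2 ≤ δ / 8 * Y ^ 2 := by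
    calc C0 * 2 * ε * n ^ 2 ≤ C0 * 2 * ε * (CQ ^ 2 * Y ^ 2) :=
          mul_le_mul_of_nonneg_left hn2 (by positivity)
      _ = C0 * 2 * ε * CQ ^ 2 * Y ^ 2 := by ring
      _ ≤ δ / 8 * Y ^ 2 := mul_le_mul_of_nonneg_right c7 hY2
  have hn20 : 0 ≤ n ^ 2 := by positivity
  have hhκ : 0 ≤ h / κ := by positivity
  have t8 : C0 * (4 * κ * CT * n ^ 2 + 4 * CS * C2 * w * n ^ 2 + 4 * κ * CS * n ^ 2) ≤
      C0 * (4 * CT + 4 * CS * C2 * (1 + 2 * C1) + 4 * CS) * (κ + h / κ) * n ^ 2 := by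
    have u1 : 4 * κ * CT * n ^ 2 ≤ 4 * CT * (κ + h / κ) * n ^ 2 := by
      have : 0 ≤ 4 * CT * (h / κ) * n ^ 2 := by positivity
      nlinarith
    have u2 : 4 * CS * C2 * w * n ^ 2 ≤ 4 * CS * C2 * (1 + 2 * C1) * (κ + h / κ) * n ^ 2 := by
      have v1 : 4 * CS * C2 * w * n ^ 2 ≤ 4 * CS * C2 * (h / κ * (1 + 2 * C1)) * n ^ 2 := by
        apply mul_le_mul_of_nonneg_right _ hn20
        exact mul_le_mul_of_nonneg_left hwh (by positivity)
      have v2 : 0 ≤ 4 * CS * C2 * (1 + 2 * C1) * κ * n ^ 2 := by positivity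
      nlinarith
    have u3 : 4 * κ * CS * n ^ 2 ≤ 4 * CS * (κ + h / κ) * n ^ 2 := by
      have : 0 ≤ 4 * CS * (h / κ) * n ^ 2 := by positivity
      nlinarith
    calc C0 * (4 * κ * CT * n ^ 2 + 4 * CS * C2 * w * n ^ 2 + 4 * κ * CS * n ^ 2)
        ≤ C0 * (4 * CT * (κ + h / κ) * n ^ 2 + 4 * CS * C2 * (1 + 2 * C1) * (κ + h / κ) * n ^ 2 +
          4 * CS * (κ + h / κ) * n ^ 2) :=
          mul_le_mul_of_nonneg_left (add_le_add (add_le_add u1 u2) u3) hC0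
      _ = _ := by ring
  have t9 : 0 ≤ δ / 8 * Y ^ 2 := by positivity
  linarith

/-- **BLOCK**: the estimate for a short block `A ⊆ (X, (1 + h) X]`. With `Z = ∑_{u,u'} f f' TT`:
`(∑_q)² ≤ C N Z` (`E0`), `|Z| ≤ C N |A| + 2 |Z1|` (`E1`), `Z1 = ∑_{D ≤ C2 P} ∑_{lpairs} f f' TT`,
`C2 = ⌈2 C1 / √b⌉`. Split `D`: `D ≤ 2 κ P` (`TTSUM`: `≤ C κ N |A|²`; here no element of `A` divides
`D`); `D` divisible by an element of `A` (`TTSUM`, at most `C2 |A|` values of `D`, and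
`∑_D #{q ∈ A : q ∣ D} ≤ C2 |A|`); the others: `TTAPP` (with `2 κ` in place of `κ`) and `TSTRIP` for
the exceptional strips (`w = h (1 + C1/κ) ≤ 1`): `≤ C (h/κ) N |A|²` (`h ≤ h/κ`). Replace `trap * tc`
by `cut κ (D/P) * trap * tc` (equal for `D > 2 κ P`) and let `D` run over `κ P < D` (the new terms:
`TSTRIP`, `w = 1`, `≤ C κ N |A|²`). Then `tc → MM` (`EERR`, `ECH`), `MM → MT` (`ETRUNC`), add the
`D` divisible by elements of `A` (`BADM`), `ESTR` with `Phi b b' κ h (X/P)` (`LIPPHI`;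
`Phi * (D/P) = cut * trap`). `|A| ≤ C P/log P` (`QUP`). Order: `R0`, `R1`, `P0`, `N0`. -/
theorem BLOCKGp (hG : ∀ z, |G z| ≤ 1) (h0 : E0G G) (h1 : E1G G) (hT : TTSUMStmt) (hA : TTAPPStmt)
    (hS : TSTRIPStmt) (hR : EERRStmt) (hH : ECHStmt) (hU : ETRUNCStmt) (hB : BADMStmt)
    (hE : ESTRG G) (hL : LIPPHIStmt) (hQ : QUPStmt) : BLOCKG G := by
  classical
  intro C1 a a' b b' hC1 ha haa ha1' hb hbb hb1
  have hC1r : (1 : ℝ) ≤ C1 := by exact_mod_cast hC1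
  have ha1 : a ≤ 1 := haa.le.trans ha1'
  have hsb : 0 < √b := Real.sqrt_pos.2 hb
  have hsbb : √b < √b' := Real.sqrt_lt_sqrt hb.le hbb
  have hsb1 : √b' ≤ 1 := Real.sqrt_le_one.2 hb1
  obtain ⟨C2, hC2⟩ : ∃ C2 : ℕ, 2 * (C1 : ℝ) / √b ≤ C2 := exists_nat_ge _
  have hC2r : (0 : ℝ) < C2 := lt_of_lt_of_le (by positivity) hC2
  have hC21 : 1 ≤ C2 := by exact_mod_cast (by exact_mod_cast hC2r : 0 < C2)
  obtain ⟨C0, hC0, hE0⟩ := h0
  obtain ⟨CE, hCE, hE1⟩ := h1 C1 a a' b b' ha hb hb1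
  obtain ⟨CT, hCT, hTT⟩ := hT C1 C2 a b b' ha ha1 hb hbb.le hb1 hC1 hC21
  obtain ⟨CS, hCS, hSS⟩ := hS a 1 C1 C2 ha ha1 one_pos hC1 hC21
  obtain ⟨CQ, hCQ, hQQ⟩ := hQ C1 hC1
  refine ⟨C0 * (4 * CT + 4 * CS * C2 * (1 + 2 * C1) + 4 * CS), by positivity, ?_⟩
  intro κ h δ hκ hκ4 hh hhκ hδ
  have hκ1 : κ ≤ 1 := by linarith
  have hw0 : 0 < h * (1 + 2 * C1 / κ) := by positivity
  have hh1 : h ≤ 1 := by
    refine le_trans ?_ hhκ
    apply le_mul_of_one_le_right hh.le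
    have : 0 ≤ 2 * (C1 : ℝ) / κ := by positivity
    linarith
  obtain ⟨CR, hCR, hRR⟩ := hR a κ C1 C2 ha ha1 hκ hC1 hC21
  obtain ⟨CH, hCH, hHH⟩ := hH C1 C2 hC1 hC21
  set eta : ℝ := δ / (16 * C0 * CR) with heta
  have heta0 : 0 < eta := by positivity
  obtain ⟨PH, hPH⟩ := hHH (eta ^ 2 / 2) (by positivity)
  obtain ⟨R0, hR0⟩ := exists_nat_ge (max 1 (2 * CH / eta ^ 2))
  have hR0r : (1 : ℝ) ≤ R0 := (le_max_left _ _).trans hR0
  have hR01 : 1 ≤ R0 := by exact_mod_cast hR0r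
  have hCHR : CH / R0 ≤ eta ^ 2 / 2 := by
    have h2 : 2 * CH / eta ^ 2 ≤ R0 := (le_max_right _ _).trans hR0
    rw [div_le_iff₀ (by positivity)] at h2
    rw [div_le_iff₀ (by linarith)]
    linarith
  set δ2 : ℝ := δ / (16 * C0 * CQ ^ 2) with hδ2
  have hδ20 : 0 < δ2 := by positivity
  obtain ⟨R1, hR1, hUU⟩ := hU a κ C2 R0 ha hκ δ2 hδ20
  obtain ⟨CB, hCB, hBB⟩ := hB a κ C1 C2 R0 R1 ha hκ
  obtain ⟨L, hL0, hLL⟩ := hL a b b' κ h C1 C2 ha ha1 hb hb1 hκ hκ1 hh hh1 hC1 hC2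
  obtain ⟨PE, hPE⟩ := hE a a' κ L δ2 C2 R0 R1 ha haa ha1' hκ hL0 hδ20 hC21
  obtain ⟨PL, hPL2, hPL⟩ := blk_large ((C0 * CE * CQ + C0 * 2 * CT * C2 * CQ) * 8 / δ)
    (CQ * ((C0 * 2 * CT * C2 * CQ ^ 2 + C0 * 2 * CB * CQ ^ 2) * 8 / δ))
  refine ⟨max PH (max PE PL), fun P hP A hAQ X hX1 hX2 hAX => ?_⟩
  have hPH' : PH ≤ P := (le_max_left _ _).trans hP
  have hPE' : PE ≤ P := (le_max_left _ _).trans ((le_max_right _ _).trans hP)
  have hPL' : PL ≤ P := (le_max_right _ _).trans ((le_max_right _ _).trans hP)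
  have hP2 : 2 ≤ P := hPL2.trans hPL'
  have hP1 : 1 ≤ P := by omega
  have hPr : (0 : ℝ) < P := by exact_mod_cast (by omega : 0 < P)
  obtain ⟨hY1, hlog2, hlog0⟩ := hPL P hPL'
  have hY0 : 0 < (P : ℝ) / log P := by positivity
  -- thresholds for `N`
  obtain ⟨NT, hNT⟩ := blk_unif (Finset.Icc 1 (C2 * P))
    (fun D N => ∑ p ∈ lpairs a D N, (TT A b b' N p.1 p.2 : ℝ) ≤
      CT * (N / P * A.card ^ 2 + N * ((A.filter (fun q => q ∣ D)).card : ℝ)))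
    (fun D hD => hTT P hP1 A hAQ D hD)
  obtain ⟨NA, hNA⟩ := hA C1 C2 P a b b' κ h hP1 hC1 ha hb hb1 hκ hh
  have hSgen : ∀ w : ℝ, 0 < w → w ≤ 1 → ∃ NS : ℕ, ∀ D ∈ Finset.Icc 1 (C2 * P), ∀ N, NS ≤ N →
      (∀ q ∈ A, ¬ q ∣ D) → ∀ s : ℝ,
        ∑ p ∈ (lpairs a D N).filter (fun p => |lf N p X X - s * D| ≤ w * D),
          (tc A D (cof D p) : ℝ) ≤ CS * w * (N / P) * A.card ^ 2 := by
    intro w hw hw1
    refine blk_unif (Finset.Icc 1 (C2 * P)) (fun D N => (∀ q ∈ A, ¬ q ∣ D) → ∀ s : ℝ,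
        ∑ p ∈ (lpairs a D N).filter (fun p => |lf N p X X - s * D| ≤ w * D),
          (tc A D (cof D p) : ℝ) ≤ CS * w * (N / P) * A.card ^ 2) (fun D hD => ?_)
    by_cases hq : ∀ q ∈ A, ¬ q ∣ D
    · obtain ⟨NS, hNS⟩ := hSS P D hP1 hD A hAQ hq w hw hw1
      exact ⟨NS, fun N hN _ s => hNS N hN X s hX1 hX2⟩
    · exact ⟨0, fun N _ h => absurd h hq⟩
  obtain ⟨NS, hNS⟩ := hSgen (h * (1 + 2 * C1 / κ)) hw0 hhκ
  obtain ⟨NS1, hNS1⟩ := hSgen 1 one_pos le_rfl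
  obtain ⟨NR, hNR⟩ := hRR P hP1 A hAQ R0
  obtain ⟨NE, hNE⟩ := hPE P hPE'
  refine ⟨NT + NA + NS + NS1 + NR + NE + 1, fun N hN H hH => ?_⟩
  have hN1 : 1 ≤ N := by omega
  have hNr : (0 : ℝ) ≤ N := Nat.cast_nonneg N
  have hZ := hE0 H hH A a a' b b' N hN1
  have hZ1 := hE1 P hP1 A hAQ N hN1 C2 hC2
  have HB1 := blk_one (fun D => lpairs a D N)
    (fun p => fg G a a' N p.1 * fg G a a' N p.2) (fun _ p => (TT A b b' N p.1 p.2 : ℝ))
    (fun D p => (tc A D (cof D p) : ℝ)) (fun _ p => lf N p X X)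
    (fun p => blk_ff hG a a' N p) (fun _ _ => Nat.cast_nonneg _) (fun _ _ => Nat.cast_nonneg _)
    (b := √b) (b' := √b') (κ := κ) (h := h) (w := h * (1 + 2 * C1 / κ)) (CT := CT) (CS := CS)
    (N := N) (P := P) (C1 := C1) (C2 := C2) (A := A)
    hAQ hP1 hNr hκ hsbb hsb.le hsb1 hh hCT.le hCS.le hw0.le
    (fun D hD => hNT D hD N (by omega))
    (fun D hD hκD p hp => by
      have h5 := hNA N (by omega) A hAQ X hX1 hX2 hAX D hD hκD p hp
      refine h5.trans ?_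
      have ht : (0 : ℝ) ≤ (tc A D (cof D p) : ℝ) := Nat.cast_nonneg _
      by_cases c1 : |lf N p X X - √b * D| ≤ h * (1 + 2 * C1 / κ) * D
      · rw [if_pos (Or.inl c1), if_pos c1]
        apply le_add_of_nonneg_right
        split_ifs
        · exact ht
        · exact le_rfl
      · by_cases c2 : |lf N p X X - √b' * D| ≤ h * (1 + 2 * C1 / κ) * D
        · rw [if_pos (Or.inr c2), if_neg c1, if_pos c2, zero_add]
        · rw [if_neg (not_or.2 ⟨c1, c2⟩), if_neg c1, if_neg c2, zero_add])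
    (fun D hD hq s => hNS D hD N (by omega) hq s)
    (fun D hD hq s => hNS1 D hD N (by omega) hq s)
  -- the structured part
  have hl1 : 1 ≤ X / P := (one_le_div hPr).2 hX1
  have hl2 : X / P ≤ C1 := (div_le_iff₀ hPr).2 hX2
  have HE1 := hNE N (by omega) (Phi b b' κ h (X / P)) (hLL (X / P) hl1 hl2) A
  have hPhi : ∀ D ∈ Finset.Icc 1 (C2 * P), ∀ p : GaussianInt × GaussianInt,
      fg G a a' N p.1 * fg G a a' N p.2 *
        (cut κ ((D : ℝ) / P) * trap (√b) (√b') h (lf N p X X / D)) =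
      fg G a a' N p.1 * fg G a a' N p.2 *
        Phi b b' κ h (X / P) ((nN p.1 : ℝ) / N) ((nN p.2 : ℝ) / N) ((D : ℝ) / P) * (D / P) := by
    intro D hD p
    have hD1 : 1 ≤ D := (Finset.mem_Icc.1 hD).1
    have hDr : (0 : ℝ) < D := by exact_mod_cast hD1
    have hDP : 0 < (D : ℝ) / P := by positivity
    unfold Phi
    rw [if_neg (not_le.2 hDP)]
    have e1 : X / P * (√((nN p.2 : ℝ) / N) - √((nN p.1 : ℝ) / N)) / ((D : ℝ) / P) =
        lf N p X X / D := by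
      unfold lf
      field_simp
    rw [e1]
    field_simp
  have HE2 : ‖∑ D ∈ Finset.Icc 1 (C2 * P), ∑ p ∈ lpairs a D N,
      ((fg G a a' N p.1 * fg G a a' N p.2 *
        (cut κ ((D : ℝ) / P) * trap (√b) (√b') h (lf N p X X / D)) : ℝ) : ℂ) *
          MT A R0 R1 D (cof D p)‖ ≤ δ2 * N * A.card ^ 2 := by
    rw [Finset.sum_congr rfl fun D hD => Finset.sum_congr rfl fun p _ => by rw [hPhi D hD p]]
    exact HE1
  have HR2 : ∑ D ∈ (Finset.Icc 1 (C2 * P)).filter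
      (fun D : ℕ => κ * P < (D : ℝ) ∧ ∀ q ∈ A, ¬ q ∣ D),
      ∑ p ∈ lpairs a D N, ‖((tc A D (cof D p) : ℝ) : ℂ) - MM A R0 D (cof D p)‖ ≤
      CR * N * (eta * ((P : ℝ) / log P) ^ 2) := by
    refine (hNR N (by omega)).trans ?_
    apply mul_le_mul_of_nonneg_left _ (by positivity)
    rw [Real.sqrt_le_left (by positivity)]
    refine (hPH P hPH' A hAQ R0 hR01).trans ?_
    have e1 : (eta * ((P : ℝ) / log P) ^ 2) ^ 2 = eta ^ 2 * ((P : ℝ) / log P) ^ 4 := by ring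
    rw [e1]
    apply mul_le_mul_of_nonneg_right _ (by positivity)
    linarith
  have HU2 := hUU P hP1 A N
  have HBB := hBB P hP1 A hAQ N
  have HB2 := blk_two (fun D => lpairs a D N)
    (fun p => fg G a a' N p.1 * fg G a a' N p.2)
    (fun D p => (tc A D (cof D p) : ℝ))
    (fun D p => cut κ ((D : ℝ) / P) * trap (√b) (√b') h (lf N p X X / D))
    (fun D p => MM A R0 D (cof D p)) (fun D p => MT A R0 R1 D (cof D p))
    (fun p => blk_ff hG a a' N p)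
    (fun D p => by
      rw [abs_mul, abs_of_nonneg (blk_cut_nonneg _ _), abs_of_nonneg (blk_trap_nonneg _ _ _ _)]
      exact mul_le_one₀ (blk_cut_le _ _) (blk_trap_nonneg _ _ _ _) (blk_trap_le _ _ _ _))
    (κ := κ) (P := P) (C2 := C2) (A := A)
    (fun D p hD => by
      rw [blk_cut_zero hκ, zero_mul]
      rw [div_le_iff₀ hPr]
      exact hD)
    HR2 HU2 HBB HE2
  have hZ4 : |∑ D ∈ Finset.Icc 1 (C2 * P), ∑ p ∈ lpairs a D N,
      fg G a a' N p.1 * fg G a a' N p.2 * (TT A b b' N p.1 p.2 : ℝ)| ≤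
      (CT * (N / P) * A.card ^ 2 * (2 * κ * P + C2 * A.card) + CT * N * (C2 * A.card) +
        2 * CS * (h * (1 + 2 * C1 / κ)) * (N / P) * A.card ^ 2 * (C2 * P) +
        CS * (N / P) * A.card ^ 2 * (2 * κ * P)) +
      (CR * N * (eta * ((P : ℝ) / log P) ^ 2) + δ2 * N * A.card ^ 2 +
        CB * N * A.card ^ 2 * (A.card / P) + δ2 * N * A.card ^ 2) := by
    have h7 := abs_sub_abs_le_abs_sub
      (∑ D ∈ Finset.Icc 1 (C2 * P), ∑ p ∈ lpairs a D N,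
        fg G a a' N p.1 * fg G a a' N p.2 * (TT A b b' N p.1 p.2 : ℝ))
      (∑ D ∈ (Finset.Icc 1 (C2 * P)).filter (fun D : ℕ => κ * P < (D : ℝ) ∧ ∀ q ∈ A, ¬ q ∣ D),
        ∑ p ∈ lpairs a D N, fg G a a' N p.1 * fg G a a' N p.2 * (cut κ ((D : ℝ) / P) *
          trap (√b) (√b') h (lf N p X X / D) * tc A D (cof D p)))
    linarith
  have hncard : (A.card : ℝ) ≤ CQ * ((P : ℝ) / log P) := by
    refine le_trans ?_ (hQQ P hP2)
    exact_mod_cast Finset.card_le_card hAQ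
  have hτ : (A.card : ℝ) ≤ CQ / log P * P := by
    refine hncard.trans (le_of_eq ?_)
    ring
  have c26 : (C0 * 2 * CT * C2 * CQ ^ 2 + C0 * 2 * CB * CQ ^ 2) * (CQ / log P) ≤ δ / 8 := by
    have e1 : (C0 * 2 * CT * C2 * CQ ^ 2 + C0 * 2 * CB * CQ ^ 2) * (CQ / log P) =
        (C0 * 2 * CT * C2 * CQ ^ 2 + C0 * 2 * CB * CQ ^ 2) * CQ / log P := by ring
    rw [e1, div_le_iff₀ hlog0]
    have e2 : CQ * ((C0 * 2 * CT * C2 * CQ ^ 2 + C0 * 2 * CB * CQ ^ 2) * 8 / δ) =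
        (C0 * 2 * CT * C2 * CQ ^ 2 + C0 * 2 * CB * CQ ^ 2) * CQ * 8 / δ := by ring
    rw [e2, div_le_iff₀ hδ] at hlog2
    linarith
  have c13 : C0 * CE * CQ + C0 * 2 * CT * C2 * CQ ≤ δ / 8 * ((P : ℝ) / log P) := by
    rw [div_le_iff₀ hδ] at hY1
    linarith
  have q1 : 0 ≤ C0 * CE * CQ := by positivity
  have q3 : 0 ≤ C0 * 2 * CT * C2 * CQ := by positivity
  have q2 : 0 ≤ C0 * 2 * CT * C2 * CQ ^ 2 * (CQ / log P) := by positivity
  have q6 : 0 ≤ C0 * 2 * CB * CQ ^ 2 * (CQ / log P) := by positivity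
  exact blk_num (C0 := C0) (CE := CE) (CT := CT) (CS := CS) (CR := CR) (CB := CB) (CQ := CQ)
    (C2 := C2) (C1 := C1) (κ := κ) (h := h) (δ := δ) (n := A.card) (Y := (P : ℝ) / log P)
    (N := N) (P := P) (eta := eta) (δ2 := δ2) (ε := δ2) (τ := CQ / log P)
    (w := h * (1 + 2 * C1 / κ))
    hC0.le hCE.le hCT.le hCS.le hCR.le hCB.le hCQ.le hC2r.le (by linarith) hκ hκ1 hh
    (Nat.cast_nonneg _) hY0.le hNr hPr (by positivity) hδ20.le hδ20.le rfl hncard hτ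
    (by linarith) (by nlinarith) (by linarith)
    (by rw [heta]; apply le_of_eq; field_simp; norm_num)
    (by rw [hδ2]; apply le_of_eq; field_simp; norm_num)
    (by nlinarith)
    (by rw [hδ2]; apply le_of_eq; field_simp; norm_num)
    hδ.le hZ hZ1 hZ4 rfl rfl

end Pool.Agent.LogG
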