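import Pool.Agent.Lib.LogG.GDefs
import Pool.Agent.Lib.LogCh.Shared
import Pool.Agent.Lib.NSqP.LC

/-!
# Log-averaged cancellation at `n ^ 2 + 1`: module E.E1
-/

set_option autoImplicit false

namespace Pool.Agent.LogG

open Real
open Pool.Agent.NSqP
open Pool.Agent.LogCh
open Pool.Agent.MP484c84Par (ballG mem_ballG crossG dotG)

namespace GE1aux

lemma nN_int' (z : GaussianInt) : (nN z : ℤ) = z.re * z.re + z.im * z.im := by
  rw [nN_cast_int, Pool.Agent.MP484c84Par.norm_def']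

lemma fg_abs_le {G : GaussianInt → ℝ} (hG : ∀ z, |G z| ≤ 1) (a a' : ℝ) (N : ℕ)
    (z : GaussianInt) : |fg G a a' N z| ≤ 1 := by
  unfold fg
  split_ifs
  · exact hG z
  · simp

lemma fg_ne_zero {G : GaussianInt → ℝ} {a a' : ℝ} {N : ℕ} {z : GaussianInt}
    (h : fg G a a' N z ≠ 0) :
    a * N < nN z ∧ (nN z : ℝ) ≤ a' * N := by
  by_contra h1
  apply h
  unfold fg
  rw [if_neg h1]

lemma TT_comm (A : Finset ℕ) (b b' : ℝ) (N : ℕ) (u u' : GaussianInt) :
    TT A b b' N u u' = TT A b b' N u' u := by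
  classical
  unfold TT
  congr 1
  ext v
  simp only [Finset.mem_filter]
  tauto

lemma TT_pos {A : Finset ℕ} {b b' : ℝ} {N : ℕ} {u u' : GaussianInt}
    (h : TT A b b' N u u' ≠ 0) : ∃ v : GaussianInt, b * N < nN v ∧ (nN v : ℝ) ≤ b' * N ∧
    0 < dotG u v ∧ 0 < dotG u' v ∧ (∃ q ∈ A, crossG u v = (q : ℕ)) ∧
    (∃ q ∈ A, crossG u' v = (q : ℕ)) := by
  classical
  unfold TT at h
  obtain ⟨v, hv⟩ := Finset.card_pos.1 (Nat.pos_of_ne_zero h)
  exact ⟨v, (Finset.mem_filter.1 hv).2⟩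

lemma TT_dot {C1 P : ℕ} {A : Finset ℕ} (hA : A ⊆ QQ C1 P) {b b' : ℝ} {N : ℕ}
    {u u' : GaussianInt} (hu : (nN u : ℝ) ≤ N) (hu' : (nN u' : ℝ) ≤ N) (hb : 0 < b) (hN : 1 ≤ N)
    {C2 : ℕ} (hC2 : 2 * C1 / √b ≤ C2)
    (h : TT A b b' N u u' ≠ 0) : 0 < dotG u u' ∧ |crossG u u'| ≤ (C2 * P : ℕ) := by
  obtain ⟨v, h1, -, h3, h4, ⟨α, hα, h5⟩, ⟨β, hβ, h6⟩⟩ := TT_pos h
  have hα' := hA hα
  have hβ' := hA hβ
  unfold QQ at hα' hβ'
  rw [Finset.mem_filter, Finset.mem_Ioc] at hα' hβ'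
  have hα0 : (0 : ℤ) < α := by exact_mod_cast (by omega : 0 < α)
  have hβ0 : (0 : ℤ) < β := by exact_mod_cast (by omega : 0 < β)
  have hαP : (α : ℝ) ≤ C1 * P := by exact_mod_cast hα'.1.2
  have hβP : (β : ℝ) ≤ C1 * P := by exact_mod_cast hβ'.1.2
  have hN' : (1 : ℝ) ≤ N := by exact_mod_cast hN
  have hv0 : 0 < (nN v : ℝ) := lt_of_le_of_lt (by positivity) h1
  have hv0' : (0 : ℤ) < nN v := by exact_mod_cast hv0
  have hid : dotG u u' * (nN v : ℤ) = dotG u v * dotG u' v + crossG u v * crossG u' v := by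
    rw [nN_int']; unfold dotG crossG; ring
  have hdot : 0 < dotG u u' := by
    have : 0 < dotG u u' * (nN v : ℤ) := by
      rw [hid, h5, h6]; positivity
    exact (pos_iff_pos_of_mul_pos this).2 hv0'
  refine ⟨hdot, ?_⟩
  have hid2 : crossG u u' ^ 2 * (nN v : ℤ) = (α : ℤ) ^ 2 * nN u' - 2 * α * β * dotG u u' +
      (β : ℤ) ^ 2 * nN u := by
    have h7 : crossG u u' ^ 2 * (nN v : ℤ) = (crossG u v) ^ 2 * nN u' -
      2 * crossG u v * crossG u' v * dotG u u' + (crossG u' v) ^ 2 * nN u := by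
      rw [nN_int', nN_int', nN_int']; unfold dotG crossG; ring
    rw [h7, h5, h6]
  have hle : (crossG u u' : ℝ) ^ 2 * nN v ≤ (α : ℝ) ^ 2 * nN u' + (β : ℝ) ^ 2 * nN u := by
    have h8 : crossG u u' ^ 2 * (nN v : ℤ) ≤ (α : ℤ) ^ 2 * nN u' + (β : ℤ) ^ 2 * nN u := by
      rw [hid2]
      have : 0 ≤ 2 * (α : ℤ) * β * dotG u u' := by positivity
      linarith
    exact_mod_cast h8
  have hD : (crossG u u' : ℝ) ^ 2 * b ≤ 4 * (C1 * P) ^ 2 := by
    have h9 : (crossG u u' : ℝ) ^ 2 * (b * N) ≤ (crossG u u' : ℝ) ^ 2 * nN v :=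
      mul_le_mul_of_nonneg_left h1.le (sq_nonneg _)
    have hα2 : (α : ℝ) ^ 2 ≤ (C1 * P) ^ 2 := pow_le_pow_left₀ (by positivity) hαP 2
    have hβ2 : (β : ℝ) ^ 2 ≤ (C1 * P) ^ 2 := pow_le_pow_left₀ (by positivity) hβP 2
    have h10 : (α : ℝ) ^ 2 * nN u' ≤ (C1 * P) ^ 2 * N :=
      mul_le_mul hα2 hu' (by positivity) (by positivity)
    have h11 : (β : ℝ) ^ 2 * nN u ≤ (C1 * P) ^ 2 * N :=
      mul_le_mul hβ2 hu (by positivity) (by positivity)
    have h12 : ((crossG u u' : ℝ) ^ 2 * b) * N ≤ (2 * (C1 * P) ^ 2) * N := by nlinarith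
    have h13 := le_of_mul_le_mul_right h12 (by linarith)
    nlinarith [sq_nonneg ((C1 : ℝ) * P)]
  have hsb : 0 < √b := sqrt_pos.2 hb
  have hC : 2 * (C1 : ℝ) ≤ C2 * √b := by rwa [div_le_iff₀ hsb] at hC2
  have hfin : (crossG u u' : ℝ) ^ 2 ≤ ((C2 : ℝ) * P) ^ 2 := by
    have h14 : 4 * ((C1 : ℝ) * P) ^ 2 ≤ (C2 * √b) ^ 2 * P ^ 2 := by
      have h15 : (2 * (C1 : ℝ)) ^ 2 ≤ (C2 * √b) ^ 2 := pow_le_pow_left₀ (by positivity) hC 2
      nlinarith [sq_nonneg (P : ℝ)]
    have h16 : (C2 * √b) ^ 2 = (C2 : ℝ) ^ 2 * b := by rw [mul_pow, sq_sqrt hb.le]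
    rw [h16] at h14
    have h17 : (crossG u u' : ℝ) ^ 2 * b ≤ ((C2 : ℝ) * P) ^ 2 * b := by nlinarith
    exact le_of_mul_le_mul_right h17 hb
  have h18 := abs_le_of_sq_le_sq hfin (by positivity)
  exact_mod_cast h18

lemma prim_eq {u u' : GaussianInt} (hu : Prim u) (hu' : Prim u') (hc : crossG u u' = 0)
    (hd : 0 < dotG u u') : u' = u := by
  obtain ⟨s, t, hst⟩ : ∃ s t : ℤ, s * u.re + t * u.im = 1 := by
    have h1 : Int.gcd u.re u.im = 1 := hu
    exact Int.isCoprime_iff_gcd_eq_one.2 h1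
  have hc' : u.re * u'.im = u.im * u'.re := by
    unfold crossG at hc; linarith
  set k := s * u'.re + t * u'.im with hk
  have h1 : u'.re = k * u.re := by
    rw [hk]; linear_combination (-u'.re) * hst - t * hc'
  have h2 : u'.im = k * u.im := by
    rw [hk]; linear_combination (-u'.im) * hst + s * hc'
  have h3 : Int.gcd u'.re u'.im = 1 := hu'
  have h4 : k.natAbs = 1 := by
    rw [h1, h2, Int.gcd_mul_left] at h3
    exact Nat.eq_one_of_mul_eq_one_right h3
  have h5 : dotG u u' = k * (nN u : ℤ) := by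
    rw [nN_int']; unfold dotG; rw [h1, h2]; ring
  have h6 : 0 < k := by
    rw [h5] at hd
    have hn0 : (0 : ℤ) ≤ nN u := by positivity
    by_contra hk0
    have := mul_nonpos_of_nonpos_of_nonneg (not_lt.1 hk0) hn0
    linarith
  have h7 : k = 1 := by omega
  rw [h7, one_mul] at h1 h2
  exact Zsqrtd.ext h1 h2

lemma TT_self {A : Finset ℕ} {a b b' : ℝ} {N : ℕ} {u : GaussianInt} (hu : Prim u) (ha : 0 < a)
    (h : a * N < nN u) :
    (TT A b b' N u u : ℝ) ≤ A.card * (2 / √a + 1) := by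
  classical
  have hu0 : (0 : ℝ) < nN u := by exact_mod_cast nN_pos (prim_ne_zero hu)
  have hsub : ((ballG N).filter (fun v => b * N < nN v ∧ (nN v : ℝ) ≤ b' * N ∧
      0 < dotG u v ∧ 0 < dotG u v ∧ (∃ q ∈ A, crossG u v = (q : ℕ)) ∧
      (∃ q ∈ A, crossG u v = (q : ℕ)))) ⊆
      A.biUnion (fun q => (ballG N).filter (fun v => crossG u v = (q : ℤ))) := by
    intro v hv
    rw [Finset.mem_filter] at hv
    obtain ⟨hv0, -, -, -, -, ⟨q, hq, hqv⟩, -⟩ := hv
    rw [Finset.mem_biUnion]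
    exact ⟨q, hq, Finset.mem_filter.2 ⟨hv0, hqv⟩⟩
  have h1 : (TT A b b' N u u : ℝ) ≤
      ∑ q ∈ A, (((ballG N).filter (fun v => crossG u v = (q : ℤ))).card : ℝ) := by
    have h2 := (Finset.card_le_card hsub).trans Finset.card_biUnion_le
    unfold TT
    calc _ ≤ ((∑ q ∈ A, ((ballG N).filter (fun v => crossG u v = (q : ℤ))).card : ℕ) : ℝ) := by
          exact_mod_cast h2
      _ = _ := by push_cast; rfl
  refine h1.trans ?_
  rw [← nsmul_eq_mul]
  refine Finset.sum_le_card_nsmul _ _ _ fun q _ => ?_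
  refine (line_count u hu q N).trans ?_
  have h3 : √((N : ℝ) / nN u) ≤ 1 / √a := by
    rw [show (1 : ℝ) / √a = √(1 / a) by rw [Real.sqrt_div zero_le_one, Real.sqrt_one]]
    apply Real.sqrt_le_sqrt
    rw [div_le_div_iff₀ hu0 ha]
    linarith
  calc 2 * √((N : ℝ) / nN u) + 1 ≤ 2 * (1 / √a) + 1 := by linarith
    _ = 2 / √a + 1 := by ring

end GE1aux

open GE1aux in
/-- **E1**: reduction to `D = u × u' > 0`. Proof: `TT` is symmetric in `u, u'`. If `TT ≠ 0`, some
`v` has `<u,v>, <u',v> > 0`, `u × v = α > 0`, `u' × v = β > 0` and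
`<u,u'> N v = <u,v><u',v> + αβ > 0`, so `<u,u'> > 0`; and `(u × u') v = α u' - β u`, so
`|u × u'| √(b N) ≤ 2 C1 P √N`, hence `|u × u'| ≤ C2 P`. For `u × u' = 0`: `u' = u` (primitive,
`<u,u'> > 0`) and `TT u u ≤ |A| (2 / √a + 1)` by `line_count` for `N u > a N` (`fc u = 0`
otherwise). -/
theorem E1Gp (G : GaussianInt → ℝ) (hG : ∀ z, |G z| ≤ 1) : E1G G := by
  classical
  intro C1 a a' b b' ha hb hb'
  obtain ⟨C0, hC0, hcard⟩ := card_ann_le
  refine ⟨C0 * (2 / √a + 1), by positivity, ?_⟩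
  intro P hP A hA N hN C2 hC2
  have hN' : (1 : ℝ) ≤ N := by exact_mod_cast hN
  have hN0 : (0 : ℝ) ≤ N := by linarith
  have hVV : ((VV N).card : ℝ) ≤ C0 * N := by
    refine le_trans ?_ (hcard N hN0)
    exact_mod_cast Finset.card_le_card (pann_subset 0 (N : ℝ))
  have hVm : ∀ u ∈ VV N, (nN u : ℝ) ≤ N ∧ Prim u := by
    intro u hu
    unfold VV at hu
    rw [mem_pann hN0] at hu
    exact ⟨hu.1.2, hu.2⟩
  set f : GaussianInt × GaussianInt → ℝ := fun p =>
    fg G a a' N p.1 * fg G a a' N p.2 * (TT A b b' N p.1 p.2 : ℝ) with hf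
  set S := VV N ×ˢ VV N with hS
  have hsum : ∑ u ∈ VV N, ∑ u' ∈ VV N, fg G a a' N u * fg G a a' N u' * (TT A b b' N u u' : ℝ) =
      ∑ p ∈ S, f p := by
    rw [hS, Finset.sum_product]
  have hne : ∀ p ∈ S, f p ≠ 0 → (a * N < nN p.1 ∧ a * N < nN p.2) ∧ 0 < dotG p.1 p.2 ∧
      |crossG p.1 p.2| ≤ (C2 * P : ℕ) := by
    intro p hp h
    rw [hS, Finset.mem_product] at hp
    have h1 : fg G a a' N p.1 ≠ 0 := by
      rintro h0; apply h; simp only [hf]; rw [h0]; ring
    have h2 : fg G a a' N p.2 ≠ 0 := by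
      rintro h0; apply h; simp only [hf]; rw [h0]; ring
    have h3 : TT A b b' N p.1 p.2 ≠ 0 := by
      rintro h0; apply h; simp only [hf]; rw [h0]; simp
    exact ⟨⟨(fg_ne_zero h1).1, (fg_ne_zero h2).1⟩,
      TT_dot hA (hVm _ hp.1).1 (hVm _ hp.2).1 hb hN hC2 h3⟩
  -- the part with positive determinant
  have hpos : ∑ p ∈ S.filter (fun p => 0 < crossG p.1 p.2), f p =
      ∑ D ∈ Finset.Icc 1 (C2 * P), ∑ p ∈ lpairs a D N,
        fg G a a' N p.1 * fg G a a' N p.2 * (TT A b b' N p.1 p.2 : ℝ) := by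
    have h1 : ∀ D ∈ Finset.Icc 1 (C2 * P), ∑ p ∈ lpairs a D N,
        fg G a a' N p.1 * fg G a a' N p.2 * (TT A b b' N p.1 p.2 : ℝ) =
        ∑ p ∈ S, if crossG p.1 p.2 = (D : ℤ) then f p else 0 := by
      intro D _
      rw [← Finset.sum_filter]
      unfold lpairs dpairs
      rw [Finset.filter_filter]
      refine Finset.sum_subset_zero_on_sdiff ?_ ?_ ?_
      · intro p hp
        rw [Finset.mem_filter] at hp ⊢
        exact ⟨hp.1, hp.2.1.1⟩
      · intro p hp
        rw [Finset.mem_sdiff, Finset.mem_filter, Finset.mem_filter] at hp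
        by_contra h
        have h2 := hne p hp.1.1 h
        exact hp.2 ⟨hp.1.1, ⟨⟨hp.1.2, h2.2.1⟩, h2.1⟩⟩
      · intro p _; rfl
    rw [Finset.sum_congr rfl h1, Finset.sum_comm, Finset.sum_filter]
    refine Finset.sum_congr rfl fun p hp => ?_
    by_cases h0 : f p = 0
    · simp [h0]
    · obtain ⟨-, -, h3⟩ := hne p hp h0
      by_cases h4 : 0 < crossG p.1 p.2
      · rw [if_pos h4, Finset.sum_eq_single (crossG p.1 p.2).toNat]
        · rw [if_pos]
          rw [Int.toNat_of_nonneg h4.le]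
        · intro D _ hD
          rw [if_neg]
          intro h5
          apply hD
          rw [h5]; simp
        · intro h5
          exfalso
          apply h5
          rw [Finset.mem_Icc]
          have h6 := (abs_le.1 h3).2
          omega
      · rw [if_neg h4]
        symm
        refine Finset.sum_eq_zero fun D hD => ?_
        rw [if_neg]
        rw [Finset.mem_Icc] at hD
        omega
  have hneg : ∑ p ∈ S.filter (fun p => crossG p.1 p.2 < 0), f p =
      ∑ p ∈ S.filter (fun p => 0 < crossG p.1 p.2), f p := by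
    refine Finset.sum_nbij' Prod.swap Prod.swap ?_ ?_ ?_ ?_ ?_
    · intro p hp
      rw [Finset.mem_filter, hS, Finset.mem_product] at hp ⊢
      refine ⟨⟨hp.1.2, hp.1.1⟩, ?_⟩
      have := hp.2
      unfold crossG at this ⊢
      simp only [Prod.fst_swap, Prod.snd_swap]
      nlinarith
    · intro p hp
      rw [Finset.mem_filter, hS, Finset.mem_product] at hp ⊢
      refine ⟨⟨hp.1.2, hp.1.1⟩, ?_⟩
      have := hp.2
      unfold crossG at this ⊢
      simp only [Prod.fst_swap, Prod.snd_swap]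
      nlinarith
    · intro p _; simp
    · intro p _; simp
    · intro p _
      simp only [hf, Prod.fst_swap, Prod.snd_swap]
      rw [TT_comm]
      ring
  have hzero : |∑ p ∈ S.filter (fun p => crossG p.1 p.2 = 0), f p| ≤
      C0 * (2 / √a + 1) * N * A.card := by
    refine (Finset.abs_sum_le_sum_abs _ _).trans ?_
    have h1 : ∑ p ∈ S.filter (fun p => crossG p.1 p.2 = 0), |f p| ≤
        ∑ u ∈ VV N, |f (u, u)| := by
      have h2 : ∑ u ∈ VV N, |f (u, u)| = ∑ p ∈ (VV N).image (fun u => (u, u)), |f p| := by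
        rw [Finset.sum_image]
        intro u _ u' _ h
        exact (Prod.ext_iff.1 h).1
      rw [h2, ← Finset.sum_filter_ne_zero]
      refine Finset.sum_le_sum_of_subset_of_nonneg ?_ (fun _ _ _ => abs_nonneg _)
      intro p hp
      rw [Finset.mem_filter, Finset.mem_filter] at hp
      have h3 : f p ≠ 0 := by simpa using hp.2
      obtain ⟨-, h4, -⟩ := hne p hp.1.1 h3
      have hpS := hp.1.1
      rw [hS, Finset.mem_product] at hpS
      have h5 := prim_eq (hVm _ hpS.1).2 (hVm _ hpS.2).2 hp.1.2 h4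
      rw [Finset.mem_image]
      exact ⟨p.1, hpS.1, Prod.ext rfl h5.symm⟩
    refine h1.trans ?_
    have h6 : ∀ u ∈ VV N, |f (u, u)| ≤ A.card * (2 / √a + 1) := by
      intro u hu
      by_cases h0 : fg G a a' N u = 0
      · simp only [hf]
        rw [h0]
        simp only [zero_mul, abs_zero]
        positivity
      · have h7 := (fg_ne_zero h0).1
        simp only [hf]
        rw [abs_mul, abs_mul]
        have h8 := fg_abs_le hG a a' N u
        have h9 := TT_self (A := A) (b := b) (b' := b') (hVm u hu).2 ha h7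
        have h10 : |(TT A b b' N u u : ℝ)| = TT A b b' N u u := abs_of_nonneg (Nat.cast_nonneg _)
        rw [h10]
        have h11 : |fg G a a' N u| * |fg G a a' N u| ≤ 1 := by nlinarith [abs_nonneg (fg G a a' N u)]
        have h12 : (0 : ℝ) ≤ TT A b b' N u u := Nat.cast_nonneg _
        nlinarith
    refine (Finset.sum_le_card_nsmul _ _ _ h6).trans ?_
    rw [nsmul_eq_mul]
    have h13 : (0 : ℝ) ≤ A.card * (2 / √a + 1) := by positivity
    calc ((VV N).card : ℝ) * (A.card * (2 / √a + 1)) ≤ (C0 * N) * (A.card * (2 / √a + 1)) :=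
          mul_le_mul_of_nonneg_right hVV h13
      _ = _ := by ring
  have hsplit : ∑ p ∈ S, f p = ∑ p ∈ S.filter (fun p => crossG p.1 p.2 = 0), f p +
      (∑ p ∈ S.filter (fun p => 0 < crossG p.1 p.2), f p +
       ∑ p ∈ S.filter (fun p => crossG p.1 p.2 < 0), f p) := by
    rw [Finset.sum_filter, Finset.sum_filter, Finset.sum_filter, ← Finset.sum_add_distrib,
      ← Finset.sum_add_distrib]
    refine Finset.sum_congr rfl fun p _ => ?_
    rcases lt_trichotomy (crossG p.1 p.2) 0 with h | h | h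
    · rw [if_neg h.ne, if_neg (by omega), if_pos h]; ring
    · rw [if_pos h, if_neg (by omega), if_neg (by omega)]; ring
    · rw [if_neg h.ne', if_pos h, if_neg (by omega)]; ring
  rw [hsum, hsplit, hneg, hpos]
  refine (abs_add_le _ _).trans ?_
  refine add_le_add hzero ?_
  rw [← two_mul, abs_mul, abs_two]

end Pool.Agent.LogG
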