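import Pool.Agent.Lib.LogG.GDefs

/-!
# Log-averaged cancellation at `n ^ 2 + 1`: module E.STPAIR
-/

set_option autoImplicit false

namespace Pool.Agent.LogG

open Real
open Pool.Agent.NSqP
open Pool.Agent.LogCh
open Pool.Agent.MP484c84Par (ballG mem_ballG crossG dotG)

private theorem stpair_arcI_lt {K : ℕ} (hK : 1 ≤ K) (z : GaussianInt) : arcI K z < K := by
  unfold arcI
  have hK' : (0 : ℝ) < K := by exact_mod_cast hK
  have h0 : 0 ≤ ang z := Int.fract_nonneg _
  have h1 : ang z < 1 := Int.fract_lt_one _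
  rw [Nat.floor_lt (by positivity)]
  nlinarith

private theorem stpair_mod {K a c j : ℕ} (ha : a < K) (hc : c < K) (hj : j < K) :
    (c + K - a) % K = j ↔ c = (a + j) % K := by
  constructor
  · intro h
    rcases lt_or_ge c a with h1 | h1
    · have h2 : c + K - a < K := by omega
      rw [Nat.mod_eq_of_lt h2] at h
      have h3 : a + j = c + K := by omega
      rw [h3, Nat.add_mod_right, Nat.mod_eq_of_lt hc]
    · have h2 : c + K - a = (c - a) + K := by omega
      rw [h2, Nat.add_mod_right, Nat.mod_eq_of_lt (by omega)] at h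
      have h3 : a + j = c := by omega
      rw [h3, Nat.mod_eq_of_lt hc]
  · intro h
    rcases lt_or_ge (a + j) K with h1 | h1
    · rw [Nat.mod_eq_of_lt h1] at h
      have h2 : c + K - a = j + K := by omega
      rw [h2, Nat.add_mod_right, Nat.mod_eq_of_lt hj]
    · have h2 : a + j = (a + j - K) + K := by omega
      rw [h2, Nat.add_mod_right, Nat.mod_eq_of_lt (by omega)] at h
      have h3 : c + K - a = j := by omega
      rw [h3, Nat.mod_eq_of_lt hj]

/-- the shift permutes `range K` -/
private theorem stpair_shift {K j : ℕ} (hK : 1 ≤ K) (hj : j < K) (F : ℕ → ℝ) :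
    ∑ i ∈ Finset.range K, F ((i + j) % K) = ∑ i ∈ Finset.range K, F i := by
  refine Finset.sum_nbij' (fun i => (i + j) % K) (fun i => (i + K - j) % K) ?_ ?_ ?_ ?_ ?_
  · intro i _
    exact Finset.mem_range.2 (Nat.mod_lt _ hK)
  · intro i _
    exact Finset.mem_range.2 (Nat.mod_lt _ hK)
  · intro i hi
    have hi' := Finset.mem_range.1 hi
    have h1 : (i + j) % K < K := Nat.mod_lt _ hK
    exact (stpair_mod hj h1 hi').2 (by rw [Nat.add_comm])
  · intro i hi
    have hi' := Finset.mem_range.1 hi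
    have h1 : (i + K - j) % K < K := Nat.mod_lt _ hK
    have h2 := (stpair_mod hj hi' h1).1 rfl
    show ((i + K - j) % K + j) % K = i
    rw [Nat.add_comm]
    exact h2.symm
  · intro i _
    rfl

/-- **STPAIR**: for pairs in arcs at distance `j`. Proof: group by `i = arcI K p.1`; then
`arcI K p.2 = (i + j) % K` (`arcI < K`), and `i ↦ (i + j) % K` is a bijection of `range K`. -/
theorem STPAIRGp (G : GaussianInt → ℝ) (hG : ∀ z, |G z| ≤ 1) : STPAIRG G := by
  intro N K j r B z z' ρ₁ ρ₁' ρ₂ ρ₂' hK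
  classical
  intro hB
  have hB0 : 0 ≤ B := le_trans (Nat.cast_nonneg _) (hB 0)
  set S1 : Finset GaussianInt := pann (ρ₁ * N) (ρ₁' * N) with hS1
  set S2 : Finset GaussianInt := pann (ρ₂ * N) (ρ₂' * N) with hS2
  have hR0 : 0 ≤ B * ∑ i ∈ Finset.range K, |∑ w ∈ S2.filter
      (fun w => (r : GaussianInt) ∣ w - z' ∧ arcI K w = i), G w| :=
    mul_nonneg hB0 (Finset.sum_nonneg (fun _ _ => abs_nonneg _))
  rcases lt_or_ge j K with hj | hj
  swap
  · -- no pairs
    have h1 : (S1 ×ˢ S2).filter (fun p : GaussianInt × GaussianInt => jj K p = j ∧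
        (r : GaussianInt) ∣ p.1 - z ∧ (r : GaussianInt) ∣ p.2 - z') = ∅ := by
      rw [Finset.filter_eq_empty_iff]
      intro p _ hp
      have h2 : jj K p < K := by unfold jj; exact Nat.mod_lt _ hK
      omega
    rw [h1, Finset.sum_empty, abs_zero]
    exact hR0
  set A : ℕ → ℝ := fun i => ∑ w ∈ S2.filter
      (fun w => (r : GaussianInt) ∣ w - z' ∧ arcI K w = i), G w with hA
  have hmain : ∑ p ∈ (S1 ×ˢ S2).filter (fun p : GaussianInt × GaussianInt => jj K p = j ∧
        (r : GaussianInt) ∣ p.1 - z ∧ (r : GaussianInt) ∣ p.2 - z'), G p.1 * G p.2 =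
      ∑ u ∈ S1.filter (fun u => (r : GaussianInt) ∣ u - z), G u * A ((arcI K u + j) % K) := by
    rw [Finset.sum_filter, Finset.sum_product, Finset.sum_filter]
    refine Finset.sum_congr rfl (fun u _ => ?_)
    by_cases hu : (r : GaussianInt) ∣ u - z
    · rw [if_pos hu, hA, Finset.mul_sum, Finset.sum_filter]
      refine Finset.sum_congr rfl (fun w _ => ?_)
      have h3 : jj K (u, w) = j ↔ arcI K w = (arcI K u + j) % K := by
        unfold jj
        exact stpair_mod (stpair_arcI_lt hK u) (stpair_arcI_lt hK w) hj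
      by_cases hw : (r : GaussianInt) ∣ w - z'
      · by_cases h4 : jj K (u, w) = j
        · rw [if_pos ⟨h4, hu, hw⟩, if_pos ⟨hw, h3.1 h4⟩]
        · rw [if_neg (fun h => h4 h.1), if_neg (fun h => h4 (h3.2 h.2))]
      · rw [if_neg (fun h => hw h.2.2), if_neg (fun h => hw h.1)]
    · rw [if_neg hu]
      refine Finset.sum_eq_zero (fun w _ => ?_)
      rw [if_neg (fun h => hu h.2.1)]
  rw [hmain]
  calc |∑ u ∈ S1.filter (fun u => (r : GaussianInt) ∣ u - z), G u * A ((arcI K u + j) % K)|
      ≤ ∑ u ∈ S1.filter (fun u => (r : GaussianInt) ∣ u - z),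
          |G u * A ((arcI K u + j) % K)| := Finset.abs_sum_le_sum_abs _ _
    _ ≤ ∑ u ∈ S1.filter (fun u => (r : GaussianInt) ∣ u - z), |A ((arcI K u + j) % K)| := by
        refine Finset.sum_le_sum (fun u _ => ?_)
        rw [abs_mul]
        have h5 := hG u
        have h6 := abs_nonneg (A ((arcI K u + j) % K))
        nlinarith [abs_nonneg (G u)]
    _ ≤ ∑ u ∈ S1, |A ((arcI K u + j) % K)| :=
        Finset.sum_le_sum_of_subset_of_nonneg (Finset.filter_subset _ _)
          (fun _ _ _ => abs_nonneg _)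
    _ = ∑ i ∈ Finset.range K, ∑ u ∈ S1.filter (fun u => arcI K u = i),
          |A ((arcI K u + j) % K)| :=
        (Finset.sum_fiberwise_of_maps_to (fun u _ => Finset.mem_range.2 (stpair_arcI_lt hK u))
          _).symm
    _ = ∑ i ∈ Finset.range K, (((S1.filter (fun u => arcI K u = i)).card : ℕ) : ℝ) *
          |A ((i + j) % K)| := by
        refine Finset.sum_congr rfl (fun i _ => ?_)
        rw [Finset.sum_congr rfl (fun u hu => by rw [(Finset.mem_filter.1 hu).2]),
          Finset.sum_const, nsmul_eq_mul]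
    _ ≤ ∑ i ∈ Finset.range K, B * |A ((i + j) % K)| :=
        Finset.sum_le_sum (fun i _ => mul_le_mul_of_nonneg_right (hB i) (abs_nonneg _))
    _ = B * ∑ i ∈ Finset.range K, |A i| := by
        rw [← Finset.mul_sum, stpair_shift hK hj (fun i => |A i|)]

end Pool.Agent.LogG
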