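import Pool.Agent.Lib.LogG.GDefs

/-!
# Log-averaged cancellation at `n ^ 2 + 1`: module E.STR
-/

set_option autoImplicit false

namespace Pool.Agent.LogG

open Real
open Pool.Agent.NSqP
open Pool.Agent.LogCh
open Pool.Agent.MP484c84Par (ballG mem_ballG crossG dotG)

private lemma es_dvd {m : ℕ} {z : GaussianInt} :
    ((m : ℕ) : GaussianInt) ∣ z ↔ (m : ℤ) ∣ z.re ∧ (m : ℤ) ∣ z.im := by
  have h := Zsqrtd.intCast_dvd (d := -1) (m : ℤ) z
  rw [Int.cast_natCast] at h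
  exact h

/-- the residues of a pair -/
private def es_res (m : ℕ) (p : GaussianInt × GaussianInt) : ℤ × ℤ × ℤ × ℤ :=
  (p.1.re % m, p.1.im % m, p.2.re % m, p.2.im % m)

private lemma es_res_eq {m : ℕ} {p q : GaussianInt × GaussianInt} :
    es_res m p = es_res m q ↔
      ((m : ℕ) : GaussianInt) ∣ p.1 - q.1 ∧ ((m : ℕ) : GaussianInt) ∣ p.2 - q.2 := by
  unfold es_res
  rw [es_dvd, es_dvd, Zsqrtd.re_sub, Zsqrtd.im_sub, Zsqrtd.re_sub, Zsqrtd.im_sub,
    Prod.mk.injEq, Prod.mk.injEq, Prod.mk.injEq, Int.emod_eq_emod_iff_emod_sub_eq_zero,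
    Int.emod_eq_emod_iff_emod_sub_eq_zero, Int.emod_eq_emod_iff_emod_sub_eq_zero,
    Int.emod_eq_emod_iff_emod_sub_eq_zero, ← Int.dvd_iff_emod_eq_zero,
    ← Int.dvd_iff_emod_eq_zero, ← Int.dvd_iff_emod_eq_zero, ← Int.dvd_iff_emod_eq_zero, and_assoc]

/-- splitting into classes -/
private lemma es_class {m : ℕ} (hm : 1 ≤ m) (s : Finset (GaussianInt × GaussianInt))
    (F : GaussianInt × GaussianInt → ℝ) (g : GaussianInt × GaussianInt → ℂ) {B S : ℝ}
    (hB : ∀ p ∈ s, ‖g p‖ ≤ B) (hB0 : 0 ≤ B)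
    (hg : ∀ p ∈ s, ∀ q ∈ s, ((m : ℕ) : GaussianInt) ∣ p.1 - q.1 →
      ((m : ℕ) : GaussianInt) ∣ p.2 - q.2 → g p = g q)
    (hS : open Classical in ∀ z z' : GaussianInt, |∑ p ∈ s.filter (fun p =>
      ((m : ℕ) : GaussianInt) ∣ p.1 - z ∧ ((m : ℕ) : GaussianInt) ∣ p.2 - z'), F p| ≤ S) :
    ‖∑ p ∈ s, ((F p : ℝ) : ℂ) * g p‖ ≤ (m : ℝ) ^ 4 * (B * S) := by
  classical
  have hS0 : 0 ≤ S := le_trans (abs_nonneg _) (hS 0 0)
  obtain ⟨I, hI⟩ : ∃ I : Finset ℤ, I = Finset.Ico (0 : ℤ) m := ⟨_, rfl⟩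
  have hIc : I.card = m := by rw [hI, Int.card_Ico]; simp
  obtain ⟨Q, hQ⟩ : ∃ Q : Finset (ℤ × ℤ × ℤ × ℤ), Q = I ×ˢ I ×ˢ I ×ˢ I := ⟨_, rfl⟩
  have hm0 : (0 : ℤ) < m := by exact_mod_cast hm
  have hmI : ∀ x : ℤ, x % m ∈ I := fun x => by
    rw [hI, Finset.mem_Ico]
    exact ⟨Int.emod_nonneg x hm0.ne', Int.emod_lt_of_pos x hm0⟩
  have hmaps : ∀ p ∈ s, es_res m p ∈ Q := by
    intro p _
    rw [hQ]
    simp only [Finset.mem_product, es_res]
    exact ⟨hmI _, hmI _, hmI _, hmI _⟩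
  rw [← Finset.sum_fiberwise_of_maps_to hmaps]
  have hfib : ∀ q ∈ Q, ‖∑ p ∈ s.filter (fun p => es_res m p = q), ((F p : ℝ) : ℂ) * g p‖ ≤
      B * S := by
    intro q _
    by_cases he : s.filter (fun p => es_res m p = q) = ∅
    · rw [he, Finset.sum_empty, norm_zero]
      positivity
    · obtain ⟨p0, hp0⟩ := Finset.nonempty_iff_ne_empty.2 he
      rw [Finset.mem_filter] at hp0
      have h1 : ∑ p ∈ s.filter (fun p => es_res m p = q), ((F p : ℝ) : ℂ) * g p =
          ((∑ p ∈ s.filter (fun p => es_res m p = q), F p : ℝ) : ℂ) * g p0 := by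
        push_cast
        rw [Finset.sum_mul]
        refine Finset.sum_congr rfl fun p hp => ?_
        rw [Finset.mem_filter] at hp
        have h2 : es_res m p = es_res m p0 := by rw [hp.2, hp0.2]
        rw [es_res_eq] at h2
        rw [hg p hp.1 p0 hp0.1 h2.1 h2.2]
      have h3 : s.filter (fun p => es_res m p = q) = s.filter (fun p =>
          ((m : ℕ) : GaussianInt) ∣ p.1 - p0.1 ∧ ((m : ℕ) : GaussianInt) ∣ p.2 - p0.2) := by
        apply Finset.filter_congr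
        intro p _
        rw [← hp0.2]
        exact es_res_eq
      rw [h1, norm_mul, Complex.norm_real, Real.norm_eq_abs, h3, mul_comm B S]
      exact mul_le_mul (hS p0.1 p0.2) (hB p0 hp0.1) (norm_nonneg _) hS0
  calc _ ≤ ∑ q ∈ Q, ‖∑ p ∈ s.filter (fun p => es_res m p = q), ((F p : ℝ) : ℂ) * g p‖ :=
        norm_sum_le _ _
    _ ≤ ∑ _q ∈ Q, B * S := Finset.sum_le_sum hfib
    _ = (m : ℝ) ^ 4 * (B * S) := by
        rw [Finset.sum_const, nsmul_eq_mul, hQ, Finset.card_product, Finset.card_product,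
          Finset.card_product, hIc]
        push_cast
        ring

private lemma es_SA {r : ℕ} (A : Finset ℕ) (ψ : DirichletCharacter ℂ r) : ‖SA A ψ‖ ≤ A.card := by
  unfold SA
  calc _ ≤ ∑ α ∈ A, ‖ψ ((α : ℕ) : ZMod r)‖ := norm_sum_le _ _
    _ ≤ ∑ _α ∈ A, (1 : ℝ) := Finset.sum_le_sum fun α _ => DirichletCharacter.norm_le_one ψ _
    _ = A.card := by rw [Finset.sum_const, nsmul_eq_mul, mul_one]

private lemma es_mr_le {r : ℕ} (hr : 1 ≤ r) (A : Finset ℕ) (c : ℤ) :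
    ‖mr A r c‖ ≤ r * (A.card : ℝ) ^ 2 := by
  classical
  have : NeZero r := ⟨by omega⟩
  unfold mr
  have hcard : (Fintype.card (DirichletCharacter ℂ r) : ℝ) ≤ r := by
    have h := DirichletCharacter.card_eq_totient_of_hasEnoughRootsOfUnity ℂ r
    rw [Nat.card_eq_fintype_card] at h
    rw [h]
    exact_mod_cast Nat.totient_le r
  calc _ ≤ ∑ ψ : DirichletCharacter ℂ r, (A.card : ℝ) ^ 2 := by
        refine (norm_sum_le _ _).trans (Finset.sum_le_sum fun ψ _ => ?_)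
        split_ifs
        · rw [norm_mul, Complex.norm_real, Real.norm_eq_abs, abs_of_nonneg (by positivity)]
          have h1 := DirichletCharacter.norm_le_one ψ ((c : ℤ) : ZMod r)
          have h2 := es_SA A ψ
          have h3 : ‖SA A ψ‖ ^ 2 ≤ (A.card : ℝ) ^ 2 := pow_le_pow_left₀ (norm_nonneg _) h2 2
          calc _ ≤ 1 * (A.card : ℝ) ^ 2 := mul_le_mul h1 h3 (by positivity) zero_le_one
            _ = _ := one_mul _
        · rw [norm_zero]; positivity
    _ = (Fintype.card (DirichletCharacter ℂ r) : ℝ) * (A.card : ℝ) ^ 2 := by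
        rw [Finset.sum_const, nsmul_eq_mul, Finset.card_univ]
    _ ≤ r * (A.card : ℝ) ^ 2 := mul_le_mul_of_nonneg_right hcard (by positivity)

private lemma es_mr_congr {r : ℕ} (A : Finset ℕ) {c c' : ℤ} (h : (r : ℤ) ∣ c - c') :
    mr A r c = mr A r c' := by
  have : ((c : ℤ) : ZMod r) = ((c' : ℤ) : ZMod r) := by
    rw [← sub_eq_zero, ← Int.cast_sub, ZMod.intCast_zmod_eq_zero_iff_dvd]
    exact h
  unfold mr
  rw [this]

/-- uniqueness of multipliers -/
private lemma es_uniq {r : ℕ} {u v : GaussianInt} (hu : Prim u) {c c' : ℤ}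
    (h : ((r : ℕ) : GaussianInt) ∣ v - (c : GaussianInt) * u)
    (h' : ((r : ℕ) : GaussianInt) ∣ v - (c' : GaussianInt) * u) : (r : ℤ) ∣ c - c' := by
  have h1 := dvd_sub h' h
  have e : v - (c' : GaussianInt) * u - (v - (c : GaussianInt) * u) =
      ((c - c' : ℤ) : GaussianInt) * u := by push_cast; ring
  rw [e, es_dvd] at h1
  simp only [Zsqrtd.re_mul, Zsqrtd.im_mul, Zsqrtd.re_intCast, Zsqrtd.im_intCast] at h1
  have hg : Int.gcd u.re u.im = 1 := hu
  have hb := Int.gcd_eq_gcd_ab u.re u.im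
  rw [hg] at hb
  have h2 : c - c' = ((c - c') * u.re) * Int.gcdA u.re u.im + ((c - c') * u.im) *
      Int.gcdB u.re u.im := by
    have : (1 : ℤ) = u.re * Int.gcdA u.re u.im + u.im * Int.gcdB u.re u.im := by
      exact_mod_cast hb
    linear_combination (c - c') * this
  rw [h2]
  apply dvd_add
  · apply Dvd.dvd.mul_right
    simpa using h1.1
  · apply Dvd.dvd.mul_right
    simpa using h1.2

/-- existence of multipliers -/
private lemma es_exist {r : ℕ} {u v : GaussianInt} (hu : Prim u) (h : (r : ℤ) ∣ crossG u v) :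
    ∃ c : ℤ, ((r : ℕ) : GaussianInt) ∣ v - (c : GaussianInt) * u := by
  have hg : Int.gcd u.re u.im = 1 := hu
  have hb := Int.gcd_eq_gcd_ab u.re u.im
  rw [hg] at hb
  have h1 : (1 : ℤ) = u.re * Int.gcdA u.re u.im + u.im * Int.gcdB u.re u.im := by
    exact_mod_cast hb
  refine ⟨Int.gcdA u.re u.im * v.re + Int.gcdB u.re u.im * v.im, ?_⟩
  rw [es_dvd]
  unfold crossG at h
  constructor
  · have e : (v - ((Int.gcdA u.re u.im * v.re + Int.gcdB u.re u.im * v.im : ℤ) : GaussianInt) *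
        u).re = -(Int.gcdB u.re u.im) * (u.re * v.im - u.im * v.re) := by
      simp
      linear_combination v.re * h1
    rw [e]
    exact Dvd.dvd.mul_left h _
  · have e : (v - ((Int.gcdA u.re u.im * v.re + Int.gcdB u.re u.im * v.im : ℤ) : GaussianInt) *
        u).im = (Int.gcdA u.re u.im) * (u.re * v.im - u.im * v.re) := by
      simp
      linear_combination v.im * h1
    rw [e]
    exact Dvd.dvd.mul_left h _

private lemma es_cof {r : ℕ} {p : GaussianInt × GaussianInt} (hu : Prim p.1)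
    (h : (r : ℤ) ∣ crossG p.1 p.2) :
    ((r : ℕ) : GaussianInt) ∣ p.2 - (cof r p : GaussianInt) * p.1 := by
  have he := es_exist hu h
  unfold cof
  rw [dif_pos he]
  exact he.choose_spec

/-- the class function -/
private noncomputable def es_g (A : Finset ℕ) (d r : ℕ) (p : GaussianInt × GaussianInt) : ℂ :=
  open Classical in if (d : ℤ) ∣ crossG p.1 p.2 ∧ (r : ℤ) ∣ crossG p.1 p.2 then
    mr A r (cof r p) else 0

private lemma es_g_le {d r : ℕ} (hr : 1 ≤ r) (A : Finset ℕ) (p : GaussianInt × GaussianInt) :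
    ‖es_g A d r p‖ ≤ r * (A.card : ℝ) ^ 2 := by
  unfold es_g
  split_ifs
  · exact es_mr_le hr A _
  · rw [norm_zero]; positivity

private lemma es_g_inv {d r : ℕ} (A : Finset ℕ) {p q : GaussianInt × GaussianInt}
    (hp : Prim p.1) (hq : Prim q.1) (h1 : ((d * r : ℕ) : GaussianInt) ∣ p.1 - q.1)
    (h2 : ((d * r : ℕ) : GaussianInt) ∣ p.2 - q.2) : es_g A d r p = es_g A d r q := by
  have h3 : ((d * r : ℕ) : ℤ) ∣ crossG p.1 p.2 - crossG q.1 q.2 := by
    rw [es_dvd, Zsqrtd.re_sub, Zsqrtd.im_sub] at h1 h2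
    have e : crossG p.1 p.2 - crossG q.1 q.2 = p.1.re * (p.2.im - q.2.im) +
        (p.1.re - q.1.re) * q.2.im - (p.1.im * (p.2.re - q.2.re) +
        (p.1.im - q.1.im) * q.2.re) := by
      unfold crossG; ring
    rw [e]
    exact dvd_sub (dvd_add (Dvd.dvd.mul_left h2.2 _) (Dvd.dvd.mul_right h1.1 _))
      (dvd_add (Dvd.dvd.mul_left h2.1 _) (Dvd.dvd.mul_right h1.2 _))
  have hd : (d : ℤ) ∣ crossG p.1 p.2 ↔ (d : ℤ) ∣ crossG q.1 q.2 := by
    have h4 : (d : ℤ) ∣ crossG p.1 p.2 - crossG q.1 q.2 :=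
      dvd_trans (by push_cast; exact dvd_mul_right _ _) h3
    constructor
    · intro h
      have := dvd_sub h h4
      simpa using this
    · intro h
      have := dvd_add h4 h
      simpa using this
  have hr : (r : ℤ) ∣ crossG p.1 p.2 ↔ (r : ℤ) ∣ crossG q.1 q.2 := by
    have h4 : (r : ℤ) ∣ crossG p.1 p.2 - crossG q.1 q.2 :=
      dvd_trans (by push_cast; exact dvd_mul_left _ _) h3
    constructor
    · intro h
      have := dvd_sub h h4
      simpa using this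
    · intro h
      have := dvd_add h4 h
      simpa using this
  unfold es_g
  by_cases hc : (d : ℤ) ∣ crossG p.1 p.2 ∧ (r : ℤ) ∣ crossG p.1 p.2
  · rw [if_pos hc, if_pos ⟨hd.1 hc.1, hr.1 hc.2⟩]
    apply es_mr_congr
    have h5 := es_cof hp hc.2
    have h6 := es_cof hq (hr.1 hc.2)
    refine es_uniq (v := p.2) hp h5 ?_
    have hrm : ((r : ℕ) : GaussianInt) ∣ ((d * r : ℕ) : GaussianInt) := by
      push_cast; exact dvd_mul_left _ _
    have e : p.2 - (cof r q : GaussianInt) * p.1 = (p.2 - q.2) +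
        (q.2 - (cof r q : GaussianInt) * q.1) - (cof r q : GaussianInt) * (p.1 - q.1) := by ring
    rw [e]
    exact dvd_sub (dvd_add (hrm.trans h2) h6) (Dvd.dvd.mul_left (hrm.trans h1) _)
  · rw [if_neg hc, if_neg (fun h => hc ⟨hd.2 h.1, hr.2 h.2⟩)]

/-- weights -/
private noncomputable def es_w (d : ℕ) : ℝ :=
  open Classical in if Squarefree d then 1 / (Nat.totient d : ℝ) else 0

private lemma es_w_nonneg (d : ℕ) : 0 ≤ es_w d := by
  unfold es_w; split_ifs <;> positivity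

private lemma es_w_le (d : ℕ) : es_w d ≤ 1 := by
  unfold es_w
  split_ifs with h
  · have h0 : d ≠ 0 := h.ne_zero
    have h1 : 1 ≤ Nat.totient d := Nat.totient_pos.2 (Nat.pos_of_ne_zero h0)
    have h2 : (1 : ℝ) ≤ Nat.totient d := by exact_mod_cast h1
    rw [div_le_one (by linarith)]
    exact h2
  · exact zero_le_one

private noncomputable def es_Gam (A : Finset ℕ) (R0 R1 : ℕ) (p : GaussianInt × GaussianInt) : ℂ :=
  ∑ d ∈ Finset.Icc 1 R1, ∑ r ∈ Finset.Icc 1 R0, ((es_w d : ℝ) : ℂ) * es_g A d r p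

private lemma es_MT (hC : COFStmt) {a : ℝ} {A : Finset ℕ} {R0 R1 D N P : ℕ} (hD : 1 ≤ D)
    (hP : 1 ≤ P) {p : GaussianInt × GaussianInt} (hp : p ∈ lpairs a D N) (F : ℝ) :
    ((F * (D / P) : ℝ) : ℂ) * MT A R0 R1 D (cof D p) =
      ((1 / P : ℝ) : ℂ) * (((F : ℝ) : ℂ) * es_Gam A R0 R1 p) := by
  classical
  unfold lpairs at hp
  rw [Finset.mem_filter] at hp
  have hdp := hp.1
  have hco := (hC D N hD p hdp).1
  unfold dpairs at hdp
  rw [Finset.mem_filter, Finset.mem_product] at hdp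
  have hprim : Prim p.1 := by
    have := hdp.1.1
    unfold VV pann at this
    exact (Finset.mem_filter.1 this).2
  have hcr : crossG p.1 p.2 = (D : ℤ) := hdp.2.1
  have hD0 : (D : ℂ) ≠ 0 := by exact_mod_cast (by omega : D ≠ 0)
  have hP0 : (P : ℂ) ≠ 0 := by exact_mod_cast (by omega : P ≠ 0)
  have h1 : ((tph R1 D : ℝ) : ℂ) * ∑ r ∈ (Finset.Icc 1 R0).filter (fun r => r ∣ D),
      mr A r (cof D p) = es_Gam A R0 R1 p := by
    unfold tph es_Gam
    push_cast
    rw [Finset.sum_mul_sum, Finset.sum_filter]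
    refine Finset.sum_congr rfl fun d _ => ?_
    by_cases hd : d ∣ D ∧ Squarefree d
    · rw [if_pos hd, Finset.sum_filter]
      refine Finset.sum_congr rfl fun r _ => ?_
      by_cases hr : r ∣ D
      · rw [if_pos hr]
        have e1 : es_g A d r p = mr A r (cof D p) := by
          unfold es_g
          rw [hcr, if_pos ⟨by exact_mod_cast hd.1, by exact_mod_cast hr⟩]
          apply es_mr_congr
          have hrD : ((r : ℕ) : GaussianInt) ∣ ((D : ℕ) : GaussianInt) := by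
            obtain ⟨k, hk⟩ := hr
            rw [hk]
            push_cast
            exact dvd_mul_right _ _
          exact es_uniq hprim (es_cof hprim (by rw [hcr]; exact_mod_cast hr)) (hrD.trans hco)
        rw [e1]
        unfold es_w
        rw [if_pos hd.2]
        push_cast
        rfl
      · rw [if_neg hr]
        have e1 : es_g A d r p = 0 := by
          unfold es_g
          rw [hcr, if_neg (fun h => hr (by exact_mod_cast h.2))]
        rw [e1, mul_zero]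
    · rw [if_neg hd]
      symm
      apply Finset.sum_eq_zero
      intro r _
      by_cases hsq : Squarefree d
      · have hd' : ¬ d ∣ D := fun h => hd ⟨h, hsq⟩
        have e1 : es_g A d r p = 0 := by
          unfold es_g
          rw [hcr, if_neg (fun h => hd' (by exact_mod_cast h.1))]
        rw [e1, mul_zero]
      · unfold es_w
        rw [if_neg hsq]
        simp
  rw [← h1]
  unfold MT
  push_cast
  field_simp

/-- **ESTR** (from `STRUCTStmt`, `COFStmt`): `(D/P) MT = (1/P) ∑_{d ≤ R1, d ∣ D} μ²(d)/φ(d)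
∑_{r ≤ R0, r ∣ D} mr A r c`; `1[d ∣ D] 1[r ∣ D] mr A r (cof D p)` depends only on `p.1`, `p.2`
modulo `d r` (for `D = u × u'`; a multiplier modulo `D` is one modulo `r`, unique modulo `r`) and is
`≤ r |A|²`: split into the `(d r)^4` pairs of classes and use `STRUCT` for each. -/
theorem ESTRGp {G : GaussianInt → ℝ} (hS : STRUCTG G) (hC : COFStmt) : ESTRG G := by
  classical
  intro a a' κ L ε C2 R0 R1 ha haa' ha1 hκ hL hε hC2
  have hC2' : (0 : ℝ) < C2 := by exact_mod_cast hC2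
  obtain ⟨T, hT⟩ : ∃ T : ℝ, T = (R1 : ℝ) * (R0 * (((R1 : ℝ) * R0) ^ 4 * R0)) + 1 := ⟨_, rfl⟩
  have hT0 : 0 < T := by rw [hT]; positivity
  obtain ⟨ε1, hε1⟩ : ∃ ε1 : ℝ, ε1 = ε / T := ⟨_, rfl⟩
  have hε10 : 0 < ε1 := by rw [hε1]; positivity
  have h1 : ∀ m : ℕ, ∃ P0 : ℕ, 1 ≤ m → ∀ P : ℕ, P0 ≤ P → ∃ N0 : ℕ, ∀ N : ℕ, N0 ≤ N →
    ∀ Φ : ℝ → ℝ → ℝ → ℝ, LipW a κ C2 L Φ → ∀ z z' : GaussianInt,
      |∑ p ∈ (VV N ×ˢ VV N).filter (fun p : GaussianInt × GaussianInt => 0 < dotG p.1 p.2 ∧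
          (m : GaussianInt) ∣ p.1 - z ∧ (m : GaussianInt) ∣ p.2 - z'),
        fg G a a' N p.1 * fg G a a' N p.2 *
          Φ ((nN p.1 : ℝ) / N) ((nN p.2 : ℝ) / N) ((crossG p.1 p.2 : ℝ) / P)| ≤ ε1 * N * P := by
    intro m
    by_cases hm : 1 ≤ m
    · obtain ⟨P0, h⟩ := hS a a' κ C2 L ε1 m ha haa' ha1 hκ hC2' hL hε10 hm
      exact ⟨P0, fun _ => h⟩
    · exact ⟨0, fun h => absurd h hm⟩
  choose PP hPP using h1
  have h2 : ∀ P m : ℕ, ∃ N0 : ℕ, 1 ≤ m → PP m ≤ P → ∀ N : ℕ, N0 ≤ N →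
    ∀ Φ : ℝ → ℝ → ℝ → ℝ, LipW a κ C2 L Φ → ∀ z z' : GaussianInt,
      |∑ p ∈ (VV N ×ˢ VV N).filter (fun p : GaussianInt × GaussianInt => 0 < dotG p.1 p.2 ∧
          (m : GaussianInt) ∣ p.1 - z ∧ (m : GaussianInt) ∣ p.2 - z'),
        fg G a a' N p.1 * fg G a a' N p.2 *
          Φ ((nN p.1 : ℝ) / N) ((nN p.2 : ℝ) / N) ((crossG p.1 p.2 : ℝ) / P)| ≤ ε1 * N * P := by
    intro P m
    by_cases hm : 1 ≤ m
    · by_cases hP : PP m ≤ P
      · obtain ⟨N0, h⟩ := hPP m hm P hP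
        exact ⟨N0, fun _ _ => h⟩
      · exact ⟨0, fun _ h => absurd h hP⟩
    · exact ⟨0, fun h => absurd h hm⟩
  choose NN hNN using h2
  refine ⟨max 1 ((Finset.range (R1 * R0 + 1)).sup PP), fun P hP =>
    ⟨(Finset.range (R1 * R0 + 1)).sup (NN P), fun N hN Φ hΦ A => ?_⟩⟩
  have hP1 : 1 ≤ P := (le_max_left _ _).trans hP
  have hPs : (Finset.range (R1 * R0 + 1)).sup PP ≤ P := (le_max_right _ _).trans hP
  have hP0 : (0 : ℝ) < P := by exact_mod_cast hP1
  obtain ⟨F, hF⟩ : ∃ F : GaussianInt × GaussianInt → ℝ, F = fun p =>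
    fg G a a' N p.1 * fg G a a' N p.2 *
      Φ ((nN p.1 : ℝ) / N) ((nN p.2 : ℝ) / N) ((crossG p.1 p.2 : ℝ) / P) := ⟨_, rfl⟩
  obtain ⟨s, hs⟩ : ∃ s : Finset (GaussianInt × GaussianInt), s =
    (VV N ×ˢ VV N).filter (fun p : GaussianInt × GaussianInt => 0 < dotG p.1 p.2) := ⟨_, rfl⟩
  have hVV : ∀ w ∈ VV N, 0 < nN w ∧ (nN w : ℝ) ≤ N ∧ Prim w := by
    intro w hw
    unfold VV at hw
    rw [mem_pann (Nat.cast_nonneg _)] at hw
    exact ⟨by exact_mod_cast hw.1.1, hw.1.2, hw.2⟩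
  have hfc : ∀ w : GaussianInt, fg G a a' N w ≠ 0 → a * N < nN w := by
    intro w hw
    by_contra h
    apply hw
    unfold fg
    rw [if_neg (fun h' => h h'.1)]
  -- step A
  have hA : ∑ D ∈ Finset.Icc 1 (C2 * P), ∑ p ∈ lpairs a D N, ((fg G a a' N p.1 * fg G a a' N p.2 *
        Φ ((nN p.1 : ℝ) / N) ((nN p.2 : ℝ) / N) ((D : ℝ) / P) * (D / P) : ℝ) : ℂ) *
          MT A R0 R1 D (cof D p) =
      ((1 / P : ℝ) : ℂ) * ∑ D ∈ Finset.Icc 1 (C2 * P), ∑ p ∈ lpairs a D N,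
        ((F p : ℝ) : ℂ) * es_Gam A R0 R1 p := by
    rw [Finset.mul_sum]
    refine Finset.sum_congr rfl fun D hD => ?_
    rw [Finset.mul_sum]
    refine Finset.sum_congr rfl fun p hp => ?_
    rw [es_MT hC (Finset.mem_Icc.1 hD).1 hP1 hp]
    have hcr : crossG p.1 p.2 = (D : ℤ) := by
      unfold lpairs dpairs at hp
      rw [Finset.mem_filter, Finset.mem_filter] at hp
      exact hp.1.2.1
    rw [hF]
    simp only [hcr, Int.cast_natCast]
  -- step B
  have hB : ∑ D ∈ Finset.Icc 1 (C2 * P), ∑ p ∈ lpairs a D N,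
        ((F p : ℝ) : ℂ) * es_Gam A R0 R1 p = ∑ p ∈ s, ((F p : ℝ) : ℂ) * es_Gam A R0 R1 p := by
    have e1 : ∀ D : ℕ, ∑ p ∈ lpairs a D N, ((F p : ℝ) : ℂ) * es_Gam A R0 R1 p =
        ∑ p ∈ VV N ×ˢ VV N, if (crossG p.1 p.2 = (D : ℤ) ∧ 0 < dotG p.1 p.2) ∧
          (a * N < nN p.1 ∧ a * N < nN p.2) then ((F p : ℝ) : ℂ) * es_Gam A R0 R1 p else 0 := by
      intro D
      unfold lpairs dpairs
      rw [Finset.filter_filter, Finset.sum_filter]
    rw [Finset.sum_congr rfl fun D _ => e1 D, Finset.sum_comm, hs, Finset.sum_filter]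
    refine Finset.sum_congr rfl fun p hp => ?_
    rw [Finset.mem_product] at hp
    obtain ⟨n1, l1, -⟩ := hVV p.1 hp.1
    obtain ⟨n2, l2, -⟩ := hVV p.2 hp.2
    have hN0 : (0 : ℝ) < N := lt_of_lt_of_le (by exact_mod_cast n1) l1
    by_cases hFp : F p = 0
    · rw [hFp]
      simp
    · have hFp' : fg G a a' N p.1 * fg G a a' N p.2 *
          Φ ((nN p.1 : ℝ) / N) ((nN p.2 : ℝ) / N) ((crossG p.1 p.2 : ℝ) / P) ≠ 0 := by
        rw [hF] at hFp
        exact hFp
      have f12 := left_ne_zero_of_mul hFp'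
      have f3 := right_ne_zero_of_mul hFp'
      have f1 := hfc p.1 (left_ne_zero_of_mul f12)
      have f2 := hfc p.2 (right_ne_zero_of_mul f12)
      have c1 : κ < (crossG p.1 p.2 : ℝ) / P := by
        by_contra h
        exact f3 (hΦ.lo _ _ _ (not_lt.1 h))
      have c2 : (crossG p.1 p.2 : ℝ) / P < C2 := by
        by_contra h
        exact f3 (hΦ.hi _ _ _ (by positivity) (by positivity) (by rw [div_le_one hN0]; exact l1)
          (by rw [div_le_one hN0]; exact l2) (not_lt.1 h))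
      have c3 : (0 : ℝ) < crossG p.1 p.2 := by
        have := hκ.trans c1
        rcases (div_pos_iff.1 this) with h | h
        · exact h.1
        · linarith [h.2]
      have c4 : (crossG p.1 p.2 : ℝ) < C2 * P := by
        rwa [div_lt_iff₀ hP0] at c2
      have c5 : 0 < crossG p.1 p.2 := by exact_mod_cast c3
      have c6 : crossG p.1 p.2 < ((C2 * P : ℕ) : ℤ) := by
        push_cast
        exact_mod_cast c4
      by_cases hd : 0 < dotG p.1 p.2
      · rw [if_pos hd, Finset.sum_eq_single (crossG p.1 p.2).toNat]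
        · rw [if_pos ⟨⟨by rw [Int.toNat_of_nonneg c5.le], hd⟩, f1, f2⟩]
        · intro D _ hD
          rw [if_neg]
          rintro ⟨⟨h, -⟩, -⟩
          apply hD
          rw [h]
          simp
        · intro h
          exfalso
          apply h
          rw [Finset.mem_Icc]
          omega
      · rw [if_neg hd]
        apply Finset.sum_eq_zero
        intro D _
        rw [if_neg (fun h => hd h.1.2)]
  -- step C
  have hcl : ∀ d ∈ Finset.Icc 1 R1, ∀ r ∈ Finset.Icc 1 R0,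
      ‖∑ p ∈ s, ((F p : ℝ) : ℂ) * es_g A d r p‖ ≤
        ((R1 : ℝ) * R0) ^ 4 * ((R0 * (A.card : ℝ) ^ 2) * (ε1 * N * P)) := by
    intro d hd r hr
    rw [Finset.mem_Icc] at hd hr
    have hm : 1 ≤ d * r := Nat.one_le_iff_ne_zero.2 (Nat.mul_ne_zero (by omega) (by omega))
    have hmR : d * r ∈ Finset.range (R1 * R0 + 1) :=
      Finset.mem_range.2 (Nat.lt_succ_of_le (Nat.mul_le_mul hd.2 hr.2))
    have hc := es_class hm s F (es_g A d r) (B := R0 * (A.card : ℝ) ^ 2) (S := ε1 * N * P)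
      (fun p _ => (es_g_le hr.1 A p).trans (by
        apply mul_le_mul_of_nonneg_right _ (by positivity)
        exact_mod_cast hr.2)) (by positivity)
      (by
        intro p hp q hq g1 g2
        rw [hs, Finset.mem_filter, Finset.mem_product] at hp hq
        exact es_g_inv A (hVV _ hp.1.1).2.2 (hVV _ hq.1.1).2.2 g1 g2)
      (by
        intro z z'
        rw [hs, Finset.filter_filter, hF]
        exact hNN P (d * r) hm ((Finset.le_sup hmR).trans hPs) N
          ((Finset.le_sup (f := NN P) hmR).trans hN) Φ hΦ z z')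
    refine hc.trans (mul_le_mul_of_nonneg_right ?_ (by positivity))
    apply pow_le_pow_left₀ (by positivity)
    push_cast
    exact mul_le_mul (by exact_mod_cast hd.2) (by exact_mod_cast hr.2) (by positivity)
      (by positivity)
  have hD : ‖∑ p ∈ s, ((F p : ℝ) : ℂ) * es_Gam A R0 R1 p‖ ≤
      (R1 : ℝ) * (R0 * (((R1 : ℝ) * R0) ^ 4 * ((R0 * (A.card : ℝ) ^ 2) * (ε1 * N * P)))) := by
    have e1 : ∑ p ∈ s, ((F p : ℝ) : ℂ) * es_Gam A R0 R1 p =
        ∑ d ∈ Finset.Icc 1 R1, ∑ r ∈ Finset.Icc 1 R0, ((es_w d : ℝ) : ℂ) *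
          ∑ p ∈ s, ((F p : ℝ) : ℂ) * es_g A d r p := by
      unfold es_Gam
      calc _ = ∑ p ∈ s, ∑ d ∈ Finset.Icc 1 R1, ∑ r ∈ Finset.Icc 1 R0,
            ((es_w d : ℝ) : ℂ) * (((F p : ℝ) : ℂ) * es_g A d r p) := by
            refine Finset.sum_congr rfl fun p _ => ?_
            rw [Finset.mul_sum]
            refine Finset.sum_congr rfl fun d _ => ?_
            rw [Finset.mul_sum]
            refine Finset.sum_congr rfl fun r _ => ?_
            ring
        _ = ∑ d ∈ Finset.Icc 1 R1, ∑ p ∈ s, ∑ r ∈ Finset.Icc 1 R0,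
            ((es_w d : ℝ) : ℂ) * (((F p : ℝ) : ℂ) * es_g A d r p) := Finset.sum_comm
        _ = _ := by
            refine Finset.sum_congr rfl fun d _ => ?_
            rw [Finset.sum_comm]
            refine Finset.sum_congr rfl fun r _ => ?_
            rw [Finset.mul_sum]
    rw [e1]
    calc _ ≤ ∑ d ∈ Finset.Icc 1 R1, ‖∑ r ∈ Finset.Icc 1 R0, ((es_w d : ℝ) : ℂ) *
          ∑ p ∈ s, ((F p : ℝ) : ℂ) * es_g A d r p‖ := norm_sum_le _ _
      _ ≤ ∑ _d ∈ Finset.Icc 1 R1,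
          (R0 * (((R1 : ℝ) * R0) ^ 4 * ((R0 * (A.card : ℝ) ^ 2) * (ε1 * N * P)))) := by
          refine Finset.sum_le_sum fun d hd => ?_
          calc _ ≤ ∑ r ∈ Finset.Icc 1 R0, ‖((es_w d : ℝ) : ℂ) *
                ∑ p ∈ s, ((F p : ℝ) : ℂ) * es_g A d r p‖ := norm_sum_le _ _
            _ ≤ ∑ _r ∈ Finset.Icc 1 R0,
                (((R1 : ℝ) * R0) ^ 4 * ((R0 * (A.card : ℝ) ^ 2) * (ε1 * N * P))) := by
                refine Finset.sum_le_sum fun r hr => ?_
                rw [norm_mul, Complex.norm_real, Real.norm_eq_abs, abs_of_nonneg (es_w_nonneg d)]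
                calc _ ≤ 1 * ‖∑ p ∈ s, ((F p : ℝ) : ℂ) * es_g A d r p‖ :=
                      mul_le_mul_of_nonneg_right (es_w_le d) (norm_nonneg _)
                  _ = ‖∑ p ∈ s, ((F p : ℝ) : ℂ) * es_g A d r p‖ := one_mul _
                  _ ≤ _ := hcl d hd r hr
            _ = _ := by rw [Finset.sum_const, nsmul_eq_mul, Nat.card_Icc]; simp
      _ = _ := by rw [Finset.sum_const, nsmul_eq_mul, Nat.card_Icc]; simp
  rw [hA, hB, norm_mul, Complex.norm_real, Real.norm_eq_abs, abs_of_pos (by positivity)]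
  calc (1 / (P : ℝ)) * ‖∑ p ∈ s, ((F p : ℝ) : ℂ) * es_Gam A R0 R1 p‖
      ≤ (1 / (P : ℝ)) * ((R1 : ℝ) * (R0 * (((R1 : ℝ) * R0) ^ 4 *
          ((R0 * (A.card : ℝ) ^ 2) * (ε1 * N * P))))) :=
        mul_le_mul_of_nonneg_left hD (by positivity)
    _ = (T - 1) * (ε1 * (N * (A.card : ℝ) ^ 2)) := by
        rw [hT]
        field_simp
        ring
    _ ≤ T * (ε1 * (N * (A.card : ℝ) ^ 2)) :=
        mul_le_mul_of_nonneg_right (by linarith) (by positivity)
    _ = ε * N * (A.card : ℝ) ^ 2 := by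
        rw [hε1]
        field_simp

end Pool.Agent.LogG
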