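import Pool.Agent.Lib.LogG.GEzero
import Pool.Agent.Lib.LogG.GEone
import Pool.Agent.Lib.LogG.GEstpair
import Pool.Agent.Lib.LogG.GEstruct
import Pool.Agent.Lib.LogG.GEstr
import Pool.Agent.Lib.LogG.GEblock
import Pool.Agent.Lib.LogCh.EFin

/-!
# The kernel estimate for a bounded real function from equidistribution and Matomaki-Radziwill
-/

set_option autoImplicit false

namespace Pool.Agent.LogG

open Pool.Agent.LogCh

theorem BLOCKG_of {G : GaussianInt → ℝ} (hG : ∀ z, |G z| ≤ 1) (hE : EQ2Stmt) (hM : MRCG G) :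
    BLOCKG G :=
  BLOCKGp hG (E0Gp G) (E1Gp G hG)
    (TTSUMp (STRIPp hE) (E3ap COFp) CNTp COFp)
    (TTAPPp (E3ap COFp) (E3bp COFp))
    (TSTRIPp (STRIPp hE) COFp)
    (EERRp hE (PARSp ORTHp CONDSp) COFp)
    (ECHp (MLSp GSUMp) (LFp NPCp) QUPp)
    (ETRUNCp CNTp) (BADMp CNTp)
    (ESTRGp (STRUCTGp hG STGEOp STCNTp (STPAIRGp G hG) hM) COFp)
    LIPPHIp QUPp

end Pool.Agent.LogG
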