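import Pool.Agent.Lib.LogG.GFfreq
import Pool.Agent.Lib.LogCh.FArc

/-!
# Matomaki-Radziwill in arcs and classes for the real and imaginary parts of `F`
-/

set_option autoImplicit false

namespace Pool.Agent.LogG

open Real
open Pool.Agent.NSqP
open Pool.Agent.LogCh
open Pool.Agent.MP484c84Par (ballG mem_ballG crossG dotG)

private lemma conj_xi_zpow {z : GaussianInt} (hz : z ≠ 0) (m : ℤ) :
    (starRingEnd ℂ) (xi z ^ m) = xi z ^ (-m) := by
  have h1 : xi z ^ m * (starRingEnd ℂ) (xi z ^ m) = 1 := by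
    rw [Complex.mul_conj, Complex.normSq_eq_norm_sq, norm_xi_zpow hz]
    norm_num
  have h2 : xi z ^ m * xi z ^ (-m) = 1 := by
    rw [← zpow_add₀ (xi_ne_zero hz), add_neg_cancel, zpow_zero]
  have h3 : xi z ^ m ≠ 0 := zpow_ne_zero _ (xi_ne_zero hz)
  exact mul_left_cancel₀ h3 (h1.trans h2.symm)

/-- the real part of `c F` is controlled by `F` -/
private lemma re_part (F : GaussianInt → ℂ) (c : ℂ) (hc : ‖c‖ ≤ 1) (S : Finset GaussianInt)
    (hS : ∀ z ∈ S, z ≠ 0) (M : ℕ) :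
    ∑ m ∈ fr M, ‖∑ z ∈ S, (((c * F z).re : ℝ) : ℂ) * xi z ^ m‖ ^ 2 ≤
      ∑ m ∈ fr M, ‖∑ z ∈ S, F z * xi z ^ m‖ ^ 2 := by
  set T : ℤ → ℂ := fun m => ∑ z ∈ S, F z * xi z ^ m with hT
  have h1 : ∀ m : ℤ, ∑ z ∈ S, (((c * F z).re : ℝ) : ℂ) * xi z ^ m =
      (c * T m + (starRingEnd ℂ) (c * T (-m))) / 2 := by
    intro m
    rw [hT, Finset.mul_sum, Finset.mul_sum, map_sum, ← Finset.sum_add_distrib, Finset.sum_div]
    refine Finset.sum_congr rfl fun z hz => ?_
    rw [Complex.re_eq_add_conj, map_mul, map_mul, map_mul, conj_xi_zpow (hS z hz), neg_neg]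
    ring
  have h2 : ∀ m : ℤ, ‖∑ z ∈ S, (((c * F z).re : ℝ) : ℂ) * xi z ^ m‖ ^ 2 ≤
      (‖T m‖ ^ 2 + ‖T (-m)‖ ^ 2) / 2 := by
    intro m
    rw [h1 m]
    have h3 : ‖(c * T m + (starRingEnd ℂ) (c * T (-m))) / 2‖ ≤ (‖T m‖ + ‖T (-m)‖) / 2 := by
      rw [norm_div, Complex.norm_ofNat]
      refine div_le_div_of_nonneg_right ((norm_add_le _ _).trans ?_) (by norm_num)
      rw [Complex.norm_conj, norm_mul, norm_mul]
      exact add_le_add (mul_le_of_le_one_left (norm_nonneg _) hc)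
        (mul_le_of_le_one_left (norm_nonneg _) hc)
    have h4 := pow_le_pow_left₀ (norm_nonneg _) h3 2
    nlinarith [sq_nonneg (‖T m‖ - ‖T (-m)‖)]
  refine (Finset.sum_le_sum fun m _ => h2 m).trans ?_
  have h5 : ∑ m ∈ fr M, ‖T (-m)‖ ^ 2 = ∑ m ∈ fr M, ‖T m‖ ^ 2 := by
    refine Finset.sum_nbij' (fun m => -m) (fun m => -m) ?_ ?_ ?_ ?_ ?_
    · intro m hm; rw [mem_fr] at hm ⊢; rwa [abs_neg]
    · intro m hm; rw [mem_fr] at hm ⊢; rwa [abs_neg]
    · intro m _; exact neg_neg m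
    · intro m _; exact neg_neg m
    · intro m _; rfl
  rw [← Finset.sum_div, Finset.sum_add_distrib, h5]
  linarith

private lemma mrc_part {F : GaussianInt → ℂ} (hFc : CMC F) (hFb : ∀ z, ‖F z‖ ≤ 1)
    (h1 : HALFG F) (h2 : LVPStmt) (c : ℂ) (hc : ‖c‖ ≤ 1) :
    MRCG (fun z => (c * F z).re) := by
  intro r hr b ρ ρ' hρ hρ' h3 ε hε
  have hGb : ∀ z, |(c * F z).re| ≤ 1 := by
    intro z
    refine (Complex.abs_re_le_norm _).trans ?_
    rw [norm_mul]
    exact mul_le_one₀ hc (norm_nonneg _) (hFb z)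
  obtain ⟨C, hC, harc⟩ := ARC
  obtain ⟨A, hA, N1, hfreq⟩ := FREQG hFc hFb h1 h2 r hr b ρ ρ' hρ hρ' h3 ((ε / 4) ^ 2)
    (by positivity)
  have hA0 : (0 : ℝ) < A := by exact_mod_cast hA
  set η : ℝ := ε / (4 * C) with hη
  have hη0 : 0 < η := by positivity
  obtain ⟨H0, hH0⟩ := exists_nat_ge (max (4 * C / ε) (8 * C * A / (ε * η)))
  have hHa : 4 * C / ε ≤ H0 := (le_max_left _ _).trans hH0
  have hHb : 8 * C * A / (ε * η) ≤ H0 := (le_max_right _ _).trans hH0
  refine ⟨H0, max N1 (max A 1), fun N hN K hK hKN => ?_⟩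
  have hN1 : N1 ≤ N := (le_max_left _ _).trans hN
  have hNA : A ≤ N := (le_max_left _ _).trans ((le_max_right _ _).trans hN)
  have hN0 : 1 ≤ N := (le_max_right _ _).trans ((le_max_right _ _).trans hN)
  have hN0' : (0 : ℝ) < N := by exact_mod_cast hN0
  set M : ℕ := N / A with hM
  have hM1 : 1 ≤ M := (Nat.one_le_div_iff (by omega)).2 hNA
  have hM0 : (0 : ℝ) < M := by exact_mod_cast hM1
  -- `N ≤ 2 A M`
  have hNM : (N : ℝ) ≤ 2 * A * M := by
    have h4 : N < A * (M + 1) := by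
      rw [mul_comm]
      exact (Nat.div_lt_iff_lt_mul (by omega)).1 (Nat.lt_succ_self _)
    have h5 : A * (M + 1) ≤ 2 * A * M := by nlinarith
    exact_mod_cast (h4.trans_le h5).le
  classical
  set S : Finset GaussianInt :=
    (pann (ρ * N) (ρ' * N)).filter (fun z => (r : GaussianInt) ∣ z - b) with hS
  have hS1 : ∀ z ∈ S, Prim z ∧ nN z ≤ N := by
    intro z hz
    have hz1 := (Finset.mem_filter.1 hz).1
    have hρN : 0 ≤ ρ' * (N : ℝ) := mul_nonneg (hρ.trans hρ') hN0'.le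
    rw [mem_pann hρN] at hz1
    refine ⟨hz1.2, ?_⟩
    have : (nN z : ℝ) ≤ N := by
      refine hz1.1.2.trans ?_
      calc ρ' * (N : ℝ) ≤ 1 * N := mul_le_mul_of_nonneg_right h3 hN0'.le
        _ = N := one_mul _
    exact_mod_cast this
  have hmain := harc N K M η S (fun z => (c * F z).re) hN0 hK hM1 hη0 hS1 (fun z _ => hGb z)
  have hfr := hfreq N hN1
  have hsq : √(∑ m ∈ fr M, ‖∑ z ∈ S, (((c * F z).re : ℝ) : ℂ) * xi z ^ m‖ ^ 2) ≤
      ε / 4 * N := by
    rw [Real.sqrt_le_left (by positivity)]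
    refine (re_part F c hc S (fun z hz => prim_ne_zero (hS1 z hz).1) M).trans ?_
    calc _ ≤ (ε / 4) ^ 2 * (N : ℝ) ^ 2 := by
          convert hfr using 5
      _ = (ε / 4 * N) ^ 2 := by ring
  have hfilt : ∀ i ∈ Finset.range K, |∑ z ∈ (pann (ρ * N) (ρ' * N)).filter
        (fun z => (r : GaussianInt) ∣ z - b ∧ arcI K z = i), (c * F z).re| =
      |∑ z ∈ S.filter (fun z => arcI K z = i), (c * F z).re| := by
    intro i _
    rw [hS, Finset.filter_filter]
  have hgoal : ∑ i ∈ Finset.range K, |∑ z ∈ (pann (ρ * N) (ρ' * N)).filter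
        (fun z => (r : GaussianInt) ∣ z - b ∧ arcI K z = i), (c * F z).re| ≤ ε * N := by
    rw [Finset.sum_congr rfl hfilt]
    refine hmain.trans ?_
    -- numerics
    have hK0 : (0 : ℝ) ≤ K := Nat.cast_nonneg _
    have hKN' : (K : ℝ) * H0 ≤ N := by exact_mod_cast hKN
    have n1 : C * K ≤ ε / 4 * N := by
      have : (K : ℝ) * (4 * C / ε) ≤ N := (mul_le_mul_of_nonneg_left hHa hK0).trans hKN'
      have e : C * K = ε / 4 * ((K : ℝ) * (4 * C / ε)) := by field_simp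
      rw [e]
      exact mul_le_mul_of_nonneg_left this (by positivity)
    have n2 : C * (η * N) = ε / 4 * N := by
      rw [hη]; field_simp
    have n3 : C * (N * K / (η * M)) ≤ ε / 4 * N := by
      have h6 : (N : ℝ) * K / (η * M) ≤ 2 * A * K / η := by
        rw [div_le_div_iff₀ (by positivity) hη0]
        have : (N : ℝ) * (K * η) ≤ 2 * A * M * (K * η) :=
          mul_le_mul_of_nonneg_right hNM (by positivity)
        nlinarith
      have h7 : (K : ℝ) * (8 * C * A / (ε * η)) ≤ N :=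
        (mul_le_mul_of_nonneg_left hHb hK0).trans hKN'
      calc C * (N * K / (η * M)) ≤ C * (2 * A * K / η) := mul_le_mul_of_nonneg_left h6 hC.le
        _ = ε / 4 * ((K : ℝ) * (8 * C * A / (ε * η))) := by field_simp; ring
        _ ≤ ε / 4 * N := mul_le_mul_of_nonneg_left h7 (by positivity)
    have e2 : C * (K + η * N + N * K / (η * M)) = C * K + C * (η * N) + C * (N * K / (η * M)) := by
      ring
    rw [e2]
    linarith
  convert hgoal using 4

theorem MRCGp {F : GaussianInt → ℂ} (hFc : CMC F) (hFb : ∀ z, ‖F z‖ ≤ 1)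
    (h1 : HALFG F) (h2 : LVPStmt) :
    MRCG (fun z => (F z).re) ∧ MRCG (fun z => (F z).im) := by
  constructor
  · have h := mrc_part hFc hFb h1 h2 1 (by simp)
    have e : (fun z => (1 * F z).re) = fun z => (F z).re := by
      funext z; rw [one_mul]
    rwa [e] at h
  · have h := mrc_part hFc hFb h1 h2 (-Complex.I) (by simp)
    have e : (fun z => (-Complex.I * F z).re) = fun z => (F z).im := by
      funext z
      simp [Complex.mul_re]
    rwa [e] at h

end Pool.Agent.LogG
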