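import Pool.Agent.Lib.LogG.GFdefs
import Pool.Agent.Lib.LogCh.HRe

/-!
# GHnpb: characters invariant under conjugation come from Dirichlet characters of the norm
-/

set_option autoImplicit false

namespace Pool.Agent.LogG

open Real
open Pool.Agent.NSqP
open Pool.Agent.LogCh
open Pool.Agent.LogCh.HG

private lemma npb_star {z : GaussianInt} {R : ℕ} (h : IsCoprime z (R : GaussianInt)) :
    IsCoprime (star z) (R : GaussianInt) := by
  obtain ⟨a, b, hab⟩ := h
  refine ⟨star a, star b, ?_⟩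
  have := congrArg star hab
  rw [star_add, star_mul, star_mul, star_natCast, star_one] at this
  rw [← this]
  ring

private lemma npb_nN (z : GaussianInt) : ((nN z : ℕ) : GaussianInt) = z * star z := by
  have h1 : ((nN z : ℕ) : ℤ) = z.norm := by
    unfold nN
    exact Int.natAbs_of_nonneg (GaussianInt.norm_nonneg z)
  have h2 := Zsqrtd.norm_eq_mul_conj z
  rw [← h2, ← h1]
  simp

private lemma npb_cop {z : GaussianInt} {R : ℕ} (h : IsCoprime z (R : GaussianInt)) :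
    Nat.Coprime (nN z) R := by
  have h1 : IsCoprime (z * star z) (R : GaussianInt) := h.mul_left (npb_star h)
  rw [← npb_nN] at h1
  obtain ⟨a, b, hab⟩ := h1
  have h2 := congrArg Zsqrtd.re hab
  rw [← Nat.isCoprime_iff_coprime]
  refine ⟨a.re, b.re, ?_⟩
  simpa [Zsqrtd.re_add, Zsqrtd.re_mul] using h2

theorem np_char (r : ℕ) (hr : 1 ≤ r) (χ : GaussianInt → ℂ) (hχ : ChiMod r χ) (hi : χ gI = 1)
    (hs : ∀ z, χ (star z) = χ z) : ∃ ψ : DirichletCharacter ℂ (8 * r),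
    ∀ z : GaussianInt, IsCoprime z ((8 * r : ℕ) : GaussianInt) →
      χ z * ψ ((nN z : ℕ) : ZMod (8 * r)) = 1 := by
  classical
  obtain ⟨R, hR⟩ : ∃ R : ℕ, R = 8 * r := ⟨_, rfl⟩
  have hR0 : NeZero R := ⟨by omega⟩
  have hcr : ∀ z : GaussianInt, IsCoprime z (R : GaussianInt) → IsCoprime z (r : GaussianInt) := by
    intro z hz
    rw [hR, Nat.cast_mul] at hz
    exact hz.of_mul_right_right
  have hne : ∀ z : GaussianInt, IsCoprime z (R : GaussianInt) → χ z ≠ 0 := by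
    intro z hz h0
    have := hχ.norm z (hcr z hz)
    rw [h0, norm_zero] at this
    exact zero_ne_one this
  obtain ⟨nu, hnu⟩ : ∃ nu : ∀ z : GaussianInt, IsCoprime z (R : GaussianInt) → (ZMod R)ˣ,
      ∀ z hz, ((nu z hz : (ZMod R)ˣ) : ZMod R) = ((nN z : ℕ) : ZMod R) :=
    ⟨fun z hz => ZMod.unitOfCoprime (nN z) (npb_cop hz), fun z hz => ZMod.coe_unitOfCoprime _ _⟩
  obtain ⟨n, hn⟩ : ∃ n : ℕ, ∀ u : (ZMod R)ˣ, u ^ (n + 1) = 1 := by
    refine ⟨Fintype.card (ZMod R)ˣ - 1, fun u => ?_⟩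
    rw [Nat.sub_add_cancel Fintype.card_pos, pow_card_eq_one]
  have hpow : ∀ (z : GaussianInt) (m : ℕ), nN (z ^ m) = nN z ^ m := by
    intro z m
    induction m with
    | zero => simp [nN_one]
    | succ m ih => rw [pow_succ, nN_mul, ih, pow_succ]
  have hreal : ∀ z : GaussianInt, ((nN z : ℕ) : ZMod R) = 1 → χ z = 1 := by
    intro z hz
    apply real_case r hr χ hχ hi hs z
    have h1 : (((nN z : ℕ) : ℤ) : ZMod R) = ((1 : ℤ) : ZMod R) := by
      rw [Int.cast_natCast, hz, Int.cast_one]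
    rw [eq_comm, ZMod.intCast_eq_intCast_iff_dvd_sub] at h1
    have h2 : ((R : ℕ) : ℤ) = 8 * r := by rw [hR]; push_cast; ring
    rw [h2] at h1
    exact h1
  -- (1)
  have hkey : ∀ z z' : GaussianInt, IsCoprime z (R : GaussianInt) →
      IsCoprime z' (R : GaussianInt) → ((nN z : ℕ) : ZMod R) = ((nN z' : ℕ) : ZMod R) →
      χ z = χ z' := by
    intro z z' hz hz' h
    have h1 : ((nN z' : ℕ) : ZMod R) ^ (n + 1) = 1 := by
      rw [← hnu z' hz', ← Units.val_pow_eq_pow_val, hn, Units.val_one]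
    have h2 : χ (z * z' ^ n) = 1 := by
      apply hreal
      rw [nN_mul, hpow, Nat.cast_mul, Nat.cast_pow, h, ← pow_succ', h1]
    have h3 : χ (z' * z' ^ n) = 1 := by
      apply hreal
      rw [nN_mul, hpow, Nat.cast_mul, Nat.cast_pow, ← pow_succ', h1]
    rw [hχ.mul] at h2 h3
    have h4 : χ (z' ^ n) ≠ 0 := fun h0 => by rw [h0, mul_zero] at h2; exact zero_ne_one h2
    exact mul_right_cancel₀ h4 (h2.trans h3.symm)
  -- (2)
  let H : Subgroup (ZMod R)ˣ :=
    { carrier := {u | ∃ z : GaussianInt, IsCoprime z (R : GaussianInt) ∧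
        ((nN z : ℕ) : ZMod R) = (u : ZMod R)}
      mul_mem' := by
        rintro u v ⟨z, hz, hu⟩ ⟨w, hw, hv⟩
        exact ⟨z * w, hz.mul_left hw, by rw [nN_mul, Nat.cast_mul, hu, hv, Units.val_mul]⟩
      one_mem' := ⟨1, isCoprime_one_left, by rw [nN_one, Nat.cast_one, Units.val_one]⟩
      inv_mem' := by
        rintro u ⟨z, hz, hu⟩
        refine ⟨z ^ n, hz.pow_left, ?_⟩
        have h1 : u⁻¹ = u ^ n := by
          rw [inv_eq_iff_mul_eq_one, ← pow_succ', hn]
        rw [hpow, Nat.cast_pow, hu, h1, Units.val_pow_eq_pow_val] }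
  have hH : ∀ u : H, ∃ z : GaussianInt, IsCoprime z (R : GaussianInt) ∧
      ((nN z : ℕ) : ZMod R) = ((u : (ZMod R)ˣ) : ZMod R) := fun u => u.2
  choose zz hz1 hz2 using hH
  let φ : H →* ℂˣ :=
    { toFun := fun u => (Units.mk0 (χ (zz u)) (hne _ (hz1 u)))⁻¹
      map_one' := by
        rw [inv_eq_one, ← Units.val_inj, Units.val_mk0, Units.val_one]
        apply hreal
        rw [hz2]
        rfl
      map_mul' := by
        intro u v
        rw [← mul_inv, inv_inj, ← Units.val_inj, Units.val_mul, Units.val_mk0, Units.val_mk0,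
          Units.val_mk0, ← hχ.mul]
        apply hkey _ _ (hz1 _) ((hz1 u).mul_left (hz1 v))
        rw [hz2, nN_mul, Nat.cast_mul, hz2, hz2]
        rfl }
  have hφ : ∀ u : H, ((φ u : ℂˣ) : ℂ) = (χ (zz u))⁻¹ := fun u => by
    show (((Units.mk0 (χ (zz u)) (hne _ (hz1 u)))⁻¹ : ℂˣ) : ℂ) = _
    rw [Units.val_inv_eq_inv_val, Units.val_mk0]
  obtain ⟨Φ, hΦ⟩ := MonoidHom.domRestrict_surjective (G := (ZMod R)ˣ) (M := ℂ) H φ
  have hΦ' : ∀ u : H, Φ (u : (ZMod R)ˣ) = φ u := by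
    intro u
    rw [← hΦ]
    rfl
  subst hR
  refine ⟨MulChar.ofUnitHom Φ, fun z hz => ?_⟩
  have hmem : nu z hz ∈ H := ⟨z, hz, (hnu z hz).symm⟩
  rw [← hnu z hz, MulChar.ofUnitHom_coe]
  have h1 := hΦ' ⟨nu z hz, hmem⟩
  simp only at h1
  rw [h1, hφ]
  have h2 : χ (zz ⟨nu z hz, hmem⟩) = χ z := by
    apply hkey _ _ (hz1 _) hz
    rw [hz2]
    exact hnu z hz
  rw [h2, mul_inv_cancel₀ (hne z hz)]

end Pool.Agent.LogG
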