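import Pool.Agent.Lib.LogG.GFdefs
import Pool.Agent.Lib.LogCh.HQp
import Pool.Agent.Lib.LogCh.HFi

/-!
# GHnpc: divergence of the series over the primes gives large `QP`

PROOF of `np_case2`. (1) There is `K ≥ 1` with `(FC f z * χ z) ^ K = 1` for all `z ≠ 0` coprime to `r` (`chi_pow r hr`
in HFi, `(FC_GF hf).pow`; `K = k * Kc`), and hence `c > 0` with `1 - u.re ≥ c` for all `u` with
`u ^ K = 1`, `u ≠ 1` (finitely many `u`, each with `u.re < 1`).
(2) Let `p` be a prime, `p % 4 = 1`, `p > 8 r`, `f p ≠ ψ p`. There is `z` with `IsPi z`, `nN z = p`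
(`exists_two_pi`), `z` is coprime to `8 r` (`nN z = p` is), so `χ z * ψ p = 1`,
`FC f z = f p`, `FC f z * χ z ≠ 1` (else `f p = (χ z)⁻¹ = ψ p`). So `∑ z ∈ sphP p, (1 - (FC f z * χ z).re) ≥ c`
(all terms are `≥ 0`). Hence `QP (..) σ ≥ c ∑_{p ∈ T} p ^ (-σ)` for every finite set `T` of such primes
(`QP_summable`, partial sums of a nonnegative series).
(3) The partial sums of the series tend to infinity, so there is a finite set `T` of such primes with
`c ∑_{p ∈ T} 1/p > M`; the finite sum `∑_{p ∈ T} p ^ (-σ)` is continuous at `σ = 1`.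
-/

set_option autoImplicit false

namespace Pool.Agent.LogG

open Real
open Pool.Agent.NSqP
open Pool.Agent.LogCh
open Pool.Agent.LogCh.HG

private lemma hnpc_gap (K : ℕ) (hK : 1 ≤ K) :
    ∃ c : ℝ, 0 < c ∧ ∀ u : ℂ, u ^ K = 1 → u ≠ 1 → c ≤ 1 - u.re := by
  classical
  have key : ∀ s : Finset ℂ, (∀ u ∈ s, 0 < 1 - u.re) → ∃ c : ℝ, 0 < c ∧ ∀ u ∈ s, c ≤ 1 - u.re := by
    intro s
    induction s using Finset.induction_on with
    | empty => intro _; exact ⟨1, one_pos, fun u hu => absurd hu (Finset.notMem_empty u)⟩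
    | insert a s _ ih =>
      intro h
      obtain ⟨c, hc, h1⟩ := ih (fun u hu => h u (Finset.mem_insert_of_mem hu))
      refine ⟨min c (1 - a.re), lt_min hc (h a (Finset.mem_insert_self a s)), fun u hu => ?_⟩
      rcases Finset.mem_insert.1 hu with rfl | hu
      · exact min_le_right _ _
      · exact (min_le_left _ _).trans (h1 u hu)
  obtain ⟨c, hc, h1⟩ := key ((Polynomial.nthRoots K (1 : ℂ)).toFinset.filter (fun u => u ≠ 1))
    (by
      intro u hu
      rw [Finset.mem_filter, Multiset.mem_toFinset, Polynomial.mem_nthRoots (by omega)] at hu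
      obtain ⟨hu1, hu2⟩ := hu
      have hn : ‖u‖ = 1 := by
        have h1 : ‖u‖ ^ K = 1 := by rw [← norm_pow, hu1, norm_one]
        exact (pow_eq_one_iff_of_nonneg (norm_nonneg _) (by omega)).1 h1
      by_contra hcon
      have h2 : u.re = 1 := by
        have := (Complex.re_le_norm u)
        rw [hn] at this
        linarith
      have h3 : u.im = 0 := by
        have h4 := Complex.sq_norm u
        rw [hn, Complex.normSq_apply, h2] at h4
        have : u.im * u.im = 0 := by linarith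
        exact mul_self_eq_zero.1 this
      exact hu2 (Complex.ext (by rw [h2, Complex.one_re]) (by rw [h3, Complex.one_im])))
  refine ⟨c, hc, fun u hu hu2 => h1 u ?_⟩
  rw [Finset.mem_filter, Multiset.mem_toFinset, Polynomial.mem_nthRoots (by omega)]
  exact ⟨hu, hu2⟩

private lemma hnpc_coprime {z : GaussianInt} {m : ℕ} (h : Nat.Coprime (nN z) m) :
    IsCoprime z ((m : ℕ) : GaussianInt) := by
  have h1 : IsCoprime ((nN z : ℕ) : ℤ) (m : ℤ) := Nat.isCoprime_iff_coprime.2 h
  have h2 : IsCoprime ((nN z : ℕ) : GaussianInt) ((m : ℕ) : GaussianInt) := by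
    obtain ⟨a, b, hab⟩ := h1
    refine ⟨(a : GaussianInt), (b : GaussianInt), ?_⟩
    have := congrArg (fun t : ℤ => (t : GaussianInt)) hab
    push_cast at this
    exact this
  have h3 : ((nN z : ℕ) : GaussianInt) = z * star z := by
    have h4 : ((nN z : ℕ) : GaussianInt) = (((nN z : ℕ) : ℤ) : GaussianInt) := by push_cast; rfl
    rw [h4, nN_cast_int, Zsqrtd.norm_eq_mul_conj]
  rw [h3] at h2
  exact h2.of_mul_left_left

theorem np_case2 {k : ℕ} (hk : 1 ≤ k) {f : ℕ → ℂ} (hf : MF k f) (r : ℕ) (hr : 1 ≤ r)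
    (χ : GaussianInt → ℂ) (hχ : ChiMod r χ) (ψ : DirichletCharacter ℂ (8 * r))
    (hψ : ∀ z : GaussianInt, IsCoprime z ((8 * r : ℕ) : GaussianInt) →
      χ z * ψ ((nN z : ℕ) : ZMod (8 * r)) = 1)
    (hns : open Classical in ¬ Summable (fun p : ℕ =>
      if p.Prime ∧ p % 4 = 1 ∧ f p ≠ ψ (p : ZMod (8 * r)) then 1 / (p : ℝ) else 0)) (M : ℝ) :
    ∃ δ : ℝ, 0 < δ ∧ ∀ σ : ℝ, 1 < σ → σ < 1 + δ →
      M ≤ QP (fun z => 1 - (FC f z * χ z).re) σ := by
  classical
  obtain ⟨Kc, hKc, hpow⟩ := chi_pow r hr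
  obtain ⟨c, hc, hgap⟩ := hnpc_gap (k * Kc) (Nat.mul_pos hk hKc)
  have hG := FC_GF hf
  have hnn : ∀ z, ‖FC f z * χ z‖ ≤ 1 := by
    intro z
    rw [norm_mul]
    exact mul_le_one₀ (hG.le hk z) (norm_nonneg _) (chi_le hχ z)
  have hre : ∀ z, |(FC f z * χ z).re| ≤ 1 := fun z => (Complex.abs_re_le_norm _).trans (hnn z)
  have hnonneg : ∀ z, 0 ≤ 1 - (FC f z * χ z).re := fun z => by
    have := abs_le.1 (hre z)
    linarith [this.2]
  have hB : ∀ z, IsPi z → |1 - (FC f z * χ z).re| ≤ 2 := fun z _ => by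
    have := abs_le.1 (hre z)
    rw [abs_of_nonneg (hnonneg z)]
    linarith [this.1]
  -- the good primes
  have hgood : ∀ p : ℕ, p.Prime → p % 4 = 1 → 8 * r < p → f p ≠ ψ (p : ZMod (8 * r)) →
      c ≤ ∑ z ∈ sphP p, (1 - (FC f z * χ z).re) := by
    intro p hp h4 hpr hne
    obtain ⟨z, _, _, hz, _, hzp, _⟩ := exists_two_pi hp h4
    have hcop : Nat.Coprime (nN z) (8 * r) := by
      rw [hzp]
      exact (Nat.Prime.coprime_iff_not_dvd hp).2
        (fun h => absurd (Nat.le_of_dvd (by omega) h) (by omega))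
    have hcop2 := hnpc_coprime hcop
    have h1 := hψ z hcop2
    have hcr : IsCoprime z (r : GaussianInt) := by
      apply hnpc_coprime
      exact Nat.Coprime.coprime_dvd_right (Dvd.intro_left 8 rfl) hcop
    have hz0 : z ≠ 0 := hz.ne_zero
    have hFC : FC f z = f p := by
      unfold FC
      rw [if_neg (nN_pos hz0).ne', hzp]
    have h2 : FC f z * χ z ≠ 1 := by
      intro h
      rw [hzp] at h1
      have hχ0 : χ z ≠ 0 := by
        intro h0
        rw [h0, zero_mul] at h1
        exact zero_ne_one h1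
      apply hne
      have h3 : χ z * f p = χ z * ψ (p : ZMod (8 * r)) := by
        rw [h1, ← hFC, mul_comm]
        exact h
      exact mul_left_cancel₀ hχ0 h3
    have h3 : (FC f z * χ z) ^ (k * Kc) = 1 := by
      rw [mul_pow, pow_mul, hG.pow z hz0, one_pow, one_mul, mul_comm k Kc, pow_mul,
        hpow χ hχ z hcr, one_pow]
    refine (hgap _ h3 h2).trans ?_
    exact Finset.single_le_sum (f := fun z => 1 - (FC f z * χ z).re) (fun w _ => hnonneg w)
      (mem_sphP.2 ⟨hzp, hz⟩)
  -- a finite set of good primes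
  have htend := (not_summable_iff_tendsto_nat_atTop_of_nonneg (fun p => by
    split_ifs
    · positivity
    · exact le_rfl)).1 hns
  set a : ℕ → ℝ := fun p : ℕ =>
      if p.Prime ∧ p % 4 = 1 ∧ f p ≠ ψ (p : ZMod (8 * r)) then 1 / (p : ℝ) else 0 with ha
  obtain ⟨N, hN⟩ := (htend.eventually_gt_atTop
    (∑ p ∈ Finset.range (8 * r + 1), a p + M / c)).exists
  have ha0 : ∀ p, 0 ≤ a p := fun p => by
    rw [ha]
    simp only
    split_ifs
    · positivity
    · exact le_rfl
  set T : Finset ℕ := (Finset.range N).filter (fun p => p.Prime ∧ p % 4 = 1 ∧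
    f p ≠ ψ (p : ZMod (8 * r)) ∧ 8 * r < p) with hT
  have hTsum : M / c < ∑ p ∈ T, 1 / (p : ℝ) := by
    have h1 : ∑ p ∈ Finset.range N, a p ≤
        ∑ p ∈ Finset.range (8 * r + 1), a p + ∑ p ∈ T, 1 / (p : ℝ) := by
      rw [hT, Finset.sum_filter, ← Finset.sum_filter_add_sum_filter_not (Finset.range N)
        (fun p => p < 8 * r + 1) a]
      refine add_le_add ?_ ?_
      · refine Finset.sum_le_sum_of_subset_of_nonneg ?_ (fun p _ _ => ha0 p)
        intro p hp
        rw [Finset.mem_filter] at hp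
        exact Finset.mem_range.2 hp.2
      · rw [Finset.sum_filter]
        refine Finset.sum_le_sum fun p _ => ?_
        rw [ha]
        simp only
        by_cases hp : p < 8 * r + 1
        · rw [if_neg (by simpa using hp)]
          split_ifs
          · positivity
          · exact le_rfl
        · rw [if_pos hp]
          by_cases h2 : p.Prime ∧ p % 4 = 1 ∧ f p ≠ ψ (p : ZMod (8 * r))
          · rw [if_pos h2, if_pos ⟨h2.1, h2.2.1, h2.2.2, by omega⟩]
          · rw [if_neg h2]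
            split_ifs
            · positivity
            · exact le_rfl
    linarith
  have hcont : ContinuousAt (fun σ : ℝ => ∑ p ∈ T, c / (p : ℝ) ^ σ) 1 := by
    refine tendsto_finsetSum _ fun p hp => ?_
    rw [hT, Finset.mem_filter] at hp
    have hp0 : (0 : ℝ) < p := by exact_mod_cast hp.2.1.pos
    refine Filter.Tendsto.div tendsto_const_nhds ?_ (Real.rpow_pos_of_pos hp0 1).ne'
    exact (Real.continuous_const_rpow hp0.ne').continuousAt
  have hval : M < ∑ p ∈ T, c / (p : ℝ) ^ (1 : ℝ) := by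
    have h1 : ∑ p ∈ T, c / (p : ℝ) ^ (1 : ℝ) = c * ∑ p ∈ T, 1 / (p : ℝ) := by
      rw [Finset.mul_sum]
      refine Finset.sum_congr rfl fun p _ => ?_
      rw [Real.rpow_one, mul_one_div]
    rw [h1]
    rw [div_lt_iff₀ hc] at hTsum
    linarith
  obtain ⟨δ, hδ, hδ2⟩ := Metric.eventually_nhds_iff.1 (hcont.eventually_const_lt hval)
  refine ⟨δ, hδ, fun σ h1 h2 => ?_⟩
  have h3 : dist σ 1 < δ := by
    rw [Real.dist_eq, abs_of_pos (by linarith)]
    linarith
  have h4 := hδ2 h3
  refine h4.le.trans ?_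
  unfold QP
  have hS := QP_summable hB h1
  refine le_trans ?_ (hS.sum_le_tsum T fun n _ => ?_)
  · refine Finset.sum_le_sum fun p hp => ?_
    rw [hT, Finset.mem_filter] at hp
    exact div_le_div_of_nonneg_right (hgood p hp.2.1 hp.2.2.1 hp.2.2.2.2 hp.2.2.2.1)
      (Real.rpow_nonneg (Nat.cast_nonneg p) _)
  · exact div_nonneg (Finset.sum_nonneg fun z _ => hnonneg z)
      (Real.rpow_nonneg (Nat.cast_nonneg n) _)

end Pool.Agent.LogG
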