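import Pool.Agent.Lib.LogG.GHnpa
import Pool.Agent.Lib.LogG.GHnpb
import Pool.Agent.Lib.LogG.GHnpc

/-!
# `NPD f` implies `NPG (FC f)`
-/

set_option autoImplicit false

namespace Pool.Agent.LogG

open Real
open Pool.Agent.NSqP
open Pool.Agent.LogCh
open Pool.Agent.LogCh.HG

theorem NPG_of_NPD {k : ℕ} (hk : 1 ≤ k) {f : ℕ → ℂ} (hf : MF k f) (h : NPD f) : NPG (FC f) := by
  intro r hr χ hχ hi M
  by_cases hs : ∀ z0 : GaussianInt, IsCoprime z0 (r : GaussianInt) → χ (star z0) = χ z0
  · have hs' : ∀ z, χ (star z) = χ z := by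
      intro z
      by_cases hz : IsCoprime z (r : GaussianInt)
      · exact hs z hz
      · have hz' : ¬ IsCoprime (star z) (r : GaussianInt) := by
          intro hc
          apply hz
          have h1 := hs (star z) hc
          obtain ⟨a, b, hab⟩ := hc
          refine ⟨star a, star b, ?_⟩
          have h2 := congrArg star hab
          rw [star_add, star_mul, star_mul, star_star, star_one] at h2
          have h3 : star (r : GaussianInt) = (r : GaussianInt) := star_natCast r
          rw [h3] at h2
          rw [mul_comm (star a), mul_comm (star b)]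
          exact h2
        rw [hχ.zero z hz, hχ.zero _ hz']
    obtain ⟨ψ, hψ⟩ := np_char r hr χ hχ hi hs'
    exact np_case2 hk hf r hr χ hχ ψ hψ (h (8 * r) (by omega) ψ) M
  · push Not at hs
    obtain ⟨z0, h0, h1⟩ := hs
    exact np_case1 hk (FC_GF hf) r hr χ hχ hi z0 h0 h1 M

end Pool.Agent.LogG
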