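import Pool.Agent.Lib.LogG.GDefs
import Pool.Agent.Lib.LogCh.BScales

/-!
# GPscale: the scales, for arbitrary sets of primes of positive relative density

Copy of `SCALES2` (PScales) with `I (P j)` instead of `QQ C1 (P j)`: the proof uses `hQ` only for the lower bound of the
cardinality and `q ∈ QQ C1 P` only for `q ≤ C1 P`; both hold for `I P ⊆ QQ C1 P` by hypothesis. The scales `scP p M`
and `m j = M * (j+1)^2` do not depend on `I` (only on `c, K, ε, C1, P0`), and the terms are at least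
`κ (log log (j+3) - log log (j+2))`, so the partial sums are unbounded.
-/

set_option autoImplicit false

namespace Pool.Agent.LogG

open Real
open Pool.Agent.NSqP
open Pool.Agent.LogCh

theorem SCALES3 (C1 : ℕ) (c : ℝ) (hC1 : 2 ≤ C1) (hc : 0 < c) (K : ℕ) (hK : 1 ≤ K)
    (ε : ℝ) (hε : 0 < ε) (P0 : ℕ) :
    ∃ (P m : ℕ → ℕ), P0 ≤ P 0 ∧ 2 ≤ P 0 ∧ (∀ j, 1 ≤ m j) ∧ (∀ j, P (j + 1) = m j * P j) ∧
      ∀ I : ℕ → Finset ℕ, (∀ Q : ℕ, 2 ≤ Q → I Q ⊆ QQ C1 Q) →
        (∀ Q : ℕ, 2 ≤ Q → c * Q / log Q ≤ ((I Q).card : ℝ)) →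
        (∀ j, 0 ≤ gainG I K ε P j) ∧
          ∀ M : ℝ, ∃ J : ℕ, M < ∑ j ∈ Finset.range J, gainG I K ε P j := by
  set p := max P0 2 with hp
  have hp2 : 2 ≤ p := le_max_right _ _
  have hp0 : P0 ≤ p := le_max_left _ _
  have hC : (1 : ℝ) ≤ C1 := by exact_mod_cast (by omega : 1 ≤ C1)
  have hpR : (2 : ℝ) ≤ p := by exact_mod_cast hp2
  have hlC : 0 ≤ log C1 := log_nonneg hC
  have hlp : 0 ≤ log p := log_nonneg (by linarith)
  obtain ⟨M, hM1, hM⟩ := exists_M (log C1 + log p) ε (by positivity) hε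
  have hlM : 0 ≤ log M := log_nonneg (by exact_mod_cast hM1)
  set A : ℝ := log p + 2 * log M + 2 with hA
  have hA0 : 0 < A := by positivity
  have hKR : (0 : ℝ) < K := by exact_mod_cast hK
  set κ : ℝ := ε * c / (2 * K) / A with hκ
  have hκ0 : 0 < κ := by positivity
  refine ⟨scP p M, fun j => M * (j + 1) ^ 2, le_trans hp0 (scP_ge p M 0 hM1),
    le_trans hp2 (scP_ge p M 0 hM1), fun j => Nat.mul_pos hM1 (by positivity),
    fun j => scP_succ p M j, ?_⟩
  intro I hI hQ
  -- lower bound for the terms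
  have hterm : ∀ j : ℕ, κ * (log (log ((j : ℝ) + 3)) - log (log ((j : ℝ) + 2))) ≤
      ε * ((I (scP p M j)).card : ℝ) / ((K * scP p M j : ℕ) : ℝ) -
        (∑ q ∈ I (scP p M j), 4 * log q) / ((K * scP p M (j + 1) : ℕ) : ℝ) := by
    intro j
    have hP2 : 2 ≤ scP p M j := le_trans hp2 (scP_ge p M j hM1)
    have hPR : (2 : ℝ) ≤ (scP p M j : ℕ) := by exact_mod_cast hP2
    have hlP : 0 < log (scP p M j : ℕ) := log_pos (by linarith)
    have hj0 : (0 : ℝ) ≤ j := Nat.cast_nonneg j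
    have b1 := log_scP_le p M j (by omega) hM1
    have b2 : log ((j : ℝ) + 1) ≤ j := le_trans (log_le_sub_one_of_pos (by positivity)) (by linarith)
    -- the loss
    set n : ℝ := ((I (scP p M j)).card : ℝ) with hn
    have hn0 : 0 ≤ n := Nat.cast_nonneg _
    set S : ℝ := ∑ q ∈ I (scP p M j), 4 * log q with hS
    have c1 : S ≤ n * (4 * (log C1 + log (scP p M j : ℕ))) := by
      rw [hS, hn, ← nsmul_eq_mul]
      refine Finset.sum_le_card_nsmul _ _ _ (fun q hq => ?_)
      have hq1 := (Finset.mem_Ioc.1 (Finset.mem_filter.1 (hI _ hP2 hq)).1)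
      have hq2 : (q : ℝ) ≤ C1 * (scP p M j : ℕ) := by exact_mod_cast hq1.2
      have hq3 : (0 : ℝ) < q := by
        have : 0 < q := by omega
        exact_mod_cast this
      have := log_le_log hq3 hq2
      rw [log_mul (by positivity) (by positivity)] at this
      linarith
    have c2 : 8 * (log C1 + log (scP p M j : ℕ)) ≤ ε * (M * (j + 1) ^ 2) := by
      have d1 : log C1 + log (scP p M j : ℕ) ≤ (log C1 + log p + log M + 2) * ((j : ℝ) + 1) ^ 2 := by
        have e1 : 2 * (j : ℝ) * log ((j : ℝ) + 1) ≤ 2 * j * j :=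
          mul_le_mul_of_nonneg_left b2 (by positivity)
        have e2 : (1 : ℝ) ≤ ((j : ℝ) + 1) ^ 2 := by nlinarith
        have e3 : (j : ℝ) ≤ ((j : ℝ) + 1) ^ 2 := by nlinarith
        have e4 : (j : ℝ) * j ≤ ((j : ℝ) + 1) ^ 2 := by nlinarith
        have e5 : (log C1 + log p) * 1 ≤ (log C1 + log p) * ((j : ℝ) + 1) ^ 2 :=
          mul_le_mul_of_nonneg_left e2 (by positivity)
        have e6 : (j : ℝ) * log M ≤ ((j : ℝ) + 1) ^ 2 * log M :=
          mul_le_mul_of_nonneg_right e3 hlM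
        have e7 : (log C1 + log p + log M + 2) * ((j : ℝ) + 1) ^ 2 =
          (log C1 + log p) * ((j : ℝ) + 1) ^ 2 + ((j : ℝ) + 1) ^ 2 * log M +
            2 * ((j : ℝ) + 1) ^ 2 := by ring
        rw [e7]
        linarith
      have d2 : 8 * (log C1 + log p + log M + 2) * ((j : ℝ) + 1) ^ 2 ≤ ε * M * ((j : ℝ) + 1) ^ 2 :=
        mul_le_mul_of_nonneg_right hM (by positivity)
      linarith
    have hm0 : (0 : ℝ) < M * (j + 1) ^ 2 := by
      have : (0 : ℝ) < M := by exact_mod_cast hM1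
      positivity
    have c3 : S ≤ (ε / 2) * n * (M * (j + 1) ^ 2) := by
      refine le_trans c1 ?_
      have := mul_le_mul_of_nonneg_left c2 hn0
      linarith
    have hP0 : (0 : ℝ) < (scP p M j : ℕ) := by linarith
    have c4 : S / ((K * scP p M (j + 1) : ℕ) : ℝ) ≤ (ε / 2) * n / (K * (scP p M j : ℕ)) := by
      rw [scP_succ]
      push_cast
      rw [div_le_div_iff₀ (by positivity) (by positivity)]
      have := mul_le_mul_of_nonneg_right c3 (show 0 ≤ (K : ℝ) * (scP p M j : ℕ) by positivity)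
      linarith
    have c5 : (ε / 2) * n / (K * (scP p M j : ℕ)) ≤ ε * n / ((K * scP p M j : ℕ) : ℝ) -
        S / ((K * scP p M (j + 1) : ℕ) : ℝ) := by
      have : ε * n / ((K * scP p M j : ℕ) : ℝ) = 2 * ((ε / 2) * n / (K * (scP p M j : ℕ))) := by
        push_cast
        field_simp
      rw [this]
      linarith
    refine le_trans ?_ c5
    -- the gain
    have c6 : ε * c / (2 * K) / log (scP p M j : ℕ) ≤ (ε / 2) * n / (K * (scP p M j : ℕ)) := by
      have d1 := hQ _ hP2
      have d2 : (ε / 2) * (c * (scP p M j : ℕ) / log (scP p M j : ℕ)) / (K * (scP p M j : ℕ)) ≤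
          (ε / 2) * n / (K * (scP p M j : ℕ)) :=
        div_le_div_of_nonneg_right (mul_le_mul_of_nonneg_left d1 (by positivity)) (by positivity)
      refine le_trans (le_of_eq ?_) d2
      field_simp
    refine le_trans ?_ c6
    have hl2 : (1 : ℝ) / 2 ≤ log 2 := by
      have := log_two_gt_d9
      linarith
    have hl2' : log 2 ≤ log ((j : ℝ) + 2) := log_le_log (by norm_num) (by linarith)
    have hlj : 0 < log ((j : ℝ) + 2) := by linarith
    have c7 : log (scP p M j : ℕ) ≤ A * (((j : ℝ) + 2) * log ((j : ℝ) + 2)) := by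
      have e1 : (1 : ℝ) ≤ ((j : ℝ) + 2) * log ((j : ℝ) + 2) := by nlinarith
      have e2 : (j : ℝ) ≤ 2 * (((j : ℝ) + 2) * log ((j : ℝ) + 2)) := by nlinarith
      have e3 : (j : ℝ) * log ((j : ℝ) + 1) ≤ ((j : ℝ) + 2) * log ((j : ℝ) + 2) := by
        have : log ((j : ℝ) + 1) ≤ log ((j : ℝ) + 2) := log_le_log (by positivity) (by linarith)
        have h6 : (j : ℝ) * log ((j : ℝ) + 1) ≤ j * log ((j : ℝ) + 2) :=
          mul_le_mul_of_nonneg_left this hj0
        linarith
      have e4 : log p * 1 ≤ log p * (((j : ℝ) + 2) * log ((j : ℝ) + 2)) :=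
        mul_le_mul_of_nonneg_left e1 hlp
      have e5 : (j : ℝ) * log M ≤ 2 * (((j : ℝ) + 2) * log ((j : ℝ) + 2)) * log M :=
        mul_le_mul_of_nonneg_right e2 hlM
      have e6 : A * (((j : ℝ) + 2) * log ((j : ℝ) + 2)) =
          log p * (((j : ℝ) + 2) * log ((j : ℝ) + 2)) +
          2 * (((j : ℝ) + 2) * log ((j : ℝ) + 2)) * log M +
          2 * (((j : ℝ) + 2) * log ((j : ℝ) + 2)) := by
        rw [hA]
        ring
      rw [e6]
      linarith
    have c8 : ε * c / (2 * K) / (A * (((j : ℝ) + 2) * log ((j : ℝ) + 2))) ≤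
        ε * c / (2 * K) / log (scP p M j : ℕ) :=
      div_le_div_of_nonneg_left (by positivity) hlP c7
    refine le_trans ?_ c8
    have c9 := mul_le_mul_of_nonneg_left (loglog_step j) hκ0.le
    refine le_trans c9 (le_of_eq ?_)
    rw [hκ]
    field_simp
  -- the total
  have htot : ∀ J : ℕ, κ * (log (log ((J : ℝ) + 2)) - log (log 2)) ≤
      ∑ j ∈ Finset.range J, (ε * ((I (scP p M j)).card : ℝ) / ((K * scP p M j : ℕ) : ℝ) -
        (∑ q ∈ I (scP p M j), 4 * log q) / ((K * scP p M (j + 1) : ℕ) : ℝ)) := by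
    intro J
    induction J with
    | zero => simp
    | succ J ih =>
      rw [Finset.sum_range_succ]
      have h1 := hterm J
      push_cast at h1 ih ⊢
      have h2 : (J : ℝ) + 1 + 2 = J + 3 := by ring
      rw [h2]
      linarith
  have hlim : Filter.Tendsto (fun J : ℕ => log (log ((J : ℝ) + 2))) Filter.atTop Filter.atTop :=
    tendsto_log_atTop.comp (tendsto_log_atTop.comp
      (Filter.tendsto_atTop_add_const_right _ _ tendsto_natCast_atTop_atTop))
  refine ⟨?_, ?_⟩
  · intro j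
    have h1 := hterm j
    have hj0 : (0 : ℝ) ≤ j := Nat.cast_nonneg j
    have h2 : 0 < log ((j : ℝ) + 2) := log_pos (by linarith)
    have h3 : log ((j : ℝ) + 2) ≤ log ((j : ℝ) + 3) := log_le_log (by linarith) (by linarith)
    have h4 : log (log ((j : ℝ) + 2)) ≤ log (log ((j : ℝ) + 3)) := log_le_log h2 h3
    have h5 : 0 ≤ κ * (log (log ((j : ℝ) + 3)) - log (log ((j : ℝ) + 2))) :=
      mul_nonneg hκ0.le (by linarith)
    unfold gainG
    exact h5.trans h1
  · intro h0
    obtain ⟨J, hJ⟩ := (hlim.eventually (Filter.eventually_gt_atTop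
      (h0 / κ + log (log 2)))).exists
    refine ⟨J, ?_⟩
    refine lt_of_lt_of_le ?_ (htot J)
    have h1 : h0 / κ < log (log ((J : ℝ) + 2)) - log (log 2) := by linarith
    rw [div_lt_iff₀ hκ0] at h1
    linarith

end Pool.Agent.LogG
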