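import Pool.Agent.Lib.LogG.GDefs

/-!
# GPsel: a short block of primes with a constant value
-/

set_option autoImplicit false

namespace Pool.Agent.LogG

open Real
open Pool.Agent.NSqP
open Pool.Agent.LogCh

open Classical in
theorem SELB (C1 : ℕ) (c : ℝ) (hC1 : 2 ≤ C1) (hc : 0 < c)
    (hQ : ∀ P : ℕ, 2 ≤ P → c * P / log P ≤ ((QQ C1 P).card : ℝ)) (S : Finset ℂ) (h : ℝ)
    (hh : 0 < h) : ∃ c' : ℝ, 0 < c' ∧ ∀ P : ℕ, 2 ≤ P → ∀ cls : ℕ → ℂ,
    (∀ q ∈ QQ C1 P, cls q ∈ S) → ∃ (X : ℝ) (w : ℂ), (P : ℝ) ≤ X ∧ X ≤ C1 * P ∧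
      c' * P / log P ≤ (((QQ C1 P).filter (fun q : ℕ => X < (q : ℝ) ∧ (q : ℝ) ≤ (1 + h) * X ∧
        cls q = w)).card : ℝ) := by
  obtain ⟨n, hn⟩ : ∃ n : ℕ, (C1 : ℝ) ≤ (1 + h) ^ n := by
    obtain ⟨n, hn⟩ := pow_unbounded_of_one_lt (C1 : ℝ) (by linarith : (1 : ℝ) < 1 + h)
    exact ⟨n, hn.le⟩
  have hC1R : (2 : ℝ) ≤ C1 := by exact_mod_cast hC1
  have hn1 : 1 ≤ n := by
    rcases Nat.eq_zero_or_pos n with rfl | h0
    · rw [pow_zero] at hn
      linarith
    · exact h0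
  have hnR : (0 : ℝ) < n := by exact_mod_cast hn1
  refine ⟨c / (n * (S.card + 1)), by positivity, ?_⟩
  intro P hP cls hcls
  have hPR : (2 : ℝ) ≤ P := by exact_mod_cast hP
  have hP0 : (0 : ℝ) < P := by linarith
  have hlP : 0 < log (P : ℝ) := log_pos (by linarith)
  by_contra hcon
  push Not at hcon
  have h1h : (1 : ℝ) ≤ 1 + h := by linarith
  -- each cell is small
  have hcell : ∀ i : ℕ, ∀ w : ℂ, (((QQ C1 P).filter (fun q : ℕ => (1 + h) ^ i * P < (q : ℝ) ∧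
      (q : ℝ) ≤ (1 + h) * ((1 + h) ^ i * P) ∧ cls q = w)).card : ℝ) ≤
      c / (n * (S.card + 1)) * P / log P := by
    intro i w
    by_cases hX : (1 + h) ^ i * (P : ℝ) ≤ C1 * P
    · refine (hcon _ w ?_ hX).le
      have := one_le_pow₀ h1h (n := i)
      nlinarith
    · have he : (QQ C1 P).filter (fun q : ℕ => (1 + h) ^ i * P < (q : ℝ) ∧
          (q : ℝ) ≤ (1 + h) * ((1 + h) ^ i * P) ∧ cls q = w) = ∅ := by
        rw [Finset.filter_eq_empty_iff]
        rintro q hq ⟨h1, -, -⟩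
        have hq1 := (Finset.mem_Ioc.1 (Finset.mem_filter.1 hq).1).2
        have hq2 : (q : ℝ) ≤ C1 * P := by exact_mod_cast hq1
        linarith
      rw [he, Finset.card_empty, Nat.cast_zero]
      positivity
  -- the cells cover
  have hcov : QQ C1 P ⊆ (Finset.range n ×ˢ S).biUnion (fun iw => (QQ C1 P).filter
      (fun q : ℕ => (1 + h) ^ iw.1 * P < (q : ℝ) ∧
      (q : ℝ) ≤ (1 + h) * ((1 + h) ^ iw.1 * P) ∧ cls q = iw.2)) := by
    intro q hq
    have hq1 := Finset.mem_Ioc.1 (Finset.mem_filter.1 hq).1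
    have hq2 : (q : ℝ) ≤ C1 * P := by exact_mod_cast hq1.2
    have hq3 : (P : ℝ) < q := by exact_mod_cast hq1.1
    have hex : ∃ i : ℕ, (q : ℝ) ≤ (1 + h) ^ (i + 1) * P := by
      refine ⟨n - 1, ?_⟩
      rw [Nat.sub_add_cancel hn1]
      exact hq2.trans (mul_le_mul_of_nonneg_right hn hP0.le)
    have hfi := Nat.find_spec hex
    have hlt : Nat.find hex < n := by
      have h2 : Nat.find hex ≤ n - 1 := by
        refine Nat.find_min' hex ?_
        rw [Nat.sub_add_cancel hn1]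
        exact hq2.trans (mul_le_mul_of_nonneg_right hn hP0.le)
      omega
    have hlow : (1 + h) ^ (Nat.find hex) * P < (q : ℝ) := by
      rcases Nat.eq_zero_or_pos (Nat.find hex) with h0 | h0
      · rw [h0, pow_zero, one_mul]
        exact hq3
      · have h3 := Nat.find_min hex (m := Nat.find hex - 1) (by omega)
        rw [Nat.sub_add_cancel h0] at h3
        exact not_le.1 h3
    refine Finset.mem_biUnion.2 ⟨(Nat.find hex, cls q),
      Finset.mem_product.2 ⟨Finset.mem_range.2 hlt, hcls q hq⟩, Finset.mem_filter.2 ⟨hq, hlow, ?_, rfl⟩⟩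
    rw [pow_succ] at hfi
    linarith
  have hcard : ((QQ C1 P).card : ℝ) ≤ (n * S.card) * (c / (n * (S.card + 1)) * P / log P) := by
    have h1 : (QQ C1 P).card ≤ ∑ iw ∈ Finset.range n ×ˢ S, ((QQ C1 P).filter
      (fun q : ℕ => (1 + h) ^ iw.1 * P < (q : ℝ) ∧
      (q : ℝ) ≤ (1 + h) * ((1 + h) ^ iw.1 * P) ∧ cls q = iw.2)).card :=
      (Finset.card_le_card hcov).trans Finset.card_biUnion_le
    have h2 : ((QQ C1 P).card : ℝ) ≤ ∑ iw ∈ Finset.range n ×ˢ S, (((QQ C1 P).filter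
      (fun q : ℕ => (1 + h) ^ iw.1 * P < (q : ℝ) ∧
      (q : ℝ) ≤ (1 + h) * ((1 + h) ^ iw.1 * P) ∧ cls q = iw.2)).card : ℝ) := by
      exact_mod_cast h1
    refine h2.trans ((Finset.sum_le_card_nsmul _ _ _ (fun iw _ => hcell iw.1 iw.2)).trans ?_)
    rw [nsmul_eq_mul, Finset.card_product, Finset.card_range]
    push_cast
    exact le_refl _
  have hlow := (hQ P hP).trans hcard
  have hpos : 0 < c * P / log (P : ℝ) := by positivity
  have heq : (n * S.card) * (c / (n * (S.card + 1)) * P / log P) =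
      (S.card / (S.card + 1) : ℝ) * (c * P / log P) := by
    field_simp
  rw [heq] at hlow
  have hlt : (S.card / (S.card + 1) : ℝ) < 1 := by
    rw [div_lt_one (by positivity)]
    linarith
  have := mul_lt_mul_of_pos_right hlt hpos
  linarith

end Pool.Agent.LogG
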