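import Pool.Agent.Lib.LogG.GPone
import Pool.Agent.Lib.LogG.GPscale
import Pool.Agent.Lib.LogG.GPsel
import Pool.Agent.Lib.LogCh.Shared

/-!
# The bad scales of one order
-/

set_option autoImplicit false

namespace Pool.Agent.LogG

open Real
open Pool.Agent.NSqP
open Pool.Agent.LogCh
open Pool.Agent.MP484c84Par (ballG mem_ballG crossG dotG)

/-- a finite conjunction of eventual statements -/
lemma ev_finset (s : Finset ℕ) (p : ℕ → ℕ → Prop) (h : ∀ q ∈ s, ∃ N0 : ℕ, ∀ N, N0 ≤ N → p q N) :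
    ∃ N0 : ℕ, ∀ N, N0 ≤ N → ∀ q ∈ s, p q N := by
  choose! N0 hN0 using h
  refine ⟨s.sup N0, fun N hN q hq => hN0 q hq N ((Finset.le_sup hq).trans hN)⟩

/-- the values at the primes lie in a finite set -/
lemma cls_mem {k : ℕ} (hk : 1 ≤ k) {F1 F2 : GaussianInt → ℂ} (hF1 : GF k F1) (hF2 : GF k F2)
    {z : GaussianInt} (hz : z ≠ 0) : F1 z * F2 z ∈ Polynomial.nthRootsFinset k (1 : ℂ) := by
  rw [Polynomial.mem_nthRootsFinset (by omega), mul_pow, hF1.pow z hz, hF2.pow z hz, one_mul]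

set_option maxHeartbeats 4000000 in
theorem PERN {k : ℕ} (hk : 1 ≤ k) {F1 F2 : GaussianInt → ℂ} (hF1 : GF k F1) (hF2 : GF k F2)
    (hre : BLOCKG (fun z => (F1 z).re)) (him : BLOCKG (fun z => (F1 z).im))
    (a a' b b' : ℝ) (ha : 0 < a) (haa : a < a') (ha1 : a' ≤ 1) (hb : 0 < b) (hbb : b < b')
    (hb1 : b' ≤ 1) (ε : ℝ) (hε : 0 < ε) : ∃ (h0 : ℝ) (X g : ℕ → ℝ), (∀ j, 2 ≤ X j) ∧
      (∀ j, 0 ≤ g j) ∧ (∀ M : ℝ, ∃ J : ℕ, M < ∑ j ∈ Finset.range J, g j) ∧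
      ∀ J : ℕ, ∃ N0 : ℕ, ∀ N : ℕ, N0 ≤ N → open Classical in
        ∑ j ∈ (Finset.range J).filter (fun j =>
          ε < ‖PSr F1 F2 a a' b b' ((N : ℝ) / X j) / (((N : ℝ) / X j : ℝ) : ℂ)‖), g j ≤ h0 := by
  classical
  obtain ⟨C1, hC1, c, hc, hQ⟩ := QQ_lower
  obtain ⟨Cm, hCm, hMult⟩ := MULTC a a' b b' ha1 hb1
  obtain ⟨CT, hCT, hTr⟩ := TRUNCR a ha
  obtain ⟨h0, hh0p, hDec⟩ := DECN hk hF1 hF2 a a' b b'
  obtain ⟨CV, hCV, hVV⟩ := card_VV_upper
  obtain ⟨Cd, hCd, hdp⟩ := card_dpairs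
  obtain ⟨CL, hCL, hLip⟩ := LIPC a a' b b' ha haa ha1 hb hbb hb1
  obtain ⟨CB, hCB, hBlk⟩ := BLOCKC hre him C1 a a' b b' (by omega) ha haa ha1 hb hbb hb1
  set δ : ℝ := ε / 50 with hδ
  have hδ0 : 0 < δ := by rw [hδ]; positivity
  -- the constants of the truncation and of the entropy decrement
  obtain ⟨B', hB'1, hB'⟩ : ∃ B' : ℝ, 1 ≤ B' ∧ CT / B' ^ 2 ≤ δ := by
    refine ⟨max 1 (CT / δ), le_max_left _ _, ?_⟩
    set t := max 1 (CT / δ) with ht
    have h1 : 1 ≤ t := le_max_left _ _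
    have h2 : CT / δ ≤ t := le_max_right _ _
    rw [div_le_iff₀ hδ0] at h2
    rw [div_le_iff₀ (by positivity)]
    nlinarith [mul_le_mul_of_nonneg_left h1 (by positivity : 0 ≤ t * δ)]
  obtain ⟨B, hB1, hTrB⟩ := hTr B' hB'1
  obtain ⟨η, hη, hη1, hηB⟩ : ∃ η : ℝ, 0 < η ∧ η ≤ 1 / 2 ∧ CV * (3 * B * √(η + η)) ≤ δ := by
    set r := δ / (3 * CV * B) with hr
    have hr0 : 0 < r := by positivity
    refine ⟨min (1 / 2) (r ^ 2 / 2), by positivity, min_le_left _ _, ?_⟩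
    have h1 : √(min (1 / 2) (r ^ 2 / 2) + min (1 / 2) (r ^ 2 / 2)) ≤ r := by
      rw [show r = √(r ^ 2) by rw [Real.sqrt_sq hr0.le]]
      refine Real.sqrt_le_sqrt ?_
      have := min_le_right (1 / 2 : ℝ) (r ^ 2 / 2)
      rw [Real.sqrt_sq hr0.le]
      linarith
    calc CV * (3 * B * √(min (1 / 2) (r ^ 2 / 2) + min (1 / 2) (r ^ 2 / 2)))
        ≤ CV * (3 * B * r) := by gcongr
      _ = δ := by rw [hr]; field_simp
  obtain ⟨K0, hK01, hK0C, hK0⟩ : ∃ K0 : ℕ, 1 ≤ K0 ∧ C1 ≤ K0 ∧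
      (C1 : ℝ) * (2 / √(a * b)) + 1 ≤ K0 := by
    refine ⟨max C1 ⌈(C1 : ℝ) * (2 / √(a * b)) + 1⌉₊, ?_, le_max_left _ _, ?_⟩
    · exact le_trans (by omega) (le_max_left _ _)
    · exact (Nat.le_ceil _).trans (by exact_mod_cast le_max_right _ _)
  -- the constants of the block estimate
  obtain ⟨κ, hκ0, hκ4, hκ⟩ : ∃ κ : ℝ, 0 < κ ∧ κ < 1 / 4 ∧ CB * κ ≤ δ ^ 2 := by
    refine ⟨min (1 / 8) (δ ^ 2 / CB), by positivity, ?_, ?_⟩
    · exact lt_of_le_of_lt (min_le_left _ _) (by norm_num)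
    · calc CB * min (1 / 8) (δ ^ 2 / CB) ≤ CB * (δ ^ 2 / CB) :=
            mul_le_mul_of_nonneg_left (min_le_right _ _) hCB.le
        _ = δ ^ 2 := by field_simp
  obtain ⟨h, hh0, hh1, hhκ, hhB, hhL⟩ : ∃ h : ℝ, 0 < h ∧ h ≤ 1 ∧ h * (1 + 2 * C1 / κ) ≤ 1 ∧
      CB * (h / κ) ≤ δ ^ 2 ∧ CL * h ≤ δ := by
    set u := 1 + 2 * (C1 : ℝ) / κ with hu
    have hu1 : 1 ≤ u := by
      have : 0 ≤ 2 * (C1 : ℝ) / κ := by positivity
      linarith
    have hu0 : 0 < u := by linarith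
    refine ⟨min (1 / u) (min (κ * δ ^ 2 / CB) (δ / CL)), by positivity, ?_, ?_, ?_, ?_⟩
    · refine (min_le_left _ _).trans ?_
      rw [div_le_one hu0]
      exact hu1
    · calc min (1 / u) (min (κ * δ ^ 2 / CB) (δ / CL)) * u ≤ 1 / u * u :=
            mul_le_mul_of_nonneg_right (min_le_left _ _) hu0.le
        _ = 1 := by field_simp
    · calc CB * (min (1 / u) (min (κ * δ ^ 2 / CB) (δ / CL)) / κ) ≤
            CB * ((κ * δ ^ 2 / CB) / κ) := by
            apply mul_le_mul_of_nonneg_left _ hCB.le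
            apply div_le_div_of_nonneg_right _ hκ0.le
            exact (min_le_right _ _).trans (min_le_left _ _)
        _ = δ ^ 2 := by field_simp
    · calc CL * min (1 / u) (min (κ * δ ^ 2 / CB) (δ / CL)) ≤ CL * (δ / CL) := by
            apply mul_le_mul_of_nonneg_left _ hCL.le
            exact (min_le_right _ _).trans (min_le_right _ _)
        _ = δ := by field_simp
  obtain ⟨y0, hy01, hLipy⟩ := hLip h hh0 hh1
  obtain ⟨c', hc', hSel⟩ := SELB C1 c hC1 hc hQ (Polynomial.nthRootsFinset k (1 : ℂ)) h hh0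
  set δ2 : ℝ := c' ^ 2 * δ ^ 2 with hδ2
  have hδ20 : 0 < δ2 := by positivity
  obtain ⟨P1, hP1⟩ := hBlk κ h δ2 hκ0 hκ4 hh0 hhκ hδ20
  -- the sets of primes
  have hcls : ∀ P : ℕ, ∀ q ∈ QQ C1 P, F1 (pq q) * F2 (pq q) ∈
      Polynomial.nthRootsFinset k (1 : ℂ) := by
    intro P q hq
    obtain ⟨_, _, hqp, hq4⟩ := gmem_QQ hq
    apply cls_mem hk hF1 hF2
    intro h0
    have h1 := pq_spec hqp hq4
    rw [h0, nN_zero] at h1
    exact hqp.ne_zero h1.symm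
  have hSel' : ∀ P : ℕ, ∃ (X : ℝ) (w : ℂ), 2 ≤ P → ((P : ℝ) ≤ X ∧ X ≤ C1 * P ∧
      c' * P / log P ≤ (((QQ C1 P).filter (fun q : ℕ => X < (q : ℝ) ∧ (q : ℝ) ≤ (1 + h) * X ∧
        F1 (pq q) * F2 (pq q) = w)).card : ℝ)) := by
    intro P
    by_cases hP : 2 ≤ P
    · obtain ⟨X, w, h1⟩ := hSel P hP (fun q => F1 (pq q) * F2 (pq q)) (hcls P)
      exact ⟨X, w, fun _ => h1⟩
    · exact ⟨0, 0, fun h => absurd h hP⟩
  choose Xf wf hXw using hSel'
  set I : ℕ → Finset ℕ := fun P => (QQ C1 P).filter (fun q : ℕ => Xf P < (q : ℝ) ∧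
    (q : ℝ) ≤ (1 + h) * Xf P ∧ F1 (pq q) * F2 (pq q) = wf P) with hI
  obtain ⟨P2, hP2⟩ := exists_nat_ge ((Cd + Cm) / δ)
  obtain ⟨P, m, hPP0, hP22, hm, hPm, hsc⟩ :=
    SCALES3 C1 c' hC1 hc' (2 * K0) (by omega) η hη (max (max P1 P2) 2)
  obtain ⟨hgn, hgs⟩ := hsc I (fun Q _ => Finset.filter_subset _ _) (fun Q hQ => (hXw Q hQ).2.2)
  have hPmono : ∀ j, P 0 ≤ P j := by
    intro j
    induction j with
    | zero => exact le_rfl
    | succ j ih =>
      rw [hPm j]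
      exact ih.trans (Nat.le_mul_of_pos_left _ (hm j))
  -- one scale
  have hone : ∀ Q : ℕ, P 0 ≤ Q → ∃ N0 : ℕ, ∀ N : ℕ, N0 ≤ N →
      (∀ s1 s2 : ℂ → ℝ, ∑ q ∈ I Q, |psiSumR (fun z => s1 (fcC F1 a a' N z))
        (fun z => s2 (fcC F2 b b' N z)) B (K0 * Q) q N| ≤
          3 * B * √(η + η) * ((I Q).card : ℝ) * ((VV N).card : ℝ)) →
      ‖PSr F1 F2 a a' b b' ((N : ℝ) / Xf Q) / (((N : ℝ) / Xf Q : ℝ) : ℂ)‖ ≤ ε := by
    intro Q hQP
    have hQ1 : P1 ≤ Q := ((le_max_left _ _).trans (le_max_left _ _)).trans (hPP0.trans hQP)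
    have hQ2 : P2 ≤ Q := ((le_max_right _ _).trans (le_max_left _ _)).trans (hPP0.trans hQP)
    have hQ3 : 2 ≤ Q := hP22.trans hQP
    have hQr : (2 : ℝ) ≤ Q := by exact_mod_cast hQ3
    obtain ⟨hX1, hX2, hcard⟩ := hXw Q hQ3
    have hXpos : 0 < Xf Q := by linarith
    have hlogQ : 0 < log Q := log_pos (by linarith)
    have hIQ : ∀ q ∈ I Q, (q : ℕ) ∈ QQ C1 Q ∧ Xf Q < (q : ℝ) ∧ (q : ℝ) ≤ (1 + h) * Xf Q ∧
        F1 (pq q) * F2 (pq q) = wf Q := fun q hq => Finset.mem_filter.1 hq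
    have hcardpos : (0 : ℝ) < ((I Q).card : ℝ) := lt_of_lt_of_le (by positivity) hcard
    obtain ⟨q0, hq0⟩ : (I Q).Nonempty := by
      rw [← Finset.card_pos]
      exact_mod_cast hcardpos
    have hwf : ‖wf Q‖ = 1 := by
      obtain ⟨h1, _, _, h2⟩ := hIQ q0 hq0
      have h3 := hcls Q q0 h1
      rw [h2, Polynomial.mem_nthRootsFinset (by omega)] at h3
      have h4 : ‖wf Q‖ ^ k = 1 := by rw [← norm_pow, h3, norm_one]
      exact (pow_eq_one_iff_of_nonneg (norm_nonneg _) (by omega)).1 h4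
    obtain ⟨N1, hN1⟩ := hP1 Q hQ1 (I Q) (Finset.filter_subset _ _) (Xf Q) hX1 hX2
      (fun q hq => ⟨(hIQ q hq).2.1, (hIQ q hq).2.2.1⟩)
    have hL0 : ∀ q ∈ I Q, q ≤ K0 * Q ∧ 2 * (q : ℝ) / √(a * b) + 1 ≤ ((K0 * Q : ℕ) : ℝ) := by
      intro q hq
      obtain ⟨_, hqC, hqp, hq4⟩ := gmem_QQ (hIQ q hq).1
      refine ⟨hqC.trans (Nat.mul_le_mul_right _ hK0C), ?_⟩
      have h1 : (q : ℝ) ≤ C1 * Q := by exact_mod_cast hqC
      have h3 : 0 < √(a * b) := Real.sqrt_pos.2 (by positivity)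
      have h4 : 2 * (q : ℝ) / √(a * b) ≤ 2 * (C1 * Q) / √(a * b) := by gcongr
      have h5 : 2 * ((C1 : ℝ) * Q) / √(a * b) = (C1 : ℝ) * (2 / √(a * b)) * Q := by
        field_simp
      push_cast
      nlinarith [mul_le_mul_of_nonneg_right hK0 (by linarith : (0 : ℝ) ≤ Q)]
    obtain ⟨N2, hN2⟩ := ev_finset (I Q) (fun q N =>
      ‖(q : ℂ) * (F1 (pq q) * F2 (pq q) * PSr F1 F2 a a' b b' ((N : ℝ) / q)) -
        pairC F1 F2 q a a' b b' N‖ ≤ (4 * (CT / B' ^ 2) + (Cd + Cm) / q) * N +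
        ((|psiSumR (fun z => (fcC F1 a a' N z).re) (fun z => (fcC F2 b b' N z).re) B
            (K0 * Q) q N| +
        |psiSumR (fun z => (fcC F1 a a' N z).im) (fun z => (fcC F2 b b' N z).im) B
            (K0 * Q) q N|) +
        (|psiSumR (fun z => (fcC F1 a a' N z).re) (fun z => (fcC F2 b b' N z).im) B
            (K0 * Q) q N| +
        |psiSumR (fun z => (fcC F1 a a' N z).im) (fun z => (fcC F2 b b' N z).re) B
            (K0 * Q) q N|)))
      (fun q hq => by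
        obtain ⟨_, _, hqp, hq4⟩ := gmem_QQ (hIQ q hq).1
        exact one_prime hk hF1 hF2 a a' b b' ha ha1 hb hb1 hCm hdp hMult hTrB hqp hq4
          (hL0 q hq).1 (hL0 q hq).2)
    obtain ⟨N3, hN3⟩ := exists_nat_ge (y0 * ((1 + h) * Xf Q))
    refine ⟨max (max N1 N2) (max N3 1), fun N hN hpsi => ?_⟩
    have hNN1 : N1 ≤ N := ((le_max_left _ _).trans (le_max_left _ _)).trans hN
    have hNN2 : N2 ≤ N := ((le_max_right _ _).trans (le_max_left _ _)).trans hN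
    have hNN3 : N3 ≤ N := ((le_max_left _ _).trans (le_max_right _ _)).trans hN
    have hNN4 : 1 ≤ N := ((le_max_right _ _).trans (le_max_right _ _)).trans hN
    have hNr : (1 : ℝ) ≤ N := by exact_mod_cast hNN4
    have hN0 : (0 : ℝ) < N := by linarith
    set U : ℂ := PSr F1 F2 a a' b b' ((N : ℝ) / Xf Q) / (((N : ℝ) / Xf Q : ℝ) : ℂ) with hU
    -- comparison at one prime
    have hcmp : ∀ q ∈ I Q, ‖(N : ℂ) * (wf Q * U) - pairC F1 F2 q a a' b b' N‖ ≤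
        (6 * δ) * N +
        ((|psiSumR (fun z => (fcC F1 a a' N z).re) (fun z => (fcC F2 b b' N z).re) B
            (K0 * Q) q N| +
        |psiSumR (fun z => (fcC F1 a a' N z).im) (fun z => (fcC F2 b b' N z).im) B
            (K0 * Q) q N|) +
        (|psiSumR (fun z => (fcC F1 a a' N z).re) (fun z => (fcC F2 b b' N z).im) B
            (K0 * Q) q N| +
        |psiSumR (fun z => (fcC F1 a a' N z).im) (fun z => (fcC F2 b b' N z).re) B
            (K0 * Q) q N|)) := by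
      intro q hq
      obtain ⟨hqQ, hqX, hqX', hqw⟩ := hIQ q hq
      obtain ⟨hPq, _, hqp, hq4⟩ := gmem_QQ hqQ
      have hqpos : (0 : ℝ) < q := by linarith
      have h1 := hN2 N hNN2 q hq
      rw [hqw] at h1
      have h2 : ‖U - PSr F1 F2 a a' b b' ((N : ℝ) / q) / (((N : ℝ) / q : ℝ) : ℂ)‖ ≤ CL * h := by
        apply hLipy F1 F2 (hF1.le hk) (hF2.le hk)
        · rw [le_div_iff₀ hqpos]
          have h3 : y0 * q ≤ y0 * ((1 + h) * Xf Q) :=
            mul_le_mul_of_nonneg_left hqX' (by linarith)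
          have h4 : (N3 : ℝ) ≤ N := by exact_mod_cast hNN3
          linarith
        · exact div_le_div_of_nonneg_left hN0.le hXpos hqX.le
        · rw [div_le_iff₀ hXpos, mul_div_assoc', div_mul_eq_mul_div, le_div_iff₀ hqpos]
          calc (N : ℝ) * q ≤ N * ((1 + h) * Xf Q) := mul_le_mul_of_nonneg_left hqX' hN0.le
            _ = (1 + h) * N * Xf Q := by ring
      have h3 : (N : ℂ) * (wf Q * (PSr F1 F2 a a' b b' ((N : ℝ) / q) / (((N : ℝ) / q : ℝ) : ℂ))) =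
          (q : ℂ) * (wf Q * PSr F1 F2 a a' b b' ((N : ℝ) / q)) := by
        have e1 : (N : ℂ) ≠ 0 := by exact_mod_cast hN0.ne'
        have e2 : (q : ℂ) ≠ 0 := by exact_mod_cast hqpos.ne'
        push_cast
        field_simp
      have h4 : (N : ℂ) * (wf Q * U) - pairC F1 F2 q a a' b b' N =
          (N : ℂ) * (wf Q * (U - PSr F1 F2 a a' b b' ((N : ℝ) / q) / (((N : ℝ) / q : ℝ) : ℂ))) +
          ((q : ℂ) * (wf Q * PSr F1 F2 a a' b b' ((N : ℝ) / q)) -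
            pairC F1 F2 q a a' b b' N) := by
        rw [← h3]
        ring
      rw [h4]
      refine (norm_add_le _ _).trans ?_
      have h5 : ‖(N : ℂ) * (wf Q * (U - PSr F1 F2 a a' b b' ((N : ℝ) / q) /
          (((N : ℝ) / q : ℝ) : ℂ)))‖ ≤ δ * N := by
        rw [norm_mul, norm_mul, hwf, one_mul, Complex.norm_natCast]
        calc (N : ℝ) * ‖U - PSr F1 F2 a a' b b' ((N : ℝ) / q) / (((N : ℝ) / q : ℝ) : ℂ)‖ ≤
              N * (CL * h) := mul_le_mul_of_nonneg_left h2 hN0.le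
          _ ≤ N * δ := mul_le_mul_of_nonneg_left hhL hN0.le
          _ = δ * N := mul_comm _ _
      have h6 : (Cd + Cm) / (q : ℝ) ≤ δ := by
        rw [div_le_iff₀ hqpos]
        rw [div_le_iff₀ hδ0] at hP2
        have e1 : (P2 : ℝ) ≤ q := by exact_mod_cast hQ2.trans hPq.le
        have e2 : δ * (P2 : ℝ) ≤ δ * q := mul_le_mul_of_nonneg_left e1 hδ0.le
        linarith
      have h7 : (4 * (CT / B' ^ 2) + (Cd + Cm) / q) * N ≤ (5 * δ) * N := by
        apply mul_le_mul_of_nonneg_right _ hN0.le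
        linarith
      linarith
    -- summation over the primes
    have hsum : ‖((I Q).card : ℂ) * ((N : ℂ) * (wf Q * U)) -
        ∑ q ∈ I Q, pairC F1 F2 q a a' b b' N‖ ≤ (10 * δ) * N * ((I Q).card : ℝ) := by
      have h1 : ((I Q).card : ℂ) * ((N : ℂ) * (wf Q * U)) -
          ∑ q ∈ I Q, pairC F1 F2 q a a' b b' N =
          ∑ q ∈ I Q, ((N : ℂ) * (wf Q * U) - pairC F1 F2 q a a' b b' N) := by
        rw [Finset.sum_sub_distrib, Finset.sum_const, nsmul_eq_mul]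
      rw [h1]
      refine (norm_sum_le _ _).trans ((Finset.sum_le_sum hcmp).trans ?_)
      rw [Finset.sum_add_distrib, Finset.sum_add_distrib, Finset.sum_add_distrib,
        Finset.sum_add_distrib, Finset.sum_const, nsmul_eq_mul]
      have e1 := hpsi Complex.re Complex.re
      have e2 := hpsi Complex.im Complex.im
      have e3 := hpsi Complex.re Complex.im
      have e4 := hpsi Complex.im Complex.re
      have e5 : 3 * B * √(η + η) * ((I Q).card : ℝ) * ((VV N).card : ℝ) ≤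
          δ * N * ((I Q).card : ℝ) := by
        have f1 : ((VV N).card : ℝ) ≤ CV * N := hVV N
        have f2 : 0 ≤ 3 * B * √(η + η) * ((I Q).card : ℝ) := by positivity
        calc 3 * B * √(η + η) * ((I Q).card : ℝ) * ((VV N).card : ℝ) ≤
              3 * B * √(η + η) * ((I Q).card : ℝ) * (CV * N) :=
              mul_le_mul_of_nonneg_left f1 f2
          _ = (CV * (3 * B * √(η + η))) * (N * ((I Q).card : ℝ)) := by ring
          _ ≤ δ * (N * ((I Q).card : ℝ)) :=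
              mul_le_mul_of_nonneg_right hηB (by positivity)
          _ = δ * N * ((I Q).card : ℝ) := by ring
      have e6 : ((I Q).card : ℝ) * (6 * δ * N) = 6 * (δ * N * ((I Q).card : ℝ)) := by ring
      have e7 : 10 * δ * N * ((I Q).card : ℝ) = 10 * (δ * N * ((I Q).card : ℝ)) := by ring
      rw [e6, e7]
      linarith
    -- the block estimate
    have hblk := hN1 N hNN1 F2 (hF2.le hk)
    have hsq : √(N ^ 2 * (CB * (κ + h / κ) * ((I Q).card : ℝ) ^ 2 + δ2 * (Q / log Q) ^ 2)) ≤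
        2 * δ * N * ((I Q).card : ℝ) := by
      have h1 : (0 : ℝ) ≤ 2 * δ * N * ((I Q).card : ℝ) := by positivity
      rw [← Real.sqrt_sq h1]
      apply Real.sqrt_le_sqrt
      have h2 : CB * (κ + h / κ) ≤ 2 * δ ^ 2 := by
        rw [mul_add]
        linarith
      have h3 : δ2 * ((Q : ℝ) / log Q) ^ 2 ≤ δ ^ 2 * ((I Q).card : ℝ) ^ 2 := by
        rw [hδ2]
        have e1 : c' * ((Q : ℝ) / log Q) ≤ ((I Q).card : ℝ) := by
          rw [← mul_div_assoc]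
          exact hcard
        have e2 : 0 ≤ c' * ((Q : ℝ) / log Q) := by positivity
        have e3 : (c' * ((Q : ℝ) / log Q)) ^ 2 ≤ ((I Q).card : ℝ) ^ 2 :=
          pow_le_pow_left₀ e2 e1 2
        calc c' ^ 2 * δ ^ 2 * ((Q : ℝ) / log Q) ^ 2 = δ ^ 2 * (c' * ((Q : ℝ) / log Q)) ^ 2 := by
              ring
          _ ≤ δ ^ 2 * ((I Q).card : ℝ) ^ 2 := mul_le_mul_of_nonneg_left e3 (by positivity)
      have h4 : CB * (κ + h / κ) * ((I Q).card : ℝ) ^ 2 ≤ 2 * δ ^ 2 * ((I Q).card : ℝ) ^ 2 :=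
        mul_le_mul_of_nonneg_right h2 (by positivity)
      calc (N : ℝ) ^ 2 * (CB * (κ + h / κ) * ((I Q).card : ℝ) ^ 2 + δ2 * (Q / log Q) ^ 2) ≤
            (N : ℝ) ^ 2 * (4 * δ ^ 2 * ((I Q).card : ℝ) ^ 2) := by
            apply mul_le_mul_of_nonneg_left _ (by positivity)
            nlinarith [sq_nonneg (δ * ((I Q).card : ℝ))]
        _ = (2 * δ * N * ((I Q).card : ℝ)) ^ 2 := by ring
    have hfin : ‖((I Q).card : ℂ) * ((N : ℂ) * (wf Q * U))‖ ≤
        (18 * δ) * (N * ((I Q).card : ℝ)) := by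
      have h1 := norm_add_le (((I Q).card : ℂ) * ((N : ℂ) * (wf Q * U)) -
        ∑ q ∈ I Q, pairC F1 F2 q a a' b b' N) (∑ q ∈ I Q, pairC F1 F2 q a a' b b' N)
      rw [sub_add_cancel] at h1
      have h2 : 10 * δ * N * ((I Q).card : ℝ) + 4 * (2 * δ * N * ((I Q).card : ℝ)) =
          (18 * δ) * (N * ((I Q).card : ℝ)) := by ring
      linarith
    rw [norm_mul, norm_mul, norm_mul, hwf, one_mul, Complex.norm_natCast,
      Complex.norm_natCast] at hfin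
    have h1 : ‖U‖ * (N * ((I Q).card : ℝ)) ≤ ε * (N * ((I Q).card : ℝ)) := by
      calc ‖U‖ * (N * ((I Q).card : ℝ)) = ((I Q).card : ℝ) * (N * ‖U‖) := by ring
        _ ≤ (18 * δ) * (N * ((I Q).card : ℝ)) := hfin
        _ ≤ ε * (N * ((I Q).card : ℝ)) := by
            apply mul_le_mul_of_nonneg_right _ (by positivity)
            rw [hδ]
            linarith
    exact le_of_mul_le_mul_right h1 (by positivity)
  -- all scales
  refine ⟨h0, fun j => Xf (P j), gainG I (2 * K0) η P, ?_, hgn, hgs, ?_⟩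
  · intro j
    have h1 : 2 ≤ P j := hP22.trans (hPmono j)
    have h2 : (2 : ℝ) ≤ P j := by exact_mod_cast h1
    exact h2.trans (hXw (P j) h1).1
  · intro J
    obtain ⟨N1, hN1⟩ := hDec K0 hK01 J P m (by omega) hm hPm I (fun j q hq => by
      exact (gmem_QQ (Finset.mem_filter.1 hq).1).2.2.1) η hη hη1 B hB1 hgn
    obtain ⟨N2, hN2⟩ := ev_finset (Finset.range J) (fun j N =>
      (∀ s1 s2 : ℂ → ℝ, ∑ q ∈ I (P j), |psiSumR (fun z => s1 (fcC F1 a a' N z))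
        (fun z => s2 (fcC F2 b b' N z)) B (K0 * P j) q N| ≤
          3 * B * √(η + η) * ((I (P j)).card : ℝ) * ((VV N).card : ℝ)) →
      ‖PSr F1 F2 a a' b b' ((N : ℝ) / Xf (P j)) / (((N : ℝ) / Xf (P j) : ℝ) : ℂ)‖ ≤ ε)
      (fun j _ => hone (P j) (hPmono j))
    refine ⟨max N1 N2, fun N hN => ?_⟩
    obtain ⟨Bad, _, hBg, hBj⟩ := hN1 N ((le_max_left _ _).trans hN)
    refine (Finset.sum_le_sum_of_subset_of_nonneg ?_ fun j _ _ => hgn j).trans hBg
    intro j hj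
    rw [Finset.mem_filter] at hj
    by_contra hjB
    have h1 := hN2 N ((le_max_right _ _).trans hN) j hj.1 (hBj j hj.1 hjB)
    linarith [hj.2]

end Pool.Agent.LogG
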