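import Pool.Agent.Lib.LogG.GWin
import Pool.Agent.Lib.LogG.GPern
import Pool.Agent.Lib.LogG.GHnp
import Pool.Agent.Lib.LogG.GHfin
import Pool.Agent.Lib.LogG.GFmrc
import Pool.Agent.Lib.LogG.GEfin
import Pool.Agent.Lib.LogCh.WLv
import Pool.Agent.Lib.LogCh.WOn
import Pool.Agent.Lib.LogCh.DEQ2

/-!
# The correlation in one cell is small at most scales of every long window
-/

set_option autoImplicit false

namespace Pool.Agent.LogG

open Real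
open Pool.Agent.NSqP
open Pool.Agent.LogCh
open Pool.Agent.MP484c84Par (ballG mem_ballG crossG dotG)

theorem EQ2G : EQ2Stmt := fun δ hδ => EQ2' δ hδ

theorem blocks_of {k : ℕ} (hk : 1 ≤ k) {f : ℕ → ℂ} (hf : MF k f) (hN : NPD f) :
    BLOCKG (fun z => (FC f z).re) ∧ BLOCKG (fun z => (FC f z).im) := by
  have hF := FC_GF hf
  have h1 : HALFG (FC f) := HALFG_of (fun A hA => W1Ap A hA) hk hF (NPG_of_NPD hk hf hN)
  obtain ⟨m1, m2⟩ := MRCGp (hF.CMC hk) (hF.le hk) h1 LVPp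
  exact ⟨BLOCKG_of (fun z => (Complex.abs_re_le_norm _).trans (hF.le hk z)) EQ2G m1,
    BLOCKG_of (fun z => (Complex.abs_im_le_norm _).trans (hF.le hk z)) EQ2G m2⟩

lemma prim_star {z : GaussianInt} (h : Prim z) : Prim (star z) := by
  unfold Prim cont at h ⊢
  rw [Zsqrtd.re_star, Zsqrtd.im_star, Int.gcd_neg]
  exact h

lemma dpairs_swap {m : ℤ} {N : ℕ} {p : GaussianInt × GaussianInt} (hp : p ∈ dpairs m N) :
    (star p.2, star p.1) ∈ dpairs m N := by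
  rw [mem_dpairs] at hp ⊢
  obtain ⟨⟨h1, h2⟩, ⟨h3, h4⟩, h5, h6⟩ := hp
  refine ⟨⟨?_, prim_star h4⟩, ⟨?_, prim_star h2⟩, ?_, ?_⟩
  · rw [nN_star]; exact h3
  · rw [nN_star]; exact h1
  · rw [← h5]
    unfold crossG
    simp only [Zsqrtd.re_star, Zsqrtd.im_star]
    ring
  · have : dotG (star p.2) (star p.1) = dotG p.1 p.2 := by
      unfold dotG
      simp only [Zsqrtd.re_star, Zsqrtd.im_star]
      ring
    rw [this]
    exact h6

/-- the symmetry between the two factors -/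
lemma PSr_swap {k : ℕ} {F1 F2 : GaussianInt → ℂ} (hF1 : GF k F1) (hF2 : GF k F2)
    (a a' b b' y : ℝ) : PSr F1 F2 a a' b b' y = PSr F2 F1 b b' a a' y := by
  classical
  unfold PSr
  refine Finset.sum_nbij' (fun p => (star p.2, star p.1)) (fun p => (star p.2, star p.1))
    (fun p hp => dpairs_swap hp) (fun p hp => dpairs_swap hp) ?_ ?_ ?_
  · intro p _
    simp
  · intro p _
    simp
  · intro p _
    simp only [nN_star]
    rw [hF2.nrm (star p.2) p.2 (nN_star _), hF1.nrm (star p.1) p.1 (nN_star _),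
      mul_comm (F2 p.2)]
    split_ifs with h1 h2 h3
    · rfl
    · exact absurd ⟨h1.2, h1.1⟩ h2
    · exact absurd ⟨h3.2, h3.1⟩ h1
    · rfl

/-- the case that the first function is not pretentious -/
theorem cell_window1 {k : ℕ} (hk : 1 ≤ k) {F1 F2 : GaussianInt → ℂ} (hF1 : GF k F1)
    (hF2 : GF k F2) (hB : BLOCKG (fun z => (F1 z).re) ∧ BLOCKG (fun z => (F1 z).im))
    (a a' b b' : ℝ) (ha : 0 < a) (haa : a < a') (ha1 : a' ≤ 1) (hb : 0 < b) (hbb : b < b')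
    (hb1 : b' ≤ 1) (C : ℕ) (hC : 1 ≤ C) (ε : ℝ) (hε : 0 < ε) : ∃ R0 : ℕ, ∀ R : ℕ, R0 ≤ R →
      ∃ X0 : ℕ, ∀ X : ℕ, X0 ≤ X → ∑ x ∈ Finset.Ioc X (R * X),
        ‖PSr F1 F2 a a' b b' ((C : ℝ) * x)‖ / (x : ℝ) ^ 2 ≤ ε * log R := by
  classical
  obtain ⟨C0, hC0, hle⟩ := PSr_le a a' b b'
  obtain ⟨CL, hCL, hLip⟩ := LIPC a a' b b' ha haa ha1 hb hbb hb1
  have hCr : (0 : ℝ) < C := by exact_mod_cast hC
  set S : ℝ → ℝ := fun y => ‖PSr F1 F2 a a' b b' y / (y : ℂ)‖ with hS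
  have hW1 : ∀ y : ℝ, 0 ≤ y → |S y| ≤ C0 := by
    intro y hy
    rw [abs_of_nonneg (norm_nonneg _), norm_div, Complex.norm_real, Real.norm_eq_abs,
      abs_of_nonneg hy]
    rcases eq_or_lt_of_le hy with h | h
    · rw [← h, div_zero]
      exact hC0.le
    · rw [div_le_iff₀ h]
      exact hle F1 F2 (hF1.le hk) (hF2.le hk) y hy
  have hW2 : ∀ ε : ℝ, 0 < ε → ∃ h y0 : ℝ, 0 < h ∧ 1 ≤ y0 ∧ ∀ y y' : ℝ, y0 ≤ y → y ≤ y' →
      y' ≤ (1 + h) * y → |S y' - S y| ≤ ε := by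
    intro ε' hε'
    set h := min 1 (ε' / CL) with hh
    have hh0 : 0 < h := by positivity
    obtain ⟨y0, hy0, hy⟩ := hLip h hh0 (min_le_left _ _)
    refine ⟨h, y0, hh0, hy0, fun y y' h1 h2 h3 => ?_⟩
    refine (abs_norm_sub_norm_le _ _).trans ?_
    refine (hy F1 F2 (hF1.le hk) (hF2.le hk) y y' h1 h2 h3).trans ?_
    calc CL * h ≤ CL * (ε' / CL) := mul_le_mul_of_nonneg_left (min_le_right _ _) hCL.le
      _ = ε' := by field_simp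
  have hW3 : ∀ ε : ℝ, 0 < ε → ∃ (h0 : ℝ) (X g : ℕ → ℝ), (∀ j, 2 ≤ X j) ∧ (∀ j, 0 ≤ g j) ∧
      (∀ M : ℝ, ∃ J : ℕ, M < ∑ j ∈ Finset.range J, g j) ∧ ∀ J : ℕ, ∃ N0 : ℕ, ∀ N : ℕ, N0 ≤ N →
        ∑ j ∈ (Finset.range J).filter (fun j => ε < |S (N / X j)|), g j ≤ h0 := by
    intro ε' hε'
    obtain ⟨h0, X, g, hX, hg, hgs, hJ⟩ := PERN hk hF1 hF2 hB.1 hB.2 a a' b b' ha haa ha1 hb hbb
      hb1 ε' hε'
    refine ⟨h0, X, g, hX, hg, hgs, fun J => ?_⟩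
    obtain ⟨N0, hN0⟩ := hJ J
    refine ⟨N0, fun N hN => ?_⟩
    refine le_trans (le_of_eq ?_) (hN0 N hN)
    refine Finset.sum_congr ?_ fun _ _ => rfl
    refine Finset.filter_congr fun j _ => ?_
    rw [hS]
    show ε' < |‖PSr F1 F2 a a' b b' ((N : ℝ) / X j) / (((N : ℝ) / X j : ℝ) : ℂ)‖| ↔ _
    rw [abs_of_nonneg (norm_nonneg _)]
  obtain ⟨R0, hR0⟩ := WINDOW S C0 hW1 hW2 hW3 C hC (ε / C) (by positivity)
  refine ⟨R0, fun R hR => ?_⟩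
  obtain ⟨X0, hX0⟩ := hR0 R hR
  refine ⟨X0, fun X hX => ?_⟩
  have h1 := hX0 X hX
  have h2 : ∑ x ∈ Finset.Ioc X (R * X), ‖PSr F1 F2 a a' b b' ((C : ℝ) * x)‖ / (x : ℝ) ^ 2 =
      C * ∑ x ∈ Finset.Ioc X (R * X),
        |‖PSr F1 F2 a a' b b' ((C : ℝ) * x) / (((C : ℝ) * x : ℝ) : ℂ)‖| / x := by
    rw [Finset.mul_sum]
    refine Finset.sum_congr rfl fun x hx => ?_
    have hx1 : 0 < x := by
      rw [Finset.mem_Ioc] at hx
      omega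
    have hx0 : (0 : ℝ) < x := by exact_mod_cast hx1
    rw [abs_of_nonneg (norm_nonneg _), norm_div, Complex.norm_real, Real.norm_eq_abs,
      abs_of_pos (by positivity)]
    field_simp
  rw [h2]
  calc (C : ℝ) * ∑ x ∈ Finset.Ioc X (R * X),
        |‖PSr F1 F2 a a' b b' ((C : ℝ) * x) / (((C : ℝ) * x : ℝ) : ℂ)‖| / x ≤
        C * (ε / C * log R) := mul_le_mul_of_nonneg_left h1 hCr.le
    _ = ε * log R := by field_simp

theorem cell_window {k : ℕ} (hk : 1 ≤ k) {f g : ℕ → ℂ} (hf : MF k f) (hg : MF k g)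
    (hN : NPD f ∨ NPD g)
    (a a' b b' : ℝ) (ha : 0 < a) (haa : a < a') (ha1 : a' ≤ 1) (hb : 0 < b) (hbb : b < b')
    (hb1 : b' ≤ 1) (C : ℕ) (hC : 1 ≤ C) (ε : ℝ) (hε : 0 < ε) : ∃ R0 : ℕ, ∀ R : ℕ, R0 ≤ R →
      ∃ X0 : ℕ, ∀ X : ℕ, X0 ≤ X → ∑ x ∈ Finset.Ioc X (R * X),
        ‖PSr (FC f) (FC g) a a' b b' ((C : ℝ) * x)‖ / (x : ℝ) ^ 2 ≤ ε * log R := by
  rcases hN with h | h
  · exact cell_window1 hk (FC_GF hf) (FC_GF hg) (blocks_of hk hf h) a a' b b' ha haa ha1 hb hbb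
      hb1 C hC ε hε
  · have h1 := cell_window1 hk (FC_GF hg) (FC_GF hf) (blocks_of hk hg h) b b' a a' hb hbb hb1 ha
      haa ha1 C hC ε hε
    simp only [PSr_swap (FC_GF hf) (FC_GF hg) a a' b b']
    exact h1

end Pool.Agent.LogG
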