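import Pool.Agent.Lib.LogG.GOm
import Pool.Agent.Lib.LogCh.ZLow

/-!
# Joint equidistribution of `Ω(d)`, `Ω(e)` modulo `k` over the factorisations `n ^ 2 + 1 = d e`
-/

set_option autoImplicit false

namespace Pool.Agent.LogG

open Real
open Pool.Agent.NSqP
open Pool.Agent.LogCh

/-- the divisors `d` of `n ^ 2 + 1` with `α n < d ≤ β n` -/
noncomputable def DV (α β : ℝ) (n : ℕ) : Finset ℕ :=
  open Classical in (n ^ 2 + 1).divisors.filter (fun d : ℕ => α * n < d ∧ (d : ℝ) ≤ β * n)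

/-- the number of the `d ∈ DV α β n` with `Ω(d) ≡ a`, `Ω((n ^ 2 + 1) / d) ≡ b` modulo `k` -/
noncomputable def CV (α β : ℝ) (k : ℕ) (a b : ZMod k) (n : ℕ) : ℝ :=
  (((DV α β n).filter (fun d : ℕ => (ArithmeticFunction.cardFactors d : ZMod k) = a ∧
    (ArithmeticFunction.cardFactors ((n ^ 2 + 1) / d) : ZMod k) = b)).card : ℝ)

/-- finitely many functions at the same time -/
lemma fam_windows {ι : Type} (I : Finset ι) (G : ι → ℕ → ℝ)
    (h : ∀ i ∈ I, ∀ ε : ℝ, 0 < ε → ∃ R0 : ℕ, ∀ R : ℕ, R0 ≤ R → ∃ X0 : ℕ, ∀ X : ℕ, X0 ≤ X →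
      ∑ x ∈ Finset.Ioc X (R * X), G i x ≤ ε * log R) (ε : ℝ) (hε : 0 < ε) :
    ∃ R0 : ℕ, ∀ R : ℕ, R0 ≤ R → ∃ X0 : ℕ, ∀ X : ℕ, X0 ≤ X →
      ∑ x ∈ Finset.Ioc X (R * X), ∑ i ∈ I, G i x ≤ ε * log R := by
  classical
  have h1 : ∀ i ∈ I, ∃ R0 : ℕ, ∀ R : ℕ, R0 ≤ R → ∃ X0 : ℕ, ∀ X : ℕ, X0 ≤ X →
      ∑ x ∈ Finset.Ioc X (R * X), G i x ≤ ε / (I.card + 1) * log R :=
    fun i hi => h i hi _ (by positivity)
  choose! R1 hR1 using h1
  refine ⟨max (I.sup R1) 1, fun R hR => ?_⟩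
  have hRr : (1 : ℝ) ≤ R := by exact_mod_cast (le_max_right _ _).trans hR
  have hlog : 0 ≤ log R := log_nonneg hRr
  have h2 : ∀ i ∈ I, ∃ X0 : ℕ, ∀ X : ℕ, X0 ≤ X →
      ∑ x ∈ Finset.Ioc X (R * X), G i x ≤ ε / (I.card + 1) * log R := fun i hi =>
    hR1 i hi R ((Finset.le_sup hi).trans ((le_max_left _ _).trans hR))
  choose! X1 hX1 using h2
  refine ⟨I.sup X1, fun X hX => ?_⟩
  rw [Finset.sum_comm]
  refine (Finset.sum_le_sum fun i hi => hX1 i hi X ((Finset.le_sup hi).trans hX)).trans ?_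
  rw [Finset.sum_const, nsmul_eq_mul]
  have h3 : (I.card : ℝ) * (ε / (I.card + 1) * log R) =
      (I.card / (I.card + 1)) * (ε * log R) := by ring
  rw [h3]
  have h4 : (I.card : ℝ) / (I.card + 1) ≤ 1 := by
    rw [div_le_one (by positivity)]
    linarith
  have h5 : 0 ≤ ε * log R := by positivity
  nlinarith

/-- the sum over the factorisations -/
noncomputable def SF (f g : ℕ → ℂ) (α β : ℝ) (x : ℕ) : ℂ :=
  ∑ n ∈ Finset.Icc 1 x, ∑ d ∈ DV α β n, f d * g ((n ^ 2 + 1) / d)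

lemma SF_one (k : ℕ) [NeZero k] (α β : ℝ) (x : ℕ) :
    SF (om k 0) (om k 0) α β x = ((∑ n ∈ Finset.Icc 1 x, ((DV α β n).card : ℝ) : ℝ) : ℂ) := by
  unfold SF
  push_cast
  refine Finset.sum_congr rfl fun n _ => ?_
  simp only [om_zero, mul_one, Finset.sum_const, nsmul_eq_mul]

lemma CV_eq (α β : ℝ) (k : ℕ) [NeZero k] (a b : ZMod k) (x : ℕ) :
    ((∑ n ∈ Finset.Icc 1 x, CV α β k a b n : ℝ) : ℂ) =
      1 / (k : ℂ) ^ 2 * ∑ p : ZMod k × ZMod k, ZMod.stdAddChar (-(p.1 * a)) *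
        ZMod.stdAddChar (-(p.2 * b)) * SF (om k p.1) (om k p.2) α β x := by
  classical
  have h1 : ∀ n d : ℕ, (if ((ArithmeticFunction.cardFactors d : ZMod k) = a ∧
      (ArithmeticFunction.cardFactors ((n ^ 2 + 1) / d) : ZMod k) = b) then (1 : ℂ) else 0) =
      1 / (k : ℂ) ^ 2 * ∑ p : ZMod k × ZMod k, ZMod.stdAddChar (-(p.1 * a)) *
        ZMod.stdAddChar (-(p.2 * b)) * (om k p.1 d * om k p.2 ((n ^ 2 + 1) / d)) := by
    intro n d
    have e1 : (if ((ArithmeticFunction.cardFactors d : ZMod k) = a ∧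
      (ArithmeticFunction.cardFactors ((n ^ 2 + 1) / d) : ZMod k) = b) then (1 : ℂ) else 0) =
      (if (ArithmeticFunction.cardFactors d : ZMod k) = a then (1 : ℂ) else 0) *
      (if (ArithmeticFunction.cardFactors ((n ^ 2 + 1) / d) : ZMod k) = b then (1 : ℂ) else 0) := by
      by_cases c1 : (ArithmeticFunction.cardFactors d : ZMod k) = a
      · by_cases c2 : (ArithmeticFunction.cardFactors ((n ^ 2 + 1) / d) : ZMod k) = b
        · rw [if_pos ⟨c1, c2⟩, if_pos c1, if_pos c2, one_mul]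
        · rw [if_neg (fun h => c2 h.2), if_neg c2, mul_zero]
      · rw [if_neg (fun h => c1 h.1), if_neg c1, zero_mul]
    rw [e1, om_orth k _ a, om_orth k _ b]
    have e2 : (1 / (k : ℂ) * ∑ i : ZMod k, ZMod.stdAddChar (-(i * a)) *
        ZMod.stdAddChar (i * (ArithmeticFunction.cardFactors d : ZMod k))) *
        (1 / (k : ℂ) * ∑ i : ZMod k, ZMod.stdAddChar (-(i * b)) *
        ZMod.stdAddChar (i * (ArithmeticFunction.cardFactors ((n ^ 2 + 1) / d) : ZMod k))) =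
        1 / (k : ℂ) ^ 2 * ((∑ i : ZMod k, ZMod.stdAddChar (-(i * a)) *
        ZMod.stdAddChar (i * (ArithmeticFunction.cardFactors d : ZMod k))) *
        (∑ i : ZMod k, ZMod.stdAddChar (-(i * b)) *
        ZMod.stdAddChar (i * (ArithmeticFunction.cardFactors ((n ^ 2 + 1) / d) : ZMod k)))) := by
      ring
    rw [e2, Finset.sum_mul_sum, ← Finset.univ_product_univ, Finset.sum_product]
    congr 1
    refine Finset.sum_congr rfl fun i _ => Finset.sum_congr rfl fun j _ => ?_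
    unfold om
    ring
  have h2 : ∀ n : ℕ, ((CV α β k a b n : ℝ) : ℂ) = ∑ d ∈ DV α β n,
      (if ((ArithmeticFunction.cardFactors d : ZMod k) = a ∧
      (ArithmeticFunction.cardFactors ((n ^ 2 + 1) / d) : ZMod k) = b) then (1 : ℂ) else 0) := by
    intro n
    unfold CV
    rw [Finset.sum_boole]
    push_cast
    rfl
  rw [Complex.ofReal_sum, Finset.sum_congr rfl fun n _ => h2 n,
    Finset.sum_congr rfl fun n _ => Finset.sum_congr rfl fun d _ => h1 n d]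
  unfold SF
  simp only [Finset.mul_sum]
  have h3 : ∀ n ∈ Finset.Icc 1 x, ∑ d ∈ DV α β n, ∑ p : ZMod k × ZMod k,
      1 / (k : ℂ) ^ 2 * (ZMod.stdAddChar (-(p.1 * a)) *
        ZMod.stdAddChar (-(p.2 * b)) * (om k p.1 d * om k p.2 ((n ^ 2 + 1) / d))) =
      ∑ p : ZMod k × ZMod k, ∑ d ∈ DV α β n,
      1 / (k : ℂ) ^ 2 * (ZMod.stdAddChar (-(p.1 * a)) *
        ZMod.stdAddChar (-(p.2 * b)) * (om k p.1 d * om k p.2 ((n ^ 2 + 1) / d))) := fun n _ =>
    Finset.sum_comm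
  rw [Finset.sum_congr rfl h3, Finset.sum_comm]

/-- the joint distribution modulo `k` in windows of scales -/
theorem classes_windows (k : ℕ) [NeZero k] (a b : ZMod k) (α β : ℝ) (hα : 0 < α) (hαβ : α < β)
    (ε : ℝ) (hε : 0 < ε) : ∃ R0 : ℕ, ∀ R : ℕ, R0 ≤ R → ∃ X0 : ℕ, ∀ X : ℕ, X0 ≤ X →
      ∑ x ∈ Finset.Ioc X (R * X), 1 / (x : ℝ) ^ 2 *
        |∑ n ∈ Finset.Icc 1 x, CV α β k a b n -
          (∑ n ∈ Finset.Icc 1 x, ((DV α β n).card : ℝ)) / (k : ℝ) ^ 2| ≤ ε * log R := by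
  classical
  have hk1 : 1 ≤ k := Nat.one_le_iff_ne_zero.2 (NeZero.ne k)
  have hk : (1 : ℝ) ≤ k := by exact_mod_cast hk1
  set I : Finset (ZMod k × ZMod k) := Finset.univ.filter (fun p => p ≠ (0, 0)) with hI
  obtain ⟨R0, hR0⟩ := fam_windows I (fun p x => 1 / (x : ℝ) ^ 2 *
    ‖SF (om k p.1) (om k p.2) α β x‖) (by
      intro p hp ε' hε'
      rw [hI, Finset.mem_filter] at hp
      have hor : p.1 ≠ 0 ∨ p.2 ≠ 0 := by
        by_contra hcon
        push Not at hcon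
        exact hp.2 (Prod.ext hcon.1 hcon.2)
      obtain ⟨R0, h⟩ := windows hk1 (om_MF k p.1) (om_MF k p.2)
        (hor.imp (om_NPD k p.1) (om_NPD k p.2)) α β hα hαβ ε' hε'
      refine ⟨R0, fun R hR => ?_⟩
      obtain ⟨X0, h2⟩ := h R hR
      refine ⟨X0, fun X hX => le_trans (le_of_eq ?_) (h2 X hX)⟩
      refine Finset.sum_congr rfl fun x _ => ?_
      unfold SF DV
      congr 3) ε hε
  refine ⟨R0, fun R hR => ?_⟩
  obtain ⟨X0, hX0⟩ := hR0 R hR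
  refine ⟨X0, fun X hX => (Finset.sum_le_sum fun x _ => ?_).trans (hX0 X hX)⟩
  rw [← Finset.mul_sum]
  apply mul_le_mul_of_nonneg_left _ (by positivity)
  have h1 : ((∑ n ∈ Finset.Icc 1 x, CV α β k a b n -
          (∑ n ∈ Finset.Icc 1 x, ((DV α β n).card : ℝ)) / (k : ℝ) ^ 2 : ℝ) : ℂ) =
      1 / (k : ℂ) ^ 2 * ∑ p ∈ I, ZMod.stdAddChar (-(p.1 * a)) *
        ZMod.stdAddChar (-(p.2 * b)) * SF (om k p.1) (om k p.2) α β x := by
    rw [Complex.ofReal_sub, CV_eq, Complex.ofReal_div, ← SF_one k]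
    rw [← Finset.sum_filter_add_sum_filter_not Finset.univ
      (fun p : ZMod k × ZMod k => p ≠ (0, 0)), ← hI]
    have h2 : (Finset.univ.filter (fun p : ZMod k × ZMod k => ¬ p ≠ (0, 0))) = {(0, 0)} := by
      ext p
      simp
    rw [h2, Finset.sum_singleton]
    simp only [zero_mul, neg_zero, AddChar.map_zero_eq_one, one_mul]
    push_cast
    ring
  have h2 : |∑ n ∈ Finset.Icc 1 x, CV α β k a b n -
          (∑ n ∈ Finset.Icc 1 x, ((DV α β n).card : ℝ)) / (k : ℝ) ^ 2| =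
      ‖((∑ n ∈ Finset.Icc 1 x, CV α β k a b n -
          (∑ n ∈ Finset.Icc 1 x, ((DV α β n).card : ℝ)) / (k : ℝ) ^ 2 : ℝ) : ℂ)‖ := by
    rw [Complex.norm_real, Real.norm_eq_abs]
  rw [h2, h1, norm_mul]
  have h3 : ‖1 / (k : ℂ) ^ 2‖ ≤ 1 := by
    rw [norm_div, norm_one, norm_pow, Complex.norm_natCast, div_le_one (by positivity)]
    exact one_le_pow₀ hk
  refine (mul_le_of_le_one_left (norm_nonneg _) h3).trans ?_
  refine (norm_sum_le _ _).trans (Finset.sum_le_sum fun p _ => ?_)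
  rw [norm_mul, norm_mul]
  have h4 : ∀ u : ZMod k, ‖(ZMod.stdAddChar u : ℂ)‖ = 1 := fun u => by
    rw [ZMod.stdAddChar_apply]
    exact Circle.norm_coe _
  rw [h4, h4, one_mul, one_mul]

end Pool.Agent.LogG
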