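import Pool.Agent.Lib.LogCh.EDefs
import Pool.Agent.Lib.LogCh.FDefs
import Pool.Agent.Lib.LogCh.H0
import Pool.Agent.Lib.LogCh.PDefs

/-!
# Factorisations `n ^ 2 + 1 = d e` and functions of finite order, windows of scales: definitions

Generalisation of the project `LogCh` (there: the Liouville function) to all completely
multiplicative functions with values in the roots of unity of order `k`.
-/

set_option autoImplicit false

namespace Pool.Agent.LogG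

open Real
open Pool.Agent.NSqP
open Pool.Agent.LogCh
open Pool.Agent.LogCh.HG (gI QP)
open Pool.Agent.MP484c84Par (ballG mem_ballG crossG dotG)

/-! ## the functions -/

/-- completely multiplicative functions with values in the `k`-th roots of unity -/
structure MF (k : ℕ) (f : ℕ → ℂ) : Prop where
  mul : ∀ m n : ℕ, m ≠ 0 → n ≠ 0 → f (m * n) = f m * f n
  pow : ∀ n : ℕ, n ≠ 0 → f n ^ k = 1

/-- `f` does not pretend to be a Dirichlet character on the primes `1` modulo `4` -/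
def NPD (f : ℕ → ℂ) : Prop := ∀ (r : ℕ), 1 ≤ r → ∀ ψ : DirichletCharacter ℂ r,
  open Classical in
  ¬ Summable (fun p : ℕ => if p.Prime ∧ p % 4 = 1 ∧ f p ≠ ψ (p : ZMod r) then 1 / (p : ℝ) else 0)

/-- `f (N z)` -/
noncomputable def FC (f : ℕ → ℂ) (z : GaussianInt) : ℂ := if nN z = 0 then 0 else f (nN z)

/-- functions on the Gaussian integers of the form `f (N z)` -/
structure GF (k : ℕ) (F : GaussianInt → ℂ) : Prop where
  mul : ∀ z w, z ≠ 0 → w ≠ 0 → F (z * w) = F z * F w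
  pow : ∀ z, z ≠ 0 → F z ^ k = 1
  zero : F 0 = 0
  nrm : ∀ z w, nN z = nN w → F z = F w

/-- `F` does not pretend to be the conjugate of a character modulo `r` -/
def NPG (F : GaussianInt → ℂ) : Prop := ∀ r : ℕ, 1 ≤ r → ∀ χ : GaussianInt → ℂ, ChiMod r χ →
  χ gI = 1 → ∀ M : ℝ, ∃ δ : ℝ, 0 < δ ∧ ∀ σ : ℝ, 1 < σ → σ < 1 + δ →
    M ≤ QP (fun z => 1 - (F z * χ z).re) σ

/-- `F χ ξ^m` restricted to the `z` without prime factor in the block -/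
noncomputable def gF (F χ : GaussianInt → ℂ) (m : ℤ) (H v : ℕ) (z : GaussianInt) : ℂ :=
  open Classical in if ∀ q ∈ blk H v, ¬ q ∣ z then F z * χ z * xi z ^ m else 0

/-- no correlation of `F` with `χ ξ^m` (theorem of Halasz) -/
def HALFG (F : GaussianInt → ℂ) : Prop := ∀ r : ℕ, 1 ≤ r → ∀ ε : ℝ, 0 < ε → ∃ x0 : ℝ, ∀ x : ℝ,
  x0 ≤ x → ∀ χ : GaussianInt → ℂ, ChiMod r χ → ∀ m : ℤ, |(m : ℝ)| ≤ x ^ 2 → ∀ H v : ℕ, 1 ≤ H →
      ‖∑ z ∈ pann (x / 2) x, gF F χ m H v z‖ ≤ ε * x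

/-- `F χ` -/
noncomputable def lF (F χ : GaussianInt → ℂ) : GaussianInt → ℂ := fun z => F z * χ z

/-- Matomaki-Radziwill in arcs and classes, for a real function -/
def MRCG (G : GaussianInt → ℝ) : Prop := ∀ (r : ℕ), 1 ≤ r → ∀ (b : GaussianInt) (ρ ρ' : ℝ),
  0 ≤ ρ → ρ ≤ ρ' → ρ' ≤ 1 → ∀ ε : ℝ, 0 < ε → ∃ H0 N0 : ℕ, ∀ N : ℕ, N0 ≤ N → ∀ K : ℕ, 1 ≤ K →
    K * H0 ≤ N → open Classical in
    ∑ i ∈ Finset.range K, |∑ z ∈ (pann (ρ * N) (ρ' * N)).filter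
      (fun z => (r : GaussianInt) ∣ z - b ∧ arcI K z = i), G z| ≤ ε * N

/-! ## real functions in cells -/

/-- `G` restricted to the `z` with `a * N < N z ≤ a' * N` -/
noncomputable def fg (G : GaussianInt → ℝ) (a a' : ℝ) (N : ℕ) (z : GaussianInt) : ℝ :=
  open Classical in if a * N < nN z ∧ (nN z : ℝ) ≤ a' * N then G z else 0

/-- the correlation over the pairs of determinant `m`, with norms in two cells -/
noncomputable def pairG (G H : GaussianInt → ℝ) (m : ℤ) (a a' b b' : ℝ) (N : ℕ) : ℝ :=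
  ∑ p ∈ dpairs m N, fg G a a' N p.1 * fg H b b' N p.2

/-- **STPAIR** for `G` -/
def STPAIRG (G : GaussianInt → ℝ) : Prop := ∀ (N K j r : ℕ) (B : ℝ) (z z' : GaussianInt)
  (ρ₁ ρ₁' ρ₂ ρ₂' : ℝ), 1 ≤ K → open Classical in
  (∀ i : ℕ, (((pann (ρ₁ * N) (ρ₁' * N)).filter (fun z => arcI K z = i)).card : ℝ) ≤ B) →
  |∑ p ∈ (pann (ρ₁ * N) (ρ₁' * N) ×ˢ pann (ρ₂ * N) (ρ₂' * N)).filter
      (fun p : GaussianInt × GaussianInt => jj K p = j ∧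
        (r : GaussianInt) ∣ p.1 - z ∧ (r : GaussianInt) ∣ p.2 - z'), G p.1 * G p.2| ≤
    B * ∑ i ∈ Finset.range K, |∑ w ∈ (pann (ρ₂ * N) (ρ₂' * N)).filter
      (fun w => (r : GaussianInt) ∣ w - z' ∧ arcI K w = i), G w|

/-- **STRUCT** for `G` -/
def STRUCTG (G : GaussianInt → ℝ) : Prop := ∀ (a a' κ C2 L ε : ℝ) (r : ℕ), 0 < a → a < a' →
  a' ≤ 1 → 0 < κ → 0 < C2 → 0 < L → 0 < ε → 1 ≤ r → ∃ P0 : ℕ, ∀ P : ℕ, P0 ≤ P → ∃ N0 : ℕ,
    ∀ N : ℕ, N0 ≤ N →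
    ∀ Φ : ℝ → ℝ → ℝ → ℝ, LipW a κ C2 L Φ → ∀ z z' : GaussianInt, open Classical in
      |∑ p ∈ (VV N ×ˢ VV N).filter (fun p : GaussianInt × GaussianInt => 0 < dotG p.1 p.2 ∧
          (r : GaussianInt) ∣ p.1 - z ∧ (r : GaussianInt) ∣ p.2 - z'),
        fg G a a' N p.1 * fg G a a' N p.2 *
          Φ ((nN p.1 : ℝ) / N) ((nN p.2 : ℝ) / N) ((crossG p.1 p.2 : ℝ) / P)| ≤ ε * N * P

/-- **ESTR** for `G` -/
def ESTRG (G : GaussianInt → ℝ) : Prop := ∀ (a a' κ L ε : ℝ) (C2 R0 R1 : ℕ), 0 < a → a < a' →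
  a' ≤ 1 → 0 < κ → 0 < L → 0 < ε → 1 ≤ C2 → ∃ P0 : ℕ, ∀ P : ℕ, P0 ≤ P → ∃ N0 : ℕ, ∀ N : ℕ,
    N0 ≤ N → ∀ Φ : ℝ → ℝ → ℝ → ℝ, LipW a κ C2 L Φ → ∀ A : Finset ℕ,
      ‖∑ D ∈ Finset.Icc 1 (C2 * P), ∑ p ∈ lpairs a D N, ((fg G a a' N p.1 * fg G a a' N p.2 *
        Φ ((nN p.1 : ℝ) / N) ((nN p.2 : ℝ) / N) ((D : ℝ) / P) * (D / P) : ℝ) : ℂ) *
          MT A R0 R1 D (cof D p)‖ ≤ ε * N * A.card ^ 2

/-- **E0** for `G`, `H` -/
def E0G (G : GaussianInt → ℝ) : Prop := ∃ C : ℝ, 0 < C ∧ ∀ H : GaussianInt → ℝ,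
  (∀ z, |H z| ≤ 1) → ∀ (A : Finset ℕ) (a a' b b' : ℝ) (N : ℕ), 1 ≤ N →
  (∑ q ∈ A, pairG G H q a a' b b' N) ^ 2 ≤
    C * N * ∑ u ∈ VV N, ∑ u' ∈ VV N, fg G a a' N u * fg G a a' N u' * (TT A b b' N u u' : ℝ)

/-- **E1** for `G` -/
def E1G (G : GaussianInt → ℝ) : Prop := ∀ (C1 : ℕ) (a a' b b' : ℝ), 0 < a → 0 < b → b' ≤ 1 →
  ∃ C : ℝ, 0 < C ∧ ∀ P : ℕ, 1 ≤ P → ∀ A ⊆ QQ C1 P, ∀ N : ℕ, 1 ≤ N →
    ∀ C2 : ℕ, 2 * C1 / √b ≤ C2 →
    |∑ u ∈ VV N, ∑ u' ∈ VV N, fg G a a' N u * fg G a a' N u' * (TT A b b' N u u' : ℝ)| ≤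
      C * N * A.card + 2 * |∑ D ∈ Finset.Icc 1 (C2 * P), ∑ p ∈ lpairs a D N,
        fg G a a' N p.1 * fg G a a' N p.2 * (TT A b b' N p.1 p.2 : ℝ)|

/-- **BLOCK** for `G` and all bounded `H` -/
def BLOCKG (G : GaussianInt → ℝ) : Prop := ∀ (C1 : ℕ) (a a' b b' : ℝ), 1 ≤ C1 → 0 < a → a < a' →
  a' ≤ 1 → 0 < b → b < b' → b' ≤ 1 → ∃ C : ℝ, 0 < C ∧ ∀ κ h δ : ℝ, 0 < κ → κ < 1 / 4 → 0 < h →
    h * (1 + 2 * C1 / κ) ≤ 1 → 0 < δ → ∃ P0 : ℕ, ∀ P : ℕ, P0 ≤ P → ∀ A ⊆ QQ C1 P, ∀ X : ℝ,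
      P ≤ X → X ≤ C1 * P →
      (∀ q ∈ A, X < (q : ℕ) ∧ ((q : ℕ) : ℝ) ≤ (1 + h) * X) → ∃ N0 : ℕ, ∀ N : ℕ, N0 ≤ N →
        ∀ H : GaussianInt → ℝ, (∀ z, |H z| ≤ 1) →
        (∑ q ∈ A, pairG G H q a a' b b' N) ^ 2 ≤
          N ^ 2 * (C * (κ + h / κ) * A.card ^ 2 + δ * (P / log P) ^ 2)

/-! ## complex functions in cells -/

/-- `F` restricted to the `z` with `a * N < N z ≤ a' * N` -/
noncomputable def fcC (F : GaussianInt → ℂ) (a a' : ℝ) (N : ℕ) (z : GaussianInt) : ℂ :=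
  open Classical in if a * N < nN z ∧ (nN z : ℝ) ≤ a' * N then F z else 0

/-- correlation over the pairs of determinant `m` -/
noncomputable def pairC (F1 F2 : GaussianInt → ℂ) (m : ℤ) (a a' b b' : ℝ) (N : ℕ) : ℂ :=
  ∑ p ∈ dpairs m N, fcC F1 a a' N p.1 * fcC F2 b b' N p.2

/-- correlation over the pairs of determinant `N κ` whose first member is divisible by `κ` -/
noncomputable def pairCPi (κ : GaussianInt) (F1 F2 : GaussianInt → ℂ) (a a' b b' : ℝ) (N : ℕ) :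
    ℂ :=
  open Classical in
  ∑ p ∈ (dpairs (nN κ : ℤ) N).filter (fun p => κ ∣ p.1), fcC F1 a a' N p.1 * fcC F2 b b' N p.2

/-- correlation over the pairs of determinant one at the real scale `y` -/
noncomputable def PSr (F1 F2 : GaussianInt → ℂ) (a a' b b' : ℝ) (y : ℝ) : ℂ :=
  open Classical in
  ∑ p ∈ dpairs 1 ⌊y⌋₊, if (a * y < nN p.1 ∧ (nN p.1 : ℝ) ≤ a' * y) ∧
    (b * y < nN p.2 ∧ (nN p.2 : ℝ) ≤ b' * y) then F1 p.1 * F2 p.2 else 0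

/-! ## the test functions of the process -/

/-- alphabet of the test functions -/
abbrev XR : Type := ℤ × ℝ × ℝ

/-- alphabet of the observable -/
abbrev XCx : Type := ℤ × ℂ × ℂ

/-- the inner sum -/
noncomputable def inrR (L0 q : ℕ) (x : ℕ → XR) (j : ℕ) : ℝ :=
  ∑ k ∈ Finset.Icc 1 L0,
    if cfx (fun i => (x i).1) j (j + k) = (q : ℤ) then (x (j + k)).2.2 else 0

/-- the test function of a window, before truncation -/
noncomputable def psiR (L0 q : ℕ) (x : ℕ → XR) (y : YY q) : ℝ :=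
  (∑ j ∈ Finset.range L0, (x j).2.1 * wgt q y (cf (fun i => (x i).1) j) * inrR L0 q x j) / L0

/-- the truncated test function -/
noncomputable def psiRB (B : ℝ) (L0 q : ℕ) (x : ℕ → XR) (y : YY q) : ℝ :=
  open Classical in
  if q.Prime ∧ q % 4 = 1 ∧ ∀ y' : YY q, |psiR L0 q x y'| ≤ B then psiR L0 q x y else 0

/-- the quotients and the values of two real functions along an orbit -/
noncomputable def xr (g h : GaussianInt → ℝ) (N : ℕ) (z : GaussianInt) : ℕ → XR :=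
  fun i => (aq N (sgi N i z), g (sgi N i z), h (sgi N i z))

/-- the observable at the order `N` -/
noncomputable def XCN (F1 F2 : GaussianInt → ℂ) (a a' b b' : ℝ) (N : ℕ) (z : Vn N) : XCx :=
  (aq N z.1, fcC F1 a a' N z.1, fcC F2 b b' N z.1)

/-- the gain at the scale `j` for the sets of primes `I` -/
noncomputable def gainG (I : ℕ → Finset ℕ) (K : ℕ) (η : ℝ) (P : ℕ → ℕ) (j : ℕ) : ℝ :=
  η * ((I (P j)).card : ℝ) / ((K * P j : ℕ) : ℝ) -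
    (∑ q ∈ I (P j), 4 * log q) / ((K * P (j + 1) : ℕ) : ℝ)

end Pool.Agent.LogG
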