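import Pool.Agent.Lib.LogG.GFmru
import Pool.Agent.Lib.NSqP.LS
import Pool.Agent.Lib.NSqP.LC

/-!
# ANNF: discs instead of dyadic annuli

(1) `LSP` and `card_ann_le`: for `0 ≤ y ≤ L`, `1 ≤ L`:
`∑ m ∈ fr M, ‖Zs (lF F χ) 0 y m‖ ^ 2 ≤ K (M + L) y`.
(2) `τ = min 1 (ε / (8 K))`, `2 ^ k τ ≥ 1`; by induction on `j`: for all `y ≤ N`, `y ≤ τ N 2^j`,
`∑ ‖Zs (lF F χ) 0 y m‖ ^ 2 ≤ (√ε / 2 * N + j * (√ε / (2 (k + 1))) * N) ^ 2` (halve `y`, use `MRU` on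
the annulus `(y / 2, y]`, whose radius is at least `τ N`).
-/

set_option autoImplicit false

namespace Pool.Agent.LogG

open Real
open Pool.Agent.NSqP
open Pool.Agent.LogCh
open Pool.Agent.MP484c84Par (ballG mem_ballG crossG dotG)

private lemma fann_l2 (s : Finset ℤ) (f g : ℤ → ℂ) {a b : ℝ} (ha : 0 ≤ a) (hb : 0 ≤ b)
    (h1 : ∑ m ∈ s, ‖f m‖ ^ 2 ≤ a ^ 2) (h2 : ∑ m ∈ s, ‖g m‖ ^ 2 ≤ b ^ 2) :
    ∑ m ∈ s, ‖f m + g m‖ ^ 2 ≤ (a + b) ^ 2 := by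
  have h3 : (∑ m ∈ s, ‖f m‖ * ‖g m‖) ^ 2 ≤ (a * b) ^ 2 := by
    refine (Finset.sum_mul_sq_le_sq_mul_sq s _ _).trans ?_
    rw [mul_pow]
    exact mul_le_mul h1 h2 (Finset.sum_nonneg fun _ _ => by positivity) (by positivity)
  have h4 : ∑ m ∈ s, ‖f m‖ * ‖g m‖ ≤ a * b :=
    le_of_sq_le_sq h3 (by positivity)
  calc ∑ m ∈ s, ‖f m + g m‖ ^ 2
      ≤ ∑ m ∈ s, (‖f m‖ ^ 2 + 2 * (‖f m‖ * ‖g m‖) + ‖g m‖ ^ 2) := by
        refine Finset.sum_le_sum fun m _ => ?_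
        have := norm_add_le (f m) (g m)
        nlinarith [norm_nonneg (f m + g m), norm_nonneg (f m), norm_nonneg (g m)]
    _ = ∑ m ∈ s, ‖f m‖ ^ 2 + 2 * ∑ m ∈ s, ‖f m‖ * ‖g m‖ + ∑ m ∈ s, ‖g m‖ ^ 2 := by
        rw [Finset.sum_add_distrib, Finset.sum_add_distrib, Finset.mul_sum]
    _ ≤ (a + b) ^ 2 := by nlinarith

private lemma fann_split (f : GaussianInt → ℂ) {y : ℝ} (hy : 0 ≤ y) (m : ℤ) :
    Zs f 0 y m = Zs f 0 (y / 2) m + Zs f (y / 2) y m := by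
  classical
  unfold Zs
  rw [← Finset.sum_union]
  · refine Finset.sum_congr ?_ fun _ _ => rfl
    ext z
    rw [Finset.mem_union, mem_pann hy, mem_pann (by positivity : (0:ℝ) ≤ y / 2), mem_pann hy]
    constructor
    · rintro ⟨⟨h1, h2⟩, h3⟩
      rcases le_or_gt (nN z : ℝ) (y / 2) with h | h
      · exact Or.inl ⟨⟨h1, h⟩, h3⟩
      · exact Or.inr ⟨⟨h, h2⟩, h3⟩
    · rintro (⟨⟨h1, h2⟩, h3⟩ | ⟨⟨h1, h2⟩, h3⟩)
      · exact ⟨⟨h1, by linarith⟩, h3⟩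
      · exact ⟨⟨by linarith, h2⟩, h3⟩
  · rw [Finset.disjoint_left]
    intro z hz hz'
    rw [mem_pann (by positivity : (0:ℝ) ≤ y / 2)] at hz
    rw [mem_pann hy] at hz'
    linarith [hz.1.2, hz'.1.1]

private lemma fann_ls {F : GaussianInt → ℂ} (hFb : ∀ z, ‖F z‖ ≤ 1) : ∃ K : ℝ, 0 < K ∧ ∀ (r : ℕ) (χ : GaussianInt → ℂ), ChiMod r χ →
    ∀ (L : ℝ) (M : ℕ) (y : ℝ), 1 ≤ L → 0 ≤ y → y ≤ L →
      ∑ m ∈ fr M, ‖Zs (lF F χ) 0 y m‖ ^ 2 ≤ K * (M + L) * y := by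
  obtain ⟨C, hC, h⟩ := LSP
  obtain ⟨D, hD, h'⟩ := card_ann_le
  refine ⟨C * D, by positivity, fun r χ hχ L M y hL hy hyL => ?_⟩
  have h1 := h (pann 0 y) (lF F χ) L M hL (fun z hz => by
    rw [mem_pann hy] at hz
    exact ⟨hz.2, hz.1.2.trans hyL⟩)
  have h2 : ∑ z ∈ pann 0 y, ‖lF F χ z‖ ^ 2 ≤ D * y := by
    calc ∑ z ∈ pann 0 y, ‖lF F χ z‖ ^ 2 ≤ ∑ z ∈ pann 0 y, (1 : ℝ) := by
          refine Finset.sum_le_sum fun z _ => ?_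
          have := lF_le hFb hχ z
          nlinarith [norm_nonneg (lF F χ z)]
      _ = ((pann 0 y).card : ℝ) := by simp
      _ ≤ ((ann 0 y).card : ℝ) := by
          exact_mod_cast Finset.card_le_card (pann_subset 0 y)
      _ ≤ D * y := h' y hy
  calc ∑ m ∈ fr M, ‖Zs (lF F χ) 0 y m‖ ^ 2
      ≤ C * (M + L) * ∑ z ∈ pann 0 y, ‖lF F χ z‖ ^ 2 := h1
    _ ≤ C * (M + L) * (D * y) := by
        refine mul_le_mul_of_nonneg_left h2 ?_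
        have : (0:ℝ) ≤ M := Nat.cast_nonneg M
        have : 0 ≤ (M : ℝ) + L := by linarith
        positivity
    _ = C * D * (M + L) * y := by ring

theorem ANNG {F : GaussianInt → ℂ} (hFc : CMC F) (hFb : ∀ z, ‖F z‖ ≤ 1) (h1 : HALFG F)
    (h2 : LVPStmt) (r : ℕ) (hr : 1 ≤ r) (ε : ℝ) (hε : 0 < ε) :
    ∃ A : ℕ, 1 ≤ A ∧ ∃ N0 : ℕ, ∀ N : ℕ, N0 ≤ N → ∀ χ : GaussianInt → ℂ, ChiMod r χ →
      ∀ y : ℝ, 0 ≤ y → y ≤ N → ∑ m ∈ fr (N / A), ‖Zs (lF F χ) 0 y m‖ ^ 2 ≤ ε * (N : ℝ) ^ 2 := by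
  obtain ⟨K, hK, hLS⟩ := fann_ls hFb
  obtain ⟨τ, hτ0, hτ1, hτ⟩ : ∃ τ : ℝ, 0 < τ ∧ τ ≤ 1 ∧ 2 * K * τ ≤ ε / 4 := by
    refine ⟨min 1 (ε / (8 * K)), by positivity, min_le_left _ _, ?_⟩
    have h3 : min 1 (ε / (8 * K)) ≤ ε / (8 * K) := min_le_right _ _
    calc 2 * K * min 1 (ε / (8 * K)) ≤ 2 * K * (ε / (8 * K)) := by gcongr
      _ = ε / 4 := by field_simp; norm_num
  obtain ⟨k, hk⟩ : ∃ k : ℕ, 1 / τ < 2 ^ k := pow_unbounded_of_one_lt (1 / τ) (by norm_num)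
  have hk' : 1 ≤ τ * 2 ^ k := by
    rw [div_lt_iff₀ hτ0] at hk
    nlinarith
  obtain ⟨s, hs0, hs⟩ : ∃ s : ℝ, 0 < s ∧ s ^ 2 = ε := ⟨√ε, Real.sqrt_pos.2 hε, Real.sq_sqrt hε.le⟩
  obtain ⟨t, ht⟩ : ∃ t : ℝ, t = s / (2 * (k + 1)) := ⟨_, rfl⟩
  have ht0 : 0 < t := by rw [ht]; positivity
  obtain ⟨A1, hA1, x0, hM⟩ := MRUG hFc hFb h1 h2 r hr (t ^ 2) (by positivity)
  have hA1' : (1 : ℝ) ≤ A1 := by exact_mod_cast hA1
  obtain ⟨A, hA⟩ : ∃ A : ℕ, (A1 : ℝ) / τ ≤ A := ⟨_, Nat.le_ceil _⟩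
  have hA0 : (0 : ℝ) < A := lt_of_lt_of_le (by positivity) hA
  have hA2 : 1 ≤ A := by exact_mod_cast hA0
  obtain ⟨N1, hN1⟩ : ∃ N1 : ℕ, x0 / τ ≤ N1 := ⟨_, Nat.le_ceil _⟩
  refine ⟨A, hA2, max N1 1, fun N hN χ hχ => ?_⟩
  have hN1' : (N1 : ℝ) ≤ N := by exact_mod_cast (le_max_left _ _).trans hN
  have hN2 : (1 : ℝ) ≤ N := by exact_mod_cast (le_max_right _ _).trans hN
  have hx0 : x0 ≤ τ * N := by
    rw [div_le_iff₀ hτ0] at hN1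
    nlinarith
  have hdiv : (((N / A : ℕ) : ℕ) : ℝ) ≤ N / A := Nat.cast_div_le
  have key : ∀ j : ℕ, ∀ y : ℝ, 0 ≤ y → y ≤ N → y ≤ τ * N * 2 ^ j →
      ∑ m ∈ fr (N / A), ‖Zs (lF F χ) 0 y m‖ ^ 2 ≤ (s / 2 * N + j * t * N) ^ 2 := by
    intro j
    induction j with
    | zero =>
      intro y hy0 hyN hy
      have h3 := hLS r χ hχ N (N / A) y hN2 hy0 hyN
      have h4 : (((N / A : ℕ) : ℕ) : ℝ) ≤ N := by exact_mod_cast Nat.div_le_self N A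
      rw [pow_zero, mul_one] at hy
      calc ∑ m ∈ fr (N / A), ‖Zs (lF F χ) 0 y m‖ ^ 2 ≤ K * (((N / A : ℕ) : ℝ) + N) * y := h3
        _ ≤ K * (N + N) * (τ * N) := by gcongr
        _ = 2 * K * τ * N ^ 2 := by ring
        _ ≤ ε / 4 * N ^ 2 := by gcongr
        _ = (s / 2 * N + ((0 : ℕ) : ℝ) * t * N) ^ 2 := by rw [← hs]; push_cast; ring
    | succ j ih =>
      intro y hy0 hyN hy
      rcases le_or_gt y (τ * N * 2 ^ j) with h | h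
      · refine (ih y hy0 hyN h).trans ?_
        have hj : (0 : ℝ) ≤ j := Nat.cast_nonneg j
        have h5 : s / 2 * N + j * t * N ≤ s / 2 * N + ((j + 1 : ℕ) : ℝ) * t * N := by
          push_cast
          nlinarith [mul_pos ht0 (by linarith : (0 : ℝ) < N)]
        exact pow_le_pow_left₀ (by positivity) h5 2
      · have h3 := ih (y / 2) (by positivity) (by linarith) (by rw [pow_succ] at hy; linarith)
        have hyτ : τ * N ≤ y := by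
          have : (1 : ℝ) ≤ 2 ^ j := one_le_pow₀ (by norm_num)
          have h6 : τ * N * 1 ≤ τ * N * 2 ^ j := by gcongr
          linarith
        have h4 := hM y (hx0.trans hyτ) χ hχ
        have hsub : fr (N / A) ⊆ fr ⌊y / A1⌋₊ := by
          have h6 : N / A ≤ ⌊y / A1⌋₊ := by
            apply Nat.le_floor
            refine hdiv.trans ?_
            rw [div_le_div_iff₀ hA0 (by linarith)]
            rw [div_le_iff₀ hτ0] at hA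
            calc (N : ℝ) * A1 ≤ N * (A * τ) := by gcongr
              _ = τ * N * A := by ring
              _ ≤ y * A := by gcongr
          intro m hm
          rw [mem_fr] at hm ⊢
          exact hm.trans_le (by exact_mod_cast h6)
        have h5 : ∑ m ∈ fr (N / A), ‖Zs (lF F χ) (y / 2) y m‖ ^ 2 ≤ (t * N) ^ 2 := by
          calc ∑ m ∈ fr (N / A), ‖Zs (lF F χ) (y / 2) y m‖ ^ 2
              ≤ ∑ m ∈ fr ⌊y / A1⌋₊, ‖Zs (lF F χ) (y / 2) y m‖ ^ 2 :=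
                Finset.sum_le_sum_of_subset_of_nonneg hsub fun _ _ _ => by positivity
            _ ≤ t ^ 2 * y ^ 2 := h4
            _ ≤ t ^ 2 * N ^ 2 := by gcongr
            _ = (t * N) ^ 2 := by ring
        have h6 := fann_l2 (fr (N / A)) (fun m => Zs (lF F χ) 0 (y / 2) m)
          (fun m => Zs (lF F χ) (y / 2) y m) (by positivity) (by positivity) h3 h5
        calc ∑ m ∈ fr (N / A), ‖Zs (lF F χ) 0 y m‖ ^ 2
            = ∑ m ∈ fr (N / A), ‖Zs (lF F χ) 0 (y / 2) m + Zs (lF F χ) (y / 2) y m‖ ^ 2 :=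
              Finset.sum_congr rfl fun m _ => by rw [fann_split _ hy0]
          _ ≤ (s / 2 * N + j * t * N + t * N) ^ 2 := h6
          _ = (s / 2 * N + ((j + 1 : ℕ) : ℝ) * t * N) ^ 2 := by push_cast; ring
  intro y hy0 hyN
  have h3 := key k y hy0 hyN (by
    calc y ≤ N := hyN
      _ = 1 * N := (one_mul _).symm
      _ ≤ τ * 2 ^ k * N := by gcongr
      _ = τ * N * 2 ^ k := by ring)
  refine h3.trans ?_
  have hk0 : (0 : ℝ) ≤ k := Nat.cast_nonneg k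
  have h4 : (k : ℝ) * t ≤ s / 2 := by
    rw [ht]
    rw [mul_div_assoc', div_le_div_iff₀ (by positivity) (by norm_num)]
    nlinarith
  have h5 : s / 2 * N + k * t * N ≤ s * N := by nlinarith
  calc (s / 2 * N + k * t * N) ^ 2 ≤ (s * N) ^ 2 := pow_le_pow_left₀ (by positivity) h5 2
    _ = ε * N ^ 2 := by rw [mul_pow, hs]

end Pool.Agent.LogG
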