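import Pool.Agent.Lib.LogG.GFann
import Pool.Agent.Lib.LogCh.FChar

/-!
# CLSF: reduced classes

`CHARS r` gives `n`; apply `ANNF` with `ε / n ^ 2`. For `c` coprime to `r`
`∑ z ∈ (pann 0 y).filter (r ∣ z - c), lam z * xi z ^ m = ∑ i, α i * Zs (lF F (X i)) 0 y m`
(`Finset.sum_filter`, swap), hence `‖·‖ ^ 2 ≤ n ∑ i, ‖Zs (lF F (X i)) 0 y m‖ ^ 2`; sum over `m`.
-/

set_option autoImplicit false

namespace Pool.Agent.LogG

open Real
open Pool.Agent.NSqP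
open Pool.Agent.LogCh
open Pool.Agent.MP484c84Par (ballG mem_ballG crossG dotG)

private lemma fcls_norm {n : ℕ} (α b : Fin n → ℂ) (hα : ∀ i, ‖α i‖ ≤ 1) :
    ‖∑ i, α i * b i‖ ^ 2 ≤ n * ∑ i, ‖b i‖ ^ 2 := by
  have h1 : ‖∑ i, α i * b i‖ ≤ ∑ i, ‖b i‖ := by
    refine (norm_sum_le _ _).trans (Finset.sum_le_sum fun i _ => ?_)
    rw [norm_mul]
    exact mul_le_of_le_one_left (norm_nonneg _) (hα i)
  have h2 : (∑ i, ‖b i‖) ^ 2 ≤ n * ∑ i, ‖b i‖ ^ 2 := by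
    have := sq_sum_le_card_mul_sum_sq (s := (Finset.univ : Finset (Fin n))) (f := fun i => ‖b i‖)
    simpa using this
  exact (pow_le_pow_left₀ (norm_nonneg _) h1 2).trans h2

open Classical in
private lemma fcls_eq {F : GaussianInt → ℂ} {r n : ℕ} {c : GaussianInt} {X : Fin n → GaussianInt → ℂ} {α : Fin n → ℂ}
    (h : ∀ z : GaussianInt, (if (r : GaussianInt) ∣ z - c then (1 : ℂ) else 0) =
        ∑ i, α i * X i z) (y : ℝ) (m : ℤ) :
    ∑ z ∈ (pann 0 y).filter (fun z => (r : GaussianInt) ∣ z - c), F z * xi z ^ m =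
      ∑ i, α i * Zs (lF F (X i)) 0 y m := by
  rw [Finset.sum_filter]
  unfold Zs lF
  simp only [Finset.mul_sum]
  rw [Finset.sum_comm]
  refine Finset.sum_congr rfl fun z _ => ?_
  have h1 : (if (r : GaussianInt) ∣ z - c then F z * xi z ^ m else 0) =
      (if (r : GaussianInt) ∣ z - c then (1 : ℂ) else 0) * (F z * xi z ^ m) := by
    split_ifs <;> simp
  rw [h1, h z, Finset.sum_mul]
  exact Finset.sum_congr rfl fun i _ => by ring

open Classical in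
theorem CLSG {F : GaussianInt → ℂ} (hFc : CMC F) (hFb : ∀ z, ‖F z‖ ≤ 1) (h1 : HALFG F)
    (h2 : LVPStmt) (r : ℕ) (hr : 1 ≤ r) (ε : ℝ) (hε : 0 < ε) :
    ∃ A : ℕ, 1 ≤ A ∧ ∃ N0 : ℕ, ∀ N : ℕ, N0 ≤ N → ∀ c : GaussianInt,
      IsCoprime c (r : GaussianInt) → ∀ y : ℝ, 0 ≤ y → y ≤ N →
        ∑ m ∈ fr (N / A), ‖∑ z ∈ (pann 0 y).filter (fun z => (r : GaussianInt) ∣ z - c),
          F z * xi z ^ m‖ ^ 2 ≤ ε * (N : ℝ) ^ 2 := by
  obtain ⟨n, hn, hch⟩ := CHARS r hr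
  have hn0 : (0 : ℝ) < n := by exact_mod_cast hn
  obtain ⟨A, hA, N0, h⟩ := ANNG hFc hFb h1 h2 r hr (ε / n ^ 2) (by positivity)
  refine ⟨A, hA, N0, fun N hN c hc y hy0 hyN => ?_⟩
  obtain ⟨X, α, hX, hα, hsum⟩ := hch c hc
  calc ∑ m ∈ fr (N / A), ‖∑ z ∈ (pann 0 y).filter (fun z => (r : GaussianInt) ∣ z - c),
          F z * xi z ^ m‖ ^ 2
      ≤ ∑ m ∈ fr (N / A), (n * ∑ i, ‖Zs (lF F (X i)) 0 y m‖ ^ 2) := by
        refine Finset.sum_le_sum fun m _ => ?_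
        rw [fcls_eq hsum]
        exact fcls_norm α _ hα
    _ = n * ∑ i, ∑ m ∈ fr (N / A), ‖Zs (lF F (X i)) 0 y m‖ ^ 2 := by
        rw [← Finset.mul_sum, Finset.sum_comm]
    _ ≤ n * ∑ i : Fin n, ε / n ^ 2 * (N : ℝ) ^ 2 := by
        refine mul_le_mul_of_nonneg_left (Finset.sum_le_sum fun i _ => ?_) hn0.le
        exact h N hN (X i) (hX i) y hy0 hyN
    _ = ε * (N : ℝ) ^ 2 := by
        rw [Finset.sum_const, Finset.card_univ, Fintype.card_fin, nsmul_eq_mul]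
        field_simp

end Pool.Agent.LogG
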