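import Pool.Agent.Lib.LogG.GDefs

/-!
# Basic facts on the functions `F χ`
-/

set_option autoImplicit false

namespace Pool.Agent.LogG

open Real
open Pool.Agent.NSqP
open Pool.Agent.LogCh
open Pool.Agent.MP484c84Par (ballG mem_ballG crossG dotG)

lemma GF.CMC {k : ℕ} (hk : 1 ≤ k) {F : GaussianInt → ℂ} (hF : GF k F) : CMC F := by
  refine ⟨hF.mul, fun z hz => ?_⟩
  have h := hF.pow z hz
  have h1 : ‖F z‖ ^ k = 1 := by rw [← norm_pow, h, norm_one]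
  exact (pow_eq_one_iff_of_nonneg (norm_nonneg _) (by omega)).1 h1 |>.le

lemma GF.le {k : ℕ} (hk : 1 ≤ k) {F : GaussianInt → ℂ} (hF : GF k F) (z : GaussianInt) :
    ‖F z‖ ≤ 1 := by
  rcases eq_or_ne z 0 with rfl | hz
  · rw [hF.zero, norm_zero]; exact zero_le_one
  · exact (hF.CMC hk).le z hz

lemma GF.norm {k : ℕ} (hk : 1 ≤ k) {F : GaussianInt → ℂ} (hF : GF k F) {z : GaussianInt}
    (hz : z ≠ 0) : ‖F z‖ = 1 := by
  have h1 : ‖F z‖ ^ k = 1 := by rw [← norm_pow, hF.pow z hz, norm_one]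
  exact (pow_eq_one_iff_of_nonneg (norm_nonneg _) (by omega)).1 h1

lemma lF_le {F : GaussianInt → ℂ} (hF : ∀ z, ‖F z‖ ≤ 1) {r : ℕ} {χ : GaussianInt → ℂ}
    (h : ChiMod r χ) (z : GaussianInt) : ‖lF F χ z‖ ≤ 1 := by
  unfold lF
  rw [norm_mul]
  exact mul_le_one₀ (hF z) (norm_nonneg _) (chi_le h z)

lemma CMC_lF {F : GaussianInt → ℂ} (hF : CMC F) {r : ℕ} {χ : GaussianInt → ℂ}
    (h : ChiMod r χ) : CMC (lF F χ) := by
  refine ⟨fun z w hz hw => ?_, fun z hz => ?_⟩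
  · unfold lF
    rw [hF.mul z w hz hw, h.mul]
    ring
  · unfold lF
    rw [norm_mul]
    exact mul_le_one₀ (hF.le z hz) (norm_nonneg _) (chi_le h z)

lemma FC_GF {k : ℕ} {f : ℕ → ℂ} (hf : MF k f) : GF k (FC f) := by
  refine ⟨fun z w hz hw => ?_, fun z hz => ?_, ?_, fun z w h => ?_⟩
  · have h1 := (nN_pos hz).ne'
    have h2 := (nN_pos hw).ne'
    unfold FC
    rw [if_neg h1, if_neg h2, nN_mul, if_neg (mul_ne_zero h1 h2), hf.mul _ _ h1 h2]
  · have h1 := (nN_pos hz).ne'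
    unfold FC
    rw [if_neg h1]
    exact hf.pow _ h1
  · unfold FC
    rw [if_pos nN_zero]
  · unfold FC
    rw [h]

end Pool.Agent.LogG
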