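import Pool.Agent.Lib.LogG.GFupart
import Pool.Agent.Lib.NSqP.MRT

/-!
# MRU: all frequencies `|m| < x / A`

`UPART` with `ε / 2` gives `κ`; `MRT κ (ε / 2)` gives `A` and for `f = lF F χ` (`CMC_lc`) the set `U`.
Split `fr ⌊x / A⌋₊ = U ∪ (fr ⌊x / A⌋₊ \ U)` (`Finset.sum_sdiff`), `U ⊆ fr ⌊x/A⌋₊ ⊆ fr ⌊x⌋₊`.
-/

set_option autoImplicit false

namespace Pool.Agent.LogG

open Real
open Pool.Agent.NSqP
open Pool.Agent.LogCh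
open Pool.Agent.MP484c84Par (ballG mem_ballG crossG dotG)

theorem MRUG {F : GaussianInt → ℂ} (hFc : CMC F) (hFb : ∀ z, ‖F z‖ ≤ 1) (h1 : HALFG F)
    (h2 : LVPStmt) (r : ℕ) (hr : 1 ≤ r) (ε : ℝ) (hε : 0 < ε) :
    ∃ A : ℕ, 1 ≤ A ∧ ∃ x0 : ℝ, ∀ x : ℝ, x0 ≤ x → ∀ χ : GaussianInt → ℂ, ChiMod r χ →
      ∑ m ∈ fr ⌊x / A⌋₊, ‖Zs (lF F χ) (x / 2) x m‖ ^ 2 ≤ ε * x ^ 2 := by
  obtain ⟨κ, hκ, hκ1, x1, hU⟩ := UPARTG hFc hFb h1 h2 r hr (ε / 2) (by positivity)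
  obtain ⟨A, hA, x2, hM⟩ := MRT κ (ε / 2) hκ hκ1 (by positivity)
  refine ⟨A, hA, max 0 (max x1 x2), fun x hx χ hχ => ?_⟩
  have hx0 : 0 ≤ x := (le_max_left _ _).trans hx
  have hx1 : x1 ≤ x := (le_max_left _ _).trans ((le_max_right _ _).trans hx)
  have hx2 : x2 ≤ x := (le_max_right _ _).trans ((le_max_right _ _).trans hx)
  obtain ⟨U, hUs, hUc, hUsum⟩ := hM x hx2 (lF F χ) (CMC_lF hFc hχ)
  have hAx : ⌊x / A⌋₊ ≤ ⌊x⌋₊ := Nat.floor_mono (div_le_self hx0 (by exact_mod_cast hA))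
  have hsub : U ⊆ fr ⌊x⌋₊ := by
    refine hUs.trans ?_
    intro m hm
    rw [fr, Finset.mem_Ioo] at hm ⊢
    constructor <;> omega
  have h3 := hU x hx1 χ hχ U hsub hUc
  rw [← Finset.sum_sdiff hUs]
  linarith

end Pool.Agent.LogG
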