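import Pool.Agent.Lib.LogG.GFdefs
import Pool.Agent.Lib.LogCh.FRange
import Pool.Agent.Lib.LogCh.FUcs
import Pool.Agent.Lib.NSqP.Dec

/-!
# UPART: small sets of frequencies contribute little for `λ χ`

Let `CD` be the constant of `DEC`. Choose `W0 = max 1 (8 CD / ε)`, `H = ⌈max 1 (8 CD / ε)⌉₊`,
`θ` from `RANGE W0`, `A = 1 / θ`, `(κ', C', b0)` from `LVPStmt` with `A`, `κ = min 1 (κ' θ)`,
`ε1 > 0` with `6 C' ε1 ^ 2 * (H / (8 θ)) ≤ ε / 2`, and `x1` from `HALFStmt` with `r`, `ε1`.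
For `x` large take `a, b` from `RANGE`. For `v ∈ Ico a b`: `x ^ θ ≤ exp (v / H) ≤ x ^ (1/8)`,
so `y = x exp (-v/H) ≥ x ^ (7/8) ≥ x1` and `|m| ≤ x ≤ y ^ 2`; `Rb (lF F χ) H v x m` is the sum in
`HALFStmt` for `y` (unfold `Rb`, `Wset`, `Finset.sum_filter`; `x / 2 * exp (-(v/H)) = y / 2`), so
`‖Rb‖ ≤ ε1 y`. `LVPStmt` applies to `U`: `|m| ≤ x = exp (log x) ≤ exp (A * (v/H))` and
`U.card ≤ x ^ κ ≤ x ^ (κ' θ) ≤ exp (κ' (v/H))`, `b0 ≤ x ^ θ`.
`UCS` gives `∑_U ‖(1/W) ∑ P R‖ ^ 2 ≤ 3 C' ε1² x² (b - a)(H/a) / W ≤ 3 C' ε1² x² H / (8 θ)`, because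
`(b - a) (H / a) ≤ b / (a / H) ≤ (H log x / 8) / (θ log x)`. `DEC` with `M = ⌊x⌋₊ ` replaced by any
`M` with `U ⊆ fr M`: take `M = ⌊x⌋₊ + 1` is too large for `M ≤ x`, so use the hypothesis
`U ⊆ fr ⌊x⌋₊` : the sum over `U` of `‖Z - (1/W) ∑ P R‖ ^ 2` is `≤ CD x² (1/W + 1/H) ≤ ε x² / 4`.
Finally `‖Z‖ ^ 2 ≤ 2 ‖Z - B‖ ^ 2 + 2 ‖B‖ ^ 2`.
-/

set_option autoImplicit false

namespace Pool.Agent.LogG

open Real
open Pool.Agent.NSqP
open Pool.Agent.LogCh
open Pool.Agent.MP484c84Par (ballG mem_ballG crossG dotG)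

theorem UPARTG {F : GaussianInt → ℂ} (hFc : CMC F) (hFb : ∀ z, ‖F z‖ ≤ 1) (h1 : HALFG F)
    (h2 : LVPStmt) (r : ℕ) (hr : 1 ≤ r) (ε : ℝ) (hε : 0 < ε) :
    ∃ κ : ℝ, 0 < κ ∧ κ ≤ 1 ∧ ∃ x0 : ℝ, ∀ x : ℝ, x0 ≤ x → ∀ χ : GaussianInt → ℂ, ChiMod r χ →
      ∀ U : Finset ℤ, U ⊆ fr ⌊x⌋₊ → (U.card : ℝ) ≤ x ^ κ →
        ∑ m ∈ U, ‖Zs (lF F χ) (x / 2) x m‖ ^ 2 ≤ ε * x ^ 2 := by
  classical
  obtain ⟨CD, hCD, hDEC⟩ := DEC
  set W0 : ℝ := max 1 (8 * CD / ε) with hW0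
  set H : ℕ := ⌈max 1 (8 * CD / ε)⌉₊ with hHdef
  have hHW : W0 ≤ H := Nat.le_ceil _
  have hW01 : 1 ≤ W0 := le_max_left _ _
  have hW02 : 8 * CD / ε ≤ W0 := le_max_right _ _
  have hH1r : (1 : ℝ) ≤ H := hW01.trans hHW
  have hH1 : 1 ≤ H := by exact_mod_cast hH1r
  have hHpos : (0 : ℝ) < H := by linarith
  obtain ⟨θ, hθ, hθ16, hRA⟩ := RANGE W0
  obtain ⟨xR, hxR1, hRA⟩ := hRA H hH1
  have hAge : 1 ≤ 1 / θ := by
    rw [le_div_iff₀ hθ]; linarith
  obtain ⟨κ', hκ', C', hC', b0, hLVP⟩ := h2 (1 / θ) hAge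
  set ε1 : ℝ := √(ε * (8 * θ) / (12 * C' * H)) with hε1
  have hε1sq : ε1 ^ 2 = ε * (8 * θ) / (12 * C' * H) := sq_sqrt (by positivity)
  have hε1pos : 0 < ε1 := sqrt_pos.2 (by positivity)
  obtain ⟨x1, hHALF⟩ := h1 r hr ε1 hε1pos
  refine ⟨min 1 (κ' * θ), lt_min one_pos (by positivity), min_le_left _ _,
    max (max xR ((max 1 x1) ^ 2)) (max 1 ((max 1 b0) ^ (1 / θ))), fun x hx χ hχ U hU hUc => ?_⟩
  have hxR : xR ≤ x := (le_max_left _ _).trans ((le_max_left _ _).trans hx)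
  have hx1 : (max 1 x1) ^ 2 ≤ x := (le_max_right _ _).trans ((le_max_left _ _).trans hx)
  have hx2 : 1 ≤ x := (le_max_left _ _).trans ((le_max_right _ _).trans hx)
  have hx3 : (max 1 b0) ^ (1 / θ) ≤ x := (le_max_right _ _).trans ((le_max_right _ _).trans hx)
  have hx0 : 0 < x := by linarith
  have hlx : 0 ≤ log x := log_nonneg hx2
  obtain ⟨a, b, ha1, hab, haθ, hb8, hWR, hHa⟩ := hRA x hxR
  have haR : (0 : ℝ) < a := by exact_mod_cast ha1
  have hWpos : 0 < WR H a b := by linarith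
  have hexplog : exp (log x) = x := exp_log hx0
  -- the bounds for `v / H`
  have hvlo : ∀ v ∈ Finset.Ico a b, θ * log x ≤ (v : ℝ) / H := by
    intro v hv
    have hv1 : (a : ℝ) ≤ v := by exact_mod_cast (Finset.mem_Ico.1 hv).1
    calc θ * log x ≤ (a : ℝ) / H := haθ
      _ ≤ (v : ℝ) / H := by gcongr
  have hvhi : ∀ v ∈ Finset.Ico a b, (v : ℝ) / H ≤ log x / 8 := by
    intro v hv
    have hv1 : (v : ℝ) ≤ b := by exact_mod_cast (Finset.mem_Ico.1 hv).2.le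
    calc (v : ℝ) / H ≤ (b : ℝ) / H := by gcongr
      _ ≤ log x / 8 := hb8
  have hmx : ∀ m ∈ U, |(m : ℝ)| ≤ x := by
    intro m hm
    have h3 := mem_fr.1 (hU hm)
    have h4 : |(m : ℝ)| ≤ (⌊x⌋₊ : ℝ) := by
      rw [← Int.cast_abs]
      exact_mod_cast h3.le
    exact h4.trans (Nat.floor_le hx0.le)
  -- the cofactor
  have hR : ∀ m ∈ U, ∀ v ∈ Finset.Ico a b,
      ‖Rb (lF F χ) H v x m‖ ≤ ε1 * (x * exp (-((v : ℝ) / H))) := by
    intro m hm v hv
    set y : ℝ := x * exp (-((v : ℝ) / H)) with hy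
    have hysq : √x ≤ y := by
      have e1 : exp (-(log x / 2)) ≤ exp (-((v : ℝ) / H)) := by
        apply exp_le_exp.2
        have := hvhi v hv
        linarith
      have e2 : √x = x * exp (-(log x / 2)) := by
        have e3 : √x = exp (log x / 2) := by
          rw [Real.sqrt_eq_rpow, Real.rpow_def_of_pos hx0]
          congr 1; ring
        rw [e3]
        nth_rewrite 2 [← hexplog]
        rw [← exp_add]
        congr 1; ring
      rw [e2, hy]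
      gcongr
    have hy1 : x1 ≤ y := by
      refine le_trans ?_ hysq
      exact (le_max_right 1 x1).trans (Real.le_sqrt_of_sq_le hx1)
    have hmy : |(m : ℝ)| ≤ y ^ 2 := by
      refine (hmx m hm).trans ?_
      calc x = √x ^ 2 := (sq_sqrt hx0.le).symm
        _ ≤ y ^ 2 := pow_le_pow_left₀ (sqrt_nonneg _) hysq 2
    have h3 := hHALF y hy1 χ hχ m hmy H v hH1
    have h4 : Rb (lF F χ) H v x m = ∑ z ∈ pann (y / 2) y,
        gF F χ m H v z := by
      unfold Rb Wset lF gF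
      rw [Finset.sum_filter]
      have e5 : x / 2 * exp (-((v : ℝ) / H)) = y / 2 := by rw [hy]; ring
      rw [e5, ← hy]
    rw [h4]
    exact h3
  have hP : ∀ v ∈ Finset.Ico a b, ∑ m ∈ U, ‖Pb (lF F χ) H v m‖ ^ 2 ≤
      C' * ((blk H v).card : ℝ) * exp ((v : ℝ) / H) / (v / H) := by
    intro v hv
    have hvl := hvlo v hv
    have hxθ : x ^ θ ≤ exp ((v : ℝ) / H) := by
      rw [Real.rpow_def_of_pos hx0]
      apply exp_le_exp.2
      linarith
    apply hLVP H v U (lF F χ) hH1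
    · refine le_trans ?_ hxθ
      have e1 : (max 1 b0) = ((max 1 b0) ^ (1 / θ)) ^ θ := by
        rw [← Real.rpow_mul (le_trans zero_le_one (le_max_left _ _)), one_div,
          inv_mul_cancel₀ hθ.ne', Real.rpow_one]
      calc b0 ≤ max 1 b0 := le_max_right _ _
        _ = ((max 1 b0) ^ (1 / θ)) ^ θ := e1
        _ ≤ x ^ θ := Real.rpow_le_rpow (by positivity) hx3 hθ.le
    · exact lF_le hFb hχ
    · intro m hm
      refine (hmx m hm).trans ?_
      nth_rewrite 1 [← hexplog]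
      apply exp_le_exp.2
      rw [one_div, inv_mul_eq_div, le_div_iff₀ hθ]
      linarith
    · refine hUc.trans ?_
      calc x ^ (min 1 (κ' * θ)) ≤ x ^ (κ' * θ) :=
            Real.rpow_le_rpow_of_exponent_le hx2 (min_le_right _ _)
        _ = exp (κ' * (θ * log x)) := by
            rw [Real.rpow_def_of_pos hx0]; congr 1; ring
        _ ≤ exp (κ' * ((v : ℝ) / H)) := by
            apply exp_le_exp.2
            gcongr
  have hUCS := UCS (lF F χ) H a b U x ε1 C' hH1 ha1 hab hx0.le hε1pos.le hC'.le hWpos hR hP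
  have hD := hDEC (lF F χ) (CMC_lF hFc hχ) H a b ⌊x⌋₊ x hH1 hHa hab (hW01.trans hWR) (by
    refine le_trans ?_ hexplog.le
    apply exp_le_exp.2
    linarith) (Nat.floor_le hx0.le)
  set B : ℤ → ℂ := fun m => (1 / (WR H a b : ℂ)) * ∑ v ∈ Finset.Ico a b,
    Pb (lF F χ) H v m * Rb (lF F χ) H v x m with hB
  have hD2 : ∑ m ∈ U, ‖Zs (lF F χ) (x / 2) x m - B m‖ ^ 2 ≤ ε * x ^ 2 / 4 := by
    refine (Finset.sum_le_sum_of_subset_of_nonneg hU fun i _ _ => by positivity).trans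
      (hD.trans ?_)
    have e1 : 1 / WR H a b ≤ ε / (8 * CD) := by
      rw [div_le_div_iff₀ hWpos (by positivity)]
      have : 8 * CD / ε ≤ WR H a b := hW02.trans hWR
      rw [div_le_iff₀ hε] at this
      linarith
    have e2 : 1 / (H : ℝ) ≤ ε / (8 * CD) := by
      rw [div_le_div_iff₀ hHpos (by positivity)]
      have : 8 * CD / ε ≤ H := hW02.trans hHW
      rw [div_le_iff₀ hε] at this
      linarith
    calc CD * x ^ 2 * (1 / WR H a b + 1 / H) ≤ CD * x ^ 2 * (ε / (8 * CD) + ε / (8 * CD)) := by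
          gcongr
      _ = ε * x ^ 2 / 4 := by field_simp; ring
  have hU2 : ∑ m ∈ U, ‖B m‖ ^ 2 ≤ ε * x ^ 2 / 4 := by
    refine hUCS.trans ?_
    have hbH : ((b : ℝ) - a) * (H / a) ≤ H / (8 * θ) := by
      rcases hlx.lt_or_eq with hl | hl
      · have e1 : ((b : ℝ) - a) * (H / a) ≤ b * (H / a) := by
          apply mul_le_mul_of_nonneg_right _ (by positivity)
          linarith
        have e2 : (b : ℝ) ≤ log x / 8 * H := by
          rwa [div_le_iff₀ hHpos] at hb8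
        have e3 : θ * log x * H ≤ a := by
          rwa [le_div_iff₀ hHpos] at haθ
        have e4 : (H : ℝ) / a ≤ 1 / (θ * log x) := by
          rw [div_le_div_iff₀ haR (by positivity)]
          linarith
        calc ((b : ℝ) - a) * (H / a) ≤ b * (H / a) := e1
          _ ≤ (log x / 8 * H) * (1 / (θ * log x)) := by gcongr
          _ = H / (8 * θ) := by field_simp
      · -- `log x = 0` is impossible
        rw [← hl] at hb8
        have e1 : (b : ℝ) / H ≤ 0 := by simpa using hb8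
        have e2 : (0 : ℝ) < b := by
          have : 0 < b := lt_of_le_of_lt (Nat.zero_le _) hab
          exact_mod_cast this
        have e3 : 0 < (b : ℝ) / H := by positivity
        linarith
    have hW1 : 1 ≤ WR H a b := hW01.trans hWR
    have hnum : 0 ≤ 3 * C' * ε1 ^ 2 * x ^ 2 * (H / (8 * θ)) := by positivity
    calc 3 * C' * ε1 ^ 2 * x ^ 2 * (((b : ℝ) - a) * (H / a)) / WR H a b ≤
          3 * C' * ε1 ^ 2 * x ^ 2 * (H / (8 * θ)) / WR H a b := by gcongr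
      _ ≤ 3 * C' * ε1 ^ 2 * x ^ 2 * (H / (8 * θ)) / 1 := by gcongr
      _ = ε * x ^ 2 / 4 := by
          rw [hε1sq]; field_simp; norm_num
  have hfin : ∀ m ∈ U, ‖Zs (lF F χ) (x / 2) x m‖ ^ 2 ≤
      2 * ‖Zs (lF F χ) (x / 2) x m - B m‖ ^ 2 + 2 * ‖B m‖ ^ 2 := by
    intro m _
    have e1 : ‖Zs (lF F χ) (x / 2) x m‖ ≤ ‖Zs (lF F χ) (x / 2) x m - B m‖ + ‖B m‖ := by
      calc ‖Zs (lF F χ) (x / 2) x m‖ = ‖(Zs (lF F χ) (x / 2) x m - B m) + B m‖ := by
            rw [sub_add_cancel]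
        _ ≤ _ := norm_add_le _ _
    have e2 := norm_nonneg (Zs (lF F χ) (x / 2) x m)
    nlinarith [sq_nonneg (‖Zs (lF F χ) (x / 2) x m - B m‖ - ‖B m‖),
      pow_le_pow_left₀ e2 e1 2]
  refine (Finset.sum_le_sum hfin).trans ?_
  rw [Finset.sum_add_distrib, ← Finset.mul_sum, ← Finset.mul_sum]
  linarith

end Pool.Agent.LogG
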