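import Pool.Agent.Lib.LogG.GFdefs
import Pool.Agent.Lib.LogCh.HSb
import Pool.Agent.Lib.LogCh.HQp

/-!
# GHnpa: `F χ` for a character `χ` not invariant under conjugation

PROOF of `np_case1`. Put `ψ z = χ z * conj (χ (star z))` (`conj = starRingEnd ℂ`). `ChiMod r ψ`: `mul`, `per`
(`star (z + r w) = star z + r * star w`), `zero` (`χ z = 0` if `z` is not coprime to `r`), `norm` (`star z` is
coprime to `r` if `z` is). `ψ gI = 1` (`star gI = gI ^ 3`, `χ gI = 1`), `ψ z0 ≠ 1` (`‖χ (star z0)‖ = 1`).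
`nontriv_div` gives `log (1/(σ-1)) - C ≤ QP (fun z => 1 - (ψ z).re) σ`.
Pointwise for `IsPi z`: with `u = F z * χ z`, `v = F z * χ (star z)` we have `u * conj v = ψ z` (`‖F z‖ = 1`) and
`1 - (ψ z).re ≤ 2 (1 - u.re) + 2 (1 - v.re)`: if `z` is coprime to `r` then `‖u‖ = ‖v‖ = 1`,
`1 - Re (u conj v) = ‖u - v‖^2/2 ≤ ‖u-1‖^2 + ‖v-1‖^2`; otherwise `ψ z = u = 0` and the claim is
`1 ≤ 2 + 2 (1 - v.re)`. By symmetry `QP (fun z => 1 - (F z * χ (star z)).re) σ = QP (fun z => 1 - (F z * χ z).re) σ`: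
the map `z ↦ gI * star z` (`⟨a,b⟩ ↦ ⟨b,a⟩`) is an involution of `sphP n` (`IsPi`: see its definition, it is
symmetric in `re`, `im`), `F` depends only on the norm, `χ (gI * star z) = χ (star z)`. So
`log (1/(σ-1)) - C ≤ 4 QP (fun z => 1 - (F z * χ z).re) σ`; choose `δ` with `log (1/δ) - C ≥ 4 M`, `δ ≤ 1`.
Use `QP_mono`, `QP_add`, `QP_const` (all functions bounded by `B = 8`).
-/

set_option autoImplicit false

namespace Pool.Agent.LogG

open Real
open Pool.Agent.NSqP
open Pool.Agent.LogCh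
open Pool.Agent.LogCh.HG

private lemma npa_fin {S : ℝ → ℝ} {K C : ℝ} (hK : 0 < K)
    (h : ∀ σ : ℝ, 1 < σ → σ ≤ 2 → log (1 / (σ - 1)) - C ≤ K * S σ) (M : ℝ) :
    ∃ δ : ℝ, 0 < δ ∧ ∀ σ : ℝ, 1 < σ → σ < 1 + δ → M ≤ S σ := by
  refine ⟨min 1 (exp (-(K * M + C))), lt_min one_pos (Real.exp_pos _), fun σ hσ hσδ => ?_⟩
  have h1 : σ - 1 < 1 := by
    have := min_le_left (1 : ℝ) (exp (-(K * M + C)))
    linarith
  have h2 : σ - 1 < exp (-(K * M + C)) := by
    have := min_le_right (1 : ℝ) (exp (-(K * M + C)))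
    linarith
  have h3 := h σ hσ (by linarith)
  have h4 : K * M + C ≤ log (1 / (σ - 1)) := by
    rw [one_div, Real.log_inv]
    have h5 : log (σ - 1) ≤ log (exp (-(K * M + C))) := Real.log_le_log (by linarith) h2.le
    rw [Real.log_exp] at h5
    linarith
  have h6 : K * M ≤ K * S σ := by linarith
  exact le_of_mul_le_mul_left h6 hK

private lemma npa_star_r (r : ℕ) : star (r : GaussianInt) = (r : GaussianInt) := by
  refine Zsqrtd.ext ?_ ?_ <;> simp

private lemma npa_star_coprime {r : ℕ} {z : GaussianInt} (h : IsCoprime z (r : GaussianInt)) :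
    IsCoprime (star z) (r : GaussianInt) := by
  obtain ⟨a, b, hab⟩ := h
  refine ⟨star a, star b, ?_⟩
  have h1 := congrArg star hab
  rw [star_add, star_mul', star_mul', star_one, npa_star_r] at h1
  exact h1

private lemma npa_tau_re (z : GaussianInt) : (gI * star z).re = z.im := by
  simp [gI, Zsqrtd.re_mul]

private lemma npa_tau_im (z : GaussianInt) : (gI * star z).im = z.re := by
  simp [gI, Zsqrtd.im_mul]

private lemma npa_tau_tau (z : GaussianInt) : gI * star (gI * star z) = z := by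
  refine Zsqrtd.ext ?_ ?_
  · rw [npa_tau_re, npa_tau_im]
  · rw [npa_tau_im, npa_tau_re]

private lemma npa_tau_mem {n : ℕ} {z : GaussianInt} (hz : z ∈ sphP n) :
    gI * star z ∈ sphP n := by
  rw [mem_sphP] at hz ⊢
  have hN : nN (gI * star z) = nN z := by rw [nN_mul, nN_gI, nN_star, one_mul]
  refine ⟨hN.trans hz.1, ?_⟩
  obtain ⟨h1, h2, h3, h4⟩ := hz.2
  refine ⟨?_, ?_, ?_, ?_⟩
  · rw [npa_tau_re]; exact h2
  · rw [npa_tau_im]; exact h1
  · rw [hN]; exact h3
  · rw [hN]; exact h4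

/-- symmetry under the exchange of coordinates -/
private lemma npa_symm (F : GaussianInt → ℝ) (hF : ∀ z, F (gI * z) = F z) (σ : ℝ) :
    QP (fun z => F (star z)) σ = QP F σ := by
  unfold QP
  refine tsum_congr fun n => ?_
  congr 1
  refine Finset.sum_nbij' (fun z => gI * star z) (fun z => gI * star z)
    (fun z hz => npa_tau_mem hz) (fun z hz => npa_tau_mem hz) (fun z _ => npa_tau_tau z)
    (fun z _ => npa_tau_tau z) (fun z _ => ?_)
  exact (hF (star z)).symm

private lemma npa_sq (w : ℂ) : w.re ^ 2 + w.im ^ 2 = ‖w‖ ^ 2 := by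
  rw [Complex.sq_norm, Complex.normSq_apply]; ring

/-- the triangle inequality for the distance -/
private lemma npa_pt {u v : ℂ} (hu : ‖u‖ = 1) (hv : ‖v‖ = 1) :
    1 - (u * (starRingEnd ℂ) v).re ≤ 2 * (1 - u.re) + 2 * (1 - v.re) := by
  have h1 := npa_sq u
  have h2 := npa_sq v
  rw [hu] at h1
  rw [hv] at h2
  have h3 : (u * (starRingEnd ℂ) v).re = u.re * v.re + u.im * v.im := by
    rw [Complex.mul_re, Complex.conj_re, Complex.conj_im]; ring
  rw [h3]
  nlinarith [sq_nonneg (u.re + v.re - 2), sq_nonneg (u.im + v.im)]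

theorem np_case1 {k : ℕ} (hk : 1 ≤ k) {F : GaussianInt → ℂ} (hF : GF k F) (r : ℕ) (hr : 1 ≤ r)
    (χ : GaussianInt → ℂ) (hχ : ChiMod r χ) (hi : χ gI = 1) (z0 : GaussianInt)
    (h0 : IsCoprime z0 (r : GaussianInt)) (h1 : χ (star z0) ≠ χ z0) (M : ℝ) :
    ∃ δ : ℝ, 0 < δ ∧ ∀ σ : ℝ, 1 < σ → σ < 1 + δ → M ≤ QP (fun z => 1 - (F z * χ z).re) σ := by
  have hψ : ChiMod r (fun z => χ z * (starRingEnd ℂ) (χ (star z))) :=
    { mul := fun z w => by rw [star_mul', hχ.mul, hχ.mul, map_mul]; ring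
      per := fun z w => by
        rw [star_add, star_mul', npa_star_r, hχ.per, hχ.per]
      zero := fun z hz => by rw [hχ.zero z hz, zero_mul]
      norm := fun z hz => by
        rw [norm_mul, hχ.norm z hz, Complex.norm_conj, hχ.norm _ (npa_star_coprime hz), one_mul] }
  have hu : χ (star gI) = 1 := by
    refine chi_unit hχ hi _ ?_
    refine IsUnit.of_mul_eq_one gI ?_
    refine Zsqrtd.ext ?_ ?_ <;> simp [gI]
  have hne : χ z0 * (starRingEnd ℂ) (χ (star z0)) ≠ 1 := by
    intro h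
    apply h1
    have h2 := hχ.norm _ (npa_star_coprime h0)
    have h3 : (starRingEnd ℂ) (χ (star z0)) * χ (star z0) = 1 := by
      rw [mul_comm, Complex.mul_conj, Complex.normSq_eq_norm_sq, h2]; norm_num
    calc χ (star z0) = (χ z0 * (starRingEnd ℂ) (χ (star z0))) * χ (star z0) := by rw [h, one_mul]
      _ = χ z0 * ((starRingEnd ℂ) (χ (star z0)) * χ (star z0)) := by ring
      _ = χ z0 := by rw [h3, mul_one]
  obtain ⟨C, hC⟩ := nontriv_div r hr (fun z => χ z * (starRingEnd ℂ) (χ (star z))) hψ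
    (by rw [hi, hu, one_mul, map_one]) z0 h0 hne
  refine npa_fin (K := 4) (C := C) (by norm_num) (fun σ hσ hσ2 => ?_) M
  refine (hC σ hσ hσ2).trans ?_
  have hFl : ∀ z, ‖F z‖ ≤ 1 := hF.le hk
  have hb : ∀ w : ℂ, ‖w‖ ≤ 1 → |1 - w.re| ≤ 2 := fun w hw => by
    have := abs_le.1 ((Complex.abs_re_le_norm w).trans hw)
    rw [abs_le]
    constructor <;> linarith [this.1, this.2]
  have hn : ∀ z w, ‖F z * χ w‖ ≤ 1 := fun z w => by
    rw [norm_mul]
    exact mul_le_one₀ (hFl z) (norm_nonneg _) (chi_norm_le hχ w)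
  have hB : ∀ z w, |1 - (F z * χ w).re| ≤ 2 := fun z w => hb _ (hn z w)
  have hsym := npa_symm (fun z => 1 - (F z * χ z).re) (fun z => by
    rw [hχ.mul, hi, one_mul, hF.nrm (gI * z) z (by rw [nN_mul, nN_gI, one_mul])]) σ
  have hsym' : QP (fun z => 1 - (F z * χ (star z)).re) σ = QP (fun z => 1 - (F z * χ z).re) σ := by
    rw [← hsym]
    congr 1
    funext z
    rw [hF.nrm (star z) z (nN_star z)]
  have h2 : QP (fun z => 2 * (1 - (F z * χ z).re) + 2 * (1 - (F z * χ (star z)).re)) σ =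
      4 * QP (fun z => 1 - (F z * χ z).re) σ := by
    rw [QP_add (B := 4) (fun z _ => ?_) (fun z _ => ?_) hσ, QP_const, QP_const, hsym']
    · ring
    · rw [abs_mul, abs_of_pos (by norm_num : (0 : ℝ) < 2)]
      linarith [hB z z]
    · rw [abs_mul, abs_of_pos (by norm_num : (0 : ℝ) < 2)]
      linarith [hB z (star z)]
  rw [← h2]
  refine QP_mono (B := 8) (fun z _ => ?_) (fun z _ => ?_) (fun z hz => ?_) hσ
  · have := hb _ (chi_norm_le hψ z)
    linarith
  · have e1 := abs_le.1 (hB z z)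
    have e2 := abs_le.1 (hB z (star z))
    rw [abs_le]
    constructor <;> linarith [e1.1, e1.2, e2.1, e2.2]
  · have hz0 : z ≠ 0 := by
      rintro rfl
      have := hz.1
      simp at this
    have hFz : ‖F z‖ = 1 := hF.norm hk hz0
    by_cases hc : IsCoprime z (r : GaussianInt)
    · have hu1 : ‖F z * χ z‖ = 1 := by rw [norm_mul, hFz, hχ.norm z hc, one_mul]
      have hv1 : ‖F z * χ (star z)‖ = 1 := by
        rw [norm_mul, hFz, hχ.norm _ (npa_star_coprime hc), one_mul]
      have h3 := npa_pt hu1 hv1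
      have h4 : F z * χ z * (starRingEnd ℂ) (F z * χ (star z)) =
          χ z * (starRingEnd ℂ) (χ (star z)) := by
        have h5 : F z * (starRingEnd ℂ) (F z) = 1 := by
          rw [Complex.mul_conj, Complex.normSq_eq_norm_sq, hFz]; norm_num
        rw [map_mul]
        calc F z * χ z * ((starRingEnd ℂ) (F z) * (starRingEnd ℂ) (χ (star z)))
            = (F z * (starRingEnd ℂ) (F z)) * (χ z * (starRingEnd ℂ) (χ (star z))) := by ring
          _ = _ := by rw [h5, one_mul]
      rw [h4] at h3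
      exact h3
    · rw [hχ.zero z hc]
      have h3 := (abs_le.1 (hB z (star z))).2
      have h4 := (Complex.re_le_norm (F z * χ (star z))).trans (hn z (star z))
      simp only [mul_zero, zero_mul, Complex.zero_re, sub_zero, mul_one]
      linarith

end Pool.Agent.LogG
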