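import Pool.Agent.Lib.LogG.GHgg
import Pool.Agent.Lib.LogCh.HQp

/-!
# HSa: the L-function of `λ χ ξ ^ m` without the primes of a block

Write `g = gF F χ m H v`.

PROOF of `gg_GM`.  Multiplicativity on nonzero elements: `lam` is completely multiplicative on
nonzero elements (`ArithmeticFunction.liouville`, `nN_mul`), `xi_mul_zpow`, `χ` is multiplicative;
a prime `q` (`IsPi.prime`) divides `z w` iff it divides `z` or `w`, so the indicator is
multiplicative.  `‖g z‖ ≤ 1`: `|lam z| ≤ 1`, `chi_norm_le`, `norm_xi_zpow`.  Units: no prime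
divides a unit; `lam u = 1` (`nN u = 1`); the units are the powers of `gI`; `xi gI = I`,
`χ (gI ^ j) * xi (gI ^ j) ^ m = (χ gI * I ^ m) ^ j = 1`.

PROOF of `gg_pi`.  For `IsPi z`: `lam z = -1` (`nN z` prime).  If `z ∈ blk H v` then `z ∣ z` and
`g z = 0`.  If `z ∉ blk H v` and `q ∈ blk H v` divides `z`, then (both `IsPi`) `q = z`
(`IsPi.coprime` and `Prime.not_unit`), contradiction.

PROOF of `sup_general`.  By `LB1`, `re_bP`: `‖L‖ ≤ C exp (QP (re tw t g) σ)`.  For `IsPi z`: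
`re (tw t g z) ≤ 1 - (1 + re (tw t (χ ξ^m) z)) + [z ∈ blk H v]` (equality off the block; on the
block the left side is `0` and `re ≤ 1`).  Hence
`QP (re tw t g) ≤ QP 1 - QP (1 + re tw t (χ ξ^m)) + ∑_{z ∈ blk} 1 / nN z`, the last sum is
`sv H v ≤ 4` (`sv_le`), `QP 1 σ ≤ log (1/(σ-1)) + C` (`QP_one`).

PROOF of `twist_lower`.  Pointwise, for `IsPi z`:
`1 - re (tw (4 K t) (ξ ^ (4 K m)) z) ≤ 16 K ^ 2 * (1 + re (tw t (χ ξ ^ m) z))`:
if `χ z = 0` the left side is `≤ 2 ≤ 16 K²`.  Otherwise `z` is prime to `r`, `W = tw t (χ ξ^m) z` has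
norm one and `W ^ (4 K) = tw (4 K t) (ξ ^ (4 K m)) z` since `χ z ^ (4K) = 1`; with
`W = - exp (i φ)`, `W ^ (4K) = exp (4 K i φ)` and `1 - cos (4 K φ) ≤ 16 K² (1 - cos φ)`
(`|sin (n x)| ≤ n |sin x|` with `x = φ / 2`, `1 - cos (2x) = 2 sin² x`).
So with `LB2` for `g' = ξ ^ (4 K m)` (it is `GM`: units are killed by the exponent `4 K m`), `re_bP`:
`16 K² QP (1 + re ..) σ ≥ QP 1 σ - QP (re tw (4Kt) g') σ ≥ log (1/(σ-1)) - C - log (C' θ / (σ-1)) =
log (1 / (C'' θ))`.
(If `‖L‖ = 0` then `exp (..) ≤ 0` is absurd, so the logarithms make sense.)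
-/

set_option autoImplicit false

namespace Pool.Agent.LogG

open Real
open Pool.Agent.NSqP
open Pool.Agent.LogCh
open Pool.Agent.LogCh.HG

private lemma hsa_unit_cases {u : GaussianInt} (hu : IsUnit u) :
    u = 1 ∨ u = gI ∨ u = gI ^ 2 ∨ u = gI ^ 3 := by
  have h1 : nN u = 1 := Zsqrtd.norm_eq_one_iff.2 hu
  have h2 : u.re ^ 2 + u.im ^ 2 = 1 := by
    have := nN_cast_int u
    rw [h1, Zsqrtd.norm_def] at this
    push_cast at this
    linarith
  have a2 : -1 ≤ u.re := by nlinarith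
  have a3 : u.re ≤ 1 := by nlinarith
  have a4 : -1 ≤ u.im := by nlinarith
  have a5 : u.im ≤ 1 := by nlinarith
  have b1 : u.re = -1 ∨ u.re = 0 ∨ u.re = 1 := by omega
  have b2 : u.im = -1 ∨ u.im = 0 ∨ u.im = 1 := by omega
  have g2 : gI ^ 2 = (⟨-1, 0⟩ : GaussianInt) := by rfl
  have g3 : gI ^ 3 = (⟨0, -1⟩ : GaussianInt) := by rfl
  rw [g2, g3]
  rcases b1 with b1 | b1 | b1 <;> rcases b2 with b2 | b2 | b2 <;> rw [b1, b2] at h2 <;>
    first
    | (norm_num at h2; done)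
    | exact Or.inl (Zsqrtd.ext b1 b2)
    | exact Or.inr (Or.inl (Zsqrtd.ext b1 b2))
    | exact Or.inr (Or.inr (Or.inl (Zsqrtd.ext b1 b2)))
    | exact Or.inr (Or.inr (Or.inr (Zsqrtd.ext b1 b2)))

private lemma hsa_xi_gI : xi gI = Complex.I := by
  unfold xi
  have h1 : ((gI : GaussianInt) : ℂ) = Complex.I := by
    unfold gI
    rw [GaussianInt.toComplex_def]
    simp
  rw [h1, Complex.norm_I]
  simp

private lemma hsa_xi_one : xi 1 = 1 := by
  unfold xi
  have h1 : ((1 : GaussianInt) : ℂ) = 1 := GaussianInt.toComplex_one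
  rw [h1]
  simp

private lemma hsa_xi_pow (z : GaussianInt) (j : ℕ) : xi (z ^ j) = xi z ^ j := by
  induction j with
  | zero => rw [pow_zero, pow_zero, hsa_xi_one]
  | succ j ih => rw [pow_succ, xi_mul, ih, pow_succ]

private lemma hsa_unit_pow {u : GaussianInt} (hu : IsUnit u) : ∃ j : ℕ, u = gI ^ j := by
  rcases hsa_unit_cases hu with h | h | h | h
  · exact ⟨0, by rw [h, pow_zero]⟩
  · exact ⟨1, by rw [h, pow_one]⟩
  · exact ⟨2, h⟩
  · exact ⟨3, h⟩

private lemma hsa_norm_tw {f : GaussianInt → ℂ} {z : GaussianInt} (hz : z ≠ 0) (t : ℝ) :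
    ‖tw t f z‖ = ‖f z‖ := by
  unfold tw
  have hn : 0 < nN z := nN_pos hz
  rw [norm_mul]
  have : ‖((nN z : ℕ) : ℂ) ^ (-(t : ℂ) * Complex.I)‖ = 1 := by
    rw [Complex.norm_natCast_cpow_of_pos hn]
    simp
  rw [this, mul_one]

private lemma hsa_QP_blk (H v : ℕ) (hH : 1 ≤ H) {σ : ℝ} (hσ : 1 < σ) :
    QP (fun z => if z ∈ blk H v then 1 else 0) σ ≤ 4 := by
  classical
  unfold QP
  have h1 : ∑' n : ℕ, (∑ z ∈ sphP n, (if z ∈ blk H v then (1 : ℝ) else 0)) / (n : ℝ) ^ σ =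
      ∑ n ∈ (blk H v).image nN,
        (∑ z ∈ sphP n, (if z ∈ blk H v then (1 : ℝ) else 0)) / (n : ℝ) ^ σ := by
    apply tsum_eq_sum
    intro n hn
    rw [Finset.sum_eq_zero, zero_div]
    intro z hz
    rw [if_neg]
    intro hzb
    exact hn (Finset.mem_image.2 ⟨z, hzb, (mem_sphP.1 hz).1⟩)
  rw [h1]
  have h2 : ∀ n ∈ (blk H v).image nN,
      (∑ z ∈ sphP n, (if z ∈ blk H v then (1 : ℝ) else 0)) / (n : ℝ) ^ σ ≤
      ∑ z ∈ (blk H v).filter (fun z => nN z = n), 1 / (nN z : ℝ) := by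
    intro n hn
    obtain ⟨w, hw, hwn⟩ := Finset.mem_image.1 hn
    have hn1 : (1 : ℝ) ≤ n := by
      have := (mem_blk.1 hw).1.2.2.1.one_lt
      rw [hwn] at this
      exact_mod_cast this.le
    have h3 : ∑ z ∈ sphP n, (if z ∈ blk H v then (1 : ℝ) else 0) =
        ((blk H v).filter (fun z => nN z = n)).card := by
      rw [← Finset.sum_filter, Finset.sum_const, nsmul_eq_mul, mul_one]
      congr 2
      ext z
      rw [Finset.mem_filter, Finset.mem_filter, mem_sphP]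
      constructor
      · rintro ⟨⟨a, b⟩, c⟩
        exact ⟨c, a⟩
      · rintro ⟨c, a⟩
        exact ⟨⟨a, (mem_blk.1 c).1⟩, c⟩
    have h4 : ∑ z ∈ (blk H v).filter (fun z => nN z = n), 1 / (nN z : ℝ) =
        ((blk H v).filter (fun z => nN z = n)).card * (1 / (n : ℝ)) := by
      rw [Finset.sum_congr rfl (g := fun _ => 1 / (n : ℝ)), Finset.sum_const, nsmul_eq_mul]
      intro z hz
      rw [(Finset.mem_filter.1 hz).2]
    rw [h3, h4, div_eq_mul_one_div]
    apply mul_le_mul_of_nonneg_left _ (Nat.cast_nonneg _)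
    apply one_div_le_one_div_of_le (by linarith)
    calc (n : ℝ) = (n : ℝ) ^ (1 : ℝ) := (Real.rpow_one _).symm
      _ ≤ (n : ℝ) ^ σ := Real.rpow_le_rpow_of_exponent_le hn1 hσ.le
  refine (Finset.sum_le_sum h2).trans ?_
  rw [Finset.sum_fiberwise_of_maps_to (fun z hz => Finset.mem_image_of_mem _ hz)]
  have h5 := sv_le hH v
  unfold sv at h5
  refine h5.trans ?_
  have h6 : (1 : ℝ) / H ≤ 1 := by
    have : (1 : ℝ) ≤ H := by exact_mod_cast hH
    rw [div_le_one (by linarith)]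
    exact this
  have h7 : exp (-((v : ℝ) / H)) ≤ 1 := by
    apply Real.exp_le_one_iff.2
    have : (0 : ℝ) ≤ (v : ℝ) / H := by positivity
    linarith
  linarith

private lemma hsa_norm_le {k : ℕ} (hk : 1 ≤ k) {F : GaussianInt → ℂ} (hF : GF k F) {r : ℕ}
    {χ : GaussianInt → ℂ} (hχ : ChiMod r χ) (m : ℤ)
    {z : GaussianInt} (hz : z ≠ 0) : ‖F z * χ z * xi z ^ m‖ ≤ 1 := by
  rw [norm_mul, norm_xi_zpow hz, mul_one, norm_mul, hF.norm hk hz, one_mul]
  exact chi_norm_le hχ z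

private lemma hsa_re_le {w : ℂ} (h : ‖w‖ ≤ 1) : |w.re| ≤ 1 :=
  (Complex.abs_re_le_norm w).trans h

theorem sup_gF : ∃ C : ℝ, 0 < C ∧ ∀ (k : ℕ) (F : GaussianInt → ℂ), 1 ≤ k → GF k F →
    ∀ (r : ℕ) (χ : GaussianInt → ℂ), ChiMod r χ → ∀ (m : ℤ) (H v : ℕ), 1 ≤ H → χ gI * Complex.I ^ m = 1 → ∀ σ : ℝ, 1 < σ → σ ≤ 2 → ∀ t : ℝ,
    ‖LSeries (aG (gF F χ m H v)) ((σ : ℂ) + (t : ℂ) * Complex.I)‖ ≤
      C / (σ - 1) * exp (-QP (fun z => 1 - (tw t (fun z => F z * χ z * xi z ^ m) z).re) σ) := by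
  classical
  obtain ⟨C1, hC1, hLB⟩ := LB1
  obtain ⟨C2, hC2, hone⟩ := QP_one
  refine ⟨C1 * exp (C2 + 4), by positivity, fun k F hk hF r χ hχ m H v hH hu σ h1 h2 t => ?_⟩
  have hg := gF_GM hk hF hχ m H v hu
  have hs : 1 < ((σ : ℂ) + (t : ℂ) * Complex.I).re := by simp [h1]
  refine (hLB _ hg _ hs).trans ?_
  have hgn : ∀ z, IsPi z → ‖gF F χ m H v z‖ ≤ 1 := fun z hz => hg.norm_le z hz.ne_zero
  rw [re_bP hgn h1]
  set F1 : GaussianInt → ℝ := fun z => (tw t (gF F χ m H v) z).re with hF1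
  set F3 : GaussianInt → ℝ := fun z => 1 - (tw t (fun z => F z * χ z * xi z ^ m) z).re with hF3
  set F4 : GaussianInt → ℝ := fun z => if z ∈ blk H v then 1 else 0 with hF4
  have hF1b : ∀ z, IsPi z → |F1 z| ≤ 3 := by
    intro z hz
    have := hsa_re_le (w := tw t (gF F χ m H v) z) (by rw [hsa_norm_tw hz.ne_zero]; exact hgn z hz)
    exact this.trans (by norm_num)
  have hW : ∀ z, IsPi z → |(tw t (fun z => F z * χ z * xi z ^ m) z).re| ≤ 1 := fun z hz =>
    hsa_re_le (by rw [hsa_norm_tw hz.ne_zero]; exact hsa_norm_le hk hF hχ m hz.ne_zero)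
  have hF3b : ∀ z, IsPi z → |F3 z| ≤ 3 := by
    intro z hz
    have := abs_le.1 (hW z hz)
    rw [abs_le]
    constructor <;> simp only [hF3] <;> linarith
  have hF4b : ∀ z, IsPi z → |F4 z| ≤ 3 := by
    intro z _
    simp only [hF4]
    split_ifs <;> norm_num
  have h1b : ∀ z, IsPi z → |(fun _ : GaussianInt => (1 : ℝ)) z| ≤ 3 := by
    intro z _; norm_num
  have hsum13 : QP (fun z => F1 z + F3 z) σ = QP F1 σ + QP F3 σ := QP_add hF1b hF3b h1
  have hsum24 : QP (fun z => (fun _ : GaussianInt => (1 : ℝ)) z + F4 z) σ =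
      QP (fun _ => 1) σ + QP F4 σ := QP_add h1b hF4b h1
  have hmono : QP (fun z => F1 z + F3 z) σ ≤
      QP (fun z => (fun _ : GaussianInt => (1 : ℝ)) z + F4 z) σ := by
    apply QP_mono (B := 6) _ _ _ h1
    · intro z hz
      exact (abs_add_le _ _).trans (by linarith [hF1b z hz, hF3b z hz])
    · intro z hz
      exact (abs_add_le _ _).trans (by linarith [h1b z hz, hF4b z hz])
    · intro z hz
      have hgz := gF_pi F χ m H v hz
      by_cases hb : z ∈ blk H v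
      · rw [if_pos hb] at hgz
        have e1 : F1 z = 0 := by
          simp only [hF1, tw, hgz, zero_mul, Complex.zero_re]
        have e4 : F4 z = 1 := by simp only [hF4, if_pos hb]
        have := abs_le.1 (hW z hz)
        simp only
        rw [e1, e4]
        simp only [hF3]
        linarith
      · rw [if_neg hb] at hgz
        have e1 : F1 z = (tw t (fun z => F z * χ z * xi z ^ m) z).re := by
          simp only [hF1, tw, hgz]
        have e4 : F4 z = 0 := by simp only [hF4, if_neg hb]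
        simp only
        rw [e1, e4]
        simp only [hF3]
        linarith
  rw [hsum13, hsum24] at hmono
  have hblk := hsa_QP_blk H v hH h1
  have hQ1 := (abs_le.1 (hone σ h1 h2)).2
  have hbound : QP F1 σ ≤ log (1 / (σ - 1)) + (C2 + 4) - QP F3 σ := by
    have : QP F4 σ ≤ 4 := hblk
    linarith
  have hσ0 : 0 < σ - 1 := by linarith
  calc C1 * exp (QP F1 σ) ≤ C1 * exp (log (1 / (σ - 1)) + (C2 + 4) - QP F3 σ) := by
        gcongr
    _ = C1 * exp (C2 + 4) / (σ - 1) * exp (-QP F3 σ) := by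
        rw [sub_eq_add_neg, Real.exp_add, Real.exp_add, Real.exp_log (by positivity)]
        ring

private lemma hsa_pow_sub (u : ℂ) (hu : ‖u‖ = 1) (n : ℕ) : ‖u ^ n - 1‖ ≤ n * ‖u - 1‖ := by
  induction n with
  | zero => simp
  | succ n ih =>
    have h : u ^ (n + 1) - 1 = u * (u ^ n - 1) + (u - 1) := by ring
    rw [h]
    refine (norm_add_le _ _).trans ?_
    rw [norm_mul, hu, one_mul]
    push_cast
    linarith

private lemma hsa_one_sub_re {u : ℂ} (hu : ‖u‖ = 1) : 1 - u.re = ‖u - 1‖ ^ 2 / 2 := by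
  have h1 : u.re ^ 2 + u.im ^ 2 = 1 := by
    have := Complex.sq_norm u
    rw [hu, Complex.normSq_apply] at this
    nlinarith
  rw [Complex.sq_norm, Complex.normSq_apply]
  simp only [Complex.sub_re, Complex.sub_im, Complex.one_re, Complex.one_im]
  nlinarith

private lemma hsa_pt {W : ℂ} (hW : ‖W‖ = 1) (K : ℕ) :
    1 - (W ^ (4 * K)).re ≤ 16 * (K : ℝ) ^ 2 * (1 - W.re) := by
  have h1 := hsa_pow_sub W hW (4 * K)
  have hWn : ‖W ^ (4 * K)‖ = 1 := by rw [norm_pow, hW, one_pow]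
  rw [hsa_one_sub_re hWn, hsa_one_sub_re hW]
  have h3 := pow_le_pow_left₀ (norm_nonneg _) h1 2
  push_cast at h3
  nlinarith

private lemma hsa_xi_GM (K : ℕ) (m : ℤ) :
    GM (fun z => xi z ^ (4 * (K : ℤ) * m)) := by
  refine ⟨⟨fun z w _ _ => xi_mul_zpow z w _, fun z hz => (norm_xi_zpow hz _).le⟩,
    fun u hu => ?_⟩
  obtain ⟨j, hj⟩ := hsa_unit_pow hu
  rw [hj, hsa_xi_pow, hsa_xi_gI]
  have h4 : (Complex.I ^ j) ^ (4 : ℤ) = 1 := by
    rw [show (4 : ℤ) = ((4 : ℕ) : ℤ) by norm_num, zpow_natCast, ← pow_mul, mul_comm, pow_mul,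
      Complex.I_pow_four, one_pow]
  rw [mul_assoc, zpow_mul, h4, one_zpow]

theorem twist_gF : ∃ C : ℝ, 0 < C ∧ ∀ (k : ℕ) (F : GaussianInt → ℂ), 1 ≤ k → GF k F →
    ∀ (r : ℕ) (χ : GaussianInt → ℂ), ChiMod r χ → ∀ K : ℕ, 1 ≤ K →
    (∀ z, z ≠ 0 → IsCoprime z (r : GaussianInt) → (F z * χ z) ^ K = 1) →
    ∀ m : ℤ, ∀ σ : ℝ, 1 < σ → σ ≤ 2 → ∀ t θ : ℝ, 0 < θ →
    ‖LSeries (aG (fun z => xi z ^ (4 * (K : ℤ) * m)))
      ((σ : ℂ) + ((4 * K * t : ℝ) : ℂ) * Complex.I)‖ ≤ θ / (σ - 1) →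
    log (1 / (C * θ)) / (16 * (K : ℝ) ^ 2) ≤
      QP (fun z => 1 - (tw t (fun z => F z * χ z * xi z ^ m) z).re) σ := by
  classical
  obtain ⟨C1, hC1, hLB⟩ := LB2
  obtain ⟨C2, hC2, hone⟩ := QP_one
  refine ⟨C1 * exp C2, by positivity, fun k F hk hF r χ hχ K hK hpow m σ h1 h2 t θ hθ hL => ?_⟩
  have hKr : (1 : ℝ) ≤ K := by exact_mod_cast hK
  have hg' := hsa_xi_GM K m
  have hs : 1 < ((σ : ℂ) + ((4 * K * t : ℝ) : ℂ) * Complex.I).re := by
    rw [Complex.add_re, Complex.ofReal_re, Complex.mul_I_re, Complex.ofReal_im, neg_zero,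
      add_zero]
    exact h1
  have hlb := hLB _ hg' _ hs
  have hgn : ∀ z, IsPi z → ‖(fun z => xi z ^ (4 * (K : ℤ) * m)) z‖ ≤ 1 :=
    fun z hz => hg'.norm_le z hz.ne_zero
  rw [re_bP hgn h1] at hlb
  set G : GaussianInt → ℝ := fun z =>
    (tw (4 * K * t) (fun z => xi z ^ (4 * (K : ℤ) * m)) z).re with hG
  set F3 : GaussianInt → ℝ := fun z => 1 - (tw t (fun z => F z * χ z * xi z ^ m) z).re with hF3
  have hσ0 : 0 < σ - 1 := by linarith
  have hGup : QP G σ ≤ log (C1 * (θ / (σ - 1))) := by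
    rw [Real.le_log_iff_exp_le (by positivity)]
    exact hlb.trans (mul_le_mul_of_nonneg_left hL hC1.le)
  have hpt : ∀ z, IsPi z → 1 + (-1) * G z ≤ (16 * (K : ℝ) ^ 2) * F3 z := by
    intro z hz
    have hz0 := hz.ne_zero
    by_cases hc : IsCoprime z (r : GaussianInt)
    · set W : ℂ := tw t (fun z => F z * χ z * xi z ^ m) z with hW
      have hWn : ‖W‖ = 1 := by
        rw [hW, hsa_norm_tw hz0, norm_mul, norm_xi_zpow hz0, mul_one, norm_mul, hF.norm hk hz0,
          one_mul, hχ.norm z hc]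
      have hn : ((nN z : ℕ) : ℂ) ≠ 0 := by
        exact_mod_cast (nN_pos hz0).ne'
      have hWK : W ^ (4 * K) = tw (4 * K * t) (fun z => xi z ^ (4 * (K : ℤ) * m)) z := by
        rw [hW]
        unfold tw
        rw [mul_pow, mul_pow]
        have e1 : (F z * χ z) ^ (4 * K) = 1 := by
          rw [mul_comm 4 K, pow_mul, hpow z hz0 hc, one_pow]
        have e2 : (xi z ^ m) ^ (4 * K) = xi z ^ (4 * (K : ℤ) * m) := by
          rw [← zpow_natCast, ← zpow_mul]
          congr 1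
          push_cast
          ring
        have e3 : (((nN z : ℕ) : ℂ) ^ (-(t : ℂ) * Complex.I)) ^ (4 * K) =
            ((nN z : ℕ) : ℂ) ^ (-((4 * K * t : ℝ) : ℂ) * Complex.I) := by
          rw [← Complex.cpow_nat_mul]
          congr 1
          push_cast
          ring
        rw [e1, e2, e3, one_mul]
      have := hsa_pt hWn K
      rw [hWK] at this
      simp only [hG, hF3]
      linarith
    · have e0 : χ z = 0 := hχ.zero z hc
      have e1 : F3 z = 1 := by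
        simp only [hF3, tw, e0, mul_zero, zero_mul, Complex.zero_re, sub_zero]
      rw [e1, mul_one]
      have h3 := hsa_re_le (w := tw (4 * K * t) (fun z => xi z ^ (4 * (K : ℤ) * m)) z)
        (by rw [hsa_norm_tw hz0]; exact hgn z hz)
      have h4 := (abs_le.1 h3).1
      simp only [hG]
      nlinarith
  have hGb : ∀ z, IsPi z → |(fun z => (-1) * G z) z| ≤ 1 := by
    intro z hz
    simp only
    rw [abs_mul, abs_neg, abs_one, one_mul]
    exact hsa_re_le (by rw [hsa_norm_tw hz.ne_zero]; exact hgn z hz)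
  have hW : ∀ z, IsPi z → |(tw t (fun z => F z * χ z * xi z ^ m) z).re| ≤ 1 := fun z hz =>
    hsa_re_le (by rw [hsa_norm_tw hz.ne_zero]; exact hsa_norm_le hk hF hχ m hz.ne_zero)
  have hmono : QP (fun z => (fun _ : GaussianInt => (1 : ℝ)) z + (fun z => (-1) * G z) z) σ ≤
      QP (fun z => (16 * (K : ℝ) ^ 2) * F3 z) σ := by
    apply QP_mono (B := 16 * (K : ℝ) ^ 2 * 2 + 2) _ _ _ h1
    · intro z hz
      refine (abs_add_le _ _).trans ?_
      have h3 : |(fun _ : GaussianInt => (1 : ℝ)) z| = 1 := by norm_num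
      have h4 := hGb z hz
      have h5 : (0 : ℝ) ≤ 16 * (K : ℝ) ^ 2 * 2 := by positivity
      linarith
    · intro z hz
      have h3 := abs_le.1 (hW z hz)
      have h4 : |F3 z| ≤ 2 := by
        rw [abs_le]
        constructor <;> simp only [hF3] <;> linarith
      rw [abs_mul, abs_of_nonneg (by positivity : (0 : ℝ) ≤ 16 * (K : ℝ) ^ 2)]
      have : (0 : ℝ) ≤ 16 * (K : ℝ) ^ 2 := by positivity
      nlinarith
    · intro z hz
      exact hpt z hz
  rw [QP_add (B := 1) (fun z _ => by norm_num) hGb h1, QP_const, QP_const] at hmono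
  have hQ1 := (abs_le.1 (hone σ h1 h2)).1
  rw [div_le_iff₀ (by positivity)]
  have hlog : log (1 / (C1 * exp C2 * θ)) = log (1 / (σ - 1)) - C2 - log (C1 * (θ / (σ - 1))) := by
    rw [one_div, Real.log_inv, one_div, Real.log_inv, Real.log_mul (by positivity) hθ.ne',
      Real.log_mul hC1.ne' (Real.exp_pos _).ne', Real.log_exp,
      Real.log_mul hC1.ne' (by positivity), Real.log_div hθ.ne' hσ0.ne']
    ring
  rw [hlog]
  linarith

end Pool.Agent.LogG
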