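import Pool.Agent.Lib.LogG.GZkey
import Pool.Agent.Lib.LogG.GCell
import Pool.Agent.Lib.LogCh.ZMain

/-!
# Factorisations of `n ^ 2 + 1` and functions of finite order: cancellation in windows of scales
-/

set_option autoImplicit false

namespace Pool.Agent.LogG

open Real
open Pool.Agent.NSqP
open Pool.Agent.LogCh
open Pool.Agent.MP484c84Par (ballG mem_ballG crossG dotG)

theorem sum_PPC (X : ℕ) (φ : ℕ → ℕ → ℂ) :
    ∑ p ∈ PP X, φ (dotG p.1 p.2).toNat (nN p.1) =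
      4 * ∑ n ∈ Finset.Icc 1 X, ∑ d ∈ (n ^ 2 + 1).divisors, φ n d := by
  apply Complex.ext
  · have h := sum_PP X (fun n d => (φ n d).re)
    have e : (4 * ∑ n ∈ Finset.Icc 1 X, ∑ d ∈ (n ^ 2 + 1).divisors, φ n d).re =
        4 * ∑ n ∈ Finset.Icc 1 X, ∑ d ∈ (n ^ 2 + 1).divisors, (φ n d).re := by
      have h4 : (4 : ℂ) = ((4 : ℝ) : ℂ) := by norm_num
      rw [h4, Complex.re_ofReal_mul, Complex.re_sum]
      simp only [Complex.re_sum]
    rw [e, ← h, Complex.re_sum]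
  · have h := sum_PP X (fun n d => (φ n d).im)
    have e : (4 * ∑ n ∈ Finset.Icc 1 X, ∑ d ∈ (n ^ 2 + 1).divisors, φ n d).im =
        4 * ∑ n ∈ Finset.Icc 1 X, ∑ d ∈ (n ^ 2 + 1).divisors, (φ n d).im := by
      have h4 : (4 : ℂ) = ((4 : ℝ) : ℂ) := by norm_num
      rw [h4, Complex.im_ofReal_mul, Complex.im_sum]
      simp only [Complex.im_sum]
    rw [e, ← h, Complex.im_sum]

/-- the sum over the factorisations as a sum over pairs of determinant one -/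
theorem sum_fact (f g : ℕ → ℂ) (α β : ℝ) (x : ℕ) :
    ∑ n ∈ Finset.Icc 1 x, ∑ d ∈ (n ^ 2 + 1).divisors.filter
      (fun d : ℕ => α * n < d ∧ (d : ℝ) ≤ β * n), f d * g ((n ^ 2 + 1) / d) =
      (∑ p ∈ SEC α β x, wC (FC f) (FC g) p) / 4 := by
  classical
  have h1 := sum_PPC x (fun n d : ℕ => if α * n < ((d : ℕ) : ℝ) ∧ ((d : ℕ) : ℝ) ≤ β * n then
    f d * g ((n ^ 2 + 1) / d) else 0)
  have h2 : ∀ n ∈ Finset.Icc 1 x, ∑ d ∈ (n ^ 2 + 1).divisors,
      (if α * n < ((d : ℕ) : ℝ) ∧ ((d : ℕ) : ℝ) ≤ β * n then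
        f d * g ((n ^ 2 + 1) / d) else 0) =
      ∑ d ∈ (n ^ 2 + 1).divisors.filter
      (fun d : ℕ => α * n < d ∧ (d : ℝ) ≤ β * n), f d * g ((n ^ 2 + 1) / d) := by
    intro n _
    rw [← Finset.sum_filter]
  rw [Finset.sum_congr rfl h2] at h1
  have h3 : ∑ p ∈ PP x, (if α * ((dotG p.1 p.2).toNat : ℕ) < (nN p.1 : ℝ) ∧
      ((nN p.1 : ℕ) : ℝ) ≤ β * ((dotG p.1 p.2).toNat : ℕ) then
        f (nN p.1) * g (((dotG p.1 p.2).toNat ^ 2 + 1) / nN p.1) else 0) =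
        ∑ p ∈ SEC α β x, wC (FC f) (FC g) p := by
    have hfil : ∑ p ∈ SEC α β x, wC (FC f) (FC g) p =
        ∑ p ∈ PP x, if p ∈ SEC α β x then wC (FC f) (FC g) p else 0 := by
      rw [← Finset.sum_filter]
      congr 1
      ext p
      rw [Finset.mem_filter]
      exact ⟨fun h => ⟨(mem_SEC.1 h).1, h⟩, fun h => h.2⟩
    rw [hfil]
    refine Finset.sum_congr rfl fun p hp => ?_
    rw [cast_toNat_dot hp]
    have hiff : (α * (dotG p.1 p.2 : ℝ) < (nN p.1 : ℝ) ∧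
        ((nN p.1 : ℕ) : ℝ) ≤ β * (dotG p.1 p.2 : ℝ)) ↔ p ∈ SEC α β x := by
      rw [mem_SEC]
      exact ⟨fun h => ⟨hp, h⟩, fun h => h.2⟩
    by_cases h : p ∈ SEC α β x
    · rw [if_pos h, if_pos (hiff.2 h)]
      have h4 : (dotG p.1 p.2).toNat ^ 2 + 1 = nN p.1 * nN p.2 := by
        have h5 := dot_cross_nN p.1 p.2
        rw [(mem_PP.1 hp).1] at h5
        have h6 := (mem_PP.1 hp).2.1
        have h7 : (((dotG p.1 p.2).toNat : ℕ) : ℤ) = dotG p.1 p.2 :=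
          Int.toNat_of_nonneg (by omega)
        have h8 : (((dotG p.1 p.2).toNat ^ 2 + 1 : ℕ) : ℤ) = ((nN p.1 * nN p.2 : ℕ) : ℤ) := by
          push_cast
          rw [h7]
          linarith
        exact_mod_cast h8
      have h1' : nN p.1 ≠ 0 := by
        intro h0
        rw [h0, zero_mul] at h4
        omega
      have h2' : nN p.2 ≠ 0 := by
        intro h0
        rw [h0, mul_zero] at h4
        omega
      rw [h4, Nat.mul_div_cancel_left _ (Nat.pos_of_ne_zero h1')]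
      unfold wC FC
      rw [if_neg h1', if_neg h2']
    · rw [if_neg h, if_neg (fun h' => h (hiff.1 h'))]
  rw [h3] at h1
  rw [h1]
  ring

lemma harm_Ioc (X R : ℕ) (hX : 1 ≤ X) (hR : 1 ≤ R) :
    ∑ x ∈ Finset.Ioc X (R * X), 1 / (x : ℝ) ≤ log R := by
  have key : ∀ Y : ℕ, X ≤ Y → ∑ x ∈ Finset.Ioc X Y, 1 / (x : ℝ) ≤ log ((Y : ℝ) / X) := by
    intro Y hY
    induction Y, hY using Nat.le_induction with
    | base =>
      rw [Finset.Ioc_self, Finset.sum_empty, div_self (by positivity), log_one]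
    | succ Y hY ih =>
      have hY0 : (0 : ℝ) < Y := by exact_mod_cast (by omega : 0 < Y)
      have hX0 : (0 : ℝ) < X := by exact_mod_cast hX
      rw [Finset.sum_Ioc_succ_top (by omega)]
      have h1 : log (((Y + 1 : ℕ) : ℝ) / X) = log ((Y : ℝ) / X) + log (((Y : ℝ) + 1) / Y) := by
        rw [← log_mul (by positivity) (by positivity)]
        congr 1
        push_cast
        field_simp
      have h2 : 1 / ((Y + 1 : ℕ) : ℝ) ≤ log (((Y : ℝ) + 1) / Y) := by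
        have h3 := Real.one_sub_inv_le_log_of_pos (show (0 : ℝ) < ((Y : ℝ) + 1) / Y by positivity)
        have h4 : 1 - (((Y : ℝ) + 1) / Y)⁻¹ = 1 / ((Y + 1 : ℕ) : ℝ) := by
          push_cast
          field_simp
          ring
        rw [← h4]
        exact h3
      rw [h1]
      linarith
  have h := key (R * X) (Nat.le_mul_of_pos_left X hR)
  have hX0 : (0 : ℝ) < X := by exact_mod_cast hX
  have e : (((R * X : ℕ) : ℝ)) / X = R := by
    push_cast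
    field_simp
  rwa [e] at h

theorem windows {k : ℕ} (hk : 1 ≤ k) {f g : ℕ → ℂ} (hf : MF k f) (hg : MF k g)
    (hN : NPD f ∨ NPD g) (α β : ℝ) (hα : 0 < α) (hαβ : α < β) (ε : ℝ) (hε : 0 < ε) :
    ∃ R0 : ℕ, ∀ R : ℕ, R0 ≤ R → ∃ X0 : ℕ, ∀ X : ℕ, X0 ≤ X →
      ∑ x ∈ Finset.Ioc X (R * X), 1 / (x : ℝ) ^ 2 *
        ‖∑ n ∈ Finset.Icc 1 x, ∑ d ∈ (n ^ 2 + 1).divisors.filter
          (fun d : ℕ => α * n < d ∧ (d : ℝ) ≤ β * n), f d * g ((n ^ 2 + 1) / d)‖ ≤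
        ε * log R := by
  classical
  obtain ⟨C, M, hC, hM, x0, hx0⟩ := sector_cellsC EQ2G α β hα hαβ ε hε
  have hF := FC_GF hf
  have hG := FC_GF hg
  have hM0 : (0 : ℝ) < M := by exact_mod_cast hM
  set G : Finset (ℕ × ℕ) := Finset.Icc 2 M ×ˢ Finset.Icc 2 M with hGdef
  have key : ∀ ij : ℕ × ℕ, ij ∈ G → ∃ R0 : ℕ, ∀ R : ℕ, R0 ≤ R → ∃ X0 : ℕ, ∀ X : ℕ, X0 ≤ X →
      ∑ x ∈ Finset.Ioc X (R * X), ‖cellC (FC f) (FC g) M ((C * x : ℕ) : ℝ) ij‖ / (x : ℝ) ^ 2 ≤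
        ε / (G.card + 1) * log R := by
    intro ij hij
    rw [hGdef, Finset.mem_product, Finset.mem_Icc, Finset.mem_Icc] at hij
    obtain ⟨⟨k1, k2⟩, k3, k4⟩ := hij
    have k1' : (2 : ℝ) ≤ ij.1 := by exact_mod_cast k1
    have k3' : (2 : ℝ) ≤ ij.2 := by exact_mod_cast k3
    have k2' : (ij.1 : ℝ) ≤ M := by exact_mod_cast k2
    have k4' : (ij.2 : ℝ) ≤ M := by exact_mod_cast k4
    obtain ⟨R0, hR0⟩ := cell_window hk hf hg hN (((ij.1 : ℝ) - 1) / M)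
      ((ij.1 : ℝ) / M) (((ij.2 : ℝ) - 1) / M) ((ij.2 : ℝ) / M) (div_pos (by linarith) hM0)
      (div_lt_div_of_pos_right (by linarith) hM0)
      ((div_le_one hM0).2 k2') (div_pos (by linarith) hM0)
      (div_lt_div_of_pos_right (by linarith) hM0) ((div_le_one hM0).2 k4') C hC
      (ε / (G.card + 1)) (by positivity)
    refine ⟨R0, fun R hR => ?_⟩
    obtain ⟨X0, hX0⟩ := hR0 R hR
    refine ⟨X0, fun X hX => ?_⟩
    refine le_trans (le_of_eq ?_) (hX0 X hX)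
    refine Finset.sum_congr rfl fun x _ => ?_
    unfold cellC
    push_cast
    rfl
  choose! R1 hR1 using key
  refine ⟨max (G.sup R1) 1, fun R hR => ?_⟩
  have hR1' : 1 ≤ R := (le_max_right _ _).trans hR
  have hRr : (1 : ℝ) ≤ R := by exact_mod_cast hR1'
  have hlog : 0 ≤ log R := log_nonneg hRr
  have key2 : ∀ ij : ℕ × ℕ, ij ∈ G → ∃ X0 : ℕ, ∀ X : ℕ, X0 ≤ X →
      ∑ x ∈ Finset.Ioc X (R * X), ‖cellC (FC f) (FC g) M ((C * x : ℕ) : ℝ) ij‖ / (x : ℝ) ^ 2 ≤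
        ε / (G.card + 1) * log R := fun ij hij =>
    hR1 ij hij R ((Finset.le_sup hij).trans ((le_max_left _ _).trans hR))
  choose! X1 hX1 using key2
  refine ⟨max (G.sup X1) (max x0 1), fun X hX => ?_⟩
  have hXG : G.sup X1 ≤ X := (le_max_left _ _).trans hX
  have hXx0 : x0 ≤ X := ((le_max_left _ _).trans (le_max_right _ _)).trans hX
  have hXone : 1 ≤ X := ((le_max_right _ _).trans (le_max_right _ _)).trans hX
  have hpt : ∀ x ∈ Finset.Ioc X (R * X), 1 / (x : ℝ) ^ 2 *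
        ‖∑ n ∈ Finset.Icc 1 x, ∑ d ∈ (n ^ 2 + 1).divisors.filter
          (fun d : ℕ => α * n < d ∧ (d : ℝ) ≤ β * n), f d * g ((n ^ 2 + 1) / d)‖ ≤
      (∑ ij ∈ G, ‖cellC (FC f) (FC g) M ((C * x : ℕ) : ℝ) ij‖ / (x : ℝ) ^ 2 +
        ε * (1 / (x : ℝ))) / 4 := by
    intro x hx
    rw [Finset.mem_Ioc] at hx
    have hx0' : (0 : ℝ) < x := by exact_mod_cast (by omega : 0 < x)
    rw [sum_fact, norm_div]
    have h1 := hx0 (FC f) (FC g) (hF.le hk) (hG.le hk) x (by omega)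
    have h4 : ‖(4 : ℂ)‖ = 4 := by norm_num
    rw [h4, mul_div_assoc']
    apply div_le_div_of_nonneg_right _ (by norm_num : (0 : ℝ) ≤ 4)
    calc 1 / (x : ℝ) ^ 2 * ‖∑ p ∈ SEC α β x, wC (FC f) (FC g) p‖ ≤
          1 / (x : ℝ) ^ 2 * (∑ ij ∈ G, ‖cellC (FC f) (FC g) M ((C * x : ℕ) : ℝ) ij‖ + ε * x) :=
          mul_le_mul_of_nonneg_left h1 (by positivity)
      _ = ∑ ij ∈ G, ‖cellC (FC f) (FC g) M ((C * x : ℕ) : ℝ) ij‖ / (x : ℝ) ^ 2 +
          ε * (1 / (x : ℝ)) := by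
          rw [mul_add, Finset.mul_sum]
          congr 1
          · refine Finset.sum_congr rfl fun ij _ => ?_
            ring
          · field_simp
  refine (Finset.sum_le_sum hpt).trans ?_
  rw [← Finset.sum_div, Finset.sum_add_distrib, Finset.sum_comm, ← Finset.mul_sum]
  have h1 : ∑ ij ∈ G, ∑ x ∈ Finset.Ioc X (R * X),
      ‖cellC (FC f) (FC g) M ((C * x : ℕ) : ℝ) ij‖ / (x : ℝ) ^ 2 ≤ ε * log R := by
    refine (Finset.sum_le_sum fun ij hij => hX1 ij hij X ((Finset.le_sup hij).trans hXG)).trans ?_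
    rw [Finset.sum_const, nsmul_eq_mul]
    have h2 : (G.card : ℝ) * (ε / (G.card + 1) * log R) =
        (G.card / (G.card + 1)) * (ε * log R) := by ring
    rw [h2]
    have h3 : (G.card : ℝ) / (G.card + 1) ≤ 1 := by
      rw [div_le_one (by positivity)]
      linarith
    have h4 : 0 ≤ ε * log R := by positivity
    nlinarith
  have h2 := mul_le_mul_of_nonneg_left (harm_Ioc X R hXone hR1') hε.le
  have h3 : 0 ≤ ε * log R := by positivity
  linarith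

end Pool.Agent.LogG
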