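import Pool.Agent.Lib.LogG.GMain
import Pool.Agent.Lib.LogCh.HDi

/-!
# The functions `e(i Ω(n) / k)` are completely multiplicative and not pretentious
-/

set_option autoImplicit false

namespace Pool.Agent.LogG

open Real
open Pool.Agent.NSqP
open Pool.Agent.LogCh

/-- a function which is constant, different from one, at the primes `1` modulo `4` -/
theorem npd_of_const {f : ℕ → ℂ} {w : ℂ} (hw : w ≠ 1)
    (h : ∀ p : ℕ, p.Prime → p % 4 = 1 → f p = w) : NPD f := by
  intro r hr ψ
  intro hs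
  obtain ⟨B, hB⟩ : ∃ B : ℝ, B = ∑' p : ℕ, (if p.Prime ∧ p % 4 = 1 ∧ f p ≠ ψ (p : ZMod r) then
    1 / (p : ℝ) else 0) := ⟨_, rfl⟩
  obtain ⟨δ, hδ, hM⟩ := HG.primes_ap (4 * r) (by omega) (B + 1)
  obtain ⟨h1, h2⟩ := hM (1 + δ / 2) (by linarith) (by linarith)
  have h3 : ∑' n : ℕ, (if n.Prime ∧ n % (4 * r) = 1 % (4 * r) then
      1 / (n : ℝ) ^ (1 + δ / 2) else 0) ≤ B := by
    rw [hB]
    refine h1.tsum_le_tsum (fun n => ?_) hs
    by_cases hn : n.Prime ∧ n % (4 * r) = 1 % (4 * r)
    · rw [if_pos hn]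
      obtain ⟨hp, hmod⟩ := hn
      have hmod' : n ≡ 1 [MOD 4 * r] := hmod
      have e1 : n % 4 = 1 := by
        have := hmod'.of_mul_right r
        have h5 : n % 4 = 1 % 4 := this
        omega
      have e2 : (n : ZMod r) = 1 := by
        have := hmod'.of_mul_left 4
        have h5 := (ZMod.natCast_eq_natCast_iff n 1 r).2 this
        rw [h5, Nat.cast_one]
      have e3 : f n ≠ ψ (n : ZMod r) := by
        rw [e2, map_one, h n hp e1]
        exact hw
      rw [if_pos ⟨hp, e1, e3⟩]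
      have hn1 : (1 : ℝ) ≤ n := by exact_mod_cast hp.one_lt.le
      have e4 : (n : ℝ) ≤ (n : ℝ) ^ (1 + δ / 2) := by
        calc (n : ℝ) = (n : ℝ) ^ (1 : ℝ) := (rpow_one _).symm
          _ ≤ _ := rpow_le_rpow_of_exponent_le hn1 (by linarith)
      exact one_div_le_one_div_of_le (by linarith) e4
    · rw [if_neg hn]
      split_ifs
      · positivity
      · exact le_rfl
  linarith

/-- `e(i Ω(n) / k)` -/
noncomputable def om (k : ℕ) [NeZero k] (i : ZMod k) (n : ℕ) : ℂ :=
  ZMod.stdAddChar (i * (ArithmeticFunction.cardFactors n : ZMod k))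

lemma om_zero (k : ℕ) [NeZero k] (n : ℕ) : om k 0 n = 1 := by
  unfold om
  rw [zero_mul, AddChar.map_zero_eq_one]

lemma om_MF (k : ℕ) [NeZero k] (i : ZMod k) : MF k (om k i) := by
  constructor
  · intro m n hm hn
    unfold om
    rw [ArithmeticFunction.cardFactors_mul hm hn, Nat.cast_add, mul_add,
      AddChar.map_add_eq_mul]
  · intro n _
    unfold om
    rw [← AddChar.map_nsmul_eq_pow, nsmul_eq_mul, ZMod.natCast_self, zero_mul,
      AddChar.map_zero_eq_one]

lemma om_NPD (k : ℕ) [NeZero k] (i : ZMod k) (hi : i ≠ 0) : NPD (om k i) := by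
  apply npd_of_const (w := ZMod.stdAddChar i)
  · intro h
    apply hi
    apply ZMod.injective_stdAddChar
    rw [h, AddChar.map_zero_eq_one]
  · intro p hp _
    unfold om
    rw [ArithmeticFunction.cardFactors_apply_prime hp, Nat.cast_one, mul_one]

lemma om_orth (k : ℕ) [NeZero k] (u a : ZMod k) :
    (if u = a then (1 : ℂ) else 0) = 1 / k * ∑ i : ZMod k, ZMod.stdAddChar (-(i * a)) *
      ZMod.stdAddChar (i * u) := by
  have hk : (k : ℂ) ≠ 0 := by exact_mod_cast NeZero.ne k
  have h1 := AddChar.sum_mulShift (u - a) (ZMod.isPrimitive_stdAddChar k)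
  have h2 : ∑ i : ZMod k, (ZMod.stdAddChar (-(i * a)) : ℂ) * ZMod.stdAddChar (i * u) =
      ∑ i : ZMod k, ZMod.stdAddChar (i * (u - a)) := by
    refine Finset.sum_congr rfl fun i _ => ?_
    rw [← AddChar.map_add_eq_mul]
    congr 1
    ring
  rw [h2, h1, ZMod.card]
  by_cases h : u = a
  · rw [if_pos h, if_pos (sub_eq_zero.2 h)]
    field_simp
  · rw [if_neg h, if_neg (fun h' => h (sub_eq_zero.1 h'))]
    simp

end Pool.Agent.LogG
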