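import Pool.Agent.Lib.LogG.GPpsi
import Pool.Agent.Lib.LogCh.AWin

/-!
# The windows compute the correlations, at one order `N`
-/

set_option autoImplicit false

namespace Pool.Agent.LogG

open Real
open Pool.Agent.NSqP
open Pool.Agent.LogCh
open Pool.Agent.MP484c84Par (ballG mem_ballG crossG dotG)

open Classical in
theorem psiR_avgN (a b : ℝ) (ha : 0 < a) (hb : 0 < b) {q : ℕ} (hq : q.Prime)
    (h4 : q % 4 = 1) (L0 : ℕ) (hL : 2 * (q : ℝ) / √(a * b) + 1 ≤ L0) : ∃ N0 : ℕ, ∀ N : ℕ,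
    N0 ≤ N → ∀ g h : GaussianInt → ℝ, (∀ z, g z ≠ 0 → a * N < nN z) →
      (∀ z, h z ≠ 0 → b * N < nN z) →
      ∑ z ∈ VV N, psiR L0 q (xr g h N z) (ym q z (sg N z)) =
      ∑ p ∈ dpairs (q : ℤ) N, g p.1 * h p.2 *
        ((q : ℝ) * (if pq q ∣ p.1 then 1 else 0) - (q : ℝ) / (q + 1)) := by
  obtain ⟨N0, hN0⟩ := win_pairs a b ha hb q L0 hq.one_lt.le hL
  have hab : 0 < a * b := mul_pos ha hb
  have hL0 : (0 : ℝ) < L0 := by
    have h1 : 0 ≤ 2 * (q : ℝ) / √(a * b) := by positivity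
    linarith
  refine ⟨N0, fun N hN g h hga hhb => ?_⟩
  set H : GaussianInt → ℝ := fun w => ∑ k ∈ Finset.Icc 1 L0,
      if crossG w (sgi N k w) = (q : ℤ) then
        g w * h (sgi N k w) *
          ((q : ℝ) * (if pq q ∣ w then 1 else 0) - (q : ℝ) / (q + 1))
      else 0 with hH
  have h1 : ∑ z ∈ VV N, psiR L0 q (xr g h N z) (ym q z (sg N z)) =
      ∑ z ∈ VV N, (∑ j ∈ Finset.range L0, H (sgi N j z)) / L0 := by
    refine Finset.sum_congr rfl fun z hz => ?_
    exact psiR_orbit hq h4 L0 g h hz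
  have h2 : ∑ z ∈ VV N, psiR L0 q (xr g h N z) (ym q z (sg N z)) = ∑ z ∈ VV N, H z := by
    rw [h1, ← Finset.sum_div, Finset.sum_comm]
    rw [Finset.sum_congr rfl fun j _ => sum_sgi N j H, Finset.sum_const, Finset.card_range,
      nsmul_eq_mul]
    field_simp
  set F : GaussianInt × GaussianInt → ℝ := fun p => g p.1 * h p.2 *
    ((q : ℝ) * (if pq q ∣ p.1 then 1 else 0) - (q : ℝ) / (q + 1)) with hF
  have h3 := hN0 N hN F (by
    intro p hp
    rw [hF]
    change g p.1 * h p.2 * _ = 0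
    rw [not_and_or] at hp
    rcases hp with hp | hp
    · have : g p.1 = 0 := by
        by_contra hne
        exact hp (hga _ hne)
      rw [this, zero_mul, zero_mul]
    · have : h p.2 = 0 := by
        by_contra hne
        exact hp (hhb _ hne)
      rw [this, mul_zero, zero_mul])
  rw [h2]
  exact h3.symm

end Pool.Agent.LogG
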