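import Pool.Agent.Lib.LogG.GDefs

/-!
# BLOCK for complex functions
-/

set_option autoImplicit false

namespace Pool.Agent.LogG

open Real
open Pool.Agent.NSqP
open Pool.Agent.LogCh
open Pool.Agent.MP484c84Par (ballG mem_ballG crossG dotG)

lemma fcC_eq (F : GaussianInt → ℂ) (a a' : ℝ) (N : ℕ) (z : GaussianInt) :
    fcC F a a' N z = ((fg (fun z => (F z).re) a a' N z : ℝ) : ℂ) +
      ((fg (fun z => (F z).im) a a' N z : ℝ) : ℂ) * Complex.I := by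
  unfold fcC fg
  split_ifs
  · exact (Complex.re_add_im _).symm
  · simp

lemma pairC_eq (F1 F2 : GaussianInt → ℂ) (m : ℤ) (a a' b b' : ℝ) (N : ℕ) :
    pairC F1 F2 m a a' b b' N =
      ((pairG (fun z => (F1 z).re) (fun z => (F2 z).re) m a a' b b' N -
        pairG (fun z => (F1 z).im) (fun z => (F2 z).im) m a a' b b' N : ℝ) : ℂ) +
      ((pairG (fun z => (F1 z).re) (fun z => (F2 z).im) m a a' b b' N +
        pairG (fun z => (F1 z).im) (fun z => (F2 z).re) m a a' b b' N : ℝ) : ℂ) *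
        Complex.I := by
  unfold pairC pairG
  rw [← Finset.sum_sub_distrib, ← Finset.sum_add_distrib]
  push_cast
  rw [Finset.sum_mul, ← Finset.sum_add_distrib]
  refine Finset.sum_congr rfl fun p _ => ?_
  rw [fcC_eq, fcC_eq]
  have hI : Complex.I * Complex.I = -1 := Complex.I_mul_I
  linear_combination (((fg (fun z => (F1 z).im) a a' N p.1 : ℝ) : ℂ) *
    ((fg (fun z => (F2 z).im) b b' N p.2 : ℝ) : ℂ)) * hI

theorem BLOCKC {F1 : GaussianInt → ℂ} (h1 : BLOCKG (fun z => (F1 z).re))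
    (h2 : BLOCKG (fun z => (F1 z).im)) (C1 : ℕ) (a a' b b' : ℝ) (hC1 : 1 ≤ C1) (ha : 0 < a)
    (haa : a < a') (ha1 : a' ≤ 1) (hb : 0 < b) (hbb : b < b') (hb1 : b' ≤ 1) :
    ∃ C : ℝ, 0 < C ∧ ∀ κ h δ : ℝ, 0 < κ → κ < 1 / 4 → 0 < h →
    h * (1 + 2 * C1 / κ) ≤ 1 → 0 < δ → ∃ P0 : ℕ, ∀ P : ℕ, P0 ≤ P → ∀ A ⊆ QQ C1 P, ∀ X : ℝ,
      P ≤ X → X ≤ C1 * P →
      (∀ q ∈ A, X < (q : ℕ) ∧ ((q : ℕ) : ℝ) ≤ (1 + h) * X) → ∃ N0 : ℕ, ∀ N : ℕ, N0 ≤ N →
        ∀ F2 : GaussianInt → ℂ, (∀ z, ‖F2 z‖ ≤ 1) →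
        ‖∑ q ∈ A, pairC F1 F2 q a a' b b' N‖ ≤
          4 * √(N ^ 2 * (C * (κ + h / κ) * A.card ^ 2 + δ * (P / log P) ^ 2)) := by
  obtain ⟨Ca, hCa, hA⟩ := h1 C1 a a' b b' hC1 ha haa ha1 hb hbb hb1
  obtain ⟨Cb, hCb, hB⟩ := h2 C1 a a' b b' hC1 ha haa ha1 hb hbb hb1
  refine ⟨max Ca Cb, lt_max_of_lt_left hCa, fun κ h δ hκ hκ4 hh hhκ hδ => ?_⟩
  obtain ⟨P1, hP1⟩ := hA κ h δ hκ hκ4 hh hhκ hδ
  obtain ⟨P2, hP2⟩ := hB κ h δ hκ hκ4 hh hhκ hδ
  refine ⟨max P1 P2, fun P hP A hAQ X hX hX1 hAX => ?_⟩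
  obtain ⟨N1, hN1⟩ := hP1 P ((le_max_left _ _).trans hP) A hAQ X hX hX1 hAX
  obtain ⟨N2, hN2⟩ := hP2 P ((le_max_right _ _).trans hP) A hAQ X hX hX1 hAX
  refine ⟨max N1 N2, fun N hN F2 hF2 => ?_⟩
  have hre : ∀ z, |(F2 z).re| ≤ 1 := fun z => (Complex.abs_re_le_norm _).trans (hF2 z)
  have him : ∀ z, |(F2 z).im| ≤ 1 := fun z => (Complex.abs_im_le_norm _).trans (hF2 z)
  have e1 := hN1 N ((le_max_left _ _).trans hN) (fun z => (F2 z).re) hre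
  have e2 := hN1 N ((le_max_left _ _).trans hN) (fun z => (F2 z).im) him
  have e3 := hN2 N ((le_max_right _ _).trans hN) (fun z => (F2 z).re) hre
  have e4 := hN2 N ((le_max_right _ _).trans hN) (fun z => (F2 z).im) him
  set R : ℝ := N ^ 2 * (max Ca Cb * (κ + h / κ) * A.card ^ 2 + δ * (P / log P) ^ 2) with hR
  have hk0 : 0 ≤ (κ + h / κ) * (A.card : ℝ) ^ 2 := by positivity
  have b1 : (N : ℝ) ^ 2 * (Ca * (κ + h / κ) * A.card ^ 2 + δ * (P / log P) ^ 2) ≤ R := by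
    rw [hR]
    apply mul_le_mul_of_nonneg_left _ (by positivity)
    have := mul_le_mul_of_nonneg_right (le_max_left Ca Cb) hk0
    nlinarith
  have b2 : (N : ℝ) ^ 2 * (Cb * (κ + h / κ) * A.card ^ 2 + δ * (P / log P) ^ 2) ≤ R := by
    rw [hR]
    apply mul_le_mul_of_nonneg_left _ (by positivity)
    have := mul_le_mul_of_nonneg_right (le_max_right Ca Cb) hk0
    nlinarith
  have c1 := Real.abs_le_sqrt (e1.trans b1)
  have c2 := Real.abs_le_sqrt (e2.trans b1)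
  have c3 := Real.abs_le_sqrt (e3.trans b2)
  have c4 := Real.abs_le_sqrt (e4.trans b2)
  set S11 := ∑ q ∈ A, pairG (fun z => (F1 z).re) (fun z => (F2 z).re) q a a' b b' N with hS11
  set S12 := ∑ q ∈ A, pairG (fun z => (F1 z).re) (fun z => (F2 z).im) q a a' b b' N with hS12
  set S21 := ∑ q ∈ A, pairG (fun z => (F1 z).im) (fun z => (F2 z).re) q a a' b b' N with hS21
  set S22 := ∑ q ∈ A, pairG (fun z => (F1 z).im) (fun z => (F2 z).im) q a a' b b' N with hS22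
  have hs : ∑ q ∈ A, pairC F1 F2 q a a' b b' N = ((S11 - S22 : ℝ) : ℂ) +
      ((S12 + S21 : ℝ) : ℂ) * Complex.I := by
    rw [Finset.sum_congr rfl fun (q : ℕ) _ => pairC_eq F1 F2 q a a' b b' N,
      Finset.sum_add_distrib, ← Finset.sum_mul, hS11, hS12, hS21, hS22,
      ← Finset.sum_sub_distrib, ← Finset.sum_add_distrib]
    push_cast
    ring
  rw [hs]
  refine (norm_add_le _ _).trans ?_
  rw [norm_mul, Complex.norm_I, mul_one, Complex.norm_real, Complex.norm_real,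
    Real.norm_eq_abs, Real.norm_eq_abs]
  have d1 := abs_sub S11 S22
  have d2 := abs_add_le S12 S21
  linarith

end Pool.Agent.LogG
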