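import Pool.Agent.Lib.LogG.GFdefs
import Pool.Agent.Lib.LogCh.PProc
import Pool.Agent.Lib.LogCh.BEnt

/-!
# GPent: the entropy of the observable `XCN` is bounded
-/

set_option autoImplicit false

namespace Pool.Agent.LogG

open Real
open Pool.Agent.NSqP
open Pool.Agent.LogCh
open Pool.Agent.MP484c84Par (ballG mem_ballG crossG dotG)

private theorem gpent_card_pos {N : ℕ} (hN : 1 ≤ N) : (0 : ℝ) < ((VV N).card : ℝ) := by
  obtain ⟨c, hc, h⟩ := card_VV_lower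
  have h1 : (1 : ℝ) ≤ N := by exact_mod_cast hN
  have h2 : 0 < c * N := by positivity
  exact lt_of_lt_of_le h2 (h N)

private theorem gpent_natAbs (n : ℤ) : ((n.natAbs : ℕ) : ℝ) = |((n : ℤ) : ℝ)| := by
  rw [Nat.cast_natAbs, Int.cast_abs]

private theorem gpent_enc (S : Finset ℂ) : ∃ e : ℂ → ℤ,
    (∀ u ∈ S, ∀ v ∈ S, e u = e v → u = v) ∧ ∀ u, (((e u).natAbs : ℕ) : ℝ) ≤ S.card := by
  classical
  refine ⟨fun u => if h : u ∈ S then (((S.equivFin ⟨u, h⟩ : Fin S.card) : ℕ) : ℤ) else 0, ?_, ?_⟩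
  · intro u hu v hv h
    simp only [dif_pos hu, dif_pos hv] at h
    have h1 : ((S.equivFin ⟨u, hu⟩ : Fin S.card) : ℕ) = ((S.equivFin ⟨v, hv⟩ : Fin S.card) : ℕ) := by
      exact_mod_cast h
    have h2 := S.equivFin.injective (Fin.ext h1)
    exact congrArg Subtype.val h2
  · intro u
    by_cases hu : u ∈ S
    · simp only [dif_pos hu, Int.natAbs_natCast]
      exact_mod_cast (S.equivFin ⟨u, hu⟩).2.le
    · simp only [dif_neg hu, Int.natAbs_zero, Nat.cast_zero]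
      positivity

private theorem gpent_mem {k : ℕ} (hk : 1 ≤ k) {F : GaussianInt → ℂ} (h : GF k F) (a a' : ℝ)
    (N : ℕ) (z : GaussianInt) :
    fcC F a a' N z ∈ insert (0 : ℂ) (Polynomial.nthRootsFinset k (1 : ℂ)) := by
  classical
  unfold fcC
  split_ifs
  · rcases eq_or_ne z 0 with rfl | hz
    · rw [h.zero]
      exact Finset.mem_insert_self _ _
    · refine Finset.mem_insert_of_mem ?_
      rw [Polynomial.mem_nthRootsFinset (by omega)]
      exact h.pow z hz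
  · exact Finset.mem_insert_self _ _

open Classical in
theorem ent_XCN {k : ℕ} (hk : 1 ≤ k) {F1 F2 : GaussianInt → ℂ} (h1 : GF k F1) (h2 : GF k F2) :
    ∃ h0 : ℝ, 0 < h0 ∧ ∀ N : ℕ, 1 ≤ N → ∀ a a' b b' : ℝ,
      ent (mun N) (XCN F1 F2 a a' b b' N) ≤ h0 := by
  obtain ⟨C, hC, hCa⟩ := sum_aq
  obtain ⟨c, hc, hcz⟩ := card_VV_lower
  have hlog2 : 0 < log 2 := Real.log_pos (by norm_num)
  set S : Finset ℂ := insert (0 : ℂ) (Polynomial.nthRootsFinset k (1 : ℂ)) with hS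
  obtain ⟨e, he1, he2⟩ := gpent_enc S
  have hScard : (0 : ℝ) ≤ S.card := Nat.cast_nonneg _
  refine ⟨(C / c + (2 * S.card + 6)) * log 2, by positivity, ?_⟩
  intro N hN a a' b b'
  set X' : Vn N → XX := fun z => (aq N z.1, e (fcC F1 a a' N z.1), e (fcC F2 b b' N z.1)) with hX'
  have hcongr : ent (mun N) (XCN F1 F2 a a' b b' N) = ent (mun N) X' := by
    refine ent_congr _ _ _ (fun z z' => ?_)
    have e1 : e (fcC F1 a a' N z.1) = e (fcC F1 a a' N z'.1) ↔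
        fcC F1 a a' N z.1 = fcC F1 a a' N z'.1 :=
      ⟨fun h => he1 _ (gpent_mem hk h1 a a' N _) _ (gpent_mem hk h1 a a' N _) h, fun h => by rw [h]⟩
    have e2 : e (fcC F2 b b' N z.1) = e (fcC F2 b b' N z'.1) ↔
        fcC F2 b b' N z.1 = fcC F2 b b' N z'.1 :=
      ⟨fun h => he1 _ (gpent_mem hk h2 b b' N _) _ (gpent_mem hk h2 b b' N _) h, fun h => by rw [h]⟩
    simp only [XCN, hX', Prod.mk.injEq, e1, e2]
  rw [hcongr]
  have g1 := ent_le_of_weight (mun N) (mun_nonneg N) (mun_sum hN) X' wt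
    (fun x => by unfold wt; positivity) wt_sum
  refine g1.trans ?_
  have g2 : ∀ z : Vn N, mun N z * (- log (wt (X' z))) ≤
      (mun N z * |((aq N z.1 : ℤ) : ℝ)| + mun N z * (2 * S.card + 6)) * log 2 := by
    intro z
    rw [wt_log]
    have h3 : (((X' z).1.natAbs + (X' z).2.1.natAbs +
        (X' z).2.2.natAbs + 6 : ℕ) : ℝ) ≤ |((aq N z.1 : ℤ) : ℝ)| + (2 * S.card + 6) := by
      push_cast
      have h4 : (((X' z).2.1.natAbs : ℕ) : ℝ) ≤ S.card := he2 _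
      have h5 : (((X' z).2.2.natAbs : ℕ) : ℝ) ≤ S.card := he2 _
      have h6 : (((X' z).1.natAbs : ℕ) : ℝ) = |((aq N z.1 : ℤ) : ℝ)| := gpent_natAbs _
      linarith
    have h7 : mun N z * ((((X' z).1.natAbs + (X' z).2.1.natAbs +
        (X' z).2.2.natAbs + 6 : ℕ) : ℝ) * log 2) ≤
        mun N z * ((|((aq N z.1 : ℤ) : ℝ)| + (2 * S.card + 6)) * log 2) :=
      mul_le_mul_of_nonneg_left (mul_le_mul_of_nonneg_right h3 hlog2.le) (mun_nonneg N z)
    refine h7.trans (le_of_eq ?_)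
    ring
  refine (Finset.sum_le_sum (fun z _ => g2 z)).trans ?_
  rw [← Finset.sum_mul, Finset.sum_add_distrib, ← Finset.sum_mul, mun_sum hN, one_mul]
  refine mul_le_mul_of_nonneg_right ?_ hlog2.le
  have h8 : ∑ z : Vn N, mun N z * |((aq N z.1 : ℤ) : ℝ)| =
      (∑ z ∈ VV N, |((aq N z : ℤ) : ℝ)|) / ((VV N).card : ℝ) :=
    sum_mun N (fun z => |((aq N z : ℤ) : ℝ)|)
  have h9 : (∑ z ∈ VV N, |((aq N z : ℤ) : ℝ)|) / ((VV N).card : ℝ) ≤ C / c := by
    rw [div_le_div_iff₀ (gpent_card_pos hN) hc]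
    calc (∑ z ∈ VV N, |((aq N z : ℤ) : ℝ)|) * c
        ≤ (C * N) * c := mul_le_mul_of_nonneg_right (hCa N) hc.le
      _ = C * (c * N) := by ring
      _ ≤ C * ((VV N).card : ℝ) := mul_le_mul_of_nonneg_left (hcz N) hC.le
  rw [h8]
  linarith

end Pool.Agent.LogG
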