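import Pool.Agent.Lib.LogG.GPpsi
import Pool.Agent.Lib.LogG.GPent
import Pool.Agent.Lib.LogCh.BEntBad
import Pool.Agent.Lib.LogCh.PUnif
import Pool.Agent.Lib.LogCh.PFin

/-!
# The entropy decrement for the process of order `N`
-/

set_option autoImplicit false

namespace Pool.Agent.LogG

open Real
open Pool.Agent.NSqP
open Pool.Agent.LogCh
open Pool.Agent.MP484c84Par (ballG mem_ballG crossG dotG)

lemma gmem_QQ {C P q : ℕ} (h : q ∈ QQ C P) : P < q ∧ q ≤ C * P ∧ q.Prime ∧ q % 4 = 1 := by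
  unfold QQ at h
  rw [Finset.mem_filter, Finset.mem_Ioc] at h
  exact ⟨h.1.1, h.1.2, h.2.1, h.2.2⟩

/-- the sum of the truncated test function over the points of order `N` -/
noncomputable def psiSumR (g h : GaussianInt → ℝ) (B : ℝ) (L0 q N : ℕ) : ℝ :=
  ∑ z ∈ VV N, psiRB B L0 q (xr g h N z) (ym q z (sg N z))

/-- extension of a finite window by zero, and passage to a real alphabet -/
noncomputable def exr (s1 s2 : ℂ → ℝ) {L : ℕ} (x : Fin L → XCx) : ℕ → XR :=
  fun i => if h : i < L then ((x ⟨i, h⟩).1, s1 (x ⟨i, h⟩).2.1, s2 (x ⟨i, h⟩).2.2) else (0, 0, 0)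

theorem DECN {k : ℕ} (hk : 1 ≤ k) {F1 F2 : GaussianInt → ℂ} (hF1 : GF k F1) (hF2 : GF k F2)
    (a a' b b' : ℝ) : ∃ h0 : ℝ, 0 < h0 ∧ ∀ (K0 : ℕ) (_ : 1 ≤ K0) (J : ℕ) (P m : ℕ → ℕ)
      (_ : 1 ≤ P 0) (_ : ∀ j, 1 ≤ m j) (_ : ∀ j, P (j + 1) = m j * P j)
      (I : ℕ → Finset ℕ) (_ : ∀ j, ∀ q ∈ I (P j), q.Prime) (η : ℝ) (_ : 0 < η) (_ : η ≤ 1 / 2)
      (B : ℝ) (_ : 1 ≤ B), (∀ j, 0 ≤ gainG I (2 * K0) η P j) → ∃ N0 : ℕ, ∀ N : ℕ, N0 ≤ N →
      ∃ Bad ⊆ Finset.range J, ∑ j ∈ Bad, gainG I (2 * K0) η P j ≤ h0 ∧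
        ∀ j ∈ Finset.range J, j ∉ Bad → ∀ s1 s2 : ℂ → ℝ,
          ∑ q ∈ I (P j), |psiSumR (fun z => s1 (fcC F1 a a' N z)) (fun z => s2 (fcC F2 b b' N z))
            B (K0 * P j) q N| ≤ 3 * B * √(η + η) * ((I (P j)).card : ℝ) * ((VV N).card : ℝ) := by
  obtain ⟨h0, hh0p, hh0⟩ := ent_XCN hk hF1 hF2
  refine ⟨h0, hh0p, fun K0 hK0 J P m hP0 hm hP I hI η hη hη1 B hB hg => ?_⟩
  have hU : ∀ j : ℕ, ∃ N0 : ℕ, ∀ N : ℕ, N0 ≤ N → ∀ y : (∀ q, YY q),
      (∑ z : Vn N, if ∀ q ∈ I (P j), YN N q z = y q then mun N z else 0) *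
        ∏ q ∈ I (P j), (Fintype.card (YY q) : ℝ) ≤ 1 + η :=
    fun j => by
      obtain ⟨N0, h⟩ := UNIFN (I (P j)) (hI j) η hη
      refine ⟨N0, fun N hN y => ?_⟩
      refine le_trans (le_of_eq ?_) (h N hN y)
      congr 1
  choose X0 hX0 using hU
  refine ⟨(∑ j ∈ Finset.range J, X0 j) + 1, fun N hN => ?_⟩
  have hN1 : 1 ≤ N := by omega
  have hVpos : (0 : ℝ) < ((VV N).card : ℝ) := by
    have h1 := mun_sum hN1
    rcases Nat.eq_zero_or_pos (VV N).card with h2 | h2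
    · exfalso
      rw [Finset.card_eq_zero] at h2
      have h3 : (∑ z : Vn N, mun N z) = 0 := by
        refine Finset.sum_eq_zero fun z _ => ?_
        have h4 : ∀ x, x ∉ VV N := fun x => by rw [h2]; exact Finset.notMem_empty _
        exact absurd z.2 (h4 z.1)
      rw [h3] at h1
      exact zero_ne_one h1
    · exact_mod_cast h2
  obtain ⟨T, hT1, hT2⟩ := exists_TN N
  obtain ⟨Bad, hBs, hBg, hBj⟩ := ENTB (mun N) (mun_nonneg N) (mun_sum hN1) T hT1
    (XCN F1 F2 a a' b b' N) h0 (by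
      refine le_trans (le_of_eq ?_) (hh0 N hN1 a a' b b')
      congr 1) YY (fun q z => YN N q z)
    (fun q x => Equiv.mulRight (stp q x.1))
    (fun q z => by
      have h1 := hT2 z 1
      rw [pow_one] at h1
      unfold YN
      rw [h1, sgi_one]
      exact YO_step q z.2 (XN a a' b b' N z) rfl)
    J (fun j => 2 * K0 * P j) m (by
      show 1 ≤ 2 * K0 * P 0
      have := Nat.mul_le_mul hK0 hP0
      nlinarith) hm
    (fun j => by simp only [hP j]; ring)
    (fun j => I (P j)) η η hη hη.le (by linarith)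
    (fun j hj y => by
      have h3 : X0 j ≤ ∑ j ∈ Finset.range J, X0 j :=
        Finset.single_le_sum (f := X0) (fun i _ => Nat.zero_le _) (Finset.mem_range.2 hj)
      refine le_trans (le_of_eq ?_) (hX0 j N (by omega) y)
      congr 1)
  refine ⟨Bad, hBs, ?_, ?_⟩
  · refine le_trans ?_ hBg
    refine Finset.sum_le_sum fun j _ => ?_
    unfold gainG
    have h1 : ∑ q ∈ I (P j), log (Fintype.card (YY q)) ≤ ∑ q ∈ I (P j), 4 * log q := by
      refine Finset.sum_le_sum fun q hq => ?_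
      have hq0 : q ≠ 0 := (hI j q hq).ne_zero
      have h2 : (Fintype.card (YY q) : ℝ) ≤ (q : ℝ) ^ 4 := by exact_mod_cast card_YY_le hq0
      have h3 : (0 : ℝ) < Fintype.card (YY q) := by exact_mod_cast Fintype.card_pos
      have h4 := Real.log_le_log h3 h2
      rwa [Real.log_pow] at h4
    have h5 : (∑ q ∈ I (P j), log (Fintype.card (YY q))) / ((2 * K0 * P (j + 1) : ℕ) : ℝ) ≤
        (∑ q ∈ I (P j), 4 * log q) / ((2 * K0 * P (j + 1) : ℕ) : ℝ) :=
      div_le_div_of_nonneg_right h1 (Nat.cast_nonneg _)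
    linarith
  · intro j hj hjB s1 s2
    set g : GaussianInt → ℝ := fun z => s1 (fcC F1 a a' N z) with hgdef
    set h : GaussianInt → ℝ := fun z => s2 (fcC F2 b b' N z) with hhdef
    have h1 := hBj j hj hjB B hB
      (fun q x y => (if 0 ≤ psiSumR g h B (K0 * P j) q N then (1 : ℝ) else -1) *
        psiRB B (K0 * P j) q (exr s1 s2 x) y)
      (fun q x y => by
        have := psiRB_bound B (by linarith) (K0 * P j) q (exr s1 s2 x) y
        rw [abs_mul]
        split_ifs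
        · rw [abs_one, one_mul]; exact this
        · rw [abs_neg, abs_one, one_mul]; exact this)
      (fun q x => by rw [← Finset.mul_sum, psiRB_mean, mul_zero])
    have h2 : ∀ q : ℕ, ∑ z : Vn N, mun N z *
        ((if 0 ≤ psiSumR g h B (K0 * P j) q N then (1 : ℝ) else -1) *
        psiRB B (K0 * P j) q (exr s1 s2 (fun i : Fin (2 * K0 * P j) =>
          XCN F1 F2 a a' b b' N ((T ^ (i : ℕ)) z))) (YN N q z)) =
        |psiSumR g h B (K0 * P j) q N| / ((VV N).card : ℝ) := by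
      intro q
      have h3 : ∀ z : Vn N, psiRB B (K0 * P j) q (exr s1 s2 (fun i : Fin (2 * K0 * P j) =>
          XCN F1 F2 a a' b b' N ((T ^ (i : ℕ)) z))) (YN N q z) =
          psiRB B (K0 * P j) q (xr g h N z.1) (ym q z.1 (sg N z.1)) := by
        intro z
        refine psiRB_congr B _ _ _ _ _ fun i hi => ?_
        have hi' : i < 2 * K0 * P j := by rw [mul_assoc]; exact hi
        unfold exr xr
        rw [dif_pos hi']
        simp only [XCN]
        rw [hT2 z i]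
      rw [Finset.sum_congr rfl fun z _ => by rw [h3 z, mul_left_comm]]
      rw [← Finset.mul_sum, sum_mun N (fun z => psiRB B (K0 * P j) q (xr g h N z)
        (ym q z (sg N z)))]
      change (if 0 ≤ psiSumR g h B (K0 * P j) q N then (1 : ℝ) else -1) *
        (psiSumR g h B (K0 * P j) q N / ((VV N).card : ℝ)) = _
      split_ifs with h4
      · rw [abs_of_nonneg h4, one_mul]
      · rw [abs_of_neg (not_le.1 h4)]; ring
    rw [Finset.sum_congr rfl fun q _ => h2 q, ← Finset.sum_div, abs_div,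
      abs_of_pos hVpos, div_le_iff₀ hVpos,
      abs_of_nonneg (Finset.sum_nonneg fun q _ => abs_nonneg _)] at h1
    exact h1

end Pool.Agent.LogG
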