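import Pool.Agent.Lib.LogG.GDefs
import Pool.Agent.Lib.LogCh.ADiv
import Pool.Agent.Lib.NSqP.LC

/-!
# GPlip: the correlations at determinant one vary slowly with the scale

PROOF. Bound: `‖PSr y‖ ≤ card (dpairs 1 ⌊y⌋₊) ≤ C y` (`card_dpairs`).
For `y ≤ y'`: a pair with `(nN p.1 : ℝ) ≤ a' * y ≤ y` and `nN p.2 ≤ b' * y ≤ y` which belongs to `dpairs 1 ⌊y'⌋₊`
belongs to `dpairs 1 ⌊y⌋₊` (`mem_dpairs`), so `PSr y = ∑_{p ∈ dpairs 1 ⌊y'⌋₊} [conditions at y] F1 F2` too.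
So `‖PSr y' - PSr y‖` is at most the number of `p ∈ dpairs 1 ⌊y'⌋₊` which satisfy exactly one of the two sets of
conditions; such a `p` has `nN p.1 ∈ (a y, a y'] ∪ (a' y, a' y']` or `nN p.2 ∈ (b y, b y'] ∪ (b' y, b' y']`.
Number of primitive `z` with `s y < nN z ≤ s y'` (`s ≥ min a b > 0`): `≤ π s (y'-y) + C (√(s y') + 1)`
(`card_ann`), `≤ 4 h y + C'(√y)`; each has at most `2/√δ + 1` partners (`δ = min a b`; see `pm_fiber` in PMult, copy
it; the second member: the same with `Prod.swap` and determinant `-1`, see `pm_strip2` in PMult). Total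
`≤ C'' (h y + √y + 1) ≤ 2 C'' h y` for `y ≥ y0(h)`. Finally
`‖S'/y' - S/y‖ ≤ ‖S' - S‖/y' + ‖S‖ (1/y - 1/y') ≤ 2 C'' h + C h`.
-/

set_option autoImplicit false

namespace Pool.Agent.LogG

open Real
open Pool.Agent.NSqP
open Pool.Agent.LogCh
open Pool.Agent.MP484c84Par (ballG mem_ballG crossG dotG)

open Classical in
/-- partners of one vector -/
private theorem gl_fiber (m : ℤ) (M : ℕ) (δ : ℝ) (hδ : 0 < δ) (z : GaussianInt) (hz : Prim z)
    (h0 : δ * M < nN z) (hM : 1 ≤ M) :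
    (((dpairs m M).filter (fun p => p.1 = z)).card : ℝ) ≤ 2 / √δ + 1 := by
  have h2 : ((dpairs m M).filter (fun p => p.1 = z)).card ≤
      ((ballG M).filter (fun v => crossG z v = m)).card := by
    apply Finset.card_le_card_of_injOn Prod.snd
    · intro p hp
      rw [Finset.mem_coe, Finset.mem_filter, mem_dpairs] at hp
      obtain ⟨⟨⟨_, _⟩, ⟨h3, _⟩, h5, _⟩, h8⟩ := hp
      rw [Finset.mem_coe, Finset.mem_filter]
      refine ⟨?_, ?_⟩
      · rw [mem_ballG, ← nN_cast_int]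
        exact_mod_cast h3
      · rw [← h8]
        exact h5
    · intro p hp q hq hpq
      rw [Finset.mem_coe, Finset.mem_filter] at hp hq
      exact Prod.ext (hp.2.trans hq.2.symm) hpq
  have hMp : (0 : ℝ) < M := by exact_mod_cast hM
  have hzp : (0 : ℝ) < nN z := lt_trans (by positivity) h0
  have h3 := line_count z hz m M
  have h4 : √((M : ℝ) / nN z) ≤ 1 / √δ := by
    have e := Real.sqrt_div (zero_le_one (α := ℝ)) δ
    rw [Real.sqrt_one] at e
    rw [← e]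
    apply Real.sqrt_le_sqrt
    rw [div_le_div_iff₀ hzp hδ]
    linarith
  calc _ ≤ (((ballG M).filter (fun v => crossG z v = m)).card : ℝ) := by exact_mod_cast h2
    _ ≤ 2 * √((M : ℝ) / nN z) + 1 := h3
    _ ≤ 2 * (1 / √δ) + 1 := by linarith
    _ = 2 / √δ + 1 := by ring

open Classical in
/-- pairs whose first norm lies in a strip -/
private theorem gl_strip (δ : ℝ) (hδ : 0 < δ) : ∃ K : ℝ, 0 < K ∧ ∀ (m : ℤ) (s : ℝ), δ ≤ s →
    s ≤ 1 → ∀ h : ℝ, 0 < h → h ≤ 1 → ∀ y y' : ℝ, 1 ≤ y → y ≤ y' → y' ≤ (1 + h) * y →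
    (((dpairs m ⌊y'⌋₊).filter (fun p => s * y < nN p.1 ∧ (nN p.1 : ℝ) ≤ s * y')).card : ℝ) ≤
      K * (h * y + √y + 1) := by
  obtain ⟨C, hC, hann⟩ := card_ann
  refine ⟨(4 + 2 * C) * (2 / √(δ / 2) + 1), by positivity, ?_⟩
  intro m s hs hs1 h hh hh1 y y' hy hyy hy'
  have hs0 : 0 < s := lt_of_lt_of_le hδ hs
  have hy0 : 0 < y := by linarith
  have hy'0 : 0 < y' := by linarith
  have hy2 : y' ≤ 2 * y := by nlinarith
  set M := ⌊y'⌋₊ with hM
  set S := (dpairs m M).filter (fun p => s * y < nN p.1 ∧ (nN p.1 : ℝ) ≤ s * y') with hS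
  have hM1 : 1 ≤ M := by
    rw [hM, Nat.one_le_floor_iff]
    linarith
  have hMle : (M : ℝ) ≤ y' := Nat.floor_le hy'0.le
  have hmem : ∀ p ∈ S, ((nN p.1 ≤ M ∧ Prim p.1) ∧ (nN p.2 ≤ M ∧ Prim p.2) ∧
      crossG p.1 p.2 = m ∧ 0 < dotG p.1 p.2) ∧ s * y < nN p.1 ∧ (nN p.1 : ℝ) ≤ s * y' := by
    intro p hp
    rw [hS, Finset.mem_filter, mem_dpairs] at hp
    exact hp
  have himg : ((S.image Prod.fst).card : ℝ) ≤ (4 + 2 * C) * (h * y + √y + 1) := by
    have h1 : S.image Prod.fst ⊆ ann (s * y) (s * y') := by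
      intro z hz
      rw [Finset.mem_image] at hz
      obtain ⟨p, hp, rfl⟩ := hz
      rw [mem_ann (by positivity)]
      exact (hmem p hp).2
    have h2 : ((S.image Prod.fst).card : ℝ) ≤ ((ann (s * y) (s * y')).card : ℝ) := by
      exact_mod_cast Finset.card_le_card h1
    have h3 := (abs_le.1 (hann (s * y) (s * y') (by positivity)
      (mul_le_mul_of_nonneg_left hyy hs0.le))).2
    have h4 : π * (s * y' - s * y) ≤ 4 * (h * y) := by
      have h5 : s * y' - s * y ≤ h * y := by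
        have : s * (y' - y) ≤ 1 * (y' - y) := mul_le_mul_of_nonneg_right hs1 (by linarith)
        nlinarith
      have h6 : 0 ≤ s * y' - s * y := by nlinarith
      calc π * (s * y' - s * y) ≤ 4 * (s * y' - s * y) :=
            mul_le_mul_of_nonneg_right Real.pi_le_four h6
        _ ≤ 4 * (h * y) := by linarith
    have h7 : √(s * y') ≤ 2 * √y := by
      rw [show (2 : ℝ) * √y = √(4 * y) by
        rw [Real.sqrt_mul (by norm_num) y, show (4 : ℝ) = 2 ^ 2 by norm_num,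
          Real.sqrt_sq (by norm_num)]]
      apply Real.sqrt_le_sqrt
      have : s * y' ≤ 1 * y' := mul_le_mul_of_nonneg_right hs1 hy'0.le
      linarith
    have h8 : 0 ≤ √y := Real.sqrt_nonneg y
    have h9 : 0 < h * y := by positivity
    calc ((S.image Prod.fst).card : ℝ) ≤ π * (s * y' - s * y) + C * (√(s * y') + 1) := by linarith
      _ ≤ 4 * (h * y) + C * (2 * √y + 1) := by
          have := mul_le_mul_of_nonneg_left (show √(s * y') + 1 ≤ 2 * √y + 1 by linarith) hC.le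
          linarith
      _ ≤ (4 + 2 * C) * (h * y + √y + 1) := by nlinarith [mul_nonneg hC.le h9.le]
  have hfib : ∀ z ∈ S.image Prod.fst, ((S.filter (fun p => p.1 = z)).card : ℝ) ≤
      2 / √(δ / 2) + 1 := by
    intro z hz
    rw [Finset.mem_image] at hz
    obtain ⟨p, hp, rfl⟩ := hz
    obtain ⟨⟨⟨h1, h2⟩, _⟩, h3, _⟩ := hmem p hp
    have h4 : δ / 2 * (M : ℝ) < nN p.1 := by
      refine lt_of_le_of_lt ?_ h3
      have h5 : δ / 2 * (M : ℝ) ≤ δ / 2 * (2 * y) :=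
        mul_le_mul_of_nonneg_left (hMle.trans hy2) (by positivity)
      have h6 : δ * y ≤ s * y := mul_le_mul_of_nonneg_right hs hy0.le
      linarith
    refine le_trans ?_ (gl_fiber m M (δ / 2) (by positivity) p.1 h2 h4 hM1)
    have h5 : (S.filter (fun p' => p'.1 = p.1)).card ≤
        ((dpairs m M).filter (fun p' => p'.1 = p.1)).card :=
      Finset.card_le_card (Finset.filter_subset_filter _ (Finset.filter_subset _ _))
    exact_mod_cast h5
  have h1 : S.card = ∑ z ∈ S.image Prod.fst, (S.filter (fun p => p.1 = z)).card :=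
    Finset.card_eq_sum_card_fiberwise (fun p hp => Finset.mem_image_of_mem _ hp)
  rw [h1]
  push_cast
  calc ∑ z ∈ S.image Prod.fst, ((S.filter (fun p => p.1 = z)).card : ℝ)
      ≤ ∑ z ∈ S.image Prod.fst, (2 / √(δ / 2) + 1) := Finset.sum_le_sum hfib
    _ = ((S.image Prod.fst).card : ℝ) * (2 / √(δ / 2) + 1) := by
        rw [Finset.sum_const, nsmul_eq_mul]
    _ ≤ (4 + 2 * C) * (h * y + √y + 1) * (2 / √(δ / 2) + 1) :=
        mul_le_mul_of_nonneg_right himg (by positivity)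
    _ = (4 + 2 * C) * (2 / √(δ / 2) + 1) * (h * y + √y + 1) := by ring

open Classical in
/-- the same for the second norm -/
private theorem gl_strip2 (m : ℤ) (M : ℕ) (u v : ℝ) :
    ((dpairs m M).filter (fun p => u < nN p.2 ∧ (nN p.2 : ℝ) ≤ v)).card ≤
      ((dpairs (-m) M).filter (fun p => u < nN p.1 ∧ (nN p.1 : ℝ) ≤ v)).card := by
  apply Finset.card_le_card_of_injOn Prod.swap
  · intro p hp
    rw [Finset.mem_coe, Finset.mem_filter, mem_dpairs] at hp ⊢
    obtain ⟨⟨h3, h4, h5, h6⟩, h7⟩ := hp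
    refine ⟨⟨h4, h3, ?_, ?_⟩, h7⟩
    · rw [← h5]
      unfold crossG
      simp only [Prod.fst_swap, Prod.snd_swap]
      ring
    · have : dotG p.2 p.1 = dotG p.1 p.2 := by
        unfold dotG
        ring
      simpa [this] using h6
  · exact Prod.swap_injective.injOn

theorem PSr_le (a a' b b' : ℝ) : ∃ C : ℝ, 0 < C ∧ ∀ F1 F2 : GaussianInt → ℂ,
    (∀ z, ‖F1 z‖ ≤ 1) → (∀ z, ‖F2 z‖ ≤ 1) → ∀ y : ℝ, 0 ≤ y →
      ‖PSr F1 F2 a a' b b' y‖ ≤ C * y := by
  classical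
  obtain ⟨C, hC, hcard⟩ := card_dpairs
  refine ⟨C, hC, fun F1 F2 h1 h2 y hy => ?_⟩
  unfold PSr
  refine (norm_sum_le _ _).trans ?_
  have h3 : ∀ p ∈ dpairs 1 ⌊y⌋₊, ‖(if (a * y < nN p.1 ∧ (nN p.1 : ℝ) ≤ a' * y) ∧
      (b * y < nN p.2 ∧ (nN p.2 : ℝ) ≤ b' * y) then F1 p.1 * F2 p.2 else 0 : ℂ)‖ ≤ 1 := by
    intro p _
    split_ifs
    · rw [norm_mul]
      exact mul_le_one₀ (h1 _) (norm_nonneg _) (h2 _)
    · rw [norm_zero]; exact zero_le_one
  refine (Finset.sum_le_sum h3).trans ?_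
  rw [Finset.sum_const, nsmul_eq_mul, mul_one]
  exact (hcard 1 ⌊y⌋₊).trans (mul_le_mul_of_nonneg_left (Nat.floor_le hy) hC.le)

/-- the summand -/
private noncomputable def gt (F1 F2 : GaussianInt → ℂ) (a a' b b' y : ℝ)
    (p : GaussianInt × GaussianInt) : ℂ :=
  open Classical in if (a * y < nN p.1 ∧ (nN p.1 : ℝ) ≤ a' * y) ∧
    (b * y < nN p.2 ∧ (nN p.2 : ℝ) ≤ b' * y) then F1 p.1 * F2 p.2 else 0

private theorem gl_ext (F1 F2 : GaussianInt → ℂ) (a a' b b' y y' : ℝ) (ha1 : a' ≤ 1)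
    (hb1 : b' ≤ 1) (hy : 0 ≤ y) (hyy : y ≤ y') :
    PSr F1 F2 a a' b b' y = ∑ p ∈ dpairs 1 ⌊y'⌋₊, gt F1 F2 a a' b b' y p := by
  classical
  have h1 : PSr F1 F2 a a' b b' y = ∑ p ∈ dpairs 1 ⌊y⌋₊, gt F1 F2 a a' b b' y p := by
    unfold PSr gt
    rfl
  rw [h1]
  have hfl : ⌊y⌋₊ ≤ ⌊y'⌋₊ := Nat.floor_le_floor hyy
  refine Finset.sum_subset ?_ ?_
  · intro p hp
    rw [mem_dpairs] at hp ⊢
    obtain ⟨⟨h3, h4⟩, ⟨h5, h6⟩, h7⟩ := hp
    exact ⟨⟨h3.trans hfl, h4⟩, ⟨h5.trans hfl, h6⟩, h7⟩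
  · intro p hp hnp
    unfold gt
    rw [if_neg]
    rintro ⟨⟨_, h3⟩, _, h4⟩
    apply hnp
    rw [mem_dpairs] at hp ⊢
    obtain ⟨⟨_, h5⟩, ⟨_, h6⟩, h7⟩ := hp
    refine ⟨⟨Nat.le_floor ?_, h5⟩, ⟨Nat.le_floor ?_, h6⟩, h7⟩
    · have : a' * y ≤ 1 * y := mul_le_mul_of_nonneg_right ha1 hy
      linarith
    · have : b' * y ≤ 1 * y := mul_le_mul_of_nonneg_right hb1 hy
      linarith

theorem LIPC (a a' b b' : ℝ) (ha : 0 < a) (haa : a < a') (ha1 : a' ≤ 1) (hb : 0 < b)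
    (hbb : b < b') (hb1 : b' ≤ 1) : ∃ C : ℝ, 0 < C ∧ ∀ h : ℝ, 0 < h → h ≤ 1 → ∃ y0 : ℝ, 1 ≤ y0 ∧
    ∀ F1 F2 : GaussianInt → ℂ, (∀ z, ‖F1 z‖ ≤ 1) → (∀ z, ‖F2 z‖ ≤ 1) → ∀ y y' : ℝ, y0 ≤ y →
      y ≤ y' → y' ≤ (1 + h) * y →
      ‖PSr F1 F2 a a' b b' y' / (y' : ℂ) - PSr F1 F2 a a' b b' y / (y : ℂ)‖ ≤ C * h := by
  classical
  set δ := min a b with hδdef
  have hδ : 0 < δ := lt_min ha hb
  have hδa : δ ≤ a := min_le_left _ _
  have hδb : δ ≤ b := min_le_right _ _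
  obtain ⟨K, hK, hstrip⟩ := gl_strip δ hδ
  obtain ⟨C, hC, hPS⟩ := PSr_le a a' b b'
  refine ⟨8 * K + C, by positivity, fun h hh hh1 => ⟨4 / h ^ 2, ?_, ?_⟩⟩
  · rw [le_div_iff₀ (by positivity)]
    nlinarith
  intro F1 F2 h1 h2 y y' hy hyy hy'
  have hy4 : 4 ≤ y := by
    refine le_trans ?_ hy
    rw [le_div_iff₀ (by positivity)]
    nlinarith
  have hy0 : 0 < y := by linarith
  have hy'0 : 0 < y' := by linarith
  have hsq : √y ≤ h * y / 2 := by
    have h3 : 2 / h ≤ √y := by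
      apply Real.le_sqrt_of_sq_le
      rw [div_pow]
      norm_num
      exact hy
    rw [div_le_iff₀ hh] at h3
    have h4 : √y * √y = y := Real.mul_self_sqrt hy0.le
    have h5 : 0 ≤ √y := Real.sqrt_nonneg y
    nlinarith
  have hone : 1 ≤ h * y / 2 := by
    have h3 : 4 / h ^ 2 * h ≤ y * h := mul_le_mul_of_nonneg_right hy hh.le
    have h4 : 4 / h ^ 2 * h = 4 / h := by
      field_simp
    have h5 : 4 ≤ 4 / h := by
      rw [le_div_iff₀ hh]
      linarith
    rw [h4] at h3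
    linarith
  have hbound : ∀ (m : ℤ) (s : ℝ), δ ≤ s → s ≤ 1 →
      (((dpairs m ⌊y'⌋₊).filter (fun p => s * y < nN p.1 ∧ (nN p.1 : ℝ) ≤ s * y')).card : ℝ) ≤
        2 * K * (h * y) := by
    intro m s hs hs1
    refine (hstrip m s hs hs1 h hh hh1 y y' (by linarith) hyy hy').trans ?_
    have : h * y + √y + 1 ≤ 2 * (h * y) := by linarith
    calc K * (h * y + √y + 1) ≤ K * (2 * (h * y)) := mul_le_mul_of_nonneg_left this hK.le
      _ = 2 * K * (h * y) := by ring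
  have hbound2 : ∀ (s : ℝ), δ ≤ s → s ≤ 1 →
      (((dpairs 1 ⌊y'⌋₊).filter (fun p => s * y < nN p.2 ∧ (nN p.2 : ℝ) ≤ s * y')).card : ℝ) ≤
        2 * K * (h * y) := by
    intro s hs hs1
    refine le_trans ?_ (hbound (-1) s hs hs1)
    exact_mod_cast gl_strip2 1 ⌊y'⌋₊ (s * y) (s * y')
  -- the difference of the sums
  have hdiff : ‖PSr F1 F2 a a' b b' y' - PSr F1 F2 a a' b b' y‖ ≤ 8 * K * (h * y) := by
    rw [gl_ext F1 F2 a a' b b' y' y' ha1 hb1 hy'0.le le_rfl,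
      gl_ext F1 F2 a a' b b' y y' ha1 hb1 hy0.le hyy, ← Finset.sum_sub_distrib]
    set D := dpairs 1 ⌊y'⌋₊ with hD
    set A1 := D.filter (fun p => a * y < nN p.1 ∧ (nN p.1 : ℝ) ≤ a * y') with hA1
    set A2 := D.filter (fun p => a' * y < nN p.1 ∧ (nN p.1 : ℝ) ≤ a' * y') with hA2
    set B1 := D.filter (fun p => b * y < nN p.2 ∧ (nN p.2 : ℝ) ≤ b * y') with hB1
    set B2 := D.filter (fun p => b' * y < nN p.2 ∧ (nN p.2 : ℝ) ≤ b' * y') with hB2
    have hterm : ∀ p ∈ D, ‖gt F1 F2 a a' b b' y' p - gt F1 F2 a a' b b' y p‖ ≤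
        if p ∈ A1 ∪ A2 ∪ B1 ∪ B2 then 1 else 0 := by
      intro p hp
      have hF : ‖F1 p.1 * F2 p.2‖ ≤ 1 := by
        rw [norm_mul]
        exact mul_le_one₀ (h1 _) (norm_nonneg _) (h2 _)
      have e1 : a * y ≤ a * y' := mul_le_mul_of_nonneg_left hyy ha.le
      have e2 : a' * y ≤ a' * y' := mul_le_mul_of_nonneg_left hyy (by linarith)
      have e3 : b * y ≤ b * y' := mul_le_mul_of_nonneg_left hyy hb.le
      have e4 : b' * y ≤ b' * y' := mul_le_mul_of_nonneg_left hyy (by linarith)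
      unfold gt
      by_cases c1 : (a * y' < nN p.1 ∧ (nN p.1 : ℝ) ≤ a' * y') ∧
          (b * y' < nN p.2 ∧ (nN p.2 : ℝ) ≤ b' * y')
      · by_cases c2 : (a * y < nN p.1 ∧ (nN p.1 : ℝ) ≤ a' * y) ∧
            (b * y < nN p.2 ∧ (nN p.2 : ℝ) ≤ b' * y)
        · rw [if_pos c1, if_pos c2, sub_self, norm_zero]
          split_ifs <;> norm_num
        · rw [if_pos c1, if_neg c2, sub_zero, if_pos]
          · exact hF
          · rw [Finset.mem_union, Finset.mem_union, Finset.mem_union, hA1, hA2, hB1, hB2,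
              Finset.mem_filter, Finset.mem_filter, Finset.mem_filter, Finset.mem_filter]
            obtain ⟨⟨c3, c4⟩, c5, c6⟩ := c1
            by_cases c7 : (nN p.1 : ℝ) ≤ a' * y
            · right
              refine ⟨hp, ?_, c6⟩
              by_contra c8
              exact c2 ⟨⟨by linarith, c7⟩, by linarith, not_lt.1 c8⟩
            · left; left; right
              exact ⟨hp, not_le.1 c7, c4⟩
      · by_cases c2 : (a * y < nN p.1 ∧ (nN p.1 : ℝ) ≤ a' * y) ∧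
            (b * y < nN p.2 ∧ (nN p.2 : ℝ) ≤ b' * y)
        · rw [if_neg c1, if_pos c2, zero_sub, norm_neg, if_pos]
          · exact hF
          · rw [Finset.mem_union, Finset.mem_union, Finset.mem_union, hA1, hA2, hB1, hB2,
              Finset.mem_filter, Finset.mem_filter, Finset.mem_filter, Finset.mem_filter]
            obtain ⟨⟨c3, c4⟩, c5, c6⟩ := c2
            by_cases c7 : a * y' < nN p.1
            · left; right
              refine ⟨hp, c5, ?_⟩
              by_contra c8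
              exact c1 ⟨⟨c7, by linarith⟩, not_le.1 c8, by linarith⟩
            · left; left; left
              exact ⟨hp, c3, not_lt.1 c7⟩
        · rw [if_neg c1, if_neg c2, sub_self, norm_zero]
          split_ifs <;> norm_num
    refine (norm_sum_le _ _).trans ((Finset.sum_le_sum hterm).trans ?_)
    rw [← Finset.sum_filter, Finset.sum_const, nsmul_eq_mul, mul_one]
    have hc1 : ((D.filter (fun p => p ∈ A1 ∪ A2 ∪ B1 ∪ B2)).card : ℝ) ≤
        (A1.card : ℝ) + A2.card + B1.card + B2.card := by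
      have hsub : D.filter (fun p => p ∈ A1 ∪ A2 ∪ B1 ∪ B2) ⊆ A1 ∪ A2 ∪ B1 ∪ B2 := by
        intro p hp
        exact (Finset.mem_filter.1 hp).2
      have h3 := Finset.card_le_card hsub
      have h4 := Finset.card_union_le (A1 ∪ A2 ∪ B1) B2
      have h5 := Finset.card_union_le (A1 ∪ A2) B1
      have h6 := Finset.card_union_le A1 A2
      have h7 : (D.filter (fun p => p ∈ A1 ∪ A2 ∪ B1 ∪ B2)).card ≤
          A1.card + A2.card + B1.card + B2.card := by omega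
      exact_mod_cast h7
    have g1 := hbound 1 a hδa (by linarith)
    have g2 := hbound 1 a' (by linarith) ha1
    have g3 := hbound2 b hδb (by linarith)
    have g4 := hbound2 b' (by linarith) hb1
    rw [← hD, ← hA1] at g1
    rw [← hD, ← hA2] at g2
    rw [← hB1] at g3
    rw [← hB2] at g4
    linarith
  have hS := hPS F1 F2 h1 h2 y hy0.le
  have hyc : (y : ℂ) ≠ 0 := by exact_mod_cast hy0.ne'
  have hyc' : (y' : ℂ) ≠ 0 := by exact_mod_cast hy'0.ne'
  have hdec : PSr F1 F2 a a' b b' y' / (y' : ℂ) - PSr F1 F2 a a' b b' y / (y : ℂ) =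
      (PSr F1 F2 a a' b b' y' - PSr F1 F2 a a' b b' y) / (y' : ℂ) +
        PSr F1 F2 a a' b b' y * (((y - y') / (y * y') : ℝ) : ℂ) := by
    push_cast
    field_simp
    ring
  rw [hdec]
  refine (norm_add_le _ _).trans ?_
  have e1 : ‖(PSr F1 F2 a a' b b' y' - PSr F1 F2 a a' b b' y) / (y' : ℂ)‖ ≤ 8 * K * h := by
    rw [norm_div, Complex.norm_real, Real.norm_of_nonneg hy'0.le, div_le_iff₀ hy'0]
    refine hdiff.trans ?_
    have : h * y ≤ h * y' := mul_le_mul_of_nonneg_left hyy hh.le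
    calc 8 * K * (h * y) ≤ 8 * K * (h * y') := mul_le_mul_of_nonneg_left this (by positivity)
      _ = 8 * K * h * y' := by ring
  have e2 : ‖PSr F1 F2 a a' b b' y * (((y - y') / (y * y') : ℝ) : ℂ)‖ ≤ C * h := by
    rw [norm_mul, Complex.norm_real, Real.norm_eq_abs, abs_div, abs_of_pos (mul_pos hy0 hy'0),
      abs_of_nonpos (by linarith : y - y' ≤ 0)]
    have h3 : -(y - y') / (y * y') ≤ h / y := by
      rw [div_le_div_iff₀ (mul_pos hy0 hy'0) hy0]
      have : y' - y ≤ h * y := by linarith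
      have h5 : h * y ≤ h * y' := mul_le_mul_of_nonneg_left hyy hh.le
      nlinarith
    calc ‖PSr F1 F2 a a' b b' y‖ * (-(y - y') / (y * y')) ≤ (C * y) * (h / y) :=
          mul_le_mul hS h3 (div_nonneg (by linarith) (by positivity)) (by positivity)
      _ = C * h := by field_simp
  calc _ ≤ 8 * K * h + C * h := add_le_add e1 e2
    _ = (8 * K + C) * h := by ring

end Pool.Agent.LogG
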