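import Pool.Agent.Lib.LogG.GFdefs
import Pool.Agent.Lib.LogCh.AMBij
import Pool.Agent.Lib.LogCh.ADiv

/-!
# The multiplicativity step at one order `N`, with a real scale
-/

set_option autoImplicit false

namespace Pool.Agent.LogG

open Real
open Pool.Agent.NSqP
open Pool.Agent.LogCh
open Pool.Agent.MP484c84Par (ballG mem_ballG crossG dotG)

open Classical in
private theorem gfc_mul (F1 F2 : GaussianInt → ℂ) (a a' b b' : ℝ) (N : ℕ) (u v : GaussianInt) :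
    fcC F1 a a' N u * fcC F2 b b' N v =
      if (a * N < nN u ∧ (nN u : ℝ) ≤ a' * N) ∧ (b * N < nN v ∧ (nN v : ℝ) ≤ b' * N)
      then F1 u * F2 v else 0 := by
  unfold fcC
  by_cases h1 : a * N < nN u ∧ (nN u : ℝ) ≤ a' * N
  · by_cases h2 : b * N < nN v ∧ (nN v : ℝ) ≤ b' * N
    · rw [if_pos h1, if_pos h2, if_pos ⟨h1, h2⟩]
    · rw [if_pos h1, if_neg h2, if_neg (fun h => h2 h.2), mul_zero]
  · rw [if_neg h1, zero_mul, if_neg (fun h => h1 h.1)]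

private theorem gcell_le {a' : ℝ} (ha1 : a' ≤ 1) {N n : ℕ} (h : (n : ℝ) ≤ a' * N) : n ≤ N := by
  have h0 : (0 : ℝ) ≤ (N : ℝ) := Nat.cast_nonneg N
  have h1 : a' * (N : ℝ) ≤ 1 * N := mul_le_mul_of_nonneg_right ha1 h0
  have h2 : (n : ℝ) ≤ (N : ℝ) := by linarith
  exact_mod_cast h2

open Classical in
theorem pairCPi_eq {F1 F2 : GaussianInt → ℂ} (hF1 : CMC F1) (hF2 : CMC F2) (a a' b b' : ℝ)
    (ha1 : a' ≤ 1) (hb1 : b' ≤ 1) {κ : GaussianInt}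
    (hκ : (nN κ).Prime) (h4 : nN κ % 4 = 1) (N : ℕ) :
    pairCPi κ F1 F2 a a' b b' N = F1 κ * F2 κ *
      ∑ p ∈ (dpairs 1 (N / nN κ)).filter (fun p => ¬ star κ ∣ p.1 ∧ ¬ star κ ∣ p.2),
      if (a * N < (nN κ : ℝ) * nN p.1 ∧ (nN κ : ℝ) * nN p.1 ≤ a' * N) ∧
        (b * N < (nN κ : ℝ) * nN p.2 ∧ (nN κ : ℝ) * nN p.2 ≤ b' * N)
      then F1 p.1 * F2 p.2 else 0 := by
  have hκ0 : κ ≠ 0 := by
    rintro rfl
    have h0 : nN (0 : GaussianInt) = 0 := by simp [nN]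
    rw [h0] at hκ
    exact Nat.not_prime_zero hκ
  have hq1 : 1 ≤ nN κ := hκ.one_lt.le
  have hqpos : (0 : ℤ) < (nN κ : ℤ) := by exact_mod_cast hκ.pos
  have hnorm : ∀ z : GaussianInt, ((nN (κ * z) : ℕ) : ℝ) = (nN κ : ℝ) * nN z := by
    intro z
    rw [nN_mul]
    push_cast
    ring
  unfold pairCPi
  rw [Finset.sum_congr rfl (fun p _ => gfc_mul F1 F2 a a' b b' N p.1 p.2)]
  rw [← Finset.sum_filter, ← Finset.sum_filter, Finset.mul_sum]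
  symm
  refine Finset.sum_bij (fun p _ => (κ * p.1, κ * p.2)) ?_ ?_ ?_ ?_
  · intro p hp
    rw [Finset.mem_filter, Finset.mem_filter, mem_dpairs] at hp
    obtain ⟨⟨⟨⟨g1, g2⟩, ⟨g3, g4⟩, g5, g6⟩, g7, g8⟩, ⟨c1, c2⟩, ⟨c3, c4⟩⟩ := hp
    rw [Finset.mem_filter, Finset.mem_filter, mem_dpairs]
    simp only [hnorm]
    refine ⟨⟨⟨⟨?_, ?_⟩, ⟨?_, ?_⟩, ?_, ?_⟩, ?_⟩, ⟨c1, c2⟩, ⟨c3, c4⟩⟩
    · apply gcell_le ha1
      rw [hnorm]
      exact c2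
    · exact (prim_mul_iff hκ h4).2 ⟨g2, g7⟩
    · apply gcell_le hb1
      rw [hnorm]
      exact c4
    · exact (prim_mul_iff hκ h4).2 ⟨g4, g8⟩
    · rw [cross_mul, g5, mul_one]
    · rw [dot_mul]
      exact mul_pos hqpos g6
    · exact Dvd.intro _ rfl
  · rintro ⟨z1, w1⟩ _ ⟨z2, w2⟩ _ h
    simp only [Prod.mk.injEq] at h
    rw [mul_right_inj' hκ0, mul_right_inj' hκ0] at h
    exact Prod.ext h.1 h.2
  · rintro ⟨u, v⟩ hp
    rw [Finset.mem_filter, Finset.mem_filter, mem_dpairs] at hp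
    obtain ⟨⟨⟨⟨g1, g2⟩, ⟨g3, g4⟩, g5, g6⟩, g7⟩, ⟨c1, c2⟩, ⟨c3, c4⟩⟩ := hp
    simp only at g1 g2 g3 g4 g5 g6 g7 c1 c2 c3 c4
    have hv : κ ∣ v := dvd_second hκ h4 g2 g7 g5
    obtain ⟨z, rfl⟩ := g7
    obtain ⟨w, rfl⟩ := hv
    rw [cross_mul] at g5
    rw [dot_mul] at g6
    rw [hnorm] at c1 c2 c3 c4
    obtain ⟨pz, sz⟩ := (prim_mul_iff hκ h4).1 g2
    obtain ⟨pw, sw⟩ := (prim_mul_iff hκ h4).1 g4
    have hle : ∀ t : GaussianInt, nN (κ * t) ≤ N → nN t ≤ N / nN κ := by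
      intro t ht
      rw [nN_mul] at ht
      rw [Nat.le_div_iff_mul_le hκ.pos, mul_comm]
      exact ht
    refine ⟨(z, w), ?_, rfl⟩
    rw [Finset.mem_filter, Finset.mem_filter, mem_dpairs]
    refine ⟨⟨⟨⟨hle z g1, pz⟩, ⟨hle w g3, pw⟩, ?_, ?_⟩, sz, sw⟩, ⟨c1, c2⟩, ⟨c3, c4⟩⟩
    · show crossG z w = 1
      have : (nN κ : ℤ) * crossG z w = (nN κ : ℤ) * 1 := by rw [g5, mul_one]
      exact mul_left_cancel₀ (ne_of_gt hqpos) this
    · show 0 < dotG z w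
      exact (mul_pos_iff_of_pos_left hqpos).1 g6
  · rintro ⟨z, w⟩ hp
    rw [Finset.mem_filter, Finset.mem_filter, mem_dpairs] at hp
    obtain ⟨⟨⟨⟨g1, g2⟩, ⟨g3, g4⟩, g5, g6⟩, g7, g8⟩, _⟩ := hp
    show F1 κ * F2 κ * (F1 z * F2 w) = F1 (κ * z) * F2 (κ * w)
    rw [hF1.mul _ _ hκ0 (prim_ne_zero g2), hF2.mul _ _ hκ0 (prim_ne_zero g4)]
    ring

theorem MULTC (a a' b b' : ℝ) (ha1 : a' ≤ 1) (hb1 : b' ≤ 1) : ∃ C : ℝ, 0 < C ∧
    ∀ F1 F2 : GaussianInt → ℂ, CMC F1 → CMC F2 → ∀ κ : GaussianInt, (nN κ).Prime →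
    nN κ % 4 = 1 → ∀ N : ℕ,
    ‖pairCPi κ F1 F2 a a' b b' N - F1 κ * F2 κ * PSr F1 F2 a a' b b' ((N : ℝ) / nN κ)‖ ≤
      C * N / (nN κ : ℝ) ^ 2 := by
  classical
  obtain ⟨C0, hC0, hdiv⟩ := dpairs_div
  refine ⟨2 * C0, by positivity, fun F1 F2 hF1 hF2 κ hκ h4 N => ?_⟩
  have hq1 : 1 ≤ nN κ := hκ.one_lt.le
  have hqp : (0 : ℝ) < nN κ := by exact_mod_cast hq1
  have hstar : nN (star κ) = nN κ := nN_star κ
  have hstar0 : star κ ≠ 0 := by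
    intro h
    rw [h] at hstar
    have : nN (0 : GaussianInt) = 0 := nN_zero
    omega
  have hκ0 : κ ≠ 0 := by
    rintro rfl
    rw [nN_zero] at hq1
    omega
  have hPS : PSr F1 F2 a a' b b' ((N : ℝ) / nN κ) = ∑ p ∈ dpairs 1 (N / nN κ),
      if (a * N < (nN κ : ℝ) * nN p.1 ∧ (nN κ : ℝ) * nN p.1 ≤ a' * N) ∧
        (b * N < (nN κ : ℝ) * nN p.2 ∧ (nN κ : ℝ) * nN p.2 ≤ b' * N)
      then F1 p.1 * F2 p.2 else 0 := by
    unfold PSr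
    rw [Nat.floor_div_natCast, Nat.floor_natCast]
    refine Finset.sum_congr rfl fun p _ => ?_
    have e1 : ∀ (t : ℝ) (n : ℕ), t * ((N : ℝ) / nN κ) < n ↔ t * N < (nN κ : ℝ) * n := by
      intro t n
      rw [← mul_div_assoc, div_lt_iff₀ hqp, mul_comm (n : ℝ)]
    have e2 : ∀ (t : ℝ) (n : ℕ), (n : ℝ) ≤ t * ((N : ℝ) / nN κ) ↔ (nN κ : ℝ) * n ≤ t * N := by
      intro t n
      rw [← mul_div_assoc, le_div_iff₀ hqp, mul_comm (n : ℝ)]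
    simp only [e1, e2]
  rw [pairCPi_eq hF1 hF2 a a' b b' ha1 hb1 hκ h4 N, hPS, ← mul_sub, norm_mul]
  have hF : ‖F1 κ * F2 κ‖ ≤ 1 := by
    rw [norm_mul]
    exact mul_le_one₀ (hF1.le κ hκ0) (norm_nonneg _) (hF2.le κ hκ0)
  refine (mul_le_of_le_one_left (norm_nonneg _) hF).trans ?_
  rw [← Finset.sum_filter_add_sum_filter_not (dpairs 1 (N / nN κ))
    (fun p : GaussianInt × GaussianInt => ¬ star κ ∣ p.1 ∧ ¬ star κ ∣ p.2), sub_add_cancel_left,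
    norm_neg]
  have hM : ((N / nN κ : ℕ) : ℝ) ≤ (N : ℝ) / nN κ := Nat.cast_div_le
  have hcard : (((dpairs 1 (N / nN κ)).filter (fun p : GaussianInt × GaussianInt =>
      ¬ (¬ star κ ∣ p.1 ∧ ¬ star κ ∣ p.2))).card : ℝ) ≤ 2 * C0 * N / (nN κ : ℝ) ^ 2 := by
    have h1 : (dpairs 1 (N / nN κ)).filter (fun p : GaussianInt × GaussianInt =>
        ¬ (¬ star κ ∣ p.1 ∧ ¬ star κ ∣ p.2)) ⊆
        (dpairs 1 (N / nN κ)).filter (fun p : GaussianInt × GaussianInt => star κ ∣ p.1) ∪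
        (dpairs 1 (N / nN κ)).filter (fun p : GaussianInt × GaussianInt => star κ ∣ p.2) := by
      intro p hp
      rw [Finset.mem_filter] at hp
      rw [Finset.mem_union, Finset.mem_filter, Finset.mem_filter]
      obtain ⟨hp1, hp2⟩ := hp
      by_cases h : star κ ∣ p.1
      · exact Or.inl ⟨hp1, h⟩
      · refine Or.inr ⟨hp1, ?_⟩
        by_contra h'
        exact hp2 ⟨h, h'⟩
    have h2 := (Finset.card_le_card h1).trans (Finset.card_union_le _ _)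
    have h3 := hdiv 1 (N / nN κ) (star κ) hstar0
    rw [hstar] at h3
    have h4 : (((dpairs 1 (N / nN κ)).filter (fun p : GaussianInt × GaussianInt =>
        ¬ (¬ star κ ∣ p.1 ∧ ¬ star κ ∣ p.2))).card : ℝ) ≤
        (((dpairs 1 (N / nN κ)).filter (fun p : GaussianInt × GaussianInt => star κ ∣ p.1)).card : ℝ)
        + (((dpairs 1 (N / nN κ)).filter
          (fun p : GaussianInt × GaussianInt => star κ ∣ p.2)).card : ℝ) := by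
      exact_mod_cast h2
    have h5 : C0 * ((N / nN κ : ℕ) : ℝ) / (nN κ : ℝ) ≤ C0 * N / (nN κ : ℝ) ^ 2 := by
      calc C0 * ((N / nN κ : ℕ) : ℝ) / (nN κ : ℝ) ≤ C0 * ((N : ℝ) / nN κ) / (nN κ : ℝ) :=
            div_le_div_of_nonneg_right (mul_le_mul_of_nonneg_left hM hC0.le) hqp.le
        _ = C0 * N / (nN κ : ℝ) ^ 2 := by
            field_simp
    have h6 : 2 * C0 * N / (nN κ : ℝ) ^ 2 = C0 * N / (nN κ : ℝ) ^ 2 + C0 * N / (nN κ : ℝ) ^ 2 := by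
      ring
    rw [h6]
    linarith [h3.1, h3.2]
  refine le_trans ?_ hcard
  refine (norm_sum_le _ _).trans ?_
  rw [Finset.card_eq_sum_ones, Nat.cast_sum]
  refine Finset.sum_le_sum fun p hp => ?_
  have hp1 := (Finset.mem_filter.1 hp).1
  rw [mem_dpairs] at hp1
  rw [Nat.cast_one]
  split_ifs
  · rw [norm_mul]
    exact mul_le_one₀ (hF1.le _ (prim_ne_zero hp1.1.2)) (norm_nonneg _)
      (hF2.le _ (prim_ne_zero hp1.2.1.2))
  · rw [norm_zero]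
    exact zero_le_one

end Pool.Agent.LogG
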