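import Pool.Agent.Lib.LogG.GPdec
import Pool.Agent.Lib.LogG.GPtrunc
import Pool.Agent.Lib.LogG.GPavg
import Pool.Agent.Lib.LogG.GPmult
import Pool.Agent.Lib.LogG.GPlip
import Pool.Agent.Lib.LogG.GPblk

/-!
# One good scale of one order
-/

set_option autoImplicit false

namespace Pool.Agent.LogG

open Real
open Pool.Agent.NSqP
open Pool.Agent.LogCh
open Pool.Agent.MP484c84Par (ballG mem_ballG crossG dotG)

lemma norm_fcC_le {F : GaussianInt → ℂ} (hF : ∀ z, ‖F z‖ ≤ 1) (a a' : ℝ) (N : ℕ)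
    (z : GaussianInt) : ‖fcC F a a' N z‖ ≤ 1 := by
  unfold fcC
  split_ifs
  · exact hF z
  · rw [norm_zero]; exact zero_le_one

lemma fcC_ne {F : GaussianInt → ℂ} {a a' : ℝ} {N : ℕ} {z : GaussianInt}
    (h : fcC F a a' N z ≠ 0) : a * N < nN z := by
  unfold fcC at h
  by_contra hc
  rw [if_neg (fun h' => hc h'.1)] at h
  exact h rfl

lemma norm_pairC_le {Cd : ℝ} (hCd : ∀ (m : ℤ) (N : ℕ), ((dpairs m N).card : ℝ) ≤ Cd * N)
    {F1 F2 : GaussianInt → ℂ} (h1 : ∀ z, ‖F1 z‖ ≤ 1) (h2 : ∀ z, ‖F2 z‖ ≤ 1)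
    (m : ℤ) (a a' b b' : ℝ) (N : ℕ) : ‖pairC F1 F2 m a a' b b' N‖ ≤ Cd * N := by
  refine le_trans ?_ (hCd m N)
  unfold pairC
  refine (norm_sum_le _ _).trans ?_
  rw [Finset.card_eq_sum_ones, Nat.cast_sum]
  refine Finset.sum_le_sum fun p _ => ?_
  rw [norm_mul, Nat.cast_one]
  exact mul_le_one₀ (norm_fcC_le h1 _ _ _ _) (norm_nonneg _) (norm_fcC_le h2 _ _ _ _)

/-- the norm of a complex sum by four real sums -/
lemma norm_four {ι : Type} (s : Finset ι) (u v : ι → ℂ) (W : ι → ℝ) :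
    ‖∑ p ∈ s, u p * v p * (W p : ℂ)‖ ≤ |∑ p ∈ s, (u p).re * (v p).re * W p| +
      |∑ p ∈ s, (u p).im * (v p).im * W p| + |∑ p ∈ s, (u p).re * (v p).im * W p| +
      |∑ p ∈ s, (u p).im * (v p).re * W p| := by
  have h1 : (∑ p ∈ s, u p * v p * (W p : ℂ)).re = ∑ p ∈ s, (u p).re * (v p).re * W p -
      ∑ p ∈ s, (u p).im * (v p).im * W p := by
    rw [Complex.re_sum, ← Finset.sum_sub_distrib]
    refine Finset.sum_congr rfl fun p _ => ?_
    rw [Complex.re_mul_ofReal, Complex.mul_re]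
    ring
  have h2 : (∑ p ∈ s, u p * v p * (W p : ℂ)).im = ∑ p ∈ s, (u p).re * (v p).im * W p +
      ∑ p ∈ s, (u p).im * (v p).re * W p := by
    rw [Complex.im_sum, ← Finset.sum_add_distrib]
    refine Finset.sum_congr rfl fun p _ => ?_
    rw [Complex.im_mul_ofReal, Complex.mul_im]
    ring
  refine (Complex.norm_le_abs_re_add_abs_im _).trans ?_
  rw [h1, h2]
  have h3 := abs_sub (∑ p ∈ s, (u p).re * (v p).re * W p) (∑ p ∈ s, (u p).im * (v p).im * W p)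
  have h4 := abs_add_le (∑ p ∈ s, (u p).re * (v p).im * W p)
    (∑ p ∈ s, (u p).im * (v p).re * W p)
  linarith

open Classical in
lemma Tq_eq (F1 F2 : GaussianInt → ℂ) (a a' b b' : ℝ) (N : ℕ) {q : ℕ} (hq : nN (pq q) = q) :
    ∑ p ∈ dpairs (q : ℤ) N, fcC F1 a a' N p.1 * fcC F2 b b' N p.2 *
      (((q : ℝ) * (if pq q ∣ p.1 then 1 else 0) - (q : ℝ) / (q + 1) : ℝ) : ℂ) =
      (q : ℂ) * pairCPi (pq q) F1 F2 a a' b b' N -
        (((q : ℝ) / (q + 1) : ℝ) : ℂ) * pairC F1 F2 q a a' b b' N := by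
  unfold pairCPi pairC
  rw [hq, Finset.sum_filter, Finset.mul_sum, Finset.mul_sum, ← Finset.sum_sub_distrib]
  refine Finset.sum_congr rfl fun p _ => ?_
  split_ifs
  · push_cast
    ring
  · push_cast
    ring

/-- the estimate at one prime -/
theorem one_prime {k : ℕ} (hk : 1 ≤ k) {F1 F2 : GaussianInt → ℂ} (hF1 : GF k F1)
    (hF2 : GF k F2) (a a' b b' : ℝ) (ha : 0 < a) (ha1 : a' ≤ 1) (hb : 0 < b)
    (hb1 : b' ≤ 1) {Cd Cm CT B' B : ℝ} (hCm : 0 < Cm)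
    (hCd : ∀ (m : ℤ) (N : ℕ), ((dpairs m N).card : ℝ) ≤ Cd * N)
    (hMult : ∀ F1 F2 : GaussianInt → ℂ, CMC F1 → CMC F2 → ∀ κ : GaussianInt, (nN κ).Prime →
      nN κ % 4 = 1 → ∀ N : ℕ,
      ‖pairCPi κ F1 F2 a a' b b' N - F1 κ * F2 κ * PSr F1 F2 a a' b b' ((N : ℝ) / nN κ)‖ ≤
        Cm * N / (nN κ : ℝ) ^ 2)
    (hTr : ∀ L0 : ℕ, ∀ q : ℕ, q.Prime → q % 4 = 1 → q ≤ L0 → ∃ N0 : ℕ, ∀ N : ℕ,
      N0 ≤ N → ∀ g h : GaussianInt → ℝ, (∀ z, |g z| ≤ 1) → (∀ z, |h z| ≤ 1) →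
      (∀ z, g z ≠ 0 → a * N < nN z) →
      ∑ z ∈ VV N, |psiR L0 q (xr g h N z) (ym q z (sg N z)) -
        psiRB B L0 q (xr g h N z) (ym q z (sg N z))| ≤ CT / B' ^ 2 * N)
    {q L0 : ℕ} (hq : q.Prime) (h4 : q % 4 = 1) (hqL : q ≤ L0)
    (hL : 2 * (q : ℝ) / √(a * b) + 1 ≤ L0) : ∃ N0 : ℕ, ∀ N : ℕ, N0 ≤ N →
      ‖(q : ℂ) * (F1 (pq q) * F2 (pq q) * PSr F1 F2 a a' b b' ((N : ℝ) / q)) -
        pairC F1 F2 q a a' b b' N‖ ≤ (4 * (CT / B' ^ 2) + (Cd + Cm) / q) * N +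
        ((|psiSumR (fun z => (fcC F1 a a' N z).re) (fun z => (fcC F2 b b' N z).re) B L0 q N| +
        |psiSumR (fun z => (fcC F1 a a' N z).im) (fun z => (fcC F2 b b' N z).im) B L0 q N|) +
        (|psiSumR (fun z => (fcC F1 a a' N z).re) (fun z => (fcC F2 b b' N z).im) B L0 q N| +
        |psiSumR (fun z => (fcC F1 a a' N z).im) (fun z => (fcC F2 b b' N z).re) B L0 q N|)) := by
  classical
  obtain ⟨N1, hN1⟩ := hTr L0 q hq h4 hqL
  obtain ⟨N2, hN2⟩ := psiR_avgN a b ha hb hq h4 L0 hL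
  refine ⟨max N1 N2, fun N hN => ?_⟩
  have hNN1 : N1 ≤ N := (le_max_left _ _).trans hN
  have hNN2 : N2 ≤ N := (le_max_right _ _).trans hN
  have hq0 : (0 : ℝ) < q := by exact_mod_cast hq.pos
  have hN0 : (0 : ℝ) ≤ N := Nat.cast_nonneg N
  have hκ : nN (pq q) = q := pq_spec hq h4
  have hn1 : ∀ z, ‖fcC F1 a a' N z‖ ≤ 1 := norm_fcC_le (hF1.le hk) _ _ _
  have hn2 : ∀ z, ‖fcC F2 b b' N z‖ ≤ 1 := norm_fcC_le (hF2.le hk) _ _ _
  -- one real sum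
  have hone : ∀ s1 s2 : ℂ → ℝ, (∀ u, |s1 u| ≤ ‖u‖) → (∀ u, |s2 u| ≤ ‖u‖) →
      |∑ p ∈ dpairs (q : ℤ) N, s1 (fcC F1 a a' N p.1) * s2 (fcC F2 b b' N p.2) *
        ((q : ℝ) * (if pq q ∣ p.1 then 1 else 0) - (q : ℝ) / (q + 1))| ≤ CT / B' ^ 2 * N +
      |psiSumR (fun z => s1 (fcC F1 a a' N z)) (fun z => s2 (fcC F2 b b' N z)) B L0 q N| := by
    intro s1 s2 hs1 hs2
    have z1 : ∀ u, s1 u ≠ 0 → u ≠ 0 := by
      rintro u hu rfl
      apply hu
      have := hs1 0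
      rw [norm_zero] at this
      exact abs_eq_zero.1 (le_antisymm this (abs_nonneg _))
    have z2 : ∀ u, s2 u ≠ 0 → u ≠ 0 := by
      rintro u hu rfl
      apply hu
      have := hs2 0
      rw [norm_zero] at this
      exact abs_eq_zero.1 (le_antisymm this (abs_nonneg _))
    have e1 := hN2 N hNN2 (fun z => s1 (fcC F1 a a' N z)) (fun z => s2 (fcC F2 b b' N z))
      (fun z hz => fcC_ne (z1 _ hz)) (fun z hz => fcC_ne (z2 _ hz))
    have e2 := hN1 N hNN1 (fun z => s1 (fcC F1 a a' N z)) (fun z => s2 (fcC F2 b b' N z))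
      (fun z => (hs1 _).trans (hn1 z)) (fun z => (hs2 _).trans (hn2 z))
      (fun z hz => fcC_ne (z1 _ hz))
    rw [← e1]
    have e3 : ∑ z ∈ VV N, psiR L0 q (xr (fun z => s1 (fcC F1 a a' N z))
        (fun z => s2 (fcC F2 b b' N z)) N z) (ym q z (sg N z)) =
        ∑ z ∈ VV N, (psiR L0 q (xr (fun z => s1 (fcC F1 a a' N z))
        (fun z => s2 (fcC F2 b b' N z)) N z) (ym q z (sg N z)) -
        psiRB B L0 q (xr (fun z => s1 (fcC F1 a a' N z))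
        (fun z => s2 (fcC F2 b b' N z)) N z) (ym q z (sg N z))) +
        psiSumR (fun z => s1 (fcC F1 a a' N z)) (fun z => s2 (fcC F2 b b' N z)) B L0 q N := by
      unfold psiSumR
      rw [Finset.sum_sub_distrib]
      ring
    rw [e3]
    refine (abs_add_le _ _).trans (add_le_add ?_ le_rfl)
    exact (Finset.abs_sum_le_sum_abs _ _).trans e2
  have r1 := hone Complex.re Complex.re Complex.abs_re_le_norm Complex.abs_re_le_norm
  have r2 := hone Complex.im Complex.im Complex.abs_im_le_norm Complex.abs_im_le_norm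
  have r3 := hone Complex.re Complex.im Complex.abs_re_le_norm Complex.abs_im_le_norm
  have r4 := hone Complex.im Complex.re Complex.abs_im_le_norm Complex.abs_re_le_norm
  have hT := norm_four (dpairs (q : ℤ) N) (fun p => fcC F1 a a' N p.1)
    (fun p => fcC F2 b b' N p.2)
    (fun p => (q : ℝ) * (if pq q ∣ p.1 then 1 else 0) - (q : ℝ) / (q + 1))
  rw [Tq_eq F1 F2 a a' b b' N hκ] at hT
  -- the multiplicativity
  have hm := hMult F1 F2 (hF1.CMC hk) (hF2.CMC hk) (pq q) (by rw [hκ]; exact hq)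
    (by rw [hκ]; exact h4) N
  rw [hκ] at hm
  have hp := norm_pairC_le hCd (hF1.le hk) (hF2.le hk) q a a' b b' N
  set T := (q : ℂ) * pairCPi (pq q) F1 F2 a a' b b' N -
        (((q : ℝ) / (q + 1) : ℝ) : ℂ) * pairC F1 F2 q a a' b b' N with hTdef
  have hdec : (q : ℂ) * (F1 (pq q) * F2 (pq q) * PSr F1 F2 a a' b b' ((N : ℝ) / q)) -
        pairC F1 F2 q a a' b b' N = -((q : ℂ) * (pairCPi (pq q) F1 F2 a a' b b' N -
          F1 (pq q) * F2 (pq q) * PSr F1 F2 a a' b b' ((N : ℝ) / q))) + T +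
        -((((1 : ℝ) / (q + 1) : ℝ) : ℂ) * pairC F1 F2 q a a' b b' N) := by
    rw [hTdef]
    have h1 : (((q : ℝ) / (q + 1) : ℝ) : ℂ) = 1 - (((1 : ℝ) / (q + 1) : ℝ) : ℂ) := by
      rw [← Complex.ofReal_one, ← Complex.ofReal_sub]
      congr 1
      field_simp
      ring
    rw [h1]
    ring
  rw [hdec]
  have h5 := norm_add_le (-((q : ℂ) * (pairCPi (pq q) F1 F2 a a' b b' N -
          F1 (pq q) * F2 (pq q) * PSr F1 F2 a a' b b' ((N : ℝ) / q))) + T)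
        (-((((1 : ℝ) / (q + 1) : ℝ) : ℂ) * pairC F1 F2 q a a' b b' N))
  have h6 := norm_add_le (-((q : ℂ) * (pairCPi (pq q) F1 F2 a a' b b' N -
          F1 (pq q) * F2 (pq q) * PSr F1 F2 a a' b b' ((N : ℝ) / q)))) T
  rw [norm_neg, norm_mul] at h5 h6
  rw [Complex.norm_natCast] at h6
  have h7 : (q : ℝ) * ‖pairCPi (pq q) F1 F2 a a' b b' N -
          F1 (pq q) * F2 (pq q) * PSr F1 F2 a a' b b' ((N : ℝ) / q)‖ ≤ Cm / q * N := by
    calc (q : ℝ) * ‖pairCPi (pq q) F1 F2 a a' b b' N -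
          F1 (pq q) * F2 (pq q) * PSr F1 F2 a a' b b' ((N : ℝ) / q)‖ ≤
          q * (Cm * N / (q : ℝ) ^ 2) := mul_le_mul_of_nonneg_left hm hq0.le
      _ = Cm / q * N := by field_simp
  have h8 : ‖(((1 : ℝ) / (q + 1) : ℝ) : ℂ)‖ * ‖pairC F1 F2 q a a' b b' N‖ ≤ Cd / q * N := by
    rw [Complex.norm_real, Real.norm_eq_abs, abs_of_pos (by positivity)]
    have h9 : 0 ≤ Cd * N := (norm_nonneg _).trans hp
    calc (1 : ℝ) / (q + 1) * ‖pairC F1 F2 q a a' b b' N‖ ≤ 1 / (q + 1) * (Cd * N) :=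
          mul_le_mul_of_nonneg_left hp (by positivity)
      _ ≤ 1 / q * (Cd * N) := by
          apply mul_le_mul_of_nonneg_right _ h9
          exact one_div_le_one_div_of_le hq0 (by linarith)
      _ = Cd / q * N := by ring
  have h10 : (4 * (CT / B' ^ 2) + (Cd + Cm) / q) * N = 4 * (CT / B' ^ 2 * N) + Cd / q * N +
      Cm / q * N := by ring
  rw [h10]
  linarith

end Pool.Agent.LogG
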