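import Pool.Agent.Lib.LogG.GCls
import Pool.Agent.Lib.NSqC.CountB

/-!
# Every class modulo `k` occurs in a positive proportion at all scales
-/

set_option autoImplicit false

namespace Pool.Agent.LogG

open Real
open Pool.Agent.NSqP
open Pool.Agent.LogCh
open Pool.Agent.MP484c84Par (ballG mem_ballG crossG dotG)

lemma CV_nonneg (α β : ℝ) (k : ℕ) (a b : ZMod k) (n : ℕ) : 0 ≤ CV α β k a b n :=
  Nat.cast_nonneg _

lemma harm_Ioc_lower (X Y : ℕ) (hXY : X ≤ Y) :
    log (((Y : ℝ) + 1) / ((X : ℝ) + 1)) ≤ ∑ x ∈ Finset.Ioc X Y, 1 / (x : ℝ) := by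
  induction Y, hXY using Nat.le_induction with
  | base =>
    rw [Finset.Ioc_self, Finset.sum_empty, div_self (by positivity), log_one]
  | succ Y hY ih =>
    rw [Finset.sum_Ioc_succ_top (by omega)]
    have h1 : log ((((Y + 1 : ℕ) : ℝ) + 1) / ((X : ℝ) + 1)) =
        log (((Y : ℝ) + 1) / ((X : ℝ) + 1)) + log (((Y : ℝ) + 2) / ((Y : ℝ) + 1)) := by
      rw [← log_mul (by positivity) (by positivity)]
      congr 1
      push_cast
      field_simp
      ring
    have h2 : log (((Y : ℝ) + 2) / ((Y : ℝ) + 1)) ≤ 1 / ((Y + 1 : ℕ) : ℝ) := by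
      have h3 := Real.log_le_sub_one_of_pos
        (show (0 : ℝ) < ((Y : ℝ) + 2) / ((Y : ℝ) + 1) by positivity)
      have h4 : ((Y : ℝ) + 2) / ((Y : ℝ) + 1) - 1 = 1 / ((Y + 1 : ℕ) : ℝ) := by
        push_cast
        field_simp
        ring
      linarith
    rw [h1]
    linarith

theorem classes_positive (k : ℕ) [NeZero k] (a b : ZMod k) (α β : ℝ) (hα : 0 < α)
    (hαβ : α < β) : ∃ c : ℝ, 0 < c ∧ ∃ x0 : ℕ, ∀ x : ℕ, x0 ≤ x →
      c * x ≤ ∑ n ∈ Finset.Icc 1 x, CV α β k a b n := by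
  classical
  obtain ⟨c0, hc0, x1, hx1⟩ := mass_lower α β hα hαβ
  have hk1 : 1 ≤ k := Nat.one_le_iff_ne_zero.2 (NeZero.ne k)
  have hk : (1 : ℝ) ≤ k := by exact_mod_cast hk1
  set δ : ℝ := c0 / (2 * (k : ℝ) ^ 2) with hδ
  have hδ0 : 0 < δ := by positivity
  obtain ⟨R0, hR0⟩ := classes_windows k a b α β hα hαβ (δ / 2) (by positivity)
  set R : ℕ := max R0 5 with hRdef
  have hR5 : 5 ≤ R := le_max_right _ _
  have hRr : (5 : ℝ) ≤ R := by exact_mod_cast hR5
  obtain ⟨X0, hX0⟩ := hR0 R (le_max_left _ _)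
  -- a good scale in every window
  have hgood : ∀ X : ℕ, max (max X0 x1) 1 ≤ X → ∃ x ∈ Finset.Ioc X (R * X),
      δ * x ≤ ∑ n ∈ Finset.Icc 1 x, CV α β k a b n := by
    intro X hX
    have hXX0 : X0 ≤ X := ((le_max_left _ _).trans (le_max_left _ _)).trans hX
    have hXx1 : x1 ≤ X := ((le_max_right _ _).trans (le_max_left _ _)).trans hX
    have hX1 : 1 ≤ X := (le_max_right _ _).trans hX
    have hX1r : (1 : ℝ) ≤ X := by exact_mod_cast hX1
    by_contra hcon
    push Not at hcon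
    have h1 := hX0 X hXX0
    have h2 : ∀ x ∈ Finset.Ioc X (R * X), δ * (1 / (x : ℝ)) ≤ 1 / (x : ℝ) ^ 2 *
        |∑ n ∈ Finset.Icc 1 x, CV α β k a b n -
          (∑ n ∈ Finset.Icc 1 x, ((DV α β n).card : ℝ)) / (k : ℝ) ^ 2| := by
      intro x hx
      have hx' := Finset.mem_Ioc.1 hx
      have hx0 : (0 : ℝ) < x := by exact_mod_cast (by omega : 0 < x)
      have e1 := hcon x hx
      have e2 : c0 * x ≤ ∑ n ∈ Finset.Icc 1 x, ((DV α β n).card : ℝ) := hx1 x (by omega)
      have e3 : c0 * x / (k : ℝ) ^ 2 ≤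
          (∑ n ∈ Finset.Icc 1 x, ((DV α β n).card : ℝ)) / (k : ℝ) ^ 2 :=
        div_le_div_of_nonneg_right e2 (by positivity)
      have e4 : c0 * x / (k : ℝ) ^ 2 = 2 * (δ * x) := by
        rw [hδ]; field_simp
      have e5 : δ * x ≤ |∑ n ∈ Finset.Icc 1 x, CV α β k a b n -
          (∑ n ∈ Finset.Icc 1 x, ((DV α β n).card : ℝ)) / (k : ℝ) ^ 2| := by
        rw [abs_sub_comm]
        refine le_trans ?_ (le_abs_self _)
        linarith
      calc δ * (1 / (x : ℝ)) = 1 / (x : ℝ) ^ 2 * (δ * x) := by field_simp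
        _ ≤ _ := mul_le_mul_of_nonneg_left e5 (by positivity)
    have h3 := (Finset.sum_le_sum h2).trans h1
    rw [← Finset.mul_sum] at h3
    have h4 := harm_Ioc_lower X (R * X) (Nat.le_mul_of_pos_left X (by omega))
    have h5 : log ((R : ℝ) / 2) ≤ log ((((R * X : ℕ) : ℝ) + 1) / ((X : ℝ) + 1)) := by
      apply log_le_log (by positivity)
      rw [div_le_div_iff₀ (by norm_num) (by positivity)]
      push_cast
      nlinarith
    have h6 : δ * log ((R : ℝ) / 2) ≤ δ / 2 * log R :=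
      (mul_le_mul_of_nonneg_left (h5.trans h4) hδ0.le).trans h3
    rw [log_div (by positivity) (by norm_num)] at h6
    have h7 : log (4 : ℝ) < log R := log_lt_log (by norm_num) (by linarith)
    have h8 : log (4 : ℝ) = 2 * log 2 := by
      rw [show (4 : ℝ) = 2 ^ 2 by norm_num, log_pow]
      push_cast
      ring
    have h9 : δ * log R - 2 * (δ * log 2) ≤ 0 := by nlinarith
    have h10 : 0 < δ * (log R - 2 * log 2) := mul_pos hδ0 (by linarith)
    nlinarith
  -- all scales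
  refine ⟨δ / (2 * R), by positivity, R * (max (max X0 x1) 1 + 1), fun y hy => ?_⟩
  set X : ℕ := y / R with hXdef
  have hX : max (max X0 x1) 1 ≤ X := by
    rw [hXdef, Nat.le_div_iff_mul_le (by omega)]
    calc max (max X0 x1) 1 * R ≤ (max (max X0 x1) 1 + 1) * R := Nat.mul_le_mul_right _ (by omega)
      _ = R * (max (max X0 x1) 1 + 1) := mul_comm _ _
      _ ≤ y := hy
  obtain ⟨x, hx, hxδ⟩ := hgood X hX
  rw [Finset.mem_Ioc] at hx
  have hRX : R * X ≤ y := Nat.mul_div_le y R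
  have h1 : ∑ n ∈ Finset.Icc 1 x, CV α β k a b n ≤ ∑ n ∈ Finset.Icc 1 y, CV α β k a b n := by
    apply Finset.sum_le_sum_of_subset_of_nonneg
    · apply Finset.Icc_subset_Icc_right
      exact hx.2.trans hRX
    · intro n _ _
      exact CV_nonneg _ _ _ _ _ _
  have h2 : (y : ℝ) < R * (X + 1) := by
    have h3 := Nat.lt_mul_div_succ y (show 0 < R by omega)
    exact_mod_cast h3
  have hX1 : (1 : ℝ) ≤ X := by exact_mod_cast (le_max_right _ _).trans hX
  have hxX : (X : ℝ) ≤ x := by exact_mod_cast hx.1.le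
  have hR0' : (0 : ℝ) < R := by linarith
  calc δ / (2 * R) * y ≤ δ / (2 * R) * (R * (X + 1)) :=
        mul_le_mul_of_nonneg_left h2.le (by positivity)
    _ = δ * ((X + 1) / 2) := by field_simp
    _ ≤ δ * x := mul_le_mul_of_nonneg_left (by linarith) hδ0.le
    _ ≤ _ := hxδ.trans h1

/-- the number of `n` in each class -/
theorem classes_count (k : ℕ) [NeZero k] (a : ZMod k) : ∃ x0 : ℕ, ∀ x : ℕ, x0 ≤ x →
    (x : ℝ) / (log x) ^ ((7 : ℝ) / 10) ≤ (((Finset.Icc 1 x).filter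
      (fun n => (ArithmeticFunction.cardFactors (n ^ 2 + 1) : ZMod k) = a)).card : ℝ) := by
  classical
  obtain ⟨c, hc, x1, hx1⟩ := classes_positive k a 0 1 2 one_pos one_lt_two
  obtain ⟨x2, hx2⟩ := Pool.Agent.NSqC.count_lowerB c hc
  refine ⟨max (2 * x1 + 2) x2, fun x hx => ?_⟩
  have hxx1 : 2 * x1 + 2 ≤ x := (le_max_left _ _).trans hx
  have hxx2 : x2 ≤ x := (le_max_right _ _).trans hx
  set P : ℕ → Prop := fun n => (ArithmeticFunction.cardFactors (n ^ 2 + 1) : ZMod k) = a with hP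
  have key : c * x ≤ ((Pool.Agent.NSqC.EG P x).card : ℝ) := by
    set y : ℕ := x / 2 with hy
    have hyx1 : x1 ≤ y := by omega
    have h1 := hx1 y hyx1
    have h2 := sum_PP y (fun n d : ℕ => if ((1 : ℝ) * n < ((d : ℕ) : ℝ) ∧
      ((d : ℕ) : ℝ) ≤ 2 * n) ∧ (ArithmeticFunction.cardFactors d : ZMod k) = a ∧
      (ArithmeticFunction.cardFactors ((n ^ 2 + 1) / d) : ZMod k) = 0 then (1 : ℝ) else 0)
    have h3 : ∑ n ∈ Finset.Icc 1 y, ∑ d ∈ (n ^ 2 + 1).divisors,
        (if ((1 : ℝ) * n < ((d : ℕ) : ℝ) ∧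
      ((d : ℕ) : ℝ) ≤ 2 * n) ∧ (ArithmeticFunction.cardFactors d : ZMod k) = a ∧
      (ArithmeticFunction.cardFactors ((n ^ 2 + 1) / d) : ZMod k) = 0 then (1 : ℝ) else 0) =
        ∑ n ∈ Finset.Icc 1 y, CV 1 2 k a 0 n := by
      refine Finset.sum_congr rfl fun n _ => ?_
      unfold CV DV
      rw [Finset.filter_filter, Finset.sum_boole]
    rw [h3, Finset.sum_boole] at h2
    have h4 : (PP y).filter (fun p : GaussianInt × GaussianInt =>
        ((1 : ℝ) * ((dotG p.1 p.2).toNat : ℕ) < ((nN p.1 : ℕ) : ℝ) ∧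
        ((nN p.1 : ℕ) : ℝ) ≤ 2 * ((dotG p.1 p.2).toNat : ℕ)) ∧
        (ArithmeticFunction.cardFactors (nN p.1) : ZMod k) = a ∧
        (ArithmeticFunction.cardFactors (((dotG p.1 p.2).toNat ^ 2 + 1) / nN p.1) : ZMod k) = 0)
        ⊆ Pool.Agent.NSqC.EG P x := by
      intro p hp
      rw [Finset.mem_filter] at hp
      obtain ⟨hpP, ⟨g1, g2⟩, g3, g4⟩ := hp
      have hmem := mem_PP.1 hpP
      obtain ⟨m1, m2, m3⟩ := hmem
      have hn7 : (((dotG p.1 p.2).toNat : ℕ) : ℤ) = dotG p.1 p.2 :=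
        Int.toNat_of_nonneg (by omega)
      set n := (dotG p.1 p.2).toNat with hn
      have hde : n ^ 2 + 1 = nN p.1 * nN p.2 := by
        have h5 := dot_cross_nN p.1 p.2
        rw [m1] at h5
        have h8 : ((n ^ 2 + 1 : ℕ) : ℤ) = ((nN p.1 * nN p.2 : ℕ) : ℤ) := by
          push_cast
          rw [hn7]
          linarith
        exact_mod_cast h8
      have hny : n ≤ y := by
        have : (n : ℤ) ≤ y := by rw [hn7]; exact m3
        exact_mod_cast this
      have hd1 : n < nN p.1 := by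
        rw [one_mul] at g1
        exact_mod_cast g1
      have hd2 : nN p.1 ≤ 2 * n := by exact_mod_cast g2
      have he2 : nN p.2 ≤ n := by
        by_contra hcon
        push Not at hcon
        have h6 : (n + 1) * (n + 1) ≤ nN p.1 * nN p.2 := Nat.mul_le_mul hd1 hcon
        rw [← hde] at h6
        nlinarith
      have hd0 : nN p.1 ≠ 0 := by omega
      have he0 : nN p.2 ≠ 0 := by
        intro h0
        rw [h0, mul_zero] at hde
        omega
      rw [Pool.Agent.NSqC.mem_EG]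
      refine ⟨by omega, by omega, m1, by omega, ?_⟩
      have hnat : (dotG p.1 p.2).natAbs = n := by omega
      rw [hnat, hP]
      show (ArithmeticFunction.cardFactors (n ^ 2 + 1) : ZMod k) = a
      rw [hde, Nat.mul_div_cancel_left _ (Nat.pos_of_ne_zero hd0)] at g4
      rw [hde, ArithmeticFunction.cardFactors_mul hd0 he0, Nat.cast_add, g3, g4, add_zero]
    have h5 : 4 * ∑ n ∈ Finset.Icc 1 y, CV 1 2 k a 0 n ≤
        ((Pool.Agent.NSqC.EG P x).card : ℝ) := by
      rw [← h2]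
      exact_mod_cast Finset.card_le_card h4
    have h6 : (x : ℝ) ≤ 2 * y + 1 := by
      have : x ≤ 2 * y + 1 := by omega
      exact_mod_cast this
    have h7 : (1 : ℝ) ≤ y := by
      have : 1 ≤ y := by omega
      exact_mod_cast this
    nlinarith
  have h := hx2 x hxx2 P key
  refine h.trans (Nat.cast_le.2 (Finset.card_le_card fun n hn => ?_))
  have h1 : n ∈ Finset.Icc 1 x ∧ P n := by simpa using hn
  have h2 : (ArithmeticFunction.cardFactors (n ^ 2 + 1) : ZMod k) = a := h1.2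
  simp only [Finset.mem_filter]
  exact ⟨h1.1, h2⟩

end Pool.Agent.LogG
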