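import Pool.Agent.Lib.LogG.GDefs
import Pool.Agent.Lib.LogCh.ACf
import Pool.Agent.Lib.LogCh.ASLT
import Pool.Agent.Lib.LogCh.ASub
import Pool.Agent.Lib.LogCh.ABdd

/-!
# The test functions with real alphabet
-/

set_option autoImplicit false

namespace Pool.Agent.LogG

open Real
open Pool.Agent.NSqP
open Pool.Agent.LogCh
open Pool.Agent.MP484c84Par (ballG mem_ballG crossG dotG)

theorem psiR_mean {q : ℕ} (hq : q.Prime) (h4 : q % 4 = 1) (L0 : ℕ) (x : ℕ → XR) :
    ∑ y : YY q, psiR L0 q x y = 0 := by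
  unfold psiR
  rw [← Finset.sum_div, Finset.sum_comm]
  have h0 : ∑ j ∈ Finset.range L0, ∑ y : YY q, (x j).2.1 *
      wgt q y (cf (fun i => (x i).1) j) * inrR L0 q x j = 0 := by
    refine Finset.sum_eq_zero (fun j _ => ?_)
    have h1 : ∀ y : YY q, (x j).2.1 * wgt q y (cf (fun i => (x i).1) j) *
        inrR L0 q x j = ((x j).2.1 * inrR L0 q x j) *
          wgt q y (cf (fun i => (x i).1) j) := by
      intro y
      ring
    rw [Finset.sum_congr rfl (fun y _ => h1 y), ← Finset.mul_sum,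
      wgt_sum hq h4 _ (cf_coprime _ j), mul_zero]
  rw [h0, zero_div]

theorem psiRB_mean (B : ℝ) (L0 q : ℕ) (x : ℕ → XR) : ∑ y : YY q, psiRB B L0 q x y = 0 := by
  classical
  by_cases h : q.Prime ∧ q % 4 = 1 ∧ ∀ y' : YY q, |psiR L0 q x y'| ≤ B
  · have h1 : ∀ y : YY q, psiRB B L0 q x y = psiR L0 q x y := by
      intro y
      unfold psiRB
      rw [if_pos h]
    rw [Finset.sum_congr rfl (fun y _ => h1 y)]
    exact psiR_mean h.1 h.2.1 L0 x
  · refine Finset.sum_eq_zero (fun y _ => ?_)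
    unfold psiRB
    rw [if_neg h]

theorem psiRB_bound (B : ℝ) (hB : 0 ≤ B) (L0 q : ℕ) (x : ℕ → XR) (y : YY q) :
    |psiRB B L0 q x y| ≤ B := by
  classical
  unfold psiRB
  split_ifs with h
  · exact h.2.2 y
  · rw [abs_zero]
    exact hB

theorem psiR_congr (L0 q : ℕ) (x x' : ℕ → XR) (y : YY q) (h : ∀ i, i < 2 * L0 → x i = x' i) :
    psiR L0 q x y = psiR L0 q x' y := by
  have hcf : ∀ j, j < 2 * L0 → cf (fun i => (x i).1) j = cf (fun i => (x' i).1) j := by
    intro j hj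
    refine cf_congr _ _ j (fun i hi => ?_)
    show (x i).1 = (x' i).1
    rw [h i (by omega)]
  unfold psiR
  congr 1
  refine Finset.sum_congr rfl (fun j hj => ?_)
  rw [Finset.mem_range] at hj
  have hin : inrR L0 q x j = inrR L0 q x' j := by
    unfold inrR
    refine Finset.sum_congr rfl (fun k hk => ?_)
    rw [Finset.mem_Icc] at hk
    have hx : cfx (fun i => (x i).1) j (j + k) = cfx (fun i => (x' i).1) j (j + k) := by
      unfold cfx
      rw [hcf j (by omega), hcf (j + k) (by omega)]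
    rw [hx, h (j + k) (by omega)]
  rw [hin, hcf j (by omega), h j (by omega)]

theorem psiRB_congr (B : ℝ) (L0 q : ℕ) (x x' : ℕ → XR) (y : YY q)
    (h : ∀ i, i < 2 * L0 → x i = x' i) : psiRB B L0 q x y = psiRB B L0 q x' y := by
  classical
  have h1 : ∀ y' : YY q, psiR L0 q x y' = psiR L0 q x' y' := fun y' =>
    psiR_congr L0 q x x' y' h
  unfold psiRB
  simp only [h1]

open Classical in
theorem psiR_orbit {q : ℕ} (hq : q.Prime) (h4 : q % 4 = 1) (L0 : ℕ) (g h : GaussianInt → ℝ)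
    {N : ℕ} {z : GaussianInt} (hz : z ∈ VV N) :
    psiR L0 q (xr g h N z) (ym q z (sg N z)) =
      (∑ j ∈ Finset.range L0, ∑ k ∈ Finset.Icc 1 L0,
        if crossG (sgi N j z) (sgi N k (sgi N j z)) = (q : ℤ) then
          g (sgi N j z) * h (sgi N k (sgi N j z)) *
            ((q : ℝ) * (if pq q ∣ sgi N j z then 1 else 0) - (q : ℝ) / (q + 1))
        else 0) / L0 := by
  have hs : ∀ i, (fun i => ((xr g h N z) i).1) i = aq N (sgi N i z) := fun i => rfl
  unfold psiR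
  congr 1
  refine Finset.sum_congr rfl (fun j _ => ?_)
  have hw : wgt q (ym q z (sg N z)) (cf (fun i => ((xr g h N z) i).1) j) =
      (q : ℝ) * (if pq q ∣ sgi N j z then 1 else 0) - (q : ℝ) / (q + 1) := by
    unfold wgt
    have h1 := lnr_orbit hq h4 hz (fun i => ((xr g h N z) i).1) hs j
    by_cases hd : pq q ∣ sgi N j z
    · rw [if_pos (h1.2 hd), if_pos hd]
    · rw [if_neg (fun h => hd (h1.1 h)), if_neg hd]
  have hf : ((xr g h N z) j).2.1 = g (sgi N j z) := rfl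
  have hi : inrR L0 q (xr g h N z) j = ∑ k ∈ Finset.Icc 1 L0,
      if crossG (sgi N j z) (sgi N k (sgi N j z)) = (q : ℤ) then
        h (sgi N k (sgi N j z)) else 0 := by
    unfold inrR
    refine Finset.sum_congr rfl (fun k _ => ?_)
    rw [cfx_orbit hz (fun i => ((xr g h N z) i).1) hs j (j + k), sgi_add]
    have hg : ((xr g h N z) (j + k)).2.2 = h (sgi N k (sgi N j z)) := by
      rw [← sgi_add]
      rfl
    rw [hg]
  rw [hw, hf, hi, Finset.mul_sum]
  refine Finset.sum_congr rfl (fun k _ => ?_)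
  by_cases hc : crossG (sgi N j z) (sgi N k (sgi N j z)) = (q : ℤ)
  · rw [if_pos hc, if_pos hc]
    ring
  · rw [if_neg hc, if_neg hc, mul_zero]

open Classical in
private lemma gp_wgt (q : ℕ) (y : YY q) (c : ℤ × ℤ) :
    |wgt q y c| ≤ (q : ℝ) * (if lnr q y c = 0 then 1 else 0) + 1 := by
  unfold wgt
  have h1 : (q : ℝ) / (q + 1) ≤ 1 := by
    rw [div_le_one (by positivity)]
    linarith
  have h2 : (0 : ℝ) ≤ (q : ℝ) / (q + 1) := by positivity
  have h3 : (0 : ℝ) ≤ (q : ℝ) * (if lnr q y c = 0 then 1 else 0) := by positivity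
  rw [abs_le]
  constructor
  · linarith
  · linarith

private lemma gp_wgt' (q : ℕ) (y : YY q) (c : ℤ × ℤ) : |wgt q y c| ≤ (q : ℝ) + 1 := by
  classical
  refine (gp_wgt q y c).trans ?_
  have : (q : ℝ) * (if lnr q y c = 0 then 1 else 0) ≤ q := by
    split_ifs
    · simp
    · simp
  linarith

private lemma gp_inr (L0 q : ℕ) (g h : GaussianInt → ℝ) (hh : ∀ z, |h z| ≤ 1) (N : ℕ)
    (z : GaussianInt) (j : ℕ) :
    |inrR L0 q (xr g h N z) j| ≤ (((Finset.Icc 1 L0).filter (fun k =>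
      cfx (fun i => (xr g h N z i).1) j (j + k) = (q : ℤ))).card : ℝ) := by
  unfold inrR
  refine (Finset.abs_sum_le_sum_abs _ _).trans ?_
  rw [Finset.card_filter]
  push_cast
  refine Finset.sum_le_sum (fun k _ => ?_)
  split_ifs
  · exact hh _
  · simp

/-- the product of the first factor and the inner sum -/
private lemma gp_prod (L0 q : ℕ) (a : ℝ) (g h : GaussianInt → ℝ) (ha : 0 < a)
    (hg1 : ∀ z, |g z| ≤ 1) (hh : ∀ z, |h z| ≤ 1) (N : ℕ)
    (hga : ∀ z, g z ≠ 0 → a * N < nN z)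
    (hN : 4 * L0 + 4 < (VV N).card) {z : GaussianInt} (hz : z ∈ VV N) (j : ℕ) :
    |(xr g h N z j).2.1| * |inrR L0 q (xr g h N z) j| ≤ 2 / √a + 1 := by
  by_cases hza : a * N < nN (sgi N j z)
  · have h1 : |(xr g h N z j).2.1| ≤ 1 := hg1 _
    have h2 := gp_inr L0 q g h hh N z j
    have h3 : (Finset.Icc 1 L0).filter (fun k =>
        cfx (fun i => (xr g h N z i).1) j (j + k) = (q : ℤ)) =
        (Finset.Icc 1 L0).filter (fun k => crossG (sgi N j z) (sgi N k (sgi N j z)) = (q : ℤ)) := by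
      refine Finset.filter_congr (fun k _ => ?_)
      rw [cfx_orbit hz (fun i => (xr g h N z i).1) (fun i => rfl) j (j + k), sgi_add]
    rw [h3] at h2
    have h4 := inner_bound a ha q L0 N hN (sgi_mem hz j) hza
    calc _ ≤ 1 * (2 / √a + 1) := mul_le_mul h1 (h2.trans h4) (abs_nonneg _) zero_le_one
      _ = _ := one_mul _
  · have h1 : (xr g h N z j).2.1 = 0 := by
      show g (sgi N j z) = 0
      by_contra hne
      exact hza (hga _ hne)
    rw [h1]
    simp only [abs_zero, zero_mul]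
    positivity

private lemma gp_main (L0 q : ℕ) (a : ℝ) (g h : GaussianInt → ℝ) (ha : 0 < a)
    (hg1 : ∀ z, |g z| ≤ 1) (hh : ∀ z, |h z| ≤ 1) (N : ℕ)
    (hga : ∀ z, g z ≠ 0 → a * N < nN z)
    (hN : 4 * L0 + 4 < (VV N).card) {z : GaussianInt} (hz : z ∈ VV N) (y : YY q) :
    |psiR L0 q (xr g h N z) y| ≤ (2 / √a + 1) *
      ((∑ j ∈ Finset.range L0, |wgt q y (cf (fun i => aq N (sgi N i z)) j)|) / L0) := by
  unfold psiR
  rw [abs_div, abs_of_nonneg (Nat.cast_nonneg L0 : (0 : ℝ) ≤ (L0 : ℝ)), ← mul_div_assoc]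
  refine div_le_div_of_nonneg_right ?_ (Nat.cast_nonneg L0)
  refine (Finset.abs_sum_le_sum_abs _ _).trans ?_
  rw [Finset.mul_sum]
  refine Finset.sum_le_sum (fun j _ => ?_)
  rw [abs_mul, abs_mul]
  have h1 := gp_prod L0 q a g h ha hg1 hh N hga hN hz j
  have h2 := abs_nonneg (wgt q y (cf (fun i => aq N (sgi N i z)) j))
  have h3 : cf (fun i => (xr g h N z i).1) j = cf (fun i => aq N (sgi N i z)) j := rfl
  rw [h3]
  calc _ = (|(xr g h N z j).2.1| * |inrR L0 q (xr g h N z) j|) *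
      |wgt q y (cf (fun i => aq N (sgi N i z)) j)| := by ring
    _ ≤ _ := mul_le_mul_of_nonneg_right h1 h2

theorem psiR_triv (L0 q : ℕ) (hL0 : 1 ≤ L0) (a : ℝ) (g h : GaussianInt → ℝ) (ha : 0 < a)
    (hg1 : ∀ z, |g z| ≤ 1) (hh : ∀ z, |h z| ≤ 1) (N : ℕ)
    (hga : ∀ z, g z ≠ 0 → a * N < nN z)
    (hN : 4 * L0 + 4 < (VV N).card) {z : GaussianInt} (hz : z ∈ VV N) (y : YY q) :
    |psiR L0 q (xr g h N z) y| ≤ (2 / √a + 1) * (q + 1) := by
  refine (gp_main L0 q a g h ha hg1 hh N hga hN hz y).trans ?_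
  have hL : (0 : ℝ) < L0 := by exact_mod_cast hL0
  refine mul_le_mul_of_nonneg_left ?_ (by positivity)
  rw [div_le_iff₀ hL]
  refine (Finset.sum_le_card_nsmul _ _ ((q : ℝ) + 1) (fun j _ => gp_wgt' q y _)).trans ?_
  rw [Finset.card_range, nsmul_eq_mul]
  linarith

theorem psiR_good {q : ℕ} (hq : q.Prime) (h4 : q % 4 = 1) (L0 : ℕ) (hqL : q ≤ L0)
    (a : ℝ) (g h : GaussianInt → ℝ) (ha : 0 < a)
    (hg1 : ∀ z, |g z| ≤ 1) (hh : ∀ z, |h z| ≤ 1) (N : ℕ)
    (hga : ∀ z, g z ≠ 0 → a * N < nN z) (hN1 : 1 ≤ N) (hN : 4 * L0 + 4 < (VV N).card)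
    {z : GaussianInt} (hz : z ∈ VV N) {θ : ℕ → ℝ} (hθ : IsAng N z θ) (y : YY q) :
    |psiR L0 q (xr g h N z) y| ≤ (2 / √a + 1) * (2 + θ L0 * N / L0) := by
  classical
  refine (gp_main L0 q a g h ha hg1 hh N hga hN hz y).trans ?_
  have hq0 : (0 : ℝ) < q := by exact_mod_cast hq.pos
  have hL : (0 : ℝ) < L0 := lt_of_lt_of_le hq0 (by exact_mod_cast hqL)
  have hqL' : (q : ℝ) ≤ L0 := by exact_mod_cast hqL
  refine mul_le_mul_of_nonneg_left ?_ (by positivity)
  rw [div_le_iff₀ hL]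
  have h1 := sub_count hq h4 L0 N hN1 hN hz hθ y
  have h2 : ∑ j ∈ Finset.range L0, |wgt q y (cf (fun i => aq N (sgi N i z)) j)| ≤
      (q : ℝ) * (((Finset.range L0).filter (fun j =>
        lnr q y (cf (fun i => aq N (sgi N i z)) j) = 0)).card : ℝ) + L0 := by
    refine (Finset.sum_le_sum (fun j _ => gp_wgt q y _)).trans ?_
    rw [Finset.sum_add_distrib, ← Finset.mul_sum, Finset.sum_const, Finset.card_range,
      nsmul_eq_mul, mul_one, Finset.card_filter]
    push_cast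
    exact le_rfl
  have h3 : (q : ℝ) * (((Finset.range L0).filter (fun j =>
        lnr q y (cf (fun i => aq N (sgi N i z)) j) = 0)).card : ℝ) ≤ q + θ L0 * N := by
    refine (mul_le_mul_of_nonneg_left h1 hq0.le).trans (le_of_eq ?_)
    field_simp
  have h4 : (2 + θ L0 * N / L0) * L0 = 2 * L0 + θ L0 * N := by
    field_simp
  rw [h4]
  linarith

end Pool.Agent.LogG
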