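import Pool.Agent.Lib.LogG.GPos

/-!
# Final forms
-/

set_option autoImplicit false

namespace Pool.Agent.LogG

open Real
open Pool.Agent.NSqP
open Pool.Agent.LogCh
open Pool.Agent.MP484c84Par (ballG mem_ballG crossG dotG)

lemma mass_eq (α β : ℝ) (x : ℕ) : 4 * ∑ n ∈ Finset.Icc 1 x, ((DV α β n).card : ℝ) =
    ((SEC α β x).card : ℝ) := by
  classical
  have h1 := sum_PP x (fun n d : ℕ => if α * n < ((d : ℕ) : ℝ) ∧ ((d : ℕ) : ℝ) ≤ β * n then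
    (1 : ℝ) else 0)
  have h2 : ∀ n ∈ Finset.Icc 1 x, ∑ d ∈ (n ^ 2 + 1).divisors,
      (if α * n < ((d : ℕ) : ℝ) ∧ ((d : ℕ) : ℝ) ≤ β * n then (1 : ℝ) else 0) =
      ((DV α β n).card : ℝ) := by
    intro n _
    unfold DV
    rw [Finset.sum_boole]
  rw [Finset.sum_congr rfl h2] at h1
  rw [← h1]
  rw [Finset.sum_boole]
  congr 2
  unfold SEC
  refine Finset.filter_congr fun p hp => ?_
  rw [cast_toNat_dot hp]

theorem mass_upper (α β : ℝ) (hα : 0 < α) (hαβ : α < β) : ∃ C : ℝ, ∀ x : ℕ,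
    ∑ n ∈ Finset.Icc 1 x, ((DV α β n).card : ℝ) ≤ C * x := by
  obtain ⟨K, hK, h⟩ := sec_card α β hα (hα.trans hαβ)
  refine ⟨K, fun x => ?_⟩
  have h1 := h x
  rw [← mass_eq] at h1
  have h2 : 0 ≤ ∑ n ∈ Finset.Icc 1 x, ((DV α β n).card : ℝ) :=
    Finset.sum_nonneg fun n _ => Nat.cast_nonneg _
  linarith

end Pool.Agent.LogG
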