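import Mathlib

/-!
# GWin: from the bad scales of one order to windows of scales (double counting; pure Mathlib)

PROOF of `WINDOW`. Fix `ε`; let `η = ε / 4` (or smaller), take `h, y0` from `hLip` for `η` and `h0, X, g` from `hP`
for `η`. Let `D = 2 η` and call `x : ℕ` bad if `|S (C x)| > D`. Let `B ≥ 0` (replace by `max B 0`).
Choose `J` with `∑_{j<J} g j > 32 (|h0| + 1) (B + 1) / ε` and `N0` for this `J`. Let `x` be a bad natural number with
`x ≥ 1/h`, `C x ≥ y0`, and `j < J`. For all natural `N ∈ [C x (X j), C (x+1) (X j))` the real number `y = N / X j` is in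
`[C x, C (x+1)] ⊆ [C x, (1+h) C x]`, so `|S (N / X j)| > D - η = η`. There are at least `C X j - 1 ≥ C X j / 2` such
`N`, so `∑_N 1/N ≥ (C X j / 2) / (C (x+1) X j) ≥ 1/(4 x)`. The intervals for distinct `x` are disjoint. So, if
`X' ≥ X0` (such that all `x > X'` satisfy the conditions and `C x X j ≥ N0`), for each `j < J`
`∑_{x ∈ Ioc X' (R X') bad} 1/x ≤ 4 ∑_{N ∈ W, |S (N / X j)| > η} 1/N`, where `W` is the set of natural numbers from
`X'` to `C (R X' + 1) Xmax` (`Xmax ≥ X j` for all `j < J`, natural). Multiply by `g j`, sum over `j < J`, exchange: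
`(∑_{j<J} g j) A ≤ 4 ∑_{N ∈ W} (1/N) ∑_{j<J bad} g j ≤ 4 h0 ∑_{N ∈ W} 1/N ≤ 4 |h0| (log R + log (2 C Xmax) + 2)`
(harmonic sums: `∑_{N=a}^{b} 1/N ≤ 1 + log (b/a)`), where `A = ∑_{x ∈ Ioc X' (R X') bad} 1/x`. For `R ≥ R0` this is
`≤ 8 |h0| log R`, so `A ≤ ε / (4 (B+1)) log R`. Finally
`∑_{x ∈ Ioc X' (R X')} |S (C x)| / x ≤ D (1 + log R) + B A ≤ ε log R` for `R ≥ R0`
(`∑_{x ∈ Ioc X' (R X')} 1/x ≤ log R + 1`, indeed `≤ log R`).
-/

set_option autoImplicit false

namespace Pool.Agent.LogG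

open Real

private theorem harmW (a : ℕ) (ha : 1 ≤ a) (b : ℕ) (hab : a ≤ b) :
    ∑ n ∈ Finset.Ioc a b, 1 / (n : ℝ) ≤ Real.log (b / a) := by
  induction b, hab using Nat.le_induction with
  | base =>
    have ha0 : (a : ℝ) ≠ 0 := by
      have : (0:ℝ) < a := by exact_mod_cast ha
      exact this.ne'
    simp [div_self ha0]
  | succ b hb ih =>
    rw [Finset.sum_Ioc_succ_top hb]
    have hb0 : (0:ℝ) < b := by exact_mod_cast lt_of_lt_of_le ha hb
    have ha0 : (0:ℝ) < a := by exact_mod_cast ha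
    have h1 := Real.one_sub_inv_le_log_of_pos (show (0:ℝ) < ((b:ℝ)+1)/b by positivity)
    have h2 : Real.log (((b:ℝ)+1)/a) = Real.log (b / a) + Real.log (((b:ℝ)+1)/b) := by
      rw [← Real.log_mul (by positivity) (by positivity)]
      congr 1; field_simp
    push_cast
    rw [h2]
    have h3 : 1 - (((b:ℝ)+1)/b)⁻¹ = 1/((b:ℝ)+1) := by field_simp; ring
    linarith

/-- the block of natural numbers between `x c` and `(x + 1) c` -/
private noncomputable def blkW (c : ℝ) (x : ℕ) : Finset ℕ :=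
  Finset.Ico ⌈(x : ℝ) * c⌉₊ ⌈((x : ℝ) + 1) * c⌉₊

private theorem mem_blkW {c : ℝ} {x N : ℕ} :
    N ∈ blkW c x ↔ (x : ℝ) * c ≤ N ∧ (N : ℝ) < ((x : ℝ) + 1) * c := by
  rw [blkW, Finset.mem_Ico, Nat.ceil_le, Nat.lt_ceil]

private theorem blkW_sum (c : ℝ) (hc : 2 ≤ c) (x : ℕ) (hx : 1 ≤ x) :
    1 / (x : ℝ) ≤ 4 * ∑ N ∈ blkW c x, 1 / (N : ℝ) := by
  have hx1 : (1:ℝ) ≤ x := by exact_mod_cast hx
  have hcard : c / 2 ≤ ((blkW c x).card : ℝ) := by
    rw [blkW, Nat.card_Ico]
    have h1 : ((x:ℝ) + 1) * c ≤ ⌈((x : ℝ) + 1) * c⌉₊ := Nat.le_ceil _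
    have h2 : (⌈(x : ℝ) * c⌉₊ : ℝ) < (x : ℝ) * c + 1 := Nat.ceil_lt_add_one (by positivity)
    have h3 : ⌈(x : ℝ) * c⌉₊ ≤ ⌈((x : ℝ) + 1) * c⌉₊ := Nat.ceil_le_ceil (by nlinarith)
    rw [Nat.cast_sub h3]
    nlinarith
  have hterm : ∀ N ∈ blkW c x, 1 / (((x:ℝ) + 1) * c) ≤ 1 / (N : ℝ) := by
    intro N hN
    rw [mem_blkW] at hN
    apply one_div_le_one_div_of_le _ hN.2.le
    have : 0 < (x:ℝ) * c := by positivity
    linarith [hN.1]
  have hsum := Finset.card_nsmul_le_sum _ _ _ hterm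
  rw [nsmul_eq_mul] at hsum
  have h4 : c / 2 * (1 / (((x:ℝ) + 1) * c)) ≤ ((blkW c x).card : ℝ) * (1 / (((x:ℝ) + 1) * c)) :=
    mul_le_mul_of_nonneg_right hcard (by positivity)
  have h5 : c / 2 * (1 / (((x:ℝ) + 1) * c)) = 1 / (2 * ((x:ℝ) + 1)) := by
    have hc0 : c ≠ 0 := by linarith
    field_simp
  have h6 : 1 / (x:ℝ) ≤ 4 * (1 / (2 * ((x:ℝ) + 1))) := by
    rw [show 4 * (1 / (2 * ((x:ℝ) + 1))) = 2 / ((x:ℝ) + 1) by field_simp; ring]
    rw [div_le_div_iff₀ (by positivity) (by positivity)]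
    linarith
  linarith

private theorem blkW_disj (c : ℝ) (hc : 2 ≤ c) (s : Finset ℕ) :
    (s : Set ℕ).PairwiseDisjoint (blkW c) := by
  have key : ∀ x y : ℕ, x < y → Disjoint (blkW c x) (blkW c y) := by
    intro x y hxy
    rw [Finset.disjoint_left]
    intro N h1 h2
    rw [mem_blkW] at h1 h2
    have : (x:ℝ) + 1 ≤ y := by exact_mod_cast hxy
    nlinarith [h1.2, h2.1]
  intro x _ y _ hxy
  rcases lt_or_gt_of_ne hxy with h | h
  · exact key x y h
  · exact (key y x h).symm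

open Classical in
theorem WINDOW (S : ℝ → ℝ) (B : ℝ) (hB : ∀ y : ℝ, 0 ≤ y → |S y| ≤ B)
    (hLip : ∀ ε : ℝ, 0 < ε → ∃ h y0 : ℝ, 0 < h ∧ 1 ≤ y0 ∧ ∀ y y' : ℝ, y0 ≤ y → y ≤ y' →
      y' ≤ (1 + h) * y → |S y' - S y| ≤ ε)
    (hP : ∀ ε : ℝ, 0 < ε → ∃ (h0 : ℝ) (X g : ℕ → ℝ), (∀ j, 2 ≤ X j) ∧ (∀ j, 0 ≤ g j) ∧
      (∀ M : ℝ, ∃ J : ℕ, M < ∑ j ∈ Finset.range J, g j) ∧ ∀ J : ℕ, ∃ N0 : ℕ, ∀ N : ℕ, N0 ≤ N →
        ∑ j ∈ (Finset.range J).filter (fun j => ε < |S (N / X j)|), g j ≤ h0)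
    (C : ℕ) (hC : 1 ≤ C) (ε : ℝ) (hε : 0 < ε) : ∃ R0 : ℕ, ∀ R : ℕ, R0 ≤ R → ∃ X0 : ℕ, ∀ X : ℕ,
      X0 ≤ X → ∑ x ∈ Finset.Ioc X (R * X), |S (C * x)| / x ≤ ε * log R := by
  have hB0 : 0 ≤ B := le_trans (abs_nonneg _) (hB 0 le_rfl)
  obtain ⟨h, y0, hh, hy0, hL⟩ := hLip (ε / 4) (by positivity)
  obtain ⟨h0, Xs, g, hXs, hg, hdiv, hPJ⟩ := hP (ε / 4) (by positivity)
  obtain ⟨J, hJ⟩ := hdiv (32 * (|h0| + 1) * (B + 1) / ε)
  obtain ⟨N0, hN0⟩ := hPJ J
  obtain ⟨Xm, hXm⟩ : ∃ Xm : ℕ, ∀ j < J, Xs j ≤ Xm := by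
    refine ⟨∑ j ∈ Finset.range J, ⌈Xs j⌉₊, fun j hj => ?_⟩
    have h1 : Xs j ≤ (⌈Xs j⌉₊ : ℝ) := Nat.le_ceil _
    have h2 : ⌈Xs j⌉₊ ≤ ∑ j ∈ Finset.range J, ⌈Xs j⌉₊ :=
      Finset.single_le_sum (f := fun j => ⌈Xs j⌉₊) (fun _ _ => Nat.zero_le _)
        (Finset.mem_range.mpr hj)
    exact h1.trans (by exact_mod_cast h2)
  have hJpos : 0 < J := by
    rcases Nat.eq_zero_or_pos J with h0J | h0J
    · exfalso
      subst h0J
      simp only [Finset.range_zero, Finset.sum_empty] at hJ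
      have : 0 ≤ 32 * (|h0| + 1) * (B + 1) / ε := by positivity
      linarith
    · exact h0J
  have hXm2 : (2:ℝ) ≤ Xm := (hXs 0).trans (hXm 0 hJpos)
  have hC1 : (1:ℝ) ≤ C := by exact_mod_cast hC
  refine ⟨2 * C * Xm, fun R hR => ?_⟩
  refine ⟨max (max N0 1) (max ⌈1 / h⌉₊ ⌈y0⌉₊), fun X hX => ?_⟩
  have hXN0 : N0 ≤ X := le_trans (le_trans (le_max_left _ _) (le_max_left _ _)) hX
  have hX1 : 1 ≤ X := le_trans (le_trans (le_max_right _ _) (le_max_left _ _)) hX
  have hXh : 1 / h ≤ X := by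
    have : ⌈1 / h⌉₊ ≤ X := le_trans (le_trans (le_max_left _ _) (le_max_right _ _)) hX
    exact (Nat.le_ceil _).trans (by exact_mod_cast this)
  have hXy : y0 ≤ X := by
    have : ⌈y0⌉₊ ≤ X := le_trans (le_trans (le_max_right _ _) (le_max_right _ _)) hX
    exact (Nat.le_ceil _).trans (by exact_mod_cast this)
  have hX1r : (1:ℝ) ≤ X := by exact_mod_cast hX1
  have hRr : 2 * (C:ℝ) * Xm ≤ R := by exact_mod_cast hR
  have hR1 : (1:ℝ) ≤ R := by nlinarith
  have hR1n : 1 ≤ R := by exact_mod_cast hR1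
  have hlogR : Real.log (2 * C * Xm) ≤ Real.log R := Real.log_le_log (by positivity) hRr
  have hlogR0 : 0 ≤ Real.log R := Real.log_nonneg hR1
  set Y : ℕ := C * (R * X + 1) * Xm with hY
  have hYr : (Y:ℝ) = C * (R * X + 1) * Xm := by rw [hY]; push_cast; ring
  set bad : Finset ℕ := (Finset.Ioc X (R * X)).filter (fun x => ε / 2 < |S (C * x)|) with hbad
  set A : ℝ := ∑ x ∈ bad, 1 / (x : ℝ) with hA
  -- one scale
  have hone : ∀ j ∈ Finset.range J, A ≤ 4 * ∑ N ∈ (Finset.Ioc X Y).filter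
      (fun N : ℕ => ε / 4 < |S (N / Xs j)|), 1 / (N : ℝ) := by
    intro j hj
    have hj' := Finset.mem_range.mp hj
    have hc2 : 2 ≤ (C:ℝ) * Xs j := by nlinarith [hXs j]
    have hXj0 : 0 < Xs j := by linarith [hXs j]
    calc A ≤ ∑ x ∈ bad, 4 * ∑ N ∈ blkW (C * Xs j) x, 1 / (N : ℝ) := by
          apply Finset.sum_le_sum
          intro x hx
          rw [hbad, Finset.mem_filter, Finset.mem_Ioc] at hx
          exact blkW_sum _ hc2 x (by omega)
      _ = 4 * ∑ N ∈ bad.biUnion (blkW (C * Xs j)), 1 / (N : ℝ) := by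
          rw [← Finset.mul_sum, Finset.sum_biUnion (blkW_disj _ hc2 _)]
      _ ≤ _ := by
          apply mul_le_mul_of_nonneg_left _ (by norm_num)
          apply Finset.sum_le_sum_of_subset_of_nonneg
          · intro N hN
            rw [Finset.mem_biUnion] at hN
            obtain ⟨x, hx, hNx⟩ := hN
            rw [hbad, Finset.mem_filter, Finset.mem_Ioc] at hx
            obtain ⟨⟨hx1, hx2⟩, hxb⟩ := hx
            rw [mem_blkW] at hNx
            obtain ⟨hN1, hN2⟩ := hNx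
            have hx1r : (X:ℝ) < x := by exact_mod_cast hx1
            have hx2r : (x:ℝ) ≤ R * X := by exact_mod_cast hx2
            have hx0 : (1:ℝ) ≤ x := by linarith
            rw [Finset.mem_filter, Finset.mem_Ioc]
            refine ⟨⟨?_, ?_⟩, ?_⟩
            · have : (X:ℝ) < N := by nlinarith
              exact_mod_cast this
            · have : (N:ℝ) ≤ Y := by
                rw [hYr]
                have h1 : ((x:ℝ) + 1) * (C * Xs j) ≤ (R * X + 1) * (C * Xm) := by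
                  apply mul_le_mul (by linarith) _ (by positivity) (by positivity)
                  exact mul_le_mul_of_nonneg_left (hXm j hj') (by positivity)
                linarith
              exact_mod_cast this
            · have hy1 : (C:ℝ) * x ≤ N / Xs j := by
                rw [le_div_iff₀ hXj0]; linarith
              have hy2 : (N:ℝ) / Xs j ≤ (1 + h) * (C * x) := by
                rw [div_le_iff₀ hXj0]
                have hhx : 1 ≤ h * x := by
                  have : 1 / h ≤ x := by linarith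
                  rw [div_le_iff₀ hh] at this
                  linarith
                have h2 : ((x:ℝ) + 1) * (C * Xs j) ≤ (1 + h) * (C * x) * Xs j := by
                  have h3 : ((x:ℝ) + 1) ≤ (1 + h) * x := by linarith
                  calc ((x:ℝ) + 1) * (C * Xs j) ≤ ((1 + h) * x) * (C * Xs j) :=
                        mul_le_mul_of_nonneg_right h3 (by positivity)
                    _ = _ := by ring
                linarith
              have hy0x : y0 ≤ (C:ℝ) * x := by nlinarith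
              have := hL _ _ hy0x hy1 hy2
              have h4 : |S (C * x)| ≤ |S (N / Xs j)| + |S (N / Xs j) - S (C * x)| := by
                have := abs_sub_abs_le_abs_sub (S (C * x)) (S (N / Xs j))
                rw [abs_sub_comm (S (C * x))] at this
                linarith
              linarith
          · intro N _ _
            positivity
  -- all scales
  have hall : (∑ j ∈ Finset.range J, g j) * A ≤ 4 * |h0| * ∑ N ∈ Finset.Ioc X Y, 1 / (N : ℝ) := by
    calc (∑ j ∈ Finset.range J, g j) * A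
        = ∑ j ∈ Finset.range J, g j * A := by rw [Finset.sum_mul]
      _ ≤ ∑ j ∈ Finset.range J, g j * (4 * ∑ N ∈ (Finset.Ioc X Y).filter
            (fun N : ℕ => ε / 4 < |S (N / Xs j)|), 1 / (N : ℝ)) :=
          Finset.sum_le_sum fun j hj => mul_le_mul_of_nonneg_left (hone j hj) (hg j)
      _ = ∑ N ∈ Finset.Ioc X Y, 4 * (1 / (N : ℝ)) * ∑ j ∈ (Finset.range J).filter
            (fun j => ε / 4 < |S (N / Xs j)|), g j := by
          simp only [Finset.sum_filter, Finset.mul_sum]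
          rw [Finset.sum_comm]
          apply Finset.sum_congr rfl
          intro N _
          apply Finset.sum_congr rfl
          intro j _
          split_ifs <;> ring
      _ ≤ ∑ N ∈ Finset.Ioc X Y, 4 * (1 / (N : ℝ)) * |h0| := by
          apply Finset.sum_le_sum
          intro N hN
          rw [Finset.mem_Ioc] at hN
          exact mul_le_mul_of_nonneg_left ((hN0 N (by omega)).trans (le_abs_self _))
            (by positivity)
      _ = _ := by
          rw [Finset.mul_sum]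
          apply Finset.sum_congr rfl
          intro N _
          ring
  have hXY : X ≤ Y := by
    have : (X:ℝ) ≤ Y := by
      rw [hYr]
      have h1 : (X:ℝ) ≤ R * X + 1 := by nlinarith
      have h2 : (1:ℝ) ≤ C * Xm := by nlinarith
      nlinarith
    exact_mod_cast this
  have hharm : ∑ N ∈ Finset.Ioc X Y, 1 / (N : ℝ) ≤ 2 * Real.log R := by
    refine (harmW X hX1 Y hXY).trans ?_
    have hX0 : (0:ℝ) < X := by linarith
    have h1 : (Y:ℝ) / X ≤ 2 * C * Xm * R := by
      rw [div_le_iff₀ hX0, hYr]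
      have h2 : (R:ℝ) * X + 1 ≤ 2 * (R * X) := by nlinarith
      have h3 : (C:ℝ) * (R * X + 1) * Xm = (C * Xm) * (R * X + 1) := by ring
      have h4 : 2 * (C:ℝ) * Xm * R * X = (C * Xm) * (2 * (R * X)) := by ring
      rw [h3, h4]
      exact mul_le_mul_of_nonneg_left h2 (by positivity)
    have hY0 : (0:ℝ) < Y := by
      have : (X:ℝ) ≤ Y := by exact_mod_cast hXY
      linarith
    have h5 := Real.log_le_log (by positivity) h1
    rw [Real.log_mul (by positivity) (by positivity)] at h5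
    linarith
  have hApos : 0 ≤ A := Finset.sum_nonneg fun x _ => by positivity
  have hAle : B * A ≤ ε / 4 * Real.log R := by
    have h1 : (∑ j ∈ Finset.range J, g j) * A ≤ 8 * |h0| * Real.log R := by
      refine hall.trans ?_
      have := mul_le_mul_of_nonneg_left hharm (show 0 ≤ 4 * |h0| by positivity)
      linarith
    have h2 : 32 * (|h0| + 1) * (B + 1) / ε * A ≤ 8 * |h0| * Real.log R :=
      (mul_le_mul_of_nonneg_right hJ.le hApos).trans h1
    have h3 : 32 * (|h0| + 1) * (B + 1) * A ≤ 8 * |h0| * Real.log R * ε := by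
      have h4 := mul_le_mul_of_nonneg_right h2 hε.le
      have h5 : 32 * (|h0| + 1) * (B + 1) / ε * A * ε = 32 * (|h0| + 1) * (B + 1) * A := by
        field_simp
      linarith
    have h6 : 8 * |h0| * Real.log R * ε ≤ 8 * (|h0| + 1) * Real.log R * ε := by
      have : 0 ≤ Real.log R * ε := by positivity
      nlinarith
    have h7 : 0 < 32 * (|h0| + 1) := by positivity
    have h8 : (32 * (|h0| + 1)) * ((B + 1) * A) ≤ (32 * (|h0| + 1)) * (ε / 4 * Real.log R) := by
      calc (32 * (|h0| + 1)) * ((B + 1) * A) = 32 * (|h0| + 1) * (B + 1) * A := by ring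
        _ ≤ 8 * (|h0| + 1) * Real.log R * ε := h3.trans h6
        _ = _ := by ring
    have h9 := le_of_mul_le_mul_left h8 h7
    nlinarith
  have hsplit : ∀ x ∈ Finset.Ioc X (R * X), |S (C * x)| / x ≤
      ε / 2 * (1 / (x:ℝ)) + if ε / 2 < |S (C * x)| then B * (1 / (x:ℝ)) else 0 := by
    intro x hx
    rw [Finset.mem_Ioc] at hx
    have hx0 : (0:ℝ) < x := by exact_mod_cast (by omega : 0 < x)
    have hSB : |S (C * x)| ≤ B := hB _ (by positivity)
    have h1x : 0 < 1 / (x:ℝ) := by positivity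
    rw [div_eq_mul_one_div]
    split_ifs with hc
    · have := mul_le_mul_of_nonneg_right hSB h1x.le
      have : 0 ≤ ε / 2 * (1 / (x:ℝ)) := by positivity
      linarith
    · push Not at hc
      have := mul_le_mul_of_nonneg_right hc h1x.le
      linarith
  have hRX : X ≤ R * X := Nat.le_mul_of_pos_left X hR1n
  have hfull : ∑ x ∈ Finset.Ioc X (R * X), 1 / (x:ℝ) ≤ Real.log R := by
    have := harmW X hX1 (R * X) hRX
    have hX0 : (X:ℝ) ≠ 0 := by linarith
    rw [show (((R * X : ℕ) : ℝ) / X) = R by push_cast; field_simp] at this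
    exact this
  calc ∑ x ∈ Finset.Ioc X (R * X), |S (C * x)| / x
      ≤ ∑ x ∈ Finset.Ioc X (R * X), (ε / 2 * (1 / (x:ℝ)) +
          if ε / 2 < |S (C * x)| then B * (1 / (x:ℝ)) else 0) := Finset.sum_le_sum hsplit
    _ = ε / 2 * ∑ x ∈ Finset.Ioc X (R * X), 1 / (x:ℝ) + B * A := by
        rw [Finset.sum_add_distrib, ← Finset.mul_sum, ← Finset.sum_filter, ← Finset.mul_sum]
    _ ≤ ε / 2 * Real.log R + ε / 4 * Real.log R :=
        add_le_add (mul_le_mul_of_nonneg_left hfull (by positivity)) hAle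
    _ ≤ ε * Real.log R := by nlinarith

end Pool.Agent.LogG
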